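import Pool.Agent.P.MP_f1a348_lc.AF.Iface

namespace Pool.Agent.P.MP_f1a348_lc.UP.CU.AF

open Matrix Module Pool.Agent.P.MP_f1a348_lc.PG
open scoped commutatorElement

theorem s_COC (p n : ℕ) [Fact p.Prime] (c : CU.TC p n) : S_COC p n := by
  intro s h
  have hENV := c.env
  have hSEC := c.sec
  have hRAD := c.rad
  have hLC := c.lc
  have hLCS := c.lcs
  have hLOW := c.low
  obtain ⟨hclo, hmem, hkey, hWt⟩ := hLC.2 s.ℓ s.a h.lab
  obtain ⟨hlab, hmul, hone, hx, -, -, -, -, halg, hpar⟩ := hLC.1 s.ℓ s.lam h.lab hclo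
  obtain ⟨eZ, efr, -, -, eB, -, -⟩ := hENV
  have lo_eq : ∀ x, s.lo x = lc s.ℓ s.lam (fr s.f x) := fun _ => rfl
  have gm : ∀ g ∈ s.G, g.1 ∈ Env s.G := (eZ s.G).2.1
  have gt : ∀ g ∈ s.G, Tri s.ℓ (fr s.f g.1) := fun g hg => h.tri _ (gm g hg)
  have lo1 : s.lo 1 = 1 := by rw [lo_eq, (efr s.f 1 1).2.2.1, hone]
  have lost : ∀ x, s.lo (st x) = st (s.lo x) := fun x => by
    rw [lo_eq, lo_eq, (efr s.f x x).2.1, (hx _).1]
  have lomul : ∀ x ∈ Env s.G, ∀ y ∈ Env s.G, s.lo (x * y) = s.lo x * s.lo y := fun x hx' y hy => by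
    rw [lo_eq, lo_eq, lo_eq, (efr s.f x y).1, hmul _ _ (h.tri x hx') (h.tri y hy)]
  have hn1 : ∀ g ∈ s.G, g ∈ s.N1 ↔ s.lo g.1 = 1 := fun g hg =>
    ⟨fun e => (hpar s.f g (gt g hg)).2.1 e.2, fun e => ⟨hg, (hpar s.f g (gt g hg)).2.2 e⟩⟩
  have hwt : ∀ w : Frm p n, cmp s.ℓ s.t w ∈ Wt s.ll s.t := fun w => by
    have := cmp_mem (ℓ := s.ℓ) (key s.ℓ s.a) w
    rw [← hWt] at this
    exact this
  have main : ∀ g ∈ s.G, ∀ w : Frm p n, pull1 s.f.1 w ∈ Lowr s.ℓ s.a →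
      pull1 s.f.1 (pull1 g.1 w) ∈ Lowr s.ℓ s.a ∧ cmp s.ℓ s.t (pull1 s.f.1 (pull1 g.1 w)) =
        pull1 (s.lo g.1) (cmp s.ℓ s.t (pull1 s.f.1 w)) := fun g hg w hw => by
    have e : pull1 s.f.1 (pull1 g.1 w) = pull1 (fr s.f g.1) (pull1 s.f.1 w) := by
      rw [← pull1_mul, ← pull1_mul, (efr s.f g.1 g.1).2.2.2.2.2.2]
    obtain ⟨h1, h2⟩ := (hLOW s.ℓ s.a _ _ h.lab (gt g hg)).1 hw
    rw [e]
    refine ⟨h1, h2.trans ?_⟩
    exact ((hLOW s.ℓ s.a _ _ h.lab (gt g hg)).2 (cmp_mem _ _)).symm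
  have kpm : ∀ g ∈ s.G, ∀ k ∈ s.G, ∀ u v, s.Kp g u → s.Kp k v →
      s.Kp (g * k) (pull1 (s.lo k.1) u + v) := by
    rintro g hg k hk _ _ ⟨w, hw, rfl⟩ ⟨v, hv, rfl⟩
    exact ⟨_, h.mul g hg k hk w v hw hv, by
      rw [map_add]; exact congrArg (· + _) (main k hk w (h.low g hg w hw)).2⟩
  have kp1 : s.Kp 1 0 := ⟨0, h.one, map_zero _⟩
  have tot : ∀ g ∈ s.G, ∃ u, s.Kp g u := fun g hg => (h.tot g hg).elim fun w hw => ⟨_, w, hw, rfl⟩
  refine ⟨hlab, hclo, hkey, lo1, fun x hx' => ⟨lost x, ?_, lomul x hx'⟩, fun Y hY => ?_,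
    fun g hg => ⟨(hpar s.f g (gt g hg)).1, hn1 g hg, tot g hg⟩, kp1, hwt _, fun g hg k hk => ?_,
    fun j => ⟨fun g hg => mem_KB.1 hg.2 _ (hmem j), fun g hg => ?_⟩, ?_, fun Z hZ hP g hg => ?_,
    fun hs => ?_⟩
  · rw [lo_eq, (hx _).2.2.1, ((efr s.f x x).2.2.2.2.2.1 ((eZ s.G).1.dg x hx')).2]
  · have hY' : Env Y ≤ Env s.G := (eZ Y).2.2.1 _ hY
    have ha : Alg s.ll (s.le Y) := halg (Env Y) s.f (eZ Y).1 fun x hx' => h.tri x (hY' hx')
    refine ⟨ha, (eB _ _ hlab ha).1, fun Y' hY'' => Submodule.map_mono ((eZ Y').2.2.1 _ hY''),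
      fun g hg => Submodule.mem_map_of_mem ((eZ Y).2.1 g hg),
      fun A hA => Submodule.map_le_iff_le_comap.2 (((eZ Y).2.2.2.2.2.2 _).2 hA), ?_⟩
    rintro k hk hn _ ⟨y, hy, rfl⟩
    have h1 : Env Y ≤ (Env Y).comap (cj k.1) :=
      ((eZ Y).2.2.2.2.2.2 _).2 fun g hg => (eZ Y).2.1 _ (hn g hg)
    refine ⟨cj k.1 y, h1 hy, ?_⟩
    rw [cj_apply, cj_apply, lomul _ ((eZ s.G).1.mul _ (gm k hk) _ (hY' hy)) _
      ((eZ s.G).1.star _ (gm k hk)), lomul _ (gm k hk) _ (hY' hy), lost]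
  · have hk' : k ∈ s.G := hk.1
    have hi := s.G.inv_mem hg
    refine (hn1 _ (mul_mem (mul_mem hg hk') hi)).2 ?_
    rw [val_mul, lomul _ (gm _ (mul_mem hg hk')) _ (gm _ hi), val_mul, lomul _ (gm _ hg) _ (gm _ hk'),
      (hn1 k hk').1 hk, mul_one, ← lomul _ (gm _ hg) _ (gm _ hi), ← val_mul, mul_inv_cancel, val_one,
      lo1]
  · exact (hSEC.1 s.f s.ℓ (s.a j) h.lab).2.2.2.2.1 g.1 (gt g hg)
  · exact ⟨sg (fun g => g ∈ s.G ∧ s.Kp g 0) ⟨one_mem _, kp1⟩ fun a b ha hb =>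
      ⟨mul_mem ha.1 hb.1, by simpa using kpm a ha.1 b hb.1 _ _ ha.2 hb.2⟩, fun _ => Iff.rfl⟩
  · have add : ∀ a ∈ s.N1, ∀ b ∈ s.N1, ∀ u v, s.Kp a u → s.Kp b v → s.Kp (a * b) (u + v) :=
      fun a ha b hb u v hu hv => by
        have := kpm a ha.1 b hb.1 u v hu hv
        rwa [(hn1 b hb.1).1 hb, pull1_one] at this
    choose! u hu using tot
    have s0 : ∀ w ∈ s.S0, s.Kp 1 w := fun w hw => by
      induction hw using Submodule.span_induction with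
      | mem x hx => exact hx
      | zero => exact kp1
      | add x y _ _ a b => simpa using add 1 (one_mem _) 1 (one_mem _) _ _ a b
      | smul e x _ a =>
        rw [← ZMod.natCast_zmod_val e, Nat.cast_smul_eq_nsmul]
        induction e.val with
        | zero => simpa using kp1
        | succ k ih => rw [succ_nsmul]; simpa using add 1 (one_mem _) 1 (one_mem _) _ _ ih a
    have key : u g ∈ s.S0 := by
      by_contra hn
      obtain ⟨φ, h1, h2⟩ := Submodule.exists_dual_map_eq_bot_of_notMem hn inferInstance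
      have h3 : ∀ w, s.Kp 1 w → φ w = 0 := fun w hw =>
        h2.le (Submodule.mem_map_of_mem (show w ∈ s.S0 from Submodule.subset_span hw))
      refine h1 (hP (fun g => φ (u g)) (fun a ha b hb => ?_) g hg)
      have m := mul_mem (hZ ha) (hZ hb)
      have e1 := add _ m _ (inv_mem m) _ _ (hu _ m.1) (hu _ (inv_mem m).1)
      have e2 := add _ m _ (inv_mem m) _ _
        (add a (hZ ha) b (hZ hb) _ _ (hu a (hZ ha).1) (hu b (hZ hb).1)) (hu _ (inv_mem m).1)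
      rw [mul_inv_cancel] at e1 e2
      have e3 := (h3 _ e1).trans (h3 _ e2).symm
      rw [map_add, map_add, map_add] at e3
      exact add_right_cancel e3
    simpa using add g (hZ hg) 1 (one_mem _) _ _ (hu g (hZ hg).1) (s0 _ (neg_mem key))
  · have h1 := (hLCS s.ℓ s.lam _ ((hRAD _ s.f s.ℓ (eZ s.G).1 h.lab h.tri).2.2 hs).1 hclo).1
    have e : (gB (Env s.G) s.f s.ℓ).map (lc s.ℓ s.lam) = s.le s.G := by
      rw [gB, ← Submodule.map_comp]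
      congr 1
      exact LinearMap.ext fun x => (hx (fr s.f x)).2.2.2.1
    rwa [e] at h1

end Pool.Agent.P.MP_f1a348_lc.UP.CU.AF
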