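import Pool.Agent.P.MP_f1a348_lc.AF.Iface

namespace Pool.Agent.P.MP_f1a348_lc.UP.CU.AF

open Matrix Module Pool.Agent.P.MP_f1a348_lc.PG

namespace COKz

theorem sp_of {p : ℕ} [Fact p.Prime] {M : Type} [AddCommGroup M] [Module (ZMod p) M] {P : M → Prop}
    (h0 : P 0) (ha : ∀ u v, P u → P v → P (u + v)) {w : M} :
    w ∈ Submodule.span (ZMod p) {u | P u} ↔ P w := by
  refine ⟨fun hw => ?_, fun hw => Submodule.subset_span hw⟩
  induction hw using Submodule.span_induction with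
  | mem x hx => exact hx
  | zero => exact h0
  | add x y _ _ a b => exact ha _ _ a b
  | smul c x _ a =>
    rw [← ZMod.natCast_zmod_val c, Nat.cast_smul_eq_nsmul]
    induction c.val with
    | zero => simpa using h0
    | succ k ih => rw [succ_nsmul]; exact ha _ _ ih a

end COKz

open COKz

theorem s_COK (p n : ℕ) [Fact p.Prime] (c : CU.TC p n) (hCOC : S_COC p n) : S_COK p n := by
  intro s h
  obtain ⟨hlab, -, -, lo1, lox, loY, log, kp1, -⟩ := hCOC s h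
  obtain ⟨-, -, -, hWt⟩ := c.lc.2 s.ℓ s.a h.lab
  obtain ⟨eZ, efr, -⟩ := c.env
  have gm : ∀ g ∈ s.G, g.1 ∈ Env s.G := (eZ s.G).2.1
  have gt : ∀ g ∈ s.G, Tri s.ℓ (fr s.f g.1) := fun g hg => h.tri _ (gm g hg)
  have hw0 : ∀ w, s.dl w ∈ Wt s.ℓ (key s.ℓ s.a) := fun w => cmp_mem _ _
  have hwt : ∀ w, s.dl w ∈ Wt s.ll s.t := fun w => by
    have := hw0 w
    rw [← hWt] at this
    exact this
  have lg : ∀ g ∈ s.G, ∀ w, pull1 (s.lo g.1) (s.dl w) = pull1 (gr s.ℓ (fr s.f g.1)) (s.dl w) :=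
    fun g hg w => (c.low s.ℓ s.a _ _ h.lab (gt g hg)).2 (hw0 w)
  have main : ∀ g ∈ s.G, ∀ w, pull1 s.f.1 w ∈ Lowr s.ℓ s.a →
      pull1 s.f.1 (pull1 g.1 w) ∈ Lowr s.ℓ s.a ∧ s.dl (pull1 g.1 w) = pull1 (s.lo g.1) (s.dl w) :=
    fun g hg w hw => by
    have e : pull1 s.f.1 (pull1 g.1 w) = pull1 (fr s.f g.1) (pull1 s.f.1 w) := by
      rw [← pull1_mul, ← pull1_mul, (efr s.f g.1 g.1).2.2.2.2.2.2]
    obtain ⟨h1, h2⟩ := (c.low s.ℓ s.a _ _ h.lab (gt g hg)).1 hw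
    rw [lg g hg]
    exact ⟨e ▸ h1, (congrArg (cmp s.ℓ s.t) e).trans h2⟩
  have inv : ∀ g ∈ s.G, ∀ w, s.K g w → s.K g⁻¹ (-pull1 (st g.1) w) := fun g hg w hw => by
    obtain ⟨v, hv⟩ := h.tot _ (inv_mem hg)
    have a := h.mul g hg _ (inv_mem hg) _ _ hw hv
    rw [mul_inv_cancel] at a
    have k := fun w => sp_of (p := p) (w := w) h.one fun u v a b => by
      simpa [pull1_one] using h.mul 1 (one_mem _) 1 (one_mem _) u v a b
    simpa [pull1_one] using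
      h.mul _ (inv_mem hg) 1 (one_mem _) _ _ hv ((k _).1 (neg_mem ((k _).2 a)))
  have kpm : ∀ g ∈ s.G, ∀ k ∈ s.G, ∀ u v, s.Kp g u → s.Kp k v →
      s.Kp (g * k) (pull1 (s.lo k.1) u + v) := by
    rintro g hg k hk _ _ ⟨w, hw, rfl⟩ ⟨v, hv, rfl⟩
    exact ⟨_, h.mul g hg k hk w v hw hv, by rw [map_add, (main k hk w (h.low g hg w hw)).2]⟩
  have kpi : ∀ g ∈ s.G, ∀ u, s.Kp g u → s.Kp g⁻¹ (-pull1 (st (s.lo g.1)) u) := by
    rintro g hg _ ⟨w, hw, rfl⟩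
    refine ⟨_, inv g hg w hw, ?_⟩
    rw [map_neg, ← (lox _ (gm g hg)).1]
    exact congrArg _ (main _ (inv_mem hg) w (h.low g hg w hw)).2
  have s0 : ∀ u, s.Kp 1 u ↔ u ∈ s.S0 := fun u => (sp_of kp1 fun u v a b => by
    simpa [lo1, pull1_one] using kpm 1 (one_mem _) 1 (one_mem _) u v a b).symm
  have un : ∀ g ∈ s.G, Un (s.lo g.1) := fun g hg => (log g hg).1.2.1
  have dif : ∀ g ∈ s.G, ∀ u, s.Kp g u → ∀ v, s.Kp g v ↔ v - u ∈ s.S0 := fun g hg u hu v => by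
    refine ⟨fun hv => ?_, fun e => ?_⟩
    · have := kpm _ (inv_mem hg) g hg _ _ (kpi g hg u hu) hv
      rwa [inv_mul_cancel, map_neg, (un g hg).pull1_st', neg_add_eq_sub, s0] at this
    · simpa [lo1, pull1_one] using kpm g hg 1 (one_mem _) _ _ hu ((s0 _).2 e)
  have grp : ∀ Y, Y ≤ s.G → Grp (s.li Y) := fun Y hY =>
    ⟨⟨1, one_mem _, lo1⟩, by
      rintro _ ⟨a, ha, rfl⟩ _ ⟨b, hb, rfl⟩
      exact ⟨a * b, mul_mem ha hb, (lox _ (gm a (hY ha))).2.2 _ (gm b (hY hb))⟩,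
    by rintro _ ⟨a, ha, rfl⟩; exact un a (hY ha),
    by rintro _ ⟨a, ha, rfl⟩; exact ⟨a⁻¹, inv_mem ha, (lox _ (gm a (hY ha))).1⟩⟩
  refine ⟨hwt, main, inv, fun x hx => ⟨?_, ?_, fun y hy => ⟨?_, ?_⟩, fun y => ?_⟩, s0,
    fun g hg u hu => ⟨?_, dif g hg u hu, kpi g hg u hu, fun k hk v => kpm g hg k hk u v hu⟩,
    fun g hg u hu => ?_, fun Y hY => ⟨kp1, fun g hg k hk u v hu hv => ?_,
      fun g hg => (log g (hY hg)).2.2, ?_⟩, fun Y hY => ⟨grp Y hY, le_antisymm ?_ ?_⟩,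
    ?_, ⟨1, one_mem _, lo1, kp1⟩, ?_, ?_, ?_⟩
  · rw [St.tg, map_add]
    exact add_mem (main _ hx.1 _ h.low').1 (h.low _ hx.1 _ hx.2)
  · rw [St.tg, map_add, (main _ hx.1 _ h.low').2]
  · exact ⟨mul_mem hx.1 hy.1, h.mul _ hx.1 _ hy.1 _ _ hx.2 hy.2⟩
  · refine ⟨_, h.mul _ (inv_mem hx.1) _ hy.1 _ _ (inv _ hx.1 _ hx.2) hy.2, Prod.ext ?_ ?_⟩
    · exact mul_inv_cancel_left _ _
    · simp [pam, pull1_mul]
  · simp only [St.tg, pam, val_mul, pull1_mul, map_add, add_assoc]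
  · obtain ⟨w, -, rfl⟩ := hu
    exact hwt w
  · obtain ⟨v, hv⟩ := (log g hg).2.2
    have := kpm 1 (one_mem _) g hg _ _ ((s0 u).2 hu) hv
    rw [one_mul, dif g hg v hv] at this
    simpa using this
  · have := kpm g (hY hg) k (hY hk) u v hu hv
    obtain ⟨w, -, rfl⟩ := hu
    rwa [lg k (hY hk)] at this
  · rintro g - _ ⟨w, -, rfl⟩
    exact hw0 w
  · exact Submodule.span_le.2 (by rintro _ ⟨a, ha, rfl⟩; exact (loY Y hY).2.2.2.1 a ha)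
  · exact (loY Y hY).2.2.2.2.1 _ fun g hg => Submodule.subset_span ⟨g, hg, rfl⟩
  · rintro _ _ ⟨g, hg, rfl, w, -, rfl⟩
    exact ⟨⟨g, hg, rfl⟩, hwt w⟩
  · rintro _ u _ v ⟨g, hg, rfl, hu⟩ ⟨k, hk, rfl, hv⟩
    exact ⟨g * k, mul_mem hg hk, (lox _ (gm g hg)).2.2 _ (gm k hk), kpm g hg k hk u v hu hv⟩
  · rintro _ u ⟨g, hg, rfl, hu⟩
    exact ⟨g⁻¹, inv_mem hg, (lox _ (gm g hg)).1, kpi g hg u hu⟩
  · rintro _ ⟨g, hg, rfl⟩
    obtain ⟨v, hv⟩ := (log g hg).2.2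
    exact ⟨v, g, hg, rfl, hv⟩

end Pool.Agent.P.MP_f1a348_lc.UP.CU.AF
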