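import Pool.Agent.P.MP_f1a348_lc.AF.Iface

/-!
Project AF: conjugation, commutators of isometries, groups over the elementary group.
-/

namespace Pool.Agent.P.MP_f1a348_lc.UP.CU.AF

open Matrix Module Pool.Agent.P.MP_f1a348_lc.PG
open Pool.Agent.P.MP_f1a348_lc.CE (QS QY UQ EU LTY Geo)
open scoped commutatorElement

namespace CONJz
variable {p n : ℕ} [Fact p.Prime]

theorem geo (b : TB p n) (e : TE p n) {X : SG p n} {f : GG p n} {ℓ : Ix n → ℕ} (hX : Stable X)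
    (h : CF (Env X) f ℓ) :
    Geo ℓ (gB (Env X) f ℓ) (QX f ℓ X) ∧ ∀ d ≤ 20000, Big ℓ (gB (Env X) f ℓ) d := by
  have s := ((b.rad _ f ℓ (b.env.1 X).1 h.lab h.tri).2.2 h).1
  have g := b.gi X f ℓ h.lab h.tri
  exact ⟨(e.adm ℓ _ _ s (fun y hy => (g.2.1 y hy).1) g.2.2.1).1,
    fun d hd => Giant.big' s ((b.stcf.1 X f ℓ h).1 hX).2 hd⟩

omit [Fact p.Prime] in
theorem gi_mono {X Y : SG p n} (h : Y ≤ X) (f : GG p n) (ℓ : Ix n → ℕ) : gi f ℓ Y ⊆ gi f ℓ X :=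
  fun _ ⟨x, hx, e⟩ => ⟨x, h hx, e⟩

theorem img (b : TB p n) {X X' : SG p n} {h : GG p n} (hc : ∀ x, x ∈ X' ↔ h⁻¹ * x * h ∈ X)
    (P : Mat p n → Prop) : (∃ x ∈ X', P (fr h x.1)) ↔ ∃ x ∈ X, P x.1 :=
  ⟨fun ⟨x, hx, e⟩ => ⟨_, (hc x).1 hx, by rwa [b.env.2.2.1]⟩, fun ⟨x, hx, e⟩ =>
    ⟨h * x * h⁻¹, (hc _).2 (by simpa [mul_assoc] using hx), by
      rw [← b.env.2.2.1]
      simpa only [mul_assoc, inv_mul_cancel, mul_one, inv_mul_cancel_left] using e⟩⟩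

theorem env_map (b : TB p n) {X X' : SG p n} {h : GG p n} (hc : ∀ x, x ∈ X' ↔ h⁻¹ * x * h ∈ X) :
    (Env X').map (fr h) = Env X := by
  rw [Env, Env, Submodule.map_span]
  congr 1
  ext z
  refine Iff.trans ?_ (img b hc fun y => y = z)
  exact ⟨fun ⟨_, ⟨g, hg, e⟩, e'⟩ => ⟨g, hg, e ▸ e'⟩, fun ⟨g, hg, e⟩ => ⟨_, ⟨g, hg, rfl⟩, e⟩⟩

theorem same (b : TB p n) {X X' : SG p n} {h : GG p n} (hc : ∀ x, x ∈ X' ↔ h⁻¹ * x * h ∈ X)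
    (f : GG p n) (ℓ : Ix n → ℕ) : gB (Env X') (h * f) ℓ = gB (Env X) f ℓ ∧
      gi (h * f) ℓ X' = gi f ℓ X ∧ (CF (Env X') (h * f) ℓ ↔ CF (Env X) f ℓ) := by
  have e0 : ∀ x, fr (h * f) x = fr f (fr h x) := fun x => (b.env.2.1 h x x).2.2.2.2.1 f
  have e1 : gB (Env X') (h * f) ℓ = gB (Env X) f ℓ := by
    rw [gB, gB, ← env_map b hc, ← Submodule.map_comp]
    congr 1
    exact LinearMap.ext fun x => congrArg (gr ℓ) (e0 x)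
  have e2 : TriR (Env X') (h * f) ℓ ↔ TriR (Env X) f ℓ := by
    rw [← env_map b hc]
    exact ⟨fun t _ ⟨x, hx, e⟩ => e ▸ e0 x ▸ t x hx, fun t x hx => e0 x ▸ t _ ⟨x, hx, rfl⟩⟩
  refine ⟨e1, Set.ext fun z => ?_, fun c => ⟨c.lab, e2.1 c.tri, e1 ▸ c.sim⟩,
    fun c => ⟨c.lab, e2.2 c.tri, e1 ▸ c.sim⟩⟩
  simp only [gi, Set.mem_ofPred_eq, e0]
  exact img b hc fun y => gr ℓ (fr f y) = z

end CONJz

theorem s_CONJ (p n : ℕ) [Fact p.Prime] (b : TB p n) : S_CONJ p n := by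
  intro X X' h hc hS hF
  refine ⟨?_, fun f ℓ c z hz => ?_⟩
  · have sa := (b.env.1 X).1
    obtain ⟨f, ℓ, -, c⟩ := (b.cfx (Env X) 1 (l0 n) lab_l0 (b.env.2.2.2.1 _ sa).2.2.2).2.2 sa
    obtain ⟨e1, -, e3⟩ := CONJz.same b hc f ℓ
    refine (b.stcf.1 X' (h * f) ℓ (e3.2 c)).2 ⟨fun ψ hψ a ha => ?_,
      e1 ▸ ((b.stcf.1 X f ℓ c).1 hS).2⟩
    have k : ∀ x ∈ X, h * x * h⁻¹ ∈ X' := fun x hx => (hc _).2 (by simpa [mul_assoc] using hx)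
    have := hS.1 (fun x => ψ (h * x * h⁻¹)) (fun x hx y hy => by
      rw [← hψ _ (k x hx) _ (k y hy)]
      simp only [mul_assoc, inv_mul_cancel_left]) _ ((hc a).1 ha)
    simpa only [mul_assoc, mul_inv_cancel, mul_one, mul_inv_cancel_left] using this
  · obtain ⟨f, rfl⟩ : ∃ g, f = h * g := ⟨h⁻¹ * f, by simp⟩
    obtain ⟨e1, e2, e3⟩ := CONJz.same b hc f ℓ
    rw [EX, QX, e1, e2] at hz
    exact e2 ▸ hF f ℓ (e3.1 c) z hz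

theorem s_CMX (p n : ℕ) [Fact p.Prime] (b : TB p n) (e : TE p n) : S_CMX p n := by
  intro X N Y f ℓ hS hF c hY hN u v hu hv
  obtain ⟨g1, g2⟩ := CONJz.geo b e hS c
  have h1 := e.base.1 (gB (Env X) f ℓ) _ _ _ le_rfl (CONJz.gi_mono hY f ℓ)
  exact hN (hF f ℓ c _ (e.abel ℓ _ _ g1 (g2 40 (by norm_num)) u v
    (e.base.2.2.1 _ _ _ _ u le_rfl h1 hu) (e.base.2.2.1 _ _ _ _ v le_rfl h1 hv)))

theorem s_OVF (p n : ℕ) [Fact p.Prime] (b : TB p n) (e : TE p n) (hFULLT : S_FULLT p n) :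
    S_OVF p n := by
  intro Γ Y g ℓ hS c ho
  obtain ⟨o1, o2, -, o4, -⟩ := (b.op (GG p n)).1 Γ
  have hY := o4 Y ho.le hS.1
  have t : TriR (Env (Op p Γ)) g ℓ := fun x hx => ho.tri x ((b.env.1 _).2.2.1 Γ o1 hx)
  have e1 : gB (Env (Op p Γ)) g ℓ = gB (Env Y) g ℓ := by
    refine le_antisymm ?_ (Submodule.map_mono ((b.env.1 Y).2.2.1 _ hY))
    rw [← (b.gi _ g ℓ c.lab t).2.2.1, Submodule.span_le]
    exact fun z hz => (ho.uq z (CONJz.gi_mono o1 g ℓ hz)).1.1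
  have c' : CF (Env (Op p Γ)) g ℓ := ⟨c.lab, t, e1 ▸ c.sim⟩
  obtain ⟨g1, g2⟩ := CONJz.geo b e hS c
  refine ⟨hY, (b.stcf.1 _ g ℓ c').2 ⟨o2, e1 ▸ ((b.stcf.1 Y g ℓ c).1 hS).2⟩,
    hFULLT _ g ℓ c' fun z hz => ?_⟩
  rw [EX, QX, e1] at hz
  exact (b.gi Γ g ℓ c.lab ho.tri).2.2.2.2.2.2.2.2.2.1 Γ le_rfl _ (e.base.2.2.2.2.1 ℓ _ _ g1).1
    (e.perf ℓ _ _ g1 (g2 20 (by norm_num))).2.2 ho.eu
    (e.base.2.2.2.1 _ _ _ (e.base.2.2.2.2.2.2 _ _ _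
      fun y hy => ho.uq y (CONJz.gi_mono o1 g ℓ hy)) hz)

end Pool.Agent.P.MP_f1a348_lc.UP.CU.AF
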