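import Pool.Agent.P.MP_f1a348_lc.AF.Iface
import Pool.Agent.P.MP_f1a348_lc.CE.Base

namespace Pool.Agent.P.MP_f1a348_lc.UP.CU.AF

open Matrix Module Pool.Agent.P.MP_f1a348_lc.PG
open Pool.Agent.P.MP_f1a348_lc.CE

theorem s_CEB (p n : ℕ) [Fact p.Prime] : S_CEB p n :=
  ⟨fun _ _ _ _ h h' _ ⟨⟨C, hC, e⟩, i⟩ => ⟨⟨C, fun b hb => hC b (h hb), e⟩, fun y hy => i y (h' hy)⟩,
    fun _ _ _ hl h => ⟨uq_one h, fun _ a _ b => ⟨a.1.mul hl h b.1, fun θ hθ x => by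
      rw [← Matrix.mulVec_mulVec, a.2 θ hθ, b.2 θ hθ]⟩, fun _ a => UQ.un a,
      fun _ a => ⟨a.1.star hl h, fun θ hθ x => by rw [← a.2 θ hθ, a.1.2.1.mulVec_st]⟩⟩,
    fun _ _ _ _ _ h h' a => ⟨a.1.mono h, fun θ hθ => a.2 θ (h' hθ)⟩,
    fun _ _ _ h => eu_anti h, fun _ _ _ G => ⟨grp_eu G, fun _ => eu_uq G⟩,
    fun _ _ z h hz => ⟨h, fun _ hθ => hθ.2 z hz⟩,
    fun _ _ _ h θ hθ => ⟨hθ.1, fun y hy => (h y hy).2 θ hθ⟩⟩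

namespace FULLTz

variable {p n : ℕ} [Fact p.Prime] {ℓ : Ix n → ℕ} {R : Sub p n} {φ ψ : Mat p n →ₗ[ZMod p] Mat p n}

/-- homomorphisms of algebras with adjoint -/
structure Hst (R : Sub p n) (φ : Mat p n →ₗ[ZMod p] Mat p n) : Prop where
  one : φ 1 = 1
  mul : ∀ x ∈ R, ∀ y ∈ R, φ (x * y) = φ x * φ y
  star : ∀ x ∈ R, φ (st x) = st (φ x)

theorem Hst.sgl (h : Hst R φ) {y : Mat p n} (hy : y ∈ R) : φ (sgl y) = sgl (φ y) := by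
  rw [CE.sgl, CE.sgl, map_sub, map_add, h.one, h.star y hy]

theorem itw {ℓ0 : Ix n → ℕ} (hR : Alg ℓ0 R) (h : Hst R φ) (h' : Hst R ψ)
    (hk : ∀ x ∈ R, φ x = 0 ↔ ψ x = 0) (hB : Str ℓ (R.map φ)) (a : Ix n) :
    ∃ D : Mat p n, (∀ r ∈ R, D * ψ r = φ r * D) ∧ (∀ r ∈ R, st D * φ r = ψ r * st D) ∧
      ∀ v ∈ Vb ℓ a, ∃ w, D *ᵥ w = v := by
  have hx : (Pi.single a.rev 1 : Vec p n) ∈ Vb ℓ a.rev := single_mem_Vb rfl 1
  generalize hxe : (Pi.single a.rev 1 : Vec p n) = x at hx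
  have h0 : x ≠ 0 := fun e => by simpa [e] using congrFun hxe a.rev
  obtain ⟨_, ⟨ρ, hρ, rfl⟩, -, h1, -, h2⟩ := proj hB stab_bot hx (by simpa using h0)
  have h3 : ψ ρ ≠ 0 := fun e => h0 (by rw [← h1, (hk ρ hρ).2 e, Matrix.zero_mulVec])
  obtain ⟨u, hu⟩ : ∃ u, ψ ρ *ᵥ u ≠ 0 := by
    by_contra! hc
    exact h3 (mat_ext fun u => by rw [hc, Matrix.zero_mulVec])
  have h4 : ∀ r ∈ R, φ r *ᵥ x = 0 → ψ r *ᵥ (ψ ρ *ᵥ u) = 0 := fun r hr e => by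
    rw [Matrix.mulVec_mulVec, ← h'.mul r hr ρ hρ, (hk _ (hR.mul r hr ρ hρ)).1, Matrix.zero_mulVec]
    refine mat_ext fun v => ?_
    obtain ⟨C, hC, e'⟩ := mem_orb.1 (h2 (mem_im.2 ⟨v, rfl⟩))
    rw [h.mul r hr ρ hρ, ← Matrix.mulVec_mulVec, ← e', ← com_mulVec hC ⟨r, hr, rfl⟩, e,
      Matrix.mulVec_zero, Matrix.zero_mulVec]
  generalize ψ ρ *ᵥ u = x' at hu h4
  have h5 : ∀ v : Vec p n, ∃ r ∈ R, φ r *ᵥ x = pr ℓ a.rev *ᵥ v := fun v => by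
    obtain ⟨_, ⟨r, hr, rfl⟩, e⟩ := hB.sim _ x hx h0 _ (pr_mulVec_mem a.rev v)
    exact ⟨r, hr, e⟩
  choose r hr h5 using h5
  let s := (Pi.basisFun (ZMod p) (Ix n)).constr (ZMod p) fun β => r (Pi.single β 1)
  have s1 : ∀ v, s v ∈ R := fun v => by
    rw [Basis.constr_apply_fintype]
    exact Submodule.sum_mem _ fun β _ => R.smul_mem _ (hr _)
  have s2 : ∀ v, φ (s v) *ᵥ x = pr ℓ a.rev *ᵥ v := fun v =>
    LinearMap.congr_fun ((Pi.basisFun (ZMod p) (Ix n)).ext fun β => by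
      simpa [s, -Matrix.mulVec_single] using h5 _ :
        evx x ∘ₗ φ ∘ₗ s = (pr ℓ a.rev).mulVecLin) v
  obtain ⟨E, hE⟩ : ∃ E : Mat p n, ∀ v, ∀ t ∈ R, φ t *ᵥ x = pr ℓ a.rev *ᵥ v → E *ᵥ v = ψ t *ᵥ x' :=
    ⟨LinearMap.toMatrix' (evx x' ∘ₗ ψ ∘ₗ s), fun v t ht e => by
      have := h4 _ (sub_mem (s1 v) ht) (by rw [map_sub, Matrix.sub_mulVec, s2, e, sub_self])
      rw [map_sub, Matrix.sub_mulVec, sub_eq_zero] at this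
      rw [← this, ← Matrix.toLin'_apply, Matrix.toLin'_toMatrix']; rfl⟩
  have e1 : ∀ t ∈ R, E * φ t = ψ t * E := fun t ht => mat_ext fun v => by
    rw [← Matrix.mulVec_mulVec, ← Matrix.mulVec_mulVec, hE v _ (hr v) (h5 v),
      Matrix.mulVec_mulVec x', ← h'.mul t ht _ (hr v)]
    refine hE _ _ (hR.mul t ht _ (hr v)) ?_
    rw [h.mul t ht _ (hr v), ← Matrix.mulVec_mulVec, h5, com_mulVec (com_pr hB.alg _) ⟨t, ht, rfl⟩]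
  have e2 : ∀ t ∈ R, st E * ψ t = φ t * st E := fun t ht => by
    have := congrArg st (e1 _ (hR.star t ht))
    rw [st_mul, st_mul, h.star t ht, h'.star t ht, st_st, st_st] at this
    exact this.symm
  have e3 : E * pr ℓ a.rev = E := mat_ext fun v => by
    rw [← Matrix.mulVec_mulVec, hE v _ (hr v) (h5 v)]
    exact hE _ _ (hr v) (by rw [h5, Matrix.mulVec_mulVec, pr_mul_pr])
  refine ⟨st E, e2, by simpa using e1, fun v hv => ?_⟩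
  obtain ⟨w, hw⟩ : ∃ w, st E *ᵥ w ≠ 0 := by
    by_contra! hc
    have := hE x 1 hR.one (by rw [h.one, Matrix.one_mulVec, mem_Vb_iff.1 hx])
    rw [(st_eq_zero (g := E)).1 (mat_ext fun u => by rw [hc, Matrix.zero_mulVec]), h'.one,
      Matrix.zero_mulVec, Matrix.one_mulVec] at this
    exact hu this.symm
  have hm : st E *ᵥ w ∈ Vb ℓ a := by
    rw [← e3, st_mul, st_pr hB.lab, Fin.rev_rev, ← Matrix.mulVec_mulVec]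
    exact pr_mulVec_mem _ _
  obtain ⟨_, ⟨t, ht, rfl⟩, e⟩ := hB.sim _ _ hm hw v hv
  exact ⟨ψ t *ᵥ w, by rw [Matrix.mulVec_mulVec, e2 t ht, ← Matrix.mulVec_mulVec, e]⟩

/-- elementary generators correspond under isomorphisms -/
theorem trs {ℓ0 : Ix n → ℕ} (hR : Alg ℓ0 R) (h : Hst R φ) (h' : Hst R ψ)
    (hk : ∀ x ∈ R, φ x = 0 ↔ ψ x = 0) (hB : Str ℓ (R.map φ)) {Y : Set (Mat p n)}
    (hY : ∀ y ∈ Y, y ∈ R) {y : Mat p n} (hy : y ∈ R)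
    (H : Sieg (R.map ψ) (QY (R.map ψ) (ψ '' Y)) (ψ y)) :
    Sieg (R.map φ) (QY (R.map φ) (φ '' Y)) (φ y) := by
  have k : ∀ a ∈ R, ∀ b ∈ R, ψ a * ψ b = 0 → φ a * φ b = 0 := fun a ha b hb e => by
    rw [← h.mul a ha b hb, (hk _ (hR.mul a ha b hb)).2 (by rw [h'.mul a ha b hb, e])]
  have hs := hR.star y hy
  have k1 : ∀ z ∈ R, st (φ z) * φ z = 0 → (∀ x, Sing (QY (R.map ψ) (ψ '' Y)) (ψ z *ᵥ x)) →
      ∀ x, Sing (QY (R.map φ) (φ '' Y)) (φ z *ᵥ x) := by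
    rintro z hz e hi x θ ⟨⟨C, hC, hp⟩, hθ⟩
    rw [eq_sum_pr hB.lab x]
    refine Finset.sum_induction _ (fun v => θ (φ z *ᵥ v) = 0) (fun v w a b => ?_)
      (by rw [Matrix.mulVec_zero, hp.zero]) fun a _ => ?_
    · rw [Matrix.mulVec_add, hp, a, b, com_mulVec hC ⟨z, hz, rfl⟩, ip_mulVec, Matrix.mulVec_mulVec,
        e, Matrix.zero_mulVec, ip_zero_right, add_zero, add_zero]
    obtain ⟨D, d1, d2, d3⟩ := itw hR h h' hk hB a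
    obtain ⟨w, hw⟩ := d3 _ (pr_mulVec_mem a x)
    rw [← hw, Matrix.mulVec_mulVec, ← d1 z hz, ← Matrix.mulVec_mulVec]
    refine hi w (fun x => θ (D *ᵥ x)) ⟨⟨_, ?_, hp.comp D⟩, ?_⟩
    · rintro _ ⟨t, ht, rfl⟩
      rw [mul_assoc, d1 t ht, ← mul_assoc, mul_assoc _ C, hC _ ⟨t, ht, rfl⟩, ← mul_assoc, d2 t ht]
      simp only [mul_assoc]
    · rintro _ ⟨t, ht, rfl⟩ v
      simp only [Matrix.mulVec_mulVec, d1 t (hY t ht)]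
      rw [← Matrix.mulVec_mulVec, hθ _ ⟨t, ht, rfl⟩]
  have sn : st (φ y) * φ y = 0 := by
    rw [← h.star y hy]; exact k _ hs y hy (by rw [h'.star y hy, H.sn])
  have ns : φ y * st (φ y) = 0 := by
    rw [← h.star y hy]; exact k y hy _ hs (by rw [h'.star y hy, H.ns])
  refine ⟨⟨y, hy, rfl⟩, k y hy y hy H.nn, sn, ns, k1 y hy sn H.im, ?_⟩
  rw [← h.star y hy]
  exact k1 _ hs (by rw [h.star y hy, st_st, ns]) (by rw [h'.star y hy]; exact H.ims)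

end FULLTz

open FULLTz

theorem s_FULLT (p n : ℕ) [Fact p.Prime] (b : TB p n) : S_FULLT p n := by
  intro X f ℓ hc hf g ℓ' hc' z hz
  have hR := (b.env.1 X).1
  have hm : ∀ f ℓ, CF (Env X) f ℓ → Hst (Env X) (gr ℓ ∘ₗ fr f) ∧
      (∀ x ∈ Env X, (gr ℓ ∘ₗ fr f) x = 0 ↔ x ∈ Rad (Env X)) ∧
      gi f ℓ X = (gr ℓ ∘ₗ fr f) '' {x | ∃ g ∈ X, g.1 = x} := fun f ℓ hc => by
    obtain ⟨-, -, -, -, g5, g6, g7, -⟩ := b.gi X f ℓ hc.lab hc.tri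
    obtain ⟨-, r2, r3⟩ := b.rad _ f ℓ hR hc.lab hc.tri
    refine ⟨⟨g7, g5, fun x _ => g6 x⟩, fun x hx => ⟨r2 x hx, (r3 hc).2 x⟩, Set.ext fun z => ?_⟩
    exact ⟨fun ⟨x, hx, e⟩ => ⟨_, ⟨x, hx, rfl⟩, e⟩, fun ⟨_, ⟨x, hx, rfl⟩, e⟩ => ⟨x, hx, e⟩⟩
  obtain ⟨a1, a2, a3⟩ := hm f ℓ hc
  obtain ⟨b1, b2, b3⟩ := hm g ℓ' hc'
  have hk : ∀ x ∈ Env X, (gr ℓ ∘ₗ fr f) x = 0 ↔ (gr ℓ' ∘ₗ fr g) x = 0 := fun x hx => by
    rw [a2 x hx, b2 x hx]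
  refine eu_ind (P := fun z => z ∈ gi g ℓ' X) (b.gi X g ℓ' hc'.lab hc'.tri).1.one
    (fun N z hN _ ih => (b.gi X g ℓ' hc'.lab hc'.tri).1.mul _ ?_ _ ih) hz
  obtain ⟨y, hy, rfl⟩ := hN.mem
  rw [QX, b3] at hN
  have := trs hR a1 b1 hk ((b.rad _ f ℓ hR hc.lab hc.tri).2.2 hc).1
    (fun _ h => Submodule.subset_span h) hy hN
  rw [← a3] at this
  obtain ⟨x, hx, e⟩ := hf _ this.eu
  have hs : sgl y ∈ Env X := sub_mem (add_mem hR.one hy) (hR.star y hy)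
  have := (hk _ (sub_mem ((b.env.1 X).2.1 x hx) hs)).1 (by
    rw [map_sub, a1.sgl hy, sub_eq_zero]; exact e)
  rw [map_sub, b1.sgl hy, sub_eq_zero] at this
  exact ⟨x, hx, this⟩

theorem s_LOCE (p n : ℕ) [Fact p.Prime] (c : CU.TC p n) : S_LOCE p n := by
  have two : ∀ ℓ S (B : Sub p n) (Y : Set (Mat p n)), Str ℓ B → Clo ℓ S → (∀ y ∈ Y, U1 B y) →
      (∀ α ∈ S, ∀ β, Cb ℓ B α β ≠ ⊥ → β ∈ S) → ∀ N,
      Sieg (B.map (lc ℓ S)) (QY (B.map (lc ℓ S)) (lc ℓ S '' Y)) N → Sieg B (QY B Y) N := by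
    intro ℓ S B Y hB hS hY hc N H
    obtain ⟨l1, -, -, -, l5⟩ := c.lcs ℓ S B hB hS
    obtain ⟨e1, e2⟩ := l5 hc
    have ee : (eS S : Mat p n) * eS S = eS S := by
      simp only [eS, Matrix.diagonal_mul_diagonal]; congr 1; funext β; split_ifs <;> simp
    have ec : (eS S : Mat p n) ∈ Com B := fun b hb => (hB.alg.dg b hb).comm_diagonal fun α β e => by
      rw [propext (⟨hS.blk _ _ e, hS.blk _ _ e.symm⟩ : α ∈ S ↔ β ∈ S)]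
    have e3 : ∀ y ∈ B, eS S * lc ℓ S y = y * eS S := fun y hy => by
      show eS S * (eS S * gr ℓ y * eS S + y (c0 n) (c0 n) • (1 - eS S)) = _
      rw [(hB.alg.dg y hy).gr_eq, mul_add, mul_smul_comm, mul_sub, mul_one, ee, sub_self, smul_zero,
        add_zero, ← mul_assoc, ← mul_assoc, ee, ec y hy, mul_assoc, ee]
    have k : ∀ M ∈ B.map (lc ℓ S), M * M = 0 →
        (∀ x, Sing (QY (B.map (lc ℓ S)) (lc ℓ S '' Y)) (M *ᵥ x)) →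
        ∀ x, Sing (QY B Y) (M *ᵥ x) := by
      rintro M hM e hi x θ ⟨⟨C, hC, hp⟩, hθ⟩
      have m1 : eS S * M = M := by
        have := ((l1.alg.dg M hM).tri l1.lab).mul_c0 (h := M)
        rw [e, Matrix.zero_apply, eq_comm, mul_self_eq_zero] at this
        obtain ⟨y, hy, rfl⟩ := hM
        rw [((c.lc.1 ℓ S hB.lab hS).2.2.2.1 y).2.2.1] at this
        rw [e3 y hy]
        show _ = eS S * gr ℓ y * eS S + y (c0 n) (c0 n) • (1 - eS S)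
        rw [this, zero_smul, add_zero, (hB.alg.dg y hy).gr_eq, ec y hy, mul_assoc, ee]
      rw [← m1, ← Matrix.mulVec_mulVec]
      refine hi x (fun x => θ (eS S *ᵥ x)) ⟨⟨_, fun b hb =>
        com_mul (com_mul (com_st hB.alg ec) hC) ec b (e2 hb), hp.comp _⟩, ?_⟩
      rintro _ ⟨t, ht, rfl⟩ v
      simp only [Matrix.mulVec_mulVec, e3 t (hY t ht).1]
      rw [← Matrix.mulVec_mulVec, hθ t ht]
    exact ⟨e2 H.mem, H.nn, H.sn, H.ns, k N H.mem H.nn H.im,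
      k _ (l1.alg.star N H.mem) H.ss H.ims⟩
  intro ℓ S B Y hB hS hG hY _
  refine ⟨fun hf z hz => ?_, fun hc => Submonoid.closure_mono fun _ ⟨N, hN, e⟩ =>
    ⟨N, two ℓ S B Y hB hS hY hc N hN, e⟩⟩
  have hm : ∀ S, Clo ℓ S → Hst B (lc ℓ S) := fun S hS => by
    obtain ⟨-, l2, l3, l4, -⟩ := c.lc.1 ℓ S hB.lab hS
    exact ⟨l3, fun x hx y hy => l2 x y ((hB.alg.dg x hx).tri hB.lab) ((hB.alg.dg y hy).tri hB.lab),
      fun x _ => (l4 x).1⟩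
  have hz0 : ∀ S, Clo ℓ S → ∀ x ∈ B,
      lc ℓ S x = 0 ↔ x (c0 n) (c0 n) = 0 ∧ ∀ α ∈ S, x * pr ℓ α = 0 := fun S hS x hx => by
    obtain ⟨-, -, l3, -, l5, -⟩ := (c.lc.1 ℓ S hB.lab hS).2.2.2.1 x
    rw [(hB.alg.dg x hx).gr_eq] at l5
    refine ⟨fun e => ⟨by rw [← l3, e]; rfl, fun α hα => by rw [← l5 α hα, e, zero_mul]⟩,
      fun ⟨e, e'⟩ => ?_⟩
    show eS S * gr ℓ x * eS S + x (c0 n) (c0 n) • (1 - eS S) = 0
    rw [e, zero_smul, add_zero, (hB.alg.dg x hx).gr_eq, mul_assoc]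
    have : x * eS S = 0 := by
      ext α β
      rw [eS, Matrix.mul_diagonal]
      split_ifs with h
      · simpa [mul_pr_apply] using congrFun (congrFun (e' β h) α) β
      · simp
    rw [this, mul_zero]
  have hT : Clo ℓ {γ | ∃ α ∈ S, Cb ℓ B α γ ≠ ⊥} :=
    ⟨fun _ _ e ⟨α, h, h'⟩ => ⟨α, h, by rwa [← Cb_congr rfl e]⟩,
      fun _ ⟨α, h, h'⟩ => ⟨_, hS.rev α h, cb_symm hB (cb_rev hB h')⟩⟩
  have hT' : ∀ α ∈ {γ | ∃ α ∈ S, Cb ℓ B α γ ≠ ⊥}, ∀ β, Cb ℓ B α β ≠ ⊥ →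
      β ∈ {γ | ∃ α ∈ S, Cb ℓ B α γ ≠ ⊥} := fun _ ⟨α, h, h'⟩ β e => ⟨α, h, cb_trans hB h' e⟩
  have hk : ∀ x ∈ B, lc ℓ {γ | ∃ α ∈ S, Cb ℓ B α γ ≠ ⊥} x = 0 ↔ lc ℓ S x = 0 := fun x hx => by
    rw [hz0 _ hT x hx, hz0 _ hS x hx]
    refine and_congr_right fun _ => ⟨fun h α hα => h α ⟨α, hα, cb_refl hB.alg α⟩, ?_⟩
    rintro h γ ⟨α, hα, e⟩
    obtain ⟨C, hC, h0⟩ := exists_cb_ne e
    obtain ⟨D, hD, -, e'⟩ := schur hB hC h0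
    rw [← e', ← mul_assoc, ← hD.1 x hx, ← cb_left hC, mul_assoc, ← mul_assoc x, h α hα, zero_mul,
      mul_zero]
  generalize {γ | ∃ α ∈ S, Cb ℓ B α γ ≠ ⊥} = T at hT hT' hk
  obtain ⟨l1, -, -, -, l5⟩ := c.lcs ℓ T B hB hT
  refine eu_ind (P := fun z => z ∈ lc ℓ S '' Y) ⟨1, hG.one, (hm S hS).one⟩ ?_ hz
  rintro N _ hN - ⟨t, ht, rfl⟩
  obtain ⟨y, hy, rfl⟩ := hN.mem
  have H := two ℓ T B Y hB hT hY hT' _
    (trs hB.alg (hm T hT) (hm S hS) hk l1 (fun y hy => (hY y hy).1) hy hN)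
  refine ⟨_, hG.mul _ (hf _ H.eu) t ht, ?_⟩
  rw [(hm S hS).mul _ (hY _ (hf _ H.eu)).1 t (hY t ht).1, (hm S hS).sgl H.mem]
  have := (hk _ (sub_mem H.mem hy)).1 ((hz0 T hT _ (sub_mem H.mem hy)).2 ?_)
  · rw [map_sub, sub_eq_zero] at this
    rw [this]
  obtain ⟨-, -, l3, -, l5, -⟩ := (c.lc.1 ℓ T hB.lab hT).2.2.2.1 y
  exact ⟨by rw [Matrix.sub_apply, l3, sub_self], fun α hα => by
    rw [sub_mul, l5 α hα, (hB.alg.dg y hy).gr_eq, sub_self]⟩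

end Pool.Agent.P.MP_f1a348_lc.UP.CU.AF
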