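import Pool.Agent.P.MP_f1a348_lc.AF.Iface
import Pool.Agent.P.MP_f1a348_lc.UP.TGENCF

namespace Pool.Agent.P.MP_f1a348_lc.UP.CU.AF

open Matrix Module Pool.Agent.P.MP_f1a348_lc.PG
open Pool.Agent.P.MP_f1a348_lc.CE (QS QY UQ EU LTY Geo)
open scoped commutatorElement

namespace GENFz

variable {p n : ℕ} [Fact p.Prime]

/-- a group of matrices as a subgroup -/
theorem sub {H : Set (Mat p n)} (hH : Grp H) (hp : ∀ z ∈ H, Par (l0 n) z) :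
    ∃ Z : SG p n, (∀ z, z ∈ Z ↔ z.1 ∈ H) ∧ (PP p Z ↔ PPs H) := by
  classical
  refine ⟨sg (fun g => g.1 ∈ H) hH.one fun a b ha hb => hH.mul _ ha _ hb, fun _ => Iff.rfl,
    fun h φ hφ a ha => h (fun g => φ g.1) (fun x hx y hy => hφ _ hx _ hy) ⟨a, hp a ha⟩ ha,
    fun h ψ hψ a ha => ?_⟩
  have := h (fun z => if h : Par (l0 n) z then ψ ⟨z, h⟩ else 0) (fun x hx y hy => by
    rw [dif_pos (hp x hx), dif_pos (hp y hy), dif_pos ((hp x hx).mul (hp y hy))]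
    exact hψ ⟨x, hp x hx⟩ hx ⟨y, hp y hy⟩ hy) a.1 ha
  simp only [dif_pos a.2] at this
  exact this

theorem ppm (hPPM : S_PPM p) {E T Y : Set (Mat p n)} (hE : Grp E) (hT : Grp T) (hY : Grp Y)
    (hp : ∀ z ∈ Y, Par (l0 n) z) (h1 : E ⊆ T) (h2 : T ⊆ Y) (pE : PPs E) (pY : PPs Y)
    (hc : ∀ a ∈ Y, ∀ b ∈ Y, a * b * st a * st b ∈ E) : PPs T := by
  obtain ⟨E', e1, e2⟩ := sub hE fun z hz => hp z (h2 (h1 hz))
  obtain ⟨T', t1, t2⟩ := sub hT fun z hz => hp z (h2 hz)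
  obtain ⟨Y', y1, y2⟩ := sub hY hp
  exact t2.1 (hPPM (GG p n) E' T' Y' (fun z hz => (t1 z).2 (h1 ((e1 z).1 hz)))
    (fun z hz => (y1 z).2 (h2 ((t1 z).1 hz))) (e2.2 pE) (y2.2 pY)
    fun a ha b hb => (e1 _).2 (hc _ ((y1 a).1 ha) _ ((y1 b).1 hb)))

end GENFz

open GENCFz GENFz in
theorem s_GENF (p n : ℕ) [Fact p.Prime] (b : TB p n) (e : TE p n) (hPPM : S_PPM p)
    (hLOCE : S_LOCE p n) : S_GENF p n := by
  classical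
  intro X f ℓ S hX hF cf hS hS1 Y hY
  obtain ⟨eZ, efr, econj, -, -, -, -⟩ := b.env
  obtain ⟨-, -, r2⟩ := b.rad (Env X) f ℓ (eZ X).1 cf.lab cf.tri
  obtain ⟨hB, -⟩ := r2 cf
  obtain ⟨hBG, hCb, hT1, hT2, hle⟩ := b.lcs ℓ S _ hB hS
  replace hle := (hle hS1).2
  obtain ⟨-, lmul, lone, hx, hin, -, -, hlS, -, -⟩ := b.lc.1 ℓ S cf.lab hS
  obtain ⟨-, -, -, -, -, -, -, -, -, hkb⟩ := b.lc.1 ℓ Sᶜ cf.lab (clo_compl hS)
  obtain ⟨hXp, hXg⟩ := (b.stcf.1 X f ℓ cf).1 hX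
  obtain ⟨g1, g2, g3, g4, -, -, -, -, -, g10, -⟩ := b.gi X f ℓ cf.lab cf.tri
  have hL := (hLOCE ℓ S _ _ hB hS g1 (fun y hy => (g2 y hy).1) g3).2 hS1
  replace hF : ∀ z ∈ EU (gB (Env X) f ℓ) (QY (gB (Env X) f ℓ) (gi f ℓ X)), z ∈ gi f ℓ X :=
    hF f ℓ cf
  set B := gB (Env X) f ℓ with hBdef
  set BG := B.map (lc ℓ S) with hBGdef
  set N := X ⊓ KB f ℓ Sᶜ with hN
  set YS := lc ℓ S '' gi f ℓ X with hYS
  have hG : Giant (lS ℓ S) BG := fun a ha => by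
    have haS : a ∈ S := by_contra fun h => ha (hT2 a h)
    have := hXg a fun h => ha ((hT1 a haS).2 h)
    rwa [eb, hCb a haS a haS, (hin a haS).1]
  have gt : ∀ g ∈ X, Tri ℓ (fr f g.1) := fun g hg => cf.tri _ ((eZ X).2.1 g hg)
  have gp : ∀ g ∈ X, Par ℓ (fr f g.1) := fun g hg =>
    ⟨gt g hg, by rw [← econj]; exact (f⁻¹ * g * f).2.2⟩
  have gk : ∀ g ∈ X, g ∈ KB f ℓ Sᶜ ↔ lc ℓ S (fr f g.1) = gr ℓ (fr f g.1) := fun g hg =>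
    (hkb f g (gt g hg)).2.trans (lc_compl hS (gp g hg).2.2)
  have yp : ∀ y ∈ gi f ℓ X, Par ℓ y := fun y hy => ((g2 y hy).1.lev cf.lab hB.alg).par
  have ym : ∀ x ∈ gi f ℓ X, ∀ y ∈ gi f ℓ X, lc ℓ S (x * y) = lc ℓ S x * lc ℓ S y :=
    fun x hx y hy => lmul x y (yp x hx).1 (yp y hy).1
  have su : ∀ z ∈ YS, U1 BG z := by
    rintro _ ⟨y, hy, rfl⟩
    exact ⟨Submodule.mem_map_of_mem (g2 y hy).1.1, ((hx y).2.2.2.2.2.2 (yp y hy)).2⟩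
  have sg' : Grp YS := by
    refine ⟨⟨1, g1.one, lone⟩, ?_, fun z hz => (su z hz).2.1, ?_⟩
    · rintro _ ⟨x, hx, rfl⟩ _ ⟨y, hy, rfl⟩
      exact ⟨x * y, g1.mul x hx y hy, ym x hx y hy⟩
    · rintro _ ⟨y, hy, rfl⟩
      exact ⟨st y, g1.star y hy, (hx y).1⟩
  have sp : PPs YS := by
    rintro φ hφ _ ⟨y, hy, rfl⟩
    exact g4 hXp (fun z => φ (lc ℓ S z)) (fun a ha c hc => by
      rw [ym a ha c hc]; exact hφ _ ⟨a, ha, rfl⟩ _ ⟨c, hc, rfl⟩) y hy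
  have ss : Submodule.span (ZMod p) YS = BG := by rw [hYS, Submodule.span_image, g3]
  obtain ⟨geo, uq, -, -⟩ := e.adm _ BG YS hBG su ss
  obtain ⟨eg, eu⟩ := e.base.2.2.2.2.1 _ BG _ geo
  have hNt : TriR (Env N) f ℓ := ((eZ N).2.2.2.2.2.1 f ℓ).2 fun g hg => gt g hg.1
  have t1 := (b.gi N f ℓ cf.lab hNt).1
  have eT : (EU BG (QY BG YS) : Set (Mat p n)) ⊆ gi f ℓ N := fun z hz => by
    obtain ⟨g, hg, e⟩ := hF z (hL hz)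
    refine ⟨g, ⟨hg, (gk g hg).2 ?_⟩, e⟩
    rw [← (hx _).2.2.2.1, e]
    have hz1 := (eu z hz).1.1
    have hz2 := (hB.alg.dg z (hle hz1)).gr_eq
    obtain ⟨z0, -, hz0⟩ := hz1
    ext α β
    by_cases hα : α ∈ S
    · rw [lc_in hS z hα, hz2]
    · rw [lc_out z hα, ← hz0, lc_out z0 hα, (hx z0).2.2.1]
  have tY : gi f ℓ N ⊆ YS := by
    rintro _ ⟨g, hg, rfl⟩
    exact ⟨_, ⟨g, hg.1, rfl⟩, (hx _).2.2.2.1.trans ((gk g hg.1).1 hg.2)⟩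
  have tp : PPs (gi f ℓ N) := ppm hPPM eg t1 sg'
    (fun z hz => ((su z hz).lev hBG.lab hBG.alg).par.l0) eT tY
    (e.perf _ BG _ geo (hG.big' hBG (by norm_num))).2.2 sp
    fun a ha c hc => e.abel _ BG _ geo (hG.big' hBG (by norm_num)) a c (uq a ha) (uq c hc)
  have onto : gi f ℓ N ⊆ gi f ℓ Y := hY ▸ g10 N inf_le_left _ t1 tp subset_rfl
  obtain ⟨hYle, hYpp, -⟩ := (b.op (GG p n)).1 N
  rw [← hY] at hYle hYpp
  have hf : ∀ y ∈ Y, Tri (lS ℓ S) (fr f y.1) ∧ gr (lS ℓ S) (fr f y.1) = gr ℓ (fr f y.1) :=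
    fun y hy => fine hS hlS (gt y (hYle hy).1) ((gk y (hYle hy).1).1 (hYle hy).2)
  obtain ⟨-, y2, -, -, -, y6, y7⟩ := eZ Y
  have htri : TriR (Env Y) f (lS ℓ S) := (y6 f _).2 fun y hy => (hf y hy).1
  have hgr : ∀ x ∈ Env Y, gr (lS ℓ S) (fr f x) = gr ℓ (fr f x) :=
    (y7 (LinearMap.eqLocus (gr (lS ℓ S) ∘ₗ fr f) (gr ℓ ∘ₗ fr f))).2 fun y hy => (hf y hy).2
  have hgB : gB (Env Y) f (lS ℓ S) = BG := by
    refine le_antisymm (Submodule.map_le_iff_le_comap.2 ((y7 _).2 fun y hy => ?_))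
      ((e.span _ BG _ geo (hG.big' hBG (by norm_num))).trans (Submodule.span_le.2 fun z hz => ?_))
    · have := (su _ (tY ⟨y, hYle hy, rfl⟩)).1
      rwa [← (hf y hy).2] at this
    · obtain ⟨y, hy, e⟩ := onto (eT hz)
      exact ⟨y.1, y2 y hy, (hf y hy).2.trans e⟩
  have cf' : CF (Env Y) f (lS ℓ S) := ⟨hBG.lab, htri, by rw [hgB]; exact hBG.sim⟩
  exact ⟨(b.stcf.1 Y f _ cf').2 ⟨hYpp, by rw [hgB]; exact hG⟩, cf', hgB, hgr,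
    fun g hg => onto ⟨g, hg, rfl⟩⟩

end Pool.Agent.P.MP_f1a348_lc.UP.CU.AF
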