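import Pool.Agent.P.MP_f1a348_lc.AF.Iface

/-!
Project AF, task GI: the block diagonal parts of a group; perfect groups between two groups.
-/

namespace Pool.Agent.P.MP_f1a348_lc.UP.CU.AF

open Matrix Module Pool.Agent.P.MP_f1a348_lc.PG
open Pool.Agent.P.MP_f1a348_lc.CE (QS QY UQ EU LTY Geo)
open scoped commutatorElement

set_option linter.unusedSectionVars false

namespace GIz

variable {p n : ℕ} [Fact p.Prime] {X : SG p n} {f : GG p n} {ℓ : Ix n → ℕ}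

theorem vpow (g : GG p n) (k : ℕ) : (g ^ k).1 = g.1 ^ k := by
  induction k with
  | zero => rw [pow_zero, pow_zero]; rfl
  | succ k ih => rw [pow_succ, pow_succ, val_mul, ih]

/-- the group elements with matrix in `E` -/
def gp {E : Set (Mat p n)} (h : Grp E) : SG p n :=
  sg (fun z : GG p n => z.1 ∈ E) h.one fun a b ha hb => h.mul a.1 ha b.1 hb

theorem pp_of_pps {E : Set (Mat p n)} {Y : SG p n} (hE : ∀ z ∈ E, Par (l0 n) z)
    (hY : ∀ z, z ∈ Y ↔ z.1 ∈ E) (h : PPs E) : PP p Y := by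
  classical
  intro ψ hψ a ha
  have := h (fun m => if e : Par (l0 n) m then ψ ⟨m, e⟩ else 0) (fun x hx y hy => by
    rw [dif_pos (hE x hx), dif_pos (hE y hy), dif_pos ((hE x hx).mul (hE y hy))]
    exact hψ ⟨x, hE x hx⟩ ((hY _).2 hx) ⟨y, hE y hy⟩ ((hY _).2 hy)) a.1 ((hY a).1 ha)
  rw [dif_pos a.2] at this
  exact this

theorem fine_gr {ℓ' : Ix n → ℕ} (h : ∀ α β, ℓ' α ≤ ℓ' β → ℓ α ≤ ℓ β) {w : Mat p n}
    (hw : Tri ℓ w) : gr ℓ' w = gr ℓ' (gr ℓ w) ∧ (Tri ℓ' w ↔ Tri ℓ' (gr ℓ w)) := by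
  refine ⟨?_, fun e α β h0 => e α β fun h1 => h0 (by simp [h1]), fun e α β h0 => ?_⟩
  · ext α β
    rw [gr_apply, gr_apply, gr_apply]
    by_cases e : ℓ' α = ℓ' β
    · rw [if_pos e, if_pos e, if_pos (le_antisymm (h _ _ e.le) (h _ _ e.ge))]
    · rw [if_neg e, if_neg e]
  · obtain ⟨a1, a2⟩ := hw α β h0
    by_cases e1 : ℓ α = ℓ β
    · exact e α β (by rwa [gr_apply, if_pos e1])
    · exact ⟨(not_le.1 fun e2 => e1 (le_antisymm a1 (h _ _ e2))).le, a2⟩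

variable (c : CU.TC p n)
include c

theorem mul (h : TriR (Env X) f ℓ) {x y : Mat p n} (hx : x ∈ Env X) (hy : y ∈ Env X) :
    gr ℓ (fr f (x * y)) = gr ℓ (fr f x) * gr ℓ (fr f y) := by
  rw [(c.env.2.1 f x y).1, gr_mul (h x hx) (h y hy)]

theorem one : gr ℓ (fr f 1) = (1 : Mat p n) := by rw [(c.env.2.1 f 1 1).2.2.1, gr_one]

theorem star (hl : Lab ℓ) (x : Mat p n) : gr ℓ (fr f (st x)) = st (gr ℓ (fr f x)) := by
  rw [(c.env.2.1 f x x).2.1, gr_st hl]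

theorem em {g : GG p n} (hg : g ∈ X) : g.1 ∈ Env X := (c.env.1 X).2.1 g hg

theorem par (hl : Lab ℓ) (h : TriR (Env X) f ℓ) {g : GG p n} (hg : g ∈ X) :
    Par ℓ (gr ℓ (fr f g.1)) := by
  have e := c.env.2.2.1 f g
  exact Par.gr hl ⟨h _ (em c hg), e ▸ (f⁻¹ * g * f).2.2⟩

theorem pow (h : TriR (Env X) f ℓ) {g : GG p n} (hg : g ∈ X) (k : ℕ) :
    gr ℓ (fr f (g ^ k).1) = gr ℓ (fr f g.1) ^ k := by
  induction k with
  | zero => rw [pow_zero, pow_zero]; exact one c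
  | succ k ih => rw [pow_succ, pow_succ, val_mul, mul c h (em c (X.pow_mem hg k)) (em c hg), ih]

theorem grp (hl : Lab ℓ) (h : TriR (Env X) f ℓ) {Z : SG p n} (hZ : Z ≤ X) : Grp (gi f ℓ Z) := by
  refine ⟨⟨1, Z.one_mem, one c⟩, ?_, ?_, ?_⟩
  · rintro _ ⟨x, hx, rfl⟩ _ ⟨y, hy, rfl⟩
    exact ⟨x * y, Z.mul_mem hx hy, mul c h (em c (hZ hx)) (em c (hZ hy))⟩
  · rintro _ ⟨x, hx, rfl⟩
    exact (par c hl h (hZ hx)).2.1
  · rintro _ ⟨x, hx, rfl⟩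
    exact ⟨x⁻¹, Z.inv_mem hx, star c hl x.1⟩

theorem unip (hl : Lab ℓ) (h : TriR (Env X) f ℓ) {g : GG p n} (hg : g ∈ X)
    (e : gr ℓ (fr f g.1) = 1) : ∃ k : ℕ, g ^ p ^ k = 1 := by
  have hR := (c.env.1 X).1
  obtain ⟨k, hk⟩ := ((c.rad _ f ℓ hR hl h).2.1 _ ((Env X).sub_mem (em c hg) hR.one) (by
    rw [map_sub, map_sub, e, one c, sub_self])).2 1 hR.one
  refine ⟨k, Subtype.ext ?_⟩
  have := sub_pow_char_pow_of_commute p k (Commute.one_right g.1)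
  rw [mul_one] at hk
  rw [pow_eq_zero_of_le (Nat.lt_pow_self (Fact.out : p.Prime).one_lt).le hk, one_pow] at this
  rw [vpow]
  exact sub_eq_zero.1 this.symm

theorem opc (hl : Lab ℓ) (h : TriR (Env X) f ℓ) {Z : SG p n} (hZ : Z ≤ X) {E : Set (Mat p n)}
    (hE : Grp E) (hP : PPs E) (hle : E ⊆ gi f ℓ Z) : E ⊆ gi f ℓ (Op p Z) := by
  obtain ⟨o1, -, o3, -, o5⟩ := (c.op (GG p n)).1 Z
  have hpar : ∀ z ∈ E, Par (l0 n) z := fun z hz => by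
    obtain ⟨x, hx, rfl⟩ := hle hz
    exact (par c hl h (hZ hx)).l0
  have g := grp c hl h (o1.trans hZ)
  suffices H : gp hE ≤ gp g from fun a ha => H (x := ⟨a, hpar a ha⟩) ha
  refine (c.op (GG p n)).2.2.1 _ _ (pp_of_pps hpar (fun _ => Iff.rfl) hP)
    (fun z hz m hm => ?_) fun z hz => ?_
  · obtain ⟨x, hx, e⟩ := hle hz
    obtain ⟨o, ho, e'⟩ := hm
    refine ⟨x * o * x⁻¹, o5 Z (fun a ha b hb => Z.mul_mem (Z.mul_mem ha hb) (Z.inv_mem ha))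
      x hx o ho, ?_⟩
    have h1 := hZ hx
    have h2 := hZ (o1 ho)
    rw [val_mul, mul c h (em c (X.mul_mem h1 h2)) (em c (X.inv_mem h1)), val_mul,
      mul c h (em c h1) (em c h2), val_inv, star c hl, e, e']
    rfl
  · obtain ⟨x, hx, e⟩ := hle hz
    obtain ⟨k, hk⟩ := o3 x hx
    exact ⟨k, _, hk, by rw [pow c h (hZ hx), e, vpow]⟩

theorem fine {g : GG p n} {ℓ' : Ix n → ℕ} (h : Fine f ℓ g ℓ') {x : Mat p n}
    (hx : Tri ℓ (fr f x)) : gr ℓ' (fr g x) = gr ℓ' (fr (f⁻¹ * g) (gr ℓ (fr f x))) ∧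
    (Tri ℓ' (fr g x) ↔ Tri ℓ' (fr (f⁻¹ * g) (gr ℓ (fr f x)))) := by
  have e := (c.env.2.1 f x x).2.2.2.2.1 (f⁻¹ * g)
  rw [mul_inv_cancel_left] at e
  have hd := h.dg
  have hs := hd.st h.lab
  have e1 : ∀ y, fr (f⁻¹ * g) y = st (f⁻¹ * g).1 * y * (f⁻¹ * g).1 := fun y => by
    rw [fr, cj_apply, st_st]
  have t : Tri ℓ (fr g x) := by
    rw [e, e1]; exact ((hs.tri h.lab).mul hx).mul (hd.tri h.lab)
  have e2 : fr (f⁻¹ * g) (gr ℓ (fr f x)) = gr ℓ (fr g x) := by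
    rw [e, e1, e1, gr_mul ((hs.tri h.lab).mul hx) (hd.tri h.lab), gr_mul (hs.tri h.lab) hx,
      hs.gr_eq, hd.gr_eq]
  rw [e2]
  exact fine_gr h.fine t

end GIz

open GIz in
theorem s_GI (p n : ℕ) [Fact p.Prime] (c : CU.TC p n) : S_GI p n := by
  intro X f ℓ hl h
  have g := grp c hl h le_rfl
  have hpar : ∀ z ∈ gi f ℓ X, Par (l0 n) z := by
    rintro _ ⟨x, hx, rfl⟩
    exact (par c hl h hx).l0
  have hs : Submodule.span (ZMod p) (gi f ℓ X) = gB (Env X) f ℓ := by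
    rw [gB, Env, Submodule.map_span]
    congr 1
    ext z
    exact ⟨fun ⟨x, hx, e⟩ => ⟨_, ⟨x, hx, rfl⟩, e⟩, fun ⟨_, ⟨x, hx, rfl⟩, e⟩ => ⟨x, hx, e⟩⟩
  have hP : PP p X → PPs (gi f ℓ X) := by
    rintro hX F hF _ ⟨x, hx, rfl⟩
    exact hX (fun g => F (gr ℓ (fr f g.1))) (fun a ha b hb => by
      rw [val_mul, GIz.mul c h (em c ha) (em c hb)]
      exact hF _ ⟨a, ha, rfl⟩ _ ⟨b, hb, rfl⟩) x hx
  refine ⟨g, fun z hz => ⟨⟨hs ▸ Submodule.subset_span hz, (hpar z hz).2⟩, hpar z hz⟩, hs, hP,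
    fun x hx y hy => GIz.mul c h hx hy, GIz.star c hl, GIz.one c,
    ⟨gp g, fun _ => Iff.rfl, ?_,
      fun hX => pp_of_pps hpar (fun _ => Iff.rfl) (hP hX)⟩, fun x hx => unip c hl h hx,
    fun Z hZ E hE hp => opc c hl h hZ hE hp, fun g ℓ' hf x hx => fine c hf hx⟩
  rw [← hs, Env]
  congr 1
  ext z
  exact ⟨fun ⟨x, hx, e⟩ => e ▸ hx, fun hz => ⟨⟨z, hpar z hz⟩, hz, rfl⟩⟩

theorem s_PPM (p : ℕ) [Fact p.Prime] (hOP : S_OP p) : S_PPM p := by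
  intro Γ _ _ E T Y hET hTY hE hY hc
  have hEY := hET.trans hTY
  have hn : (E.subgroupOf Y).Normal := ⟨fun e he y => by
    simpa [Subgroup.mem_subgroupOf, commutatorElement_def] using
      E.mul_mem (hc y y.2 e e.2) he⟩
  have key : ∀ a ∈ Y, ∀ b ∈ Y, ∀ m : ℕ, a ^ m ∈ E → b ^ m ∈ E → (a * b) ^ m ∈ E := by
    intro a ha b hb m h1 h2
    let q := QuotientGroup.mk' (E.subgroupOf Y)
    have hq : ∀ x : Y, q x = 1 ↔ x.1 ∈ E := fun x => QuotientGroup.eq_one_iff x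
    have cm : Commute (q ⟨a, ha⟩) (q ⟨b, hb⟩) := commutatorElement_eq_one_iff_commute.1 (by
      rw [← map_commutatorElement, hq]; exact hc a ha b hb)
    refine (hq ((⟨a, ha⟩ * ⟨b, hb⟩) ^ m)).1 ?_
    rw [map_pow, map_mul, cm.mul_pow, ← map_pow, ← map_pow, (hq _).2 h1, (hq _).2 h2, one_mul]
  let M : Subgroup Γ := sg (fun y => y ∈ Y ∧ ∃ k : ℕ, k.Coprime p ∧ y ^ k ∈ E)
    ⟨Y.one_mem, 1, Nat.coprime_one_left p, by simp⟩ fun a b ⟨ha, k, hk, e⟩ ⟨hb, l, hl, e'⟩ =>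
      ⟨Y.mul_mem ha hb, k * l, Nat.Coprime.mul_left hk hl, key a ha b hb _
        (by rw [pow_mul]; exact E.pow_mem e l) (by rw [mul_comm, pow_mul]; exact E.pow_mem e' k)⟩
  have hM : Y ≤ M := (hOP Γ).2.2.1 Y M hY (fun y hy m hm => ?_) fun x hx => ?_
  · intro ψ hψ t ht
    obtain ⟨-, k, hk, e⟩ := hM (hTY ht)
    have h1 : ψ 1 = 0 := hE ψ (fun a ha b hb => hψ a (hET ha) b (hET hb)) 1 E.one_mem
    have h2 : ∀ j : ℕ, ψ (t ^ j) = j * ψ t := fun j => by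
      induction j with
      | zero => simp [h1]
      | succ j ih => rw [pow_succ, hψ _ (T.pow_mem ht j) t ht, ih]; push_cast; ring
    have h3 := hE ψ (fun a ha b hb => hψ a (hET ha) b (hET hb)) _ e
    rw [h2] at h3
    refine (mul_eq_zero.1 h3).resolve_left fun h0 => ?_
    exact ((Fact.out : p.Prime).coprime_iff_not_dvd.1 hk.symm)
      ((ZMod.natCast_eq_zero_iff k p).1 h0)
  · have h1 : ⁅y, m⁆ ∈ M := ⟨hEY (hc y hy m hm.1), 1, Nat.coprime_one_left p, by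
      simpa using hc y hy m hm.1⟩
    simpa [commutatorElement_def] using M.mul_mem h1 hm
  · obtain ⟨a, b, j, k, e, h1, h2, hk⟩ := (hOP Γ).2.2.2.2.1 x
    refine ⟨j, Y.pow_mem hx _, k, hk, ?_⟩
    rw [← pow_mul]
    nth_rewrite 1 [e]
    rw [((Commute.refl x).pow_pow a b).mul_pow, pow_mul, h1, one_pow, mul_comm (p ^ j), pow_mul, h2,
      one_pow, one_mul]
    exact E.one_mem

end Pool.Agent.P.MP_f1a348_lc.UP.CU.AF
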