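import Pool.Agent.P.MP_f1a348_lc.AF.Iface

namespace Pool.Agent.P.MP_f1a348_lc.UP.CU.AF

open Matrix Module Pool.Agent.P.MP_f1a348_lc.PG
open scoped commutatorElement

namespace GSLz

theorem rk {K M N : Type} [Field K] [AddCommGroup M] [Module K M] [AddCommGroup N] [Module K N]
    [FiniteDimensional K M] (S : Submodule K M) (φ : M →ₗ[K] N) :
    finrank K (S.map φ) + finrank K (S ⊓ LinearMap.ker φ : Submodule K M) = finrank K S := by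
  rw [← (φ.domRestrict S).finrank_range_add_finrank_ker, LinearMap.range_domRestrict,
    LinearMap.ker_domRestrict, ← Submodule.finrank_map_subtype_eq S, Submodule.map_comap_subtype]

variable {p n : ℕ} [Fact p.Prime]

theorem gr_pr {ℓ : Ix n → ℕ} (y : Mat p n) {β : Ix n} {v : Vec p n} (hv : v ∈ Vb ℓ β) :
    gr ℓ y *ᵥ v = (pr ℓ β * y) *ᵥ v := by
  funext α
  simp only [mulVec, dotProduct]
  refine Finset.sum_congr rfl fun γ _ => ?_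
  by_cases h : ℓ γ = ℓ β
  · simp only [gr_apply, pr_mul_apply, h]
  · simp only [hv γ h, mul_zero]

theorem KS_congr (f : GG p n) {ℓ : Ix n → ℕ} {α β : Ix n} (h : ℓ α = ℓ β) :
    KS f ℓ α = KS f ℓ β := by rw [KS, KS, sL, sL, sH, sH, h, nb_congr h]

end GSLz

theorem s_GSL (p n : ℕ) [Fact p.Prime] (b : TB p n) (hCLIFF : S_CLIFF p n) (hSSM : S_SSM p n) :
    S_GSL p n := by
  intro s j β h0 hs hX hβ L U hL hU lt hV
  by_contra hc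
  have hb : β ∈ s.lam := ⟨j, hβ⟩
  obtain ⟨lab, lm, l1, lc4, lc5, -, -, -, alg, -⟩ := b.lc.1 s.ℓ s.lam h0.lab (b.lc.2 _ _ h0.lab).1
  rw [show (Vb s.ll β : VS p n) = Vb s.ℓ β from (lc5 β hb).2.1] at hV
  obtain ⟨-, -, s3, -, s5, s6, s7, -⟩ := b.sec.1 s.f s.ℓ β h0.lab
  have eG := b.env.1 s.G
  have eX := b.env.1 s.X
  have XG : Env s.X ≤ Env s.G := eX.2.2.1 _ h0.le
  have lg : ∀ x, ∀ v ∈ Vb s.ℓ β, s.lo x *ᵥ v = gr s.ℓ (fr s.f x) *ᵥ v := fun x v hv => by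
    rw [← mem_Vb_iff.1 hv, mulVec_mulVec, mulVec_mulVec]
    exact congrArg (· *ᵥ v) ((lc4 _).2.2.2.2.1 β hb)
  have lv : ∀ x, ∀ v ∈ Vb s.ℓ β, s.lo x *ᵥ v ∈ Vb s.ℓ β := fun x v hv =>
    lg x v hv ▸ (dg_gr _).mulVec_mem hv
  have key : ∀ x ∈ Env s.G, ∀ v ∈ Vb s.ℓ β,
      x *ᵥ (s.f.1 *ᵥ v) - s.f.1 *ᵥ (s.lo x *ᵥ v) ∈ sL s.f s.ℓ β := fun x hx v hv => by
    rw [lg x v hv, GSLz.gr_pr _ hv]
    exact s6 x (s5 x (h0.tri x hx)).2 v hv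
  have T : ∀ x ∈ Env s.G, ∀ W W' : VS p n, W ≤ Vb s.ℓ β → W' ≤ Vb s.ℓ β →
      ((∀ u ∈ sL s.f s.ℓ β ⊔ W.map s.f.1.mulVecLin,
        x *ᵥ u ∈ sL s.f s.ℓ β ⊔ W'.map s.f.1.mulVecLin) ↔ ∀ w ∈ W, s.lo x *ᵥ w ∈ W') := by
    refine fun x hx W W' hW hW' => ⟨fun h w hw => ?_, fun h u hu => ?_⟩
    · obtain ⟨l, hl, _, ⟨w', hw', rfl⟩, e⟩ :=
        Submodule.mem_sup.1 (h _ (Submodule.mem_sup_right ⟨w, hw, rfl⟩))
      have := (s3 _ (sub_mem (lv x w (hW hw)) (hW' hw'))).2 (by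
        have := sub_mem hl (key x hx w (hW hw))
        simp only [mulVecLin_apply] at e
        rwa [← e, ← sub_add, sub_add_cancel_left, neg_add_eq_sub, ← mulVec_sub] at this)
      exact sub_eq_zero.1 this ▸ hw'
    · obtain ⟨l, hl, _, ⟨w, hw, rfl⟩, rfl⟩ := Submodule.mem_sup.1 hu
      rw [mulVec_add, mulVecLin_apply, ← sub_add_cancel (x *ᵥ (s.f.1 *ᵥ w)) (s.f.1 *ᵥ (s.lo x *ᵥ w)),
        ← add_assoc]
      exact Submodule.add_mem_sup (add_mem ((s5 x (h0.tri x hx)).1 l hl) (key x hx w (hW hw)))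
        ⟨_, h w hw, rfl⟩
  have hL' := lt.le.trans hV
  have K := h0.stable.2 (sL s.f s.ℓ β ⊔ L.map s.f.1.mulVecLin)
    (sL s.f s.ℓ β ⊔ U.map s.f.1.mulVecLin) (sup_le_sup_left (Submodule.map_mono lt.le) _)
    (fun x hx => (T x (XG hx) L L hL' hL').2 (hL _ ⟨x, hx, rfl⟩))
    (fun x hx => (T x (XG hx) U U hV hV).2 (hU _ ⟨x, hx, rfl⟩)) (by
      have r1 := GSLz.rk (Env s.X) s.lo
      have r2 := GSLz.rk (ann (Env s.X) (sL s.f s.ℓ β ⊔ L.map s.f.1.mulVecLin)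
        (sL s.f s.ℓ β ⊔ U.map s.f.1.mulVecLin)) s.lo
      have a1 : ann (s.le s.X) L U ≤ (ann (Env s.X) (sL s.f s.ℓ β ⊔ L.map s.f.1.mulVecLin)
          (sL s.f s.ℓ β ⊔ U.map s.f.1.mulVecLin)).map s.lo := fun _ ⟨⟨x, hx, e⟩, h⟩ =>
        ⟨x, ⟨hx, (T x (XG hx) U L hV hL').2 (e ▸ h)⟩, e⟩
      have a2 : Env s.X ⊓ LinearMap.ker s.lo ≤ ann (Env s.X) (sL s.f s.ℓ β ⊔ L.map s.f.1.mulVecLin)
          (sL s.f s.ℓ β ⊔ U.map s.f.1.mulVecLin) ⊓ LinearMap.ker s.lo := fun x hx =>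
        ⟨⟨hx.1, (T x (XG hx.1) U L hV hL').2 fun w _ => by
          rw [LinearMap.mem_ker.1 hx.2, zero_mulVec]; exact zero_mem _⟩, hx.2⟩
      have := Submodule.finrank_mono a1
      have := Submodule.finrank_mono a2
      rw [St.le] at *
      omega)
  have lo1 : s.lo 1 = 1 := (congrArg _ (b.env.2.1 s.f 1 1).2.2.1).trans l1
  have lom : ∀ g ∈ s.G, ∀ h ∈ s.G, s.lo (g * h).1 = s.lo g.1 * s.lo h.1 := fun g hg h hh =>
    (congrArg _ (b.env.2.1 s.f _ _).1).trans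
      (lm _ _ (h0.tri _ (eG.2.1 g hg)) (h0.tri _ (eG.2.1 h hh)))
  obtain ⟨W, w1, w2, w3⟩ := (hSSM (s.le s.X) (b.env.2.2.2.2.1 _ _ lab
    (alg _ s.f eX.1 fun x hx => h0.tri x (XG hx))).1 (hCLIFF s h0 hs).1).2.2.2 L U hL hU lt.le
  obtain ⟨w, hw, w0⟩ := W.exists_mem_ne_zero_of_ne_bot fun h => lt.ne (by rw [← w3, h, bot_sup_eq])
  have wU : w ∈ U := w3 ▸ Submodule.mem_sup_left hw
  have fx : ∀ x ∈ Env s.G, ∀ g ∈ s.X, s.lo g.1 *ᵥ (s.lo x *ᵥ w) = s.lo x *ᵥ w := by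
    intro x hx g hg
    induction hx using Submodule.span_induction with
    | mem x hx =>
      obtain ⟨k, hk, rfl⟩ := hx
      have m := h0.nm _ (s.G.inv_mem hk) g hg
      have : s.lo (k⁻¹ * g * k⁻¹⁻¹).1 *ᵥ w - w = 0 := by
        refine (Submodule.mem_bot _).1 (w2.le ⟨sub_mem (w1 _ ⟨_, eX.2.1 _ m, rfl⟩ w hw) hw, ?_⟩)
        have := (T _ (sub_mem (XG (eX.2.1 _ m)) eG.1.one) U L hV hL').1 (fun u hu => by
          rw [sub_mulVec, one_mulVec]; exact (K m).2 u hu) w wU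
        rwa [map_sub, lo1, sub_mulVec, one_mulVec] at this
      rw [mulVec_mulVec, ← lom g (h0.le hg) k hk, show g * k = k * (k⁻¹ * g * k⁻¹⁻¹) by group,
        lom k hk _ (h0.le m), ← mulVec_mulVec, sub_eq_zero.1 this]
    | zero => simp
    | add x y _ _ hx hy => rw [map_add, add_mulVec, mulVec_add, hx, hy]
    | smul c x _ hx => rw [map_smul, smul_mulVec, mulVec_smul, hx]
  have kb : s.X ≤ KS s.f s.ℓ β := fun g hg => by
    have t := s5 _ (h0.tri _ (XG (eX.2.1 g hg)))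
    refine (s7 g t.1 t.2).2 (mat_ext fun v => ?_)
    obtain ⟨_, ⟨x, hx, rfl⟩, e⟩ := hs.sim β w (hV wU) w0 _ (pr_mulVec_mem β v)
    rw [← mulVec_mulVec, ← GSLz.gr_pr _ (pr_mulVec_mem β v), ← lg _ _ (pr_mulVec_mem β v), ← e,
      LinearMap.comp_apply, ← lg x w (hV wU), fx x hx g hg]
  refine hX fun g hg => ?_
  have := kb hg
  rcases hβ with e | e <;> rw [GSLz.KS_congr _ e] at this
  · exact this
  · exact ((b.sec.1 s.f s.ℓ _ h0.lab).2.2.2.2.2.2.2 g (h0.tri _ (XG (eX.2.1 g hg)))).1 this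

end Pool.Agent.P.MP_f1a348_lc.UP.CU.AF
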