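import Pool.Agent.P.MP_f1a348_lc.AF.Iface

/-!
Project AF: joining the results of the branches.
-/

namespace Pool.Agent.P.MP_f1a348_lc.UP.CU.AF

open Matrix Module Pool.Agent.P.MP_f1a348_lc.PG
open Pool.Agent.P.MP_f1a348_lc.CE (QS QY UQ EU LTY Geo)
open scoped commutatorElement

namespace JOINz

variable {p n : ℕ} [Fact p.Prime]

theorem pre (s : St p n) (b : Brc p n) {E EG : ℕ} {δ : Frm p n} (h : (s.kid b 0).PrE E EG)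
    (hδ : pull1 s.f.1 δ ∈ Lowr s.ℓ s.a) : (s.kid b δ).PrE E EG := by
  obtain ⟨c, τ, h, e⟩ := h
  exact ⟨c, τ, ⟨⟨h.lab, h.tri, h.low, hδ, h.le, h.nm, h.stable, h.full, h.one, h.mul, h.tot⟩,
    h.val, h.mu, h.ptr, h.none, h.tau, h.pot, h.cap, h.nu⟩, e⟩

theorem sol (s : St p n) (b : Brc p n) (δ : Frm p n) (y : Pa p n) : (s.kid b δ).Sol y ↔
    (y.1 ∈ b.Q ∧ s.K y.1 y.2) ∧ s.dl (pull1 y.1.1 δ + y.2) = 0 := Iff.rfl

end JOINz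

theorem s_JOIN (p n : ℕ) [Fact p.Prime] (b : TB p n) : S_JOIN p n := by
  intro s E EG r c EG' h0 hb
  obtain ⟨-, -, -, -, -, -, -, -, -, -, -, ⟨H, hH⟩, -⟩ := b.coc s h0
  obtain ⟨-, -, -, c4, -⟩ := b.cok s h0
  refine ⟨fun x hx => ⟨JOINz.pre s r hb.pre.2 (h0.low x.1 hx.1 x.2 hx.2),
    JOINz.pre s r hb.pre.2 (c4 x hx).1⟩, fun HQ φ S hQ hφ hS => ?_,
    fun x hx g hg => ⟨?_, fun e => by cases e⟩, fun h => ⟨fun g e => (by cases e), ?_⟩⟩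
  · have a1 : ∀ x ∈ r.R, ∀ y, φ x = some y → y.1 ∈ r.Q ∧ x.1 * y.1 ∈ H := fun x hx y e => by
      obtain ⟨⟨e1, e2⟩, e3⟩ := (JOINz.sol s r _ y).1 ((hφ x hx).1 y e)
      have hm := hb.mem x hx
      exact ⟨e1, (hH _).2 ⟨mul_mem hm.1 (hb.le e1), _,
        h0.mul _ hm.1 _ (hb.le e1) _ _ hm.2 e2, e3⟩⟩
    suffices e : HQ ⊔ Subgroup.closure S = H from e ▸ hH
    refine le_antisymm (sup_le (fun g hg => ?_) ((Subgroup.closure_le _).2 fun y hy => ?_))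
      fun h hh => ?_
    · have e := (hQ g).1 hg
      exact (hH g).2 ⟨hb.le e.1, e.2⟩
    · obtain ⟨x, hx, g, e, rfl⟩ := (hS y).1 hy
      exact (a1 x hx g e).2
    · obtain ⟨e1, e2⟩ := (hH h).1 hh
      obtain ⟨x, hx, e3⟩ := hb.cov h e1 e2
      rcases e : φ x with _ | g
      · obtain ⟨w, w1, w2⟩ := e2
        obtain ⟨-, v, v1, v2⟩ := (c4 x (hb.mem x hx)).2.2.1 (h, w) ⟨e1, w1⟩
        refine absurd ((JOINz.sol s r _ (x.1⁻¹ * h, v)).2 ⟨⟨e3, v1⟩, ?_⟩) ((hφ x hx).2 e _)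
        rw [← w2]
        exact congrArg (fun y : Pa p n => s.dl y.2) v2
      · obtain ⟨e4, e5⟩ := a1 x hx g e
        have e6 : (x.1 * g.1)⁻¹ * h ∈ HQ := (hQ _).2 ⟨by
          rw [_root_.mul_inv_rev, mul_assoc]
          exact mul_mem (inv_mem e4) e3, ((hH _).1 (mul_mem (inv_mem e5) hh)).2⟩
        rw [← mul_inv_cancel_left (x.1 * g.1) h]
        exact mul_mem (Subgroup.mem_sup_right (Subgroup.subset_closure
          ((hS _).2 ⟨x, hx, g, e, rfl⟩))) (Subgroup.mem_sup_left e6)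
  · rintro _ ⟨⟩
    obtain ⟨⟨e1, e2⟩, e3⟩ := (JOINz.sol s r _ g).1 (hg.1 g rfl)
    refine ⟨((c4 x hx).2.2.1 g ⟨hb.le e1, e2⟩).1, ?_⟩
    rw [(c4 x hx).2.2.2 g]
    exact e3
  · intro _ g hg
    obtain ⟨x, hx, e3⟩ := hb.cov' g hg
    obtain ⟨-, v, v1, v2⟩ := (c4 x (hb.mem' x hx)).2.2.1 g hg.1
    refine (h x hx).2 rfl _ ((JOINz.sol s r _ (x.1⁻¹ * g.1, v)).2 ⟨⟨e3, v1⟩, ?_⟩)
    rw [← (c4 x (hb.mem' x hx)).2.2.2, v2]
    exact hg.2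

end Pool.Agent.P.MP_f1a348_lc.UP.CU.AF
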