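import Pool.Agent.P.MP_f1a348_lc.AF.Iface

/-! The leaves. -/

namespace Pool.Agent.P.MP_f1a348_lc.UP.CU.AF

open Matrix Module Pool.Agent.P.MP_f1a348_lc.PG
open Pool.Agent.P.MP_f1a348_lc.CE (QS QY UQ EU LTY Geo)
open scoped commutatorElement

namespace LEAFz

theorem sub {p : ℕ} [Fact p.Prime] {Γ : Type} [Group Γ] {Y : Subgroup Γ} (h : PP p Y) {X : Type}
    [AddCommGroup X] [Module (ZMod p) X] (P : Submodule (ZMod p) X) (f : Γ → X)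
    (hf : ∀ a ∈ Y, ∀ b ∈ Y, f (a * b) - (f a + f b) ∈ P) {a : Γ} (ha : a ∈ Y) : f a ∈ P := by
  by_contra hc
  obtain ⟨φ, h1, h2⟩ := P.exists_dual_map_eq_bot_of_notMem hc inferInstance
  have h3 : ∀ x ∈ P, φ x = 0 := fun x hx => by
    have : φ x ∈ P.map φ := ⟨x, hx, rfl⟩
    rwa [h2, Submodule.mem_bot] at this
  refine h1 (h (fun z => φ (f z)) (fun a ha b hb => ?_) a ha)
  have := h3 _ (hf a ha b hb)
  rwa [map_sub, map_add, sub_eq_zero] at this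

end LEAFz

theorem s_LEAF (p n : ℕ) [Fact p.Prime] (t : TM p n) (hUNC : S_UNC p n) : S_LEAF p n := by
  intro s EG H Y F φ h0 hS hsp hH hφ hC
  obtain ⟨hA, hE, hmono, -⟩ := t.env.1 s.X
  refine hUNC s EG H Y F φ h0 hS hH hφ hC (t.fcm.1 s.X _ Y h0.stable h0.full inf_le_right ?_
    ((t.core H _ inf_le_left).2.2 Y F hC))
  obtain ⟨-, -, -, -, -, -, c1, c2, -, c3, -, -, c4, -⟩ := t.coc s h0
  obtain ⟨-, -, -, -, d5, d6, -⟩ := t.cok s h0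
  obtain ⟨l1, -, l2, l3, -⟩ := t.leaf1 s h0
  have hN : s.N1 ≤ s.G := inf_le_left
  obtain ⟨f, ℓ, -, hF⟩ := (t.cfx (Env s.X) s.f s.ℓ h0.lab
    fun x hx => h0.tri x (hmono _ h0.le hx)).2.2 hA
  obtain ⟨-, r1, r2⟩ := t.rad _ f ℓ hA hF.lab hF.tri
  have radd : ∀ x ∈ Rad (Env s.X), ∀ y ∈ Rad (Env s.X), x + y ∈ Rad (Env s.X) :=
    fun x hx y hy => r1 _ (add_mem hx.1 hy.1) (by
      rw [map_add, map_add, (r2 hF).2 x hx, (r2 hF).2 y hy, add_zero])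
  have step : ∀ g ∈ s.X, ∀ (u : GG p n) x, u.1 - 1 ∈ Rad (Env s.X) → g.1 - x ∈ Rad (Env s.X) →
      (g * u).1 - x ∈ Rad (Env s.X) := fun g hg u x hu hx => by
    have := radd _ ((t.env.2.2.2.1 _ hA).2.1 _ hu _ (hE g hg)).1 _ hx
    rwa [mul_sub, mul_one, sub_add_sub_cancel] at this
  have zer : ∀ x : Mat p n, x - x ∈ Rad (Env s.X) := fun x => by
    rw [sub_self]
    exact r1 _ (zero_mem _) (by rw [map_zero, map_zero])
  choose! κ hκ using fun g hg => (c1 g hg).2.2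
  let S : Submodule (ZMod p) (Frm p n) :=
    Submodule.span (ZMod p) {w | ∃ u ∈ s.X ⊓ s.N1, s.Kp u w}
  have k0 : ∀ g ∈ s.G, ∀ u v, s.Kp g u → s.Kp g v → v - u ∈ S := fun g hg u v hu hv =>
    Submodule.subset_span ⟨1, one_mem _, (d5 _).2 (((d6 g hg u hu).2.1 v).1 hv)⟩
  have k1 : ∀ w ∈ S, ∃ u ∈ s.X ⊓ s.N1, u.1 - 1 ∈ Rad (Env s.X) ∧ s.Kp u w := fun w hw => by
    induction hw using Submodule.span_induction with
    | mem w hw =>
      obtain ⟨y, hy, hw⟩ := hw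
      obtain ⟨z, hz, h1⟩ := (t.locst s h0 hS).2.1 y hy
      obtain ⟨o1, o2, -⟩ := (t.op _).1 (s.X ⊓ s.N1)
      have h3 := l2 z⁻¹ (hN (o1 (inv_mem hz)).2) y hy.2 0 w
        (c4 _ (o1.trans inf_le_right) o2 _ (inv_mem hz)) hw
      rw [zero_add] at h3
      exact ⟨_, mul_mem (inv_mem (o1 hz)) hy, h1, h3⟩
    | zero => exact ⟨1, one_mem _, zer 1, c2⟩
    | add w w' _ _ ih ih' =>
      obtain ⟨u, u1, u2, u3⟩ := ih
      obtain ⟨v, v1, v2, v3⟩ := ih'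
      exact ⟨u * v, mul_mem u1 v1, step u u1.1 v 1 v2 u2, l2 u (hN u1.2) v v1.2 _ _ u3 v3⟩
    | smul c w _ ih =>
      obtain ⟨u, u1, u2, u3⟩ := ih
      refine ⟨u ^ c.val, pow_mem u1 _, ?_, by
        have := l3 u u1.2 w u3 c.val
        rwa [ZMod.natCast_zmod_val] at this⟩
      induction c.val with
      | zero => rw [pow_zero]; exact zer 1
      | succ k ih => rw [pow_succ]; exact step _ (pow_mem u1.1 k) u 1 u2 ih
  have k2 : ∀ g ∈ s.X, κ g ∈ S := fun g hg => LEAFz.sub h0.stable.1 S κ (fun a ha b hb => by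
    have ha' := h0.le ha
    have hb' := h0.le hb
    obtain ⟨m, hm, e⟩ := l1 _ (hsp a ha' _ (hκ a ha'))
    have m1 : b⁻¹ * m * b ∈ s.N1 := by simpa using c3 b⁻¹ (inv_mem hb') m hm
    have m2 : b⁻¹ * (m * b * m⁻¹) ∈ s.X ⊓ s.N1 :=
      ⟨s.X.mul_mem (s.X.inv_mem hb) (h0.nm m (hN hm) b hb), by
        rw [← mul_assoc, ← mul_assoc]
        exact s.N1.mul_mem m1 (s.N1.inv_mem hm)⟩
    have e0 := hκ _ (hN m2.2)
    have e1 := (d6 m (hN hm) _ e).2.2.2 b hb' _ (hκ b hb')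
    have e3 := l2 _ (hN m2.2) m hm _ _ e0 e
    rw [show b⁻¹ * (m * b * m⁻¹) * m = b⁻¹ * m * b by group] at e3
    have e2 := l2 b hb' _ m1 _ _ (hκ b hb') e3
    rw [show b * (b⁻¹ * m * b) = m * b by group] at e2
    have e4 := k0 _ (mul_mem ha' hb') _ _ ((d6 a ha' _ (hκ a ha')).2.2.2 b hb' _ (hκ b hb'))
      (hκ _ (mul_mem ha' hb'))
    have e5 := k0 _ (mul_mem (hN hm) hb') _ _ e2 e1
    have e6 : κ (b⁻¹ * (m * b * m⁻¹)) ∈ S := Submodule.subset_span ⟨_, m2, e0⟩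
    convert add_mem (add_mem e4 e5) e6 using 1
    abel) hg
  intro g hg
  obtain ⟨u, u1, u2, u3⟩ := k1 _ (neg_mem (k2 g hg))
  refine ⟨g * u, ⟨(hH _).2 ⟨mul_mem (h0.le hg) (hN u1.2), ?_⟩, mul_mem hg u1.1⟩,
    step g hg u g.1 u2 (zer _)⟩
  simpa using l2 g (h0.le hg) u u1.2 _ _ (hκ g (h0.le hg)) u3

end Pool.Agent.P.MP_f1a348_lc.UP.CU.AF
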