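import Pool.Agent.P.MP_f1a348_lc.AF.Iface

/-! Project AF: the values on the kernel. -/

namespace Pool.Agent.P.MP_f1a348_lc.UP.CU.AF

open Matrix Module Pool.Agent.P.MP_f1a348_lc.PG
open Pool.Agent.P.MP_f1a348_lc.CE (QS QY UQ EU LTY Geo)
open scoped commutatorElement

namespace LEAF1z

variable {p n : ℕ} [Fact p.Prime] {s : St p n} {g h u : GG p n} {v w : Frm p n}

theorem le1 : s.N1 ≤ s.G := inf_le_left

theorem rmul {Γ : Type} [Group Γ] {G N : Subgroup Γ} (hN : Nm G N) {x a y c : Γ} (hy : y ∈ G)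
    (h : x⁻¹ * a ∈ N) (h' : y⁻¹ * c ∈ N) : (x * y)⁻¹ * (a * c) ∈ N := by
  have := mul_mem (hN _ (inv_mem hy) _ h) h'
  rwa [show y⁻¹ * (x⁻¹ * a) * y⁻¹⁻¹ * (y⁻¹ * c) = (x * y)⁻¹ * (a * c) by group] at this

theorem rinv {Γ : Type} [Group Γ] {G N : Subgroup Γ} (hN : Nm G N) {x a : Γ} (hx : x ∈ G)
    (h : x⁻¹ * a ∈ N) : x⁻¹⁻¹ * a⁻¹ ∈ N := by
  have := hN _ hx _ (inv_mem h)
  rwa [show x * (x⁻¹ * a)⁻¹ * x⁻¹ = x⁻¹⁻¹ * a⁻¹ by group] at this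

theorem s0_le (M : SG p n) : s.S0 ≤ Submodule.span (ZMod p) {w | ∃ g ∈ M, s.Kp g w} :=
  Submodule.span_mono fun _ h => ⟨1, one_mem _, h⟩

variable (b : TB p n) (h0 : s.Ok0)
include b h0

theorem km (hg : g ∈ s.G) (hh : h ∈ s.G) (a : s.Kp g v) (c : s.Kp h w) :
    s.Kp (g * h) (pull1 (s.lo h.1) v + w) :=
  ((b.cok s h0).2.2.2.2.2.1 g hg v a).2.2.2 h hh w c

theorem kd (hg : g ∈ s.G) (a : s.Kp g v) : s.Kp g w ↔ w - v ∈ s.S0 :=
  ((b.cok s h0).2.2.2.2.2.1 g hg v a).2.1 w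

theorem tot (hg : g ∈ s.G) : ∃ v, s.Kp g v := ((b.coc s h0).2.2.2.2.2.2.1 g hg).2.2

theorem lo1 (hu : u ∈ s.N1) : s.lo u.1 = 1 := ((b.coc s h0).2.2.2.2.2.2.1 u (le1 hu)).2.1.1 hu

theorem k1 : s.Kp 1 0 := (b.coc s h0).2.2.2.2.2.2.2.1

theorem s0 : s.Kp 1 v ↔ v ∈ s.S0 := (b.cok s h0).2.2.2.2.1 v

theorem nm : Nm s.G s.N1 := (b.coc s h0).2.2.2.2.2.2.2.2.2.1

theorem every {S : Submodule (ZMod p) (Frm p n)} (hS : s.S0 ≤ S) (hg : g ∈ s.G) (a : s.Kp g v)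
    (c : s.Kp g w) (hv : v ∈ S) : w ∈ S := by
  simpa using add_mem (hS ((kd b h0 hg a).1 c)) hv

theorem ka (hg : g ∈ s.G) (hu : u ∈ s.N1) (a : s.Kp g v) (c : s.Kp u w) :
    s.Kp (g * u) (v + w) := by
  have := km b h0 hg (le1 hu) a c
  rwa [lo1 b h0 hu, pull1_one] at this

theorem kpow (hu : u ∈ s.N1) (a : s.Kp u v) (k : ℕ) : s.Kp (u ^ k) ((k : ZMod p) • v) := by
  induction k with
  | zero => rw [pow_zero, Nat.cast_zero, zero_smul]; exact k1 b h0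
  | succ k ih =>
    rw [pow_succ, Nat.cast_succ, add_smul, one_smul]
    exact ka b h0 (pow_mem (le1 hu) k) hu ih a

theorem kinv (hu : u ∈ s.N1) (a : s.Kp u v) : s.Kp u⁻¹ (-v) := by
  obtain ⟨t, ht⟩ := tot b h0 (inv_mem (le1 hu))
  have e := ka b h0 (inv_mem (le1 hu)) hu ht a
  rw [inv_mul_cancel, s0 b h0] at e
  rw [kd b h0 (inv_mem (le1 hu)) ht, show -v - t = -(t + v) by abel]
  exact neg_mem e

theorem real {M : SG p n} (hM : M ≤ s.N1)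
    (hw : w ∈ Submodule.span (ZMod p) {w | ∃ g ∈ M, s.Kp g w}) : ∃ g ∈ M, s.Kp g w := by
  induction hw using Submodule.span_induction with
  | mem x hx => exact hx
  | zero => exact ⟨1, one_mem _, k1 b h0⟩
  | add x y _ _ hx hy =>
    obtain ⟨g, a, a'⟩ := hx
    obtain ⟨h, c, c'⟩ := hy
    exact ⟨g * h, mul_mem a c, ka b h0 (le1 (hM a)) (hM c) a' c'⟩
  | smul c x _ hx =>
    obtain ⟨g, a, a'⟩ := hx
    have := kpow b h0 (hM a) a' c.val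
    rw [ZMod.natCast_zmod_val] at this
    exact ⟨g ^ c.val, pow_mem a _, this⟩

theorem conj (hg : g ∈ s.G) (hu : u ∈ s.N1) (c : s.Kp u w) :
    g⁻¹ * u * g ∈ s.N1 ∧ s.Kp (g⁻¹ * u * g) (pull1 (s.lo g.1) w) := by
  have a : g⁻¹ * u * g ∈ s.N1 := by simpa using nm b h0 _ (inv_mem hg) u hu
  obtain ⟨v, hv⟩ := tot b h0 hg
  obtain ⟨t, ht⟩ := tot b h0 (le1 a)
  have e := ka b h0 hg a hv ht
  rw [show g * (g⁻¹ * u * g) = u * g by group] at e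
  have e' := (kd b h0 (mul_mem (le1 hu) hg) e).1 (km b h0 (le1 hu) hg c hv)
  rw [show pull1 (s.lo g.1) w + v - (v + t) = pull1 (s.lo g.1) w - t by abel] at e'
  exact ⟨a, (kd b h0 (le1 a) ht).2 e'⟩

theorem inv_sp (hg : g ∈ s.G) (hw : w ∈ s.Sp) : pull1 (s.lo g.1) w ∈ s.Sp := by
  obtain ⟨u, hu, e⟩ := real b h0 le_rfl hw
  exact Submodule.subset_span ⟨_, (conj b h0 hg hu e).1, (conj b h0 hg hu e).2⟩

theorem mul_sp (hg : g ∈ s.G) (hh : h ∈ s.G) (a : ∃ v ∈ s.Sp, s.Kp g v)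
    (c : ∃ v ∈ s.Sp, s.Kp h v) : ∃ v ∈ s.Sp, s.Kp (g * h) v := by
  obtain ⟨v, a, a'⟩ := a
  obtain ⟨w, c, c'⟩ := c
  exact ⟨_, add_mem (inv_sp b h0 hh a) c, km b h0 hg hh a' c'⟩

theorem func (φ : Frm p n →ₗ[ZMod p] ZMod p) (hφ : ∀ u ∈ s.S0, φ u = 0) : ∃ Q : SG p n,
    Q.relIndex s.N1 ≤ p ∧ ∀ g ∈ s.N1, ∀ u, s.Kp g u → (g ∈ Q ↔ φ u = 0) := by
  choose κ hκ using fun g : s.N1 => tot b h0 (le1 g.2)
  have wd : ∀ (g : s.N1) u, s.Kp g u → φ (κ g) = φ u := fun g u hu => by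
    have := hφ _ ((kd b h0 (le1 g.2) hu).1 (hκ g))
    rwa [map_sub, sub_eq_zero] at this
  let ψ : s.N1 →* Multiplicative (ZMod p) := MonoidHom.mk' (fun g => Multiplicative.ofAdd (φ (κ g)))
    fun g h => by
      rw [← ofAdd_add, ← map_add, wd (g * h) _ (ka b h0 (le1 g.2) h.2 (hκ g) (hκ h))]
  refine ⟨ψ.ker.map s.N1.subtype, ?_, fun g hg u hu => ?_⟩
  · rw [Subgroup.relIndex, Subgroup.subgroupOf,
      Subgroup.comap_map_eq_self_of_injective s.N1.subtype_injective, Subgroup.index_ker]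
    refine (Subgroup.card_le_card_group _).trans_eq ?_
    rw [Nat.card_congr Multiplicative.toAdd, Nat.card_zmod]
  · rw [← wd ⟨g, hg⟩ u hu]
    exact (Subgroup.mem_map_iff_mem (x := ⟨g, hg⟩) s.N1.subtype_injective).trans Iff.rfl

end LEAF1z

open LEAF1z in
theorem s_LEAF1 (p n : ℕ) [Fact p.Prime] (b : TB p n) : S_LEAF1 p n := by
  intro s h0
  have c := b.coc s h0
  refine ⟨fun w hw => real b h0 le_rfl hw, fun P hP hS => le_antisymm (Submodule.span_le.2 ?_)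
    (sup_le (s0_le _) (Submodule.span_mono ?_)),
    fun g hg h hh u v => ka b h0 hg hh, fun h hh u => kpow b h0 hh, fun P hP hS g hg u hu => ?_,
    fun h x hx => ?_, fun g hg u hu e => ?_, func b h0, fun S S' hS h1 h2 h3 g => ?_⟩
  · rintro u ⟨g, hg, hu⟩
    have d : ∀ x ∈ Subgroup.closure (Prod.fst '' P),
        ∃ v ∈ s.S0 ⊔ Submodule.span (ZMod p) (Prod.snd '' P), s.Kp x v := fun x hx => by
      induction hx using Subgroup.closure_induction with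
      | mem x hx =>
        obtain ⟨y, hy, rfl⟩ := hx
        exact ⟨_, Submodule.mem_sup_right (Submodule.subset_span ⟨y, hy, rfl⟩), hP y hy⟩
      | one => exact ⟨0, zero_mem _, k1 b h0⟩
      | mul x y hx hy a a' =>
        obtain ⟨v, a, a1⟩ := a
        obtain ⟨w, a', a2⟩ := a'
        exact ⟨_, add_mem a a', ka b h0 (le1 (hS ▸ hx)) (hS ▸ hy) a1 a2⟩
      | inv x hx a =>
        obtain ⟨v, a, a1⟩ := a
        exact ⟨_, neg_mem a, kinv b h0 (hS ▸ hx) a1⟩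
    obtain ⟨v, a, a'⟩ := d g (hS ▸ hg)
    exact every b h0 le_sup_left (le1 hg) a' hu a
  · rintro _ ⟨y, hy, rfl⟩
    exact ⟨y.1, hS ▸ Subgroup.subset_closure ⟨y, hy, rfl⟩, hP y hy⟩
  · have d : ∀ x ∈ Subgroup.closure (Prod.fst '' P), ∃ v ∈ s.Sp, s.Kp x v := fun x hx => by
      induction hx using Subgroup.closure_induction with
      | mem x hx =>
        obtain ⟨y, hy, rfl⟩ := hx
        exact ⟨_, (hP y hy).2, (hP y hy).1⟩
      | one => exact ⟨0, zero_mem _, k1 b h0⟩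
      | mul x y hx hy a a' => exact mul_sp b h0 (hS ▸ hx) (hS ▸ hy) a a'
      | inv x hx a =>
        obtain ⟨v, a, a1⟩ := a
        have hx' : x ∈ s.G := hS ▸ hx
        obtain ⟨t, ht⟩ := tot b h0 (inv_mem hx')
        have e := km b h0 hx' (inv_mem hx') a1 ht
        rw [mul_inv_cancel, s0 b h0] at e
        have e' := sub_mem (s0_le _ e) (inv_sp b h0 (inv_mem hx') a)
        rw [add_sub_cancel_left] at e'
        exact ⟨t, e', ht⟩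
    obtain ⟨v, a, a'⟩ := d g (hS ▸ hg)
    exact every b h0 (s0_le _) hg a' hu a
  · have hg := hx.1.1
    have d := c.2.2.2.2.2.2.1 _ hg
    have e := hx.2
    rw [((b.cok s h0).2.2.2.1 x hx.1).2.1] at e
    have a := inv_sp b h0 (inv_mem hg)
      (eq_neg_of_add_eq_zero_left e ▸ neg_mem (h _ hg _ ⟨x.2, hx.1.2, rfl⟩))
    rwa [val_inv, (c.2.2.2.2.1 _ ((b.env.1 _).2.1 _ hg)).1, pull1_st_pull1 d.1.2.1] at a
  · obtain ⟨w, hw, e'⟩ : s.Kp g (-s.dl s.δ) := by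
      rw [kd b h0 (le1 hg) hu, show -s.dl s.δ - u = -(s.dl s.δ + u) by abel]
      exact neg_mem e
    have m : s.Mem (g, w) := ⟨le1 hg, hw⟩
    exact ⟨w, m, by
      rw [((b.cok s h0).2.2.2.1 _ m).2.1, lo1 b h0 hg, pull1_one, e', add_neg_cancel]⟩
  · obtain ⟨H, hH⟩ := c.2.2.2.2.2.2.2.2.2.2.2.1
    have a : Subgroup.closure S' ≤ H := (Subgroup.closure_le _).2 fun x hx => (hH x).2 (h1 x hx)
    refine ⟨fun hg => (hH g).1 (a hg), fun ⟨hg, e⟩ => ?_⟩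
    have d : ∀ x ∈ Subgroup.closure S, ∃ y ∈ Subgroup.closure S', y⁻¹ * x ∈ s.N1 := fun x hx => by
      induction hx using Subgroup.closure_induction with
      | mem x hx =>
        obtain ⟨u, a, a'⟩ := h2 x hx
        exact ⟨_, a', by simpa using a⟩
      | one => exact ⟨1, one_mem _, by simp⟩
      | mul x y _ _ i j =>
        obtain ⟨u, i, i'⟩ := i
        obtain ⟨v, j, j'⟩ := j
        exact ⟨_, mul_mem i j, rmul (nm b h0) ((hH v).1 (a j)).1 i' j'⟩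
      | inv x _ i =>
        obtain ⟨u, i, i'⟩ := i
        exact ⟨_, inv_mem i, rinv (nm b h0) ((hH u).1 (a i)).1 i'⟩
    obtain ⟨y, i, j⟩ := d g (hS ▸ hg)
    have := mul_mem i (h3 _ j ((hH _).1 (mul_mem (inv_mem (a i)) ((hH g).2 ⟨hg, e⟩))).2)
    rwa [mul_inv_cancel_left] at this

open LEAF1z in
theorem s_REL (p n : ℕ) [Fact p.Prime] (b : TB p n) (hLEAF1 : S_LEAF1 p n) : S_REL p n := by
  intro s H D h0 hH hD h y hy
  have hG : H ≤ s.G := fun g hg => ((hH g).1 hg).1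
  let D0 : SG p n := sg (fun a => ∃ x ∈ H ⊓ s.X, x⁻¹ * a ∈ s.N1) ⟨1, one_mem _, by simp⟩
    fun a c ⟨x, i, i'⟩ ⟨z, j, j'⟩ => ⟨_, mul_mem i j, rmul (nm b h0) (hG j.1) i' j'⟩
  let X' : SG p n := sg (fun x => x ∈ s.X ∧ ∃ v ∈ s.Sp, s.Kp x v)
    ⟨one_mem _, 0, zero_mem _, k1 b h0⟩
    fun a c i j => ⟨mul_mem i.1 j.1, mul_sp b h0 (h0.le i.1) (h0.le j.1) i.2 j.2⟩
  let S := Submodule.span (ZMod p) {w | ∃ g ∈ s.X ⊓ s.N1, s.Kp g w}
  have hom : ∀ x ∈ X', ∀ z ∈ s.X, ∀ u v t, s.Kp x u → s.Kp z v → s.Kp (x * z) t →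
      t - (u + v) ∈ S := fun x hx z hz u v t hu hv ht => by
    obtain ⟨u', a, a'⟩ := hx.2
    obtain ⟨m, hm, e⟩ := (hLEAF1 s h0).1 u (every b h0 (s0_le _) (h0.le hx.1) a' hu a)
    obtain ⟨c1, c2⟩ := conj b h0 (h0.le hz) hm e
    have e1 := (kd b h0 (mul_mem (h0.le hx.1) (h0.le hz))
      (km b h0 (h0.le hx.1) (h0.le hz) hu hv)).1 ht
    have e2 : pull1 (s.lo z.1) u + -u ∈ S := by
      refine Submodule.subset_span ⟨_, ⟨?_, s.N1.mul_mem c1 (inv_mem hm)⟩,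
        ka b h0 (le1 c1) (inv_mem hm) c2 (kinv b h0 hm e)⟩
      have := mul_mem (inv_mem hz) (h0.nm m (le1 hm) z hz)
      rwa [← mul_assoc, ← mul_assoc] at this
    rw [show t - (u + v) = t - (pull1 (s.lo z.1) u + v) + (pull1 (s.lo z.1) u + -u) by abel]
    exact add_mem (s0_le _ e1) e2
  have mem : ∀ a ∈ D, ∃ x ∈ X', x⁻¹ * a ∈ s.N1 := fun a ha => by
    obtain ⟨x, i, j⟩ := h a ha
    obtain ⟨u, hu⟩ := tot b h0 (h0.le i)
    obtain ⟨w, hw⟩ := tot b h0 (le1 j)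
    have e := ka b h0 (h0.le i) j hu hw
    rw [mul_inv_cancel_left] at e
    have e' : u + w ∈ s.Sp :=
      every b h0 (s0_le _) (hG (hD ha)) ((hH a).1 (hD ha)).2 e (zero_mem _)
    have e'' : w ∈ s.Sp := Submodule.subset_span ⟨_, j, hw⟩
    exact ⟨x, ⟨i, u, by simpa using sub_mem e' e'', hu⟩, j⟩
  have le : ⁅D, D⁆ ≤ D0 := Subgroup.commutator_le.2 fun a ha c hc => by
    obtain ⟨x, i, i'⟩ := mem a ha
    obtain ⟨z, j, j'⟩ := mem c hc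
    have k : ⁅x, z⁆ ∈ X' := mul_mem (mul_mem (mul_mem i j) (inv_mem i)) (inv_mem j)
    obtain ⟨u, hu⟩ := tot b h0 (h0.le i.1)
    obtain ⟨w, hw⟩ := tot b h0 (h0.le j.1)
    obtain ⟨q, hq⟩ := tot b h0 (h0.le k.1)
    obtain ⟨d, hd⟩ := tot b h0 (h0.le (mul_mem j.1 i.1))
    obtain ⟨t, ht⟩ := tot b h0 (h0.le (mul_mem i.1 j.1))
    have e1 := hom _ k _ (mul_mem j.1 i.1) q d t hq hd (by
      rwa [show ⁅x, z⁆ * (z * x) = x * z by rw [commutatorElement_def]; group])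
    have e : -q ∈ S := by
      rw [show -q = t - (q + d) - (t - (u + w)) + (d - (w + u)) by abel]
      exact add_mem (sub_mem e1 (hom x i z j.1 u w t hu hw ht)) (hom z j x i.1 w u d hw hu hd)
    obtain ⟨v, hv, e'⟩ := real b h0 inf_le_right e
    have r : ⁅x, z⁆⁻¹ * ⁅a, c⁆ ∈ s.N1 :=
      rmul (nm b h0) (inv_mem (h0.le j.1)) (rmul (nm b h0) (inv_mem (h0.le i.1))
        (rmul (nm b h0) (h0.le j.1) i' j') (rinv (nm b h0) (h0.le i.1) i'))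
        (rinv (nm b h0) (h0.le j.1) j')
    refine ⟨⁅x, z⁆ * v, ⟨(hH _).2 ⟨mul_mem (h0.le k.1) (le1 hv.2), ?_⟩, mul_mem k.1 hv.1⟩, ?_⟩
    · simpa using ka b h0 (h0.le k.1) hv.2 hq e'
    · rw [_root_.mul_inv_rev, mul_assoc]
      exact mul_mem (inv_mem hv.2) r
  obtain ⟨x, i, j⟩ := le hy
  exact ⟨x, i, H.mul_mem (H.inv_mem i.1) (hD (b.sol _ |>.1 1 D hy)), j⟩

end Pool.Agent.P.MP_f1a348_lc.UP.CU.AF
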