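import Pool.Agent.P.MP_f1a348_lc.AF.Iface

/-!
Project AF, task LIF: lifting through a box.
-/

namespace Pool.Agent.P.MP_f1a348_lc.UP.CU.AF

open Matrix Module Pool.Agent.P.MP_f1a348_lc.PG
open Pool.Agent.P.MP_f1a348_lc.CE (QS QY UQ EU LTY Geo)
open scoped commutatorElement

set_option linter.unusedSectionVars false

namespace LIFz

variable {p n : ℕ} [Fact p.Prime] {ℓ : Ix n → ℕ}

/-- the action on one level -/
noncomputable def sig (hl : Lab ℓ) (t : ℕ) (y : Mat p n) :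
    Module.End (ZMod p) (Wt ℓ t : Submodule (ZMod p) (Frm p n)) :=
  (pull1 (gr ℓ y)).restrict fun _ hw => pull1_mem_Wt hl (dg_gr y) hw

theorem sig_val (hl : Lab ℓ) (t : ℕ) (y : Mat p n) (w : (Wt ℓ t : Submodule (ZMod p) (Frm p n))) :
    (sig hl t y w).1 = pull1 (gr ℓ y) w.1 := rfl

theorem dif_val (hl : Lab ℓ) (t : ℕ) (l : List (Mat p n)) (h : ∀ y ∈ l, gr ℓ y = y)
    (w : (Wt ℓ t : Submodule (ZMod p) (Frm p n))) : (CE.dif (sig hl t) l w).1 =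
      CE.dif (fun z => (pull1 z : Module.End (ZMod p) (Frm p n))) l w.1 := by
  induction l with
  | nil => rfl
  | cons y l ih =>
    have e := ih fun z hz => h z (List.mem_cons_of_mem _ hz)
    simp only [CE.dif, List.map_cons, List.prod_cons, Module.End.mul_apply, LinearMap.sub_apply,
      Module.End.one_apply, Submodule.coe_sub, sig_val] at e ⊢
    rw [e, h y List.mem_cons_self]

theorem gr_conj (hl : Lab ℓ) {h x : Mat p n} (hh : Dg ℓ h) (hx : Tri ℓ x) :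
    gr ℓ (st h * x * h) = st h * gr ℓ x * h := by
  rw [gr_mul (((hh.st hl).tri hl).mul hx) (hh.tri hl), gr_mul ((hh.st hl).tri hl) hx, hh.gr_eq,
    (hh.st hl).gr_eq]

end LIFz
open LIFz

theorem s_LIF (p n : ℕ) [Fact p.Prime] (b : TB p n) (e : TE p n) : S_LIF p n := by
  intro Γ Y f ℓ g ℓ' a κ hst hCF hOv hF hκ hY hcase
  obtain ⟨-, -, -, s4, s5, s6, s7, -⟩ := b.sec.2.2.2.2.1 f g ℓ ℓ' hF
  have hl := hF.lab
  have hS : Str ℓ' (gB (Env Y) g ℓ') :=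
    ((b.rad _ g ℓ' (b.env.1 Y).1 hCF.lab hCF.tri).2.2 hCF).1
  have hB : Big ℓ' (gB (Env Y) g ℓ') 200 := ((b.stcf.1 Y g ℓ' hCF).1 hst).2.big hS
  obtain ⟨g1, g2, g3, g4, -⟩ := b.gi Y g ℓ' hCF.lab hCF.tri
  have hT' : ∀ x ∈ Γ, Tri ℓ' (fr g x.1) := ((b.env.1 Γ).2.2.2.2.2.1 g ℓ').1 hOv.tri
  have hu : Un (f⁻¹ * g).1 := (f⁻¹ * g).2.2.1
  have hc : ∀ x ∈ Γ, gr ℓ (fr g x.1) = st (f⁻¹ * g).1 * gr ℓ (fr f x.1) * (f⁻¹ * g).1 :=
    fun x hx => by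
      have e1 := (b.env.2.1 f x.1 x.1).2.2.2.2.1 (f⁻¹ * g)
      rw [mul_inv_cancel_left] at e1
      rw [e1, ← gr_conj hl hF.dg ((s5 _).1 (s6 _ (hT' x hx))), fr, cj_apply, st_st]
  have him : gr ℓ' '' {y | ∃ x ∈ Y, fr g x.1 = y} = gi g ℓ' Y := by
    ext z
    exact ⟨fun ⟨_, ⟨x, hx, e1⟩, e2⟩ => ⟨x, hx, by rw [e1, e2]⟩,
      fun ⟨x, hx, e1⟩ => ⟨_, ⟨x, hx, rfl⟩, e1⟩⟩
  have hgr : ∀ y, U1 (gB (Env Y) g ℓ') y → gr ℓ y = y := fun y hy =>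
    Dg.gr_eq fun α β h0 => s7 α β (hS.alg.dg y hy.1 α β h0)
  obtain ⟨d, hd, hdeg, hlt⟩ : ∃ d ≤ 3, (∀ l : List (Mat p n), l.length = d + 1 →
      (∀ y ∈ l, U1 (gB (Env Y) g ℓ') y) → l.Pairwise CE.Os → ∀ w ∈ Wt ℓ (key ℓ a),
      CE.dif (fun z => (pull1 z : Module.End (ZMod p) (Frm p n))) l w = 0) ∧
      (d = 3 → LTY ℓ' (gB (Env Y) g ℓ') (gi g ℓ' Y)) := by
    rcases hcase with ⟨j, hj⟩ | hL
    · refine ⟨2, by omega, fun l h1 h2 h3 w hw => ?_, by omega⟩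
      rw [← Finset.univ_sum_single w, map_sum]
      refine Finset.sum_eq_zero fun i _ => ?_
      by_cases h0 : w i = 0
      · rw [h0, Pi.single_zero, map_zero]
      · have e1 : ℓ (i j) = ℓ (a j) := (key_eq_iff hl).1 (by_contra fun h4 => h0 (hw i h4)) j
        have e2 : KS f ℓ (a j) = KS f ℓ (i j) := by rw [KS, KS, sL, sL, sH, sH, e1, nb_congr e1]
        have e3 : Y ≤ KS g ℓ' (i j) := (hj.trans e2.le).trans
          (b.sec.2.1 _ _ _ _ (s4 _).2.2.1 (b.sec.1 g ℓ' (i j) hF.lab').1 (s4 _).2.2.2)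
        refine ((e.deg l h3).2 h1).1 ℓ' _ i hS ⟨j, b.stcf.2.2 Y g ℓ' _ hCF e3⟩ h2 _
          fun k hk => Pi.single_eq_of_ne (fun h4 => hk (by rw [h4])) _
    · exact ⟨3, le_rfl, fun l h1 _ h3 w _ => by rw [(e.deg l h3).1 h1]; rfl, fun _ => hL⟩
  have key' := e.lift ℓ' (gB (Env Y) g ℓ') d (Wt ℓ (key ℓ a) : Submodule (ZMod p) (Frm p n))
    (sig hl (key ℓ a))
    (fun y w => ∃ x ∈ Γ, fr g x.1 = y ∧ ∃ u, κ x u ∧ pull1 (f⁻¹ * g).1 u = w.1)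
    {y | ∃ x ∈ Y, fr g x.1 = y} hS hB hd
    ⟨LinearMap.ext fun w => Subtype.ext (by rw [sig_val, gr_one, pull1_one]; rfl),
      fun y z hy _ hz _ => LinearMap.ext fun w => Subtype.ext (by
        rw [Module.End.mul_apply, sig_val, sig_val, sig_val, gr_mul (s6 _ hy.1) (s6 _ hz.1),
          pull1_mul]),
      fun l h1 h2 h3 => LinearMap.ext fun w => Subtype.ext (by
        rw [dif_val hl _ l fun y hy => hgr y (h2 y hy), hdeg l h1 h2 h3 _ w.2]; rfl),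
      by
        rintro _ w ⟨x, hx, rfl, -⟩
        exact ⟨⟨hT' x hx, b.env.2.2.1 g x ▸ (g⁻¹ * x * g).2.2⟩, (hOv.uq _ ⟨x, hx, rfl⟩).1.1⟩,
      ⟨1, Γ.one_mem, (b.env.2.1 g 1 1).2.2.1, 0, hκ.one, map_zero _⟩,
      by
        rintro _ w _ v ⟨x, hx, rfl, u, hu1, e1⟩ ⟨y, hy, rfl, u', hu2, e2⟩
        refine ⟨x * y, Γ.mul_mem hx hy, (b.env.2.1 g x.1 y.1).1, _, hκ.mul x hx y hy u u' hu1 hu2,
          ?_⟩
        rw [map_add, Submodule.coe_add, sig_val, ← e1, ← e2, hc y hy, ← pull1_mul, ← pull1_mul,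
          ← mul_assoc, ← mul_assoc, hu.mul_st, one_mul]⟩
    (him ▸ ⟨g1, g4 hst.1, fun y hy => (g2 y hy).1, g3⟩)
    (by
      rintro _ ⟨x, hx, rfl⟩
      exact ⟨x, hOv.le hx, rfl, 0, hY x hx, map_zero _⟩)
    (by
      rw [him]
      intro z hz
      obtain ⟨x, hx, rfl⟩ := hOv.eu z hz
      obtain ⟨u, h1⟩ := hκ.tot x hx
      exact ⟨_, ⟨_, pull1_mem_Wt hl hF.dg (hκ.wt x hx u h1)⟩, ⟨x, hx, rfl, u, h1, rfl⟩, rfl⟩)
    (him ▸ hlt)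
  rw [him] at key'
  refine ⟨sg (fun x => x ∈ Γ ∧ κ x 0) ⟨Γ.one_mem, hκ.one⟩ fun x y hx hy =>
    ⟨Γ.mul_mem hx.1 hy.1, by simpa using hκ.mul x hx.1 y hy.1 0 0 hx.2 hy.2⟩, fun _ => Iff.rfl,
    fun y hy => ⟨hOv.le hy, hY y hy⟩,
    ((b.env.1 _).2.2.2.2.2.1 g ℓ').2 fun x hx => hT' x hx.1,
    fun z ⟨x, hx, e1⟩ => hOv.uq z ⟨x, hx.1, e1⟩, fun z hz => ?_⟩
  obtain ⟨_, ⟨x, hx, rfl, u, h1, e1⟩, e2⟩ := key' z hz
  have e3 : u = 0 := by rw [← hu.pull1_st u, e1]; exact map_zero _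
  exact ⟨x, ⟨hx, e3 ▸ h1⟩, e2⟩

end Pool.Agent.P.MP_f1a348_lc.UP.CU.AF
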