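import Pool.Agent.P.MP_f1a348_lc.AF.Iface
import Pool.Agent.P.MP_f1a348_lc.UP.TLOCST

namespace Pool.Agent.P.MP_f1a348_lc.UP.CU.AF

open Matrix Module Pool.Agent.P.MP_f1a348_lc.PG
open Pool.Agent.P.MP_f1a348_lc.CE (QS QY UQ EU LTY Geo)
open scoped commutatorElement

theorem s_LOCU (p n : ℕ) [Fact p.Prime] (b : TB p n) (hCLIFF : S_CLIFF p n) (hLOCX : S_LOCX p n)
    (hSSF : S_SSF p n) : S_LOCU p n := by
  intro s h0 hs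
  obtain ⟨eZ, eF, -, e4, e5, e6, -⟩ := b.env
  have hT : TriR (Env s.X) s.f s.ℓ := fun x hx => h0.tri x ((eZ s.X).2.2.1 _ h0.le hx)
  obtain ⟨c1, c2, -, -, c5, c6, c7, -, -, c10, -⟩ := b.coc s h0
  obtain ⟨-, ⟨Z, hZ⟩, hz⟩ := hLOCX s.X s.f s.ℓ s.lam h0.lab c2 hT
  obtain ⟨eE, hsf⟩ := hz Z hZ
  change Env Z = s.le s.X at eE
  obtain ⟨sZ, fZ⟩ := hsf h0.stable h0.full
  obtain ⟨aX, sX, -⟩ := c6 s.X h0.le
  obtain ⟨k1, k2⟩ := hSSF Z sZ fZ (eE ▸ (b.ssm _ sX (hCLIFF s h0 hs).1).2.1)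
  have par : ∀ g ∈ s.G, Par (l0 n) (s.lo g.1) := (hLOCX s.G s.f s.ℓ s.lam h0.lab c2 h0.tri).1
  have hm : ∀ g ∈ s.G, ∀ h ∈ s.G, s.lo (g * h).1 = s.lo g.1 * s.lo h.1 := fun g hg h hh =>
    (c5 _ ((eZ _).2.1 g hg)).2.2 _ ((eZ _).2.1 h hh)
  have hi : ∀ g ∈ s.G, s.lo (g⁻¹).1 = st (s.lo g.1) := fun g hg => (c5 _ ((eZ _).2.1 g hg)).1
  have hc : ∀ g ∈ s.G, ∀ h ∈ s.G, s.lo (g * h * g⁻¹).1 = s.lo g.1 * s.lo h.1 * st (s.lo g.1) :=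
    fun g hg h hh => by rw [hm _ (mul_mem hg hh) _ (inv_mem hg), hm _ hg _ hh, hi _ hg]
  refine ⟨fun D hD hl => ?_, fun Y Z' A h1 h2 hY hA hle => ?_, fun hS z hz => ?_⟩
  · refine (Subgroup.commutator_le (H₃ := sg (fun y => ∃ x ∈ s.X, x⁻¹ * y ∈ s.N1)
      ⟨1, one_mem _, by simp⟩ fun y y' ⟨x, hx, e⟩ ⟨x', hx', e'⟩ => ⟨x * x', mul_mem hx hx', by
        simpa [mul_assoc] using mul_mem (c10 _ (inv_mem (h0.le hx')) _ e) e'⟩)).2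
      fun a ha a' ha' => ?_
    have nm : ∀ g (hg : g ∈ s.G), ∀ u : GG p n, u.1 = s.lo g.1 → ∀ z ∈ Z, u * z * u⁻¹ ∈ Z := by
      intro g hg u eu z hz
      obtain ⟨x, hx, e⟩ := (hZ z).1 hz
      refine (hZ _).2 ⟨_, h0.nm g hg x hx, (hc g hg x (h0.le hx)).trans ?_⟩
      rw [val_mul, val_mul, val_inv, eu, ← e]; rfl
    have hG := hD ha
    have hG' := hD ha'
    obtain ⟨x, hx, e⟩ := (hZ _).1 (k1 ⟨_, par a hG⟩ ⟨_, par a' hG'⟩ (eE ▸ hl a ha) (eE ▸ hl a' ha')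
      (nm a hG _ rfl) (nm a' hG' _ rfl))
    have m : ⁅a, a'⁆ ∈ s.G := mul_mem (mul_mem (mul_mem hG hG') (inv_mem hG)) (inv_mem hG')
    have e' : s.lo (⁅a, a'⁆ : GG p n).1 = s.lo x.1 := by
      rw [commutatorElement_def, hm _ (mul_mem (mul_mem hG hG') (inv_mem hG)) _ (inv_mem hG'),
        hc _ hG _ hG', hi _ hG']
      exact e.symm
    refine ⟨x, hx, (c7 _ (mul_mem (inv_mem (h0.le hx)) m)).2.1.2 ?_⟩
    rw [hm _ (inv_mem (h0.le hx)) _ m, hi _ (h0.le hx), e']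
    exact (par x (h0.le hx)).2.1
  · have l1 : Z ≤ Z' := fun z hz => by
      obtain ⟨x, hx, e⟩ := (hZ z).1 hz
      exact (hY z).2 ⟨x, h1 hx, e⟩
    have l2 : UG A ≤ UG (Env Z) := fun g hg => by
      rw [eE]
      exact ((e4 _ sX).1 g).2 (hle (((e4 _ (e5 _ _ c1 hA).1).1 g).1 hg))
    exact ((Subgroup.relIndex_le_of_le_left l1 Subgroup.index_ne_zero_of_finite).trans
      (Subgroup.relIndex_le_of_le_right l2 Subgroup.index_ne_zero_of_finite)).trans k2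
  · have eg : gi 1 s.ll Z = s.li s.X := by
      have : ∀ x ∈ Z, gr s.ll (fr 1 x.1) = x.1 := fun x hx => by
        rw [(eF 1 x.1 1).2.2.2.1]
        exact (aX.dg _ (eE ▸ (eZ Z).2.1 x hx)).gr_eq
      ext z
      refine ⟨fun ⟨x, hx, e⟩ => ?_, fun ⟨y, hy, e⟩ => ?_⟩
      · obtain ⟨y, hy, e'⟩ := (hZ x).1 hx
        exact ⟨y, hy, e'.trans ((this x hx).symm.trans e)⟩
      · have m : (⟨_, par y (h0.le hy)⟩ : GG p n) ∈ Z := (hZ _).2 ⟨y, hy, rfl⟩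
        exact ⟨_, m, (this _ m).trans e⟩
    have := fZ 1 s.ll (eE ▸ e6 _ _ hS) z
    rw [EX, QX, eg, eE, (e5 _ _ c1 aX).2.2] at this
    exact this hz

open LOCSTz in
theorem s_LOCST (p n : ℕ) [Fact p.Prime] (b : TB p n) (hCLIFF : S_CLIFF p n)
    (hGENF : S_GENF p n) : S_LOCST p n := by
  intro s h0 hs
  obtain ⟨eZ, eF, -⟩ := b.env
  have hR : SA (Env s.X) := (eZ s.X).1
  have hT : TriR (Env s.X) s.f s.ℓ := fun x hx => h0.tri x ((eZ s.X).2.2.1 _ h0.le hx)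
  obtain ⟨f, ℓ, hf, hc⟩ := (b.cfx _ s.f s.ℓ h0.lab hT).2.2 hR
  obtain ⟨-, r2, r3⟩ := b.rad _ f ℓ hR hc.lab hc.tri
  have hB := (r3 hc).1
  obtain ⟨-, c2, -, c4, -, -, c7, -⟩ := b.coc s h0
  have hclo := off_clo (I := s.lam) hB c2.rev
  have hcl := (hCLIFF s h0 hs).2.2 f ℓ hf hc
  have hN : s.X ⊓ s.N1 = s.X ⊓ KB f ℓ (Off ℓ (gB (Env s.X) f ℓ) s.lam)ᶜ := by
    ext y
    simp only [Subgroup.mem_inf]
    refine and_congr_right fun hy => ?_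
    have m1 : y.1 ∈ Env s.X := (eZ s.X).2.1 y hy
    have m2 : y.1 - 1 ∈ Env s.X := sub_mem m1 hR.one
    have e0 : (y.1 - 1) (c0 n) (c0 n) = 0 := by
      rw [Matrix.sub_apply, y.2.2.2, Matrix.one_apply_eq, sub_self]
    rw [(c7 y (h0.le hy)).2.1, ← c4, ← sub_eq_zero, ← map_sub, hcl _ m2, and_iff_left e0,
      mi_iff b.blk hR hc hB m2 e0, mem_KB]
    exact forall₂_congr fun α _ => (((b.blk _ f ℓ hR hc).1 α).2.2.2.2.2 y m1).symm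
  obtain ⟨g1, -, g4, g5, g6⟩ := hGENF s.X f ℓ _ h0.stable h0.full hc hclo (off_iso hB) _ rfl
  rw [← hN] at g1 g4 g5 g6
  have hY : Op p (s.X ⊓ s.N1) ≤ s.X := ((b.op _).1 _).1.trans inf_le_left
  refine ⟨g1, fun y hy => ?_, fun x hx e => ?_⟩
  · obtain ⟨z, hz, ez⟩ := g6 y hy
    have m1 : y.1 ∈ Env s.X := (eZ s.X).2.1 y hy.1
    have m2 : st y.1 ∈ Env s.X := hR.star _ m1
    have m3 : st z.1 ∈ Env s.X := hR.star _ ((eZ s.X).2.1 z (hY hz))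
    refine ⟨z, hz, r2 _ (sub_mem (hR.mul _ m3 _ m1) hR.one) ?_⟩
    rw [map_sub, map_sub, val_mul, val_inv, (eF f _ _).1, gr_mul (hc.tri _ m3) (hc.tri _ m1),
      (eF f z.1 1).2.1, gr_st hc.lab, ez, ← gr_st hc.lab, ← (eF f y.1 1).2.1,
      ← gr_mul (hc.tri _ m2) (hc.tri _ m1), ← (eF f _ _).1, y.2.2.1, sub_self]
  · obtain ⟨m1, e0⟩ := (hcl x hx).1 e
    have e1 := lc_eq hclo (((eF f x 1).2.2.2.2.2.1 (hR.dg x hx)).2.trans e0)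
      ((mi_iff b.blk hR hc hB hx e0).1 m1)
    have m2 : gr ℓ (fr f x) ∈ gB (Env (Op p (s.X ⊓ s.N1))) f
        (lS ℓ (Off ℓ (gB (Env s.X) f ℓ) s.lam)) := by
      rw [g4]
      exact ⟨_, ⟨x, hx, rfl⟩, e1⟩
    obtain ⟨z, hz, ez⟩ := m2
    refine ⟨z, hz, r2 _ (sub_mem hx ((eZ _).2.2.1 _ hY hz)) ?_⟩
    rw [map_sub, map_sub, ← g5 z hz, ← ez, LinearMap.comp_apply, sub_self]

end Pool.Agent.P.MP_f1a348_lc.UP.CU.AF
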