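import Pool.Agent.P.MP_f1a348_lc.AF.Iface

namespace Pool.Agent.P.MP_f1a348_lc.UP.CU.AF

open Matrix Module Pool.Agent.P.MP_f1a348_lc.PG
open Pool.Agent.P.MP_f1a348_lc.CE (QS QY UQ EU LTY Geo)
open scoped commutatorElement

theorem s_LOCX (p n : ℕ) [Fact p.Prime] (b : TB p n) (hLOCE : S_LOCE p n)
    (hFULLT : S_FULLT p n) : S_LOCX p n := by
  intro X f ℓ S hl hS ht
  obtain ⟨hE, hF, -⟩ := b.env
  obtain ⟨sa, hm, -, -, -, htri, -⟩ := hE X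
  obtain ⟨-, lm, l1, -, -, -, -, -, -, lp⟩ := b.lc.1 ℓ S hl hS
  have tg : ∀ x ∈ X, Tri ℓ (fr f x.1) := (htri f ℓ).1 ht
  have hp : ∀ x ∈ X, Par (l0 n) (loc f ℓ S x.1) := fun x hx => (lp f x (tg x hx)).1.l0
  have mul : ∀ x ∈ X, ∀ y ∈ X, loc f ℓ S (x * y).1 = loc f ℓ S x.1 * loc f ℓ S y.1 :=
    fun x hx y hy => by
      show lc ℓ S (fr f (x.1 * y.1)) = _
      rw [(hF f x.1 y.1).1]
      exact lm _ _ (tg x hx) (tg y hy)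
  refine ⟨hp, ⟨sg (fun z => ∃ y ∈ X, loc f ℓ S y.1 = z.1) ⟨1, X.one_mem, ?_⟩ ?_,
    fun z => Iff.rfl⟩, fun Z hZ => ?_⟩
  · show lc ℓ S (fr f 1) = 1
    rw [(hF f 1 1).2.2.1, l1]
  · rintro a c ⟨x, hx, e1⟩ ⟨y, hy, e2⟩
    exact ⟨x * y, X.mul_mem hx hy, by rw [mul x hx y hy, e1, e2]; rfl⟩
  have hz : ∀ y (hy : y ∈ X), (⟨_, hp y hy⟩ : GG p n) ∈ Z := fun y hy => (hZ _).2 ⟨y, hy, rfl⟩
  have eZ : Env Z = (Env X).map (loc f ℓ S) := by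
    unfold Env
    rw [Submodule.map_span]
    congr 1
    ext z
    constructor
    · rintro ⟨g, hg, rfl⟩
      obtain ⟨y, hy, e⟩ := (hZ g).1 hg
      exact ⟨y.1, ⟨y, hy, rfl⟩, e⟩
    · rintro ⟨_, ⟨y, hy, rfl⟩, rfl⟩
      exact ⟨_, hz y hy, rfl⟩
  refine ⟨eZ, fun hst hfu => ?_⟩
  obtain ⟨f', ℓ', fi, cf⟩ := (b.cfx (Env X) f ℓ hl ht).2.2 sa
  obtain ⟨hS', h, -, cf', eB, eg⟩ := b.locf (Env X) f f' ℓ ℓ' S sa fi cf hS
  rw [← eZ] at cf' eB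
  have str : Str ℓ' (gB (Env X) f' ℓ') := ((b.rad _ f' ℓ' sa cf.lab cf.tri).2.2 cf).1
  obtain ⟨-, -, -, lg, ln, -⟩ := b.lc.1 ℓ' S cf.lab hS'
  have eI : gi h (lS ℓ' S) Z = lc ℓ' S '' gi f' ℓ' X := by
    ext z
    constructor
    · rintro ⟨g, hg, rfl⟩
      obtain ⟨y, hy, e⟩ := (hZ g).1 hg
      exact ⟨_, ⟨y, hy, rfl⟩, by rw [← e, eg _ (hm y hy), (lg _).2.2.2.1]; rfl⟩
    · rintro ⟨_, ⟨y, hy, rfl⟩, rfl⟩
      exact ⟨_, hz y hy, by rw [(lg _).2.2.2.1]; exact eg _ (hm y hy)⟩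
  obtain ⟨g1, g2, g3, -⟩ := b.gi X f' ℓ' cf.lab cf.tri
  refine ⟨(b.stcf.1 Z h _ cf').2 ⟨?_, ?_⟩, hFULLT Z h _ cf' ?_⟩
  · classical
    intro ψ hψ z hz'
    obtain ⟨y, hy, e⟩ := (hZ z).1 hz'
    have := hst.1 (fun x => if hx : x ∈ X then ψ ⟨_, hp x hx⟩ else 0) (fun x hx x' hx' => by
      rw [dif_pos hx, dif_pos hx', dif_pos (X.mul_mem hx hx'), ← hψ _ (hz x hx) _ (hz x' hx')]
      exact congrArg ψ (Subtype.ext (mul x hx x' hx'))) y hy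
    rw [dif_pos hy] at this
    rw [← this]
    exact congrArg ψ (Subtype.ext e.symm)
  · rw [eB]
    intro a t
    obtain ⟨-, c1, c2, c3, -⟩ := b.lcs ℓ' S _ str hS'
    have ha : a ∈ S := by
      by_contra h'
      exact t (c3 a h')
    have := ((b.stcf.1 X f' ℓ' cf).1 hst).2 a fun t' => t ((c2 a ha).2 t')
    rw [eb, c1 a ha a ha, (ln a ha).1]
    exact this
  · unfold EX QX
    rw [eB, eI]
    exact (hLOCE ℓ' S _ _ str hS' g1 (fun y hy => (g2 y hy).1) g3).1 (hfu f' ℓ' cf)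

theorem s_SSF (p n : ℕ) [Fact p.Prime] (b : TB p n) (e : TE p n) : S_SSF p n := by
  intro X hst hfu hr
  obtain ⟨hE, hF, -, hU, -⟩ := b.env
  obtain ⟨sa, hm, -⟩ := hE X
  obtain ⟨u1, -, -, t0⟩ := hU _ sa
  obtain ⟨f, ℓ, -, cf⟩ := (b.cfx (Env X) 1 (l0 n) lab_l0 t0).2.2 sa
  obtain ⟨-, inj, h3⟩ := b.rad _ f ℓ sa cf.lab cf.tri
  have str := (h3 cf).1
  obtain ⟨-, g2, g3, -, gm, gs, go, -⟩ := b.gi X f ℓ cf.lab cf.tri
  obtain ⟨geo, -, a3, -⟩ := e.adm ℓ _ _ str (fun y hy => (g2 y hy).1) g3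
  have big : Big ℓ (gB (Env X) f ℓ) 40 :=
    Giant.big' str ((b.stcf.1 X f ℓ cf).1 hst).2 (by norm_num)
  have key : ∀ g : GG p n, g.1 ∈ Env X → gr ℓ (fr f g.1) ∈ EX f ℓ X → g ∈ X := fun g hg h => by
    obtain ⟨x, hx, ex⟩ := hfu f ℓ cf _ h
    have : x.1 - g.1 = 0 :=
      hr _ (inj _ (sub_mem (hm x hx) hg) (by rw [map_sub, map_sub, ex, sub_self]))
    have e' : x = g := Subtype.ext (sub_eq_zero.1 this)
    rwa [← e']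
  have u : ∀ g : GG p n, g.1 ∈ Env X → U1 (gB (Env X) f ℓ) (gr ℓ (fr f g.1)) := fun g hg =>
    ⟨⟨_, hg, rfl⟩, by rw [Un, ← gs, ← gm _ (sa.star _ hg) _ hg, g.2.2.1.st_mul, go], by
      rw [gr_apply, if_pos rfl, ((hF f g.1 g.1).2.2.2.2.2.1 g.2.1.dg_l0).2, g.2.2.2]⟩
  have uq : ∀ a : GG p n, a.1 ∈ Env X → (∀ x ∈ X, a * x * a⁻¹ ∈ X) →
      UQ (gB (Env X) f ℓ) (QX f ℓ X) (gr ℓ (fr f a.1)) := fun a ha h => a3 _ (u a ha) (by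
    rintro _ ⟨x, hx, rfl⟩
    exact ⟨_, h x hx, by
      rw [val_mul, val_mul, val_inv, gm _ (sa.mul _ ha _ (hm x hx)) _ (sa.star _ ha),
        gm _ ha _ (hm x hx), gs]⟩)
  refine ⟨fun a c ha hc na nc => ?_, ?_⟩
  · have m1 := sa.mul _ ha _ hc
    have m2 := sa.mul _ m1 _ (sa.star _ ha)
    refine key _ (sa.mul _ m2 _ (sa.star _ hc)) ?_
    show gr ℓ (fr f (a.1 * c.1 * st a.1 * st c.1)) ∈ _
    rw [gm _ m2 _ (sa.star _ hc), gm _ m1 _ (sa.star _ ha), gm _ ha _ hc, gs, gs]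
    exact e.abel ℓ _ _ geo big _ _ (uq a ha na) (uq c hc nc)
  · obtain ⟨R, hR, ru, cov⟩ := e.idx ℓ _ _ geo big
    have grp := (e.base.2.2.2.2.1 ℓ _ _ geo).1
    have : ∀ t : Mat p n, ∃ g : GG p n, Un t → ∀ g' : GG p n, g'.1 ∈ Env X →
        st t * gr ℓ (fr f g'.1) ∈ EX f ℓ X → g⁻¹ * g' ∈ X := fun t => by
      by_cases h : ∃ g : GG p n, g.1 ∈ Env X ∧ st t * gr ℓ (fr f g.1) ∈ EX f ℓ X
      · obtain ⟨g, hg, h⟩ := h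
        refine ⟨g, fun ut g' hg' h' => key _ (sa.mul _ (sa.star _ hg) _ hg') ?_⟩
        have := grp.mul _ (grp.star _ h) _ h'
        rw [st_mul, st_st, mul_assoc, ← mul_assoc t, ut.mul_st, one_mul] at this
        rw [val_mul, val_inv, gm _ (sa.star _ hg) _ hg', gs]
        exact this
      · exact ⟨1, fun _ g' hg' h' => (h ⟨g', hg', h'⟩).elim⟩
    choose g hg using this
    refine (b.sol (GG p n)).2.2.2.2.2.2.2.2.2.2.2.2.2.2 (R.toList.map g) _ X (fun x hx => ?_)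
      |>.trans (by simpa using hR)
    have hx' := (u1 x).1 hx
    obtain ⟨t, ht, h⟩ := cov _ (u x hx')
    exact ⟨g t, List.mem_map_of_mem (Finset.mem_toList.2 ht), hg t (ru t ht).2.1 x hx' h⟩

end Pool.Agent.P.MP_f1a348_lc.UP.CU.AF
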