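import Pool.Agent.P.MP_f1a348_lc.AF.PIf

/-!
Project AF: the single call of a free step.
-/

namespace Pool.Agent.P.MP_f1a348_lc.UP.CU.AF

open Matrix Module Pool.Agent.P.MP_f1a348_lc.PG
open scoped commutatorElement

namespace LOOPFz

theorem rho0_le (p n : ℕ) : rho0 p n ≤ rho p n := by
  unfold rho0 rho
  exact Nat.mul_le_mul_right _ (Nat.mul_le_mul_right _ (by norm_num))

end LOOPFz

theorem s_LOOPF (p n : ℕ) [Fact p.Prime] (t : TM p n) (q : TQ p n) (hQF : S_QF p n)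
    (hFREE : S_FREE p n) (hQFIN : S_QFIN p n) : S_LOOPF p n := by
  intro γ om c s E EG B u o x hc hs hsim ⟨⟨b, ψ, h1, h2, h3⟩, h4, h5⟩ hS hG hB hpad hx
  obtain ⟨cc, τ, hPr, hE⟩ := id hs
  obtain ⟨dcall, dfeed, dcl, -⟩ := q.dec om c hc
  obtain ⟨f1, f2⟩ := hFREE s EG cc τ b ψ o.H o.X o.F o.φ hPr hsim h1 h2 h4 h3
  have hcard := ((hQF s b ψ hPr.toOk0 h1).2 o.H h2).2.2.1
  have hpos : 0 < Nat.card o.H := Nat.card_pos
  obtain ⟨u, rfl⟩ : ∃ u', u = u' + 1 := by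
    cases u with
    | zero => omega
    | succ u => exact ⟨u, rfl⟩
  have hp : 0 < p := (Fact.out : p.Prime).pos
  have hP : 0 < 5 ^ E := by positivity
  have z0 : 0 < s.sz := Finset.prod_pos fun _ _ => nb_pos _ _
  have r0 := LOOPFz.rho0_le p n
  have a1 : 6 * ((u + 1 + 1) * 5 ^ E) * s.sz =
      6 * ((u + 1) * 5 ^ E) * s.sz + 6 * (5 ^ E * s.sz) := by ring
  have a2 : 5 ^ E ≤ 5 ^ E * s.sz := Nat.le_mul_of_pos_right _ z0
  have a3 : rho p n ≤ rho p n * (6 * (5 ^ E * s.sz)) := Nat.le_mul_of_pos_right _ (by omega)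
  have htop : top n ≤ rho p n := Nat.le_mul_of_pos_left _ (by omega)
  have ha := enc3_lt s.a
  rw [a1, Nat.mul_add] at hpad
  have hsm : s.Sm c.2.2.length := St.sm_of t.kid hs (hB.mono (by omega))
  have e0 : fmD p n (clM c x) = s.frF o := by
    rw [dcl _ (hx ▸ ⟨hsm, hsm, ⟨Nat.zero_le _, fun r hr => (List.not_mem_nil hr).elim⟩,
      (by show 1 ≤ _; omega), fun r hr => by
        rw [List.mem_singleton.1 hr]; show enc3 s.a ≤ _; omega,
      smF_of t.kid h4.inv.val (h5.trans (by omega))⟩), hx]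
  obtain ⟨q1, L, e1, e2, -⟩ := List.map_eq_cons_iff.1 (congrArg FR.todo e0)
  have e3 : stD p n (call c (clM c x) q1) = s.sub s.f s.ℓ s.a o := by
    rw [dcall, e2, e0]
    show s.sub s.f s.ℓ (bx n (enc3 s.a)) o = _
    rw [bx_enc]
  obtain ⟨y, k, ev, po, b1, l1⟩ := hS u (Nat.lt_succ_self u) (call c (clM c x) q1) EG
    (B + rho0 p n) (e3 ▸ ⟨cc, τ, f1, hE⟩) (by rw [e3]; rfl)
    (by rw [e3]; show Nat.card o.H ≤ _; rw [pow_succ] at hG; omega)
    (by
      rw [e3]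
      exact ⟨(List.length_append).le.trans (Nat.add_le_add hB.1 h5),
        (hB.mono (Nat.le_add_right _ _)).2⟩) (by omega)
  rw [e3] at po b1
  change _ ≤ 6 * ((u + 1) * 5 ^ E) * s.sz at b1
  set r := outD p n (fin c y) with hr
  have po' : s.Po EG (o.next r) := f2 r po
  have l2 : (o.next r).F.length = o.F.length + r.F.length := List.length_append
  have l3 : rho p n * (k + 1) ≤ rho p n * (6 * ((u + 1) * 5 ^ E) * s.sz) :=
    Nat.mul_le_mul_left _ (by omega)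
  have e4 : fmD p n (feed c (clM c x) (fin c y)) = ⟨false, s, s, [], [], o.next r⟩ := by
    rw [dfeed, e0]; rfl
  have e5 : fmD p n (clM c (feed c (clM c x) (fin c y))) = ⟨false, s, s, [], [], o.next r⟩ := by
    rw [dcl _ (e4 ▸ ⟨hsm, hsm, ⟨Nat.zero_le _, fun r hr => (List.not_mem_nil hr).elim⟩,
      Nat.zero_le _, fun r hr => (List.not_mem_nil hr).elim,
      smF_of t.kid po'.nw.kids (by show (o.next r).F.length ≤ _; omega)⟩), e4]
  have e6 : outD p n (fin c (clM c (feed c (clM c x) (fin c y)))) = o.next r := by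
    rw [(hQFIN om c _ hc).1 (by rw [e5]), e5]
  refine ⟨_, k + 0 + 2, Ev.call e1 ev (Ev.done (List.map_eq_nil_iff.1 (congrArg FR.todo e5))),
    e6 ▸ po', ?_, ?_⟩
  · rw [a1, Nat.add_mul (u + 1), Nat.one_mul]; omega
  · rw [e6, show k + 0 + 2 + 1 = k + 1 + 2 from rfl, Nat.mul_add]; omega

end Pool.Agent.P.MP_f1a348_lc.UP.CU.AF
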