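import Pool.Agent.P.MP_f1a348_lc.AF.PIf

/-!
Project AF: the loop over the sub-boxes of a splitting.
-/

namespace Pool.Agent.P.MP_f1a348_lc.UP.CU.AF

open Matrix Module Pool.Agent.P.MP_f1a348_lc.PG
open scoped commutatorElement

set_option linter.unusedSectionVars false

namespace LOOPSz

variable {p n : ℕ} [Fact p.Prime]

/-- `i` is the number of a sub-box -/
abbrev IsB (s : St p n) (ℓ : Ix n → ℕ) (i : ℕ) : Prop :=
  ∀ j, s.ℓ (bx n i j) = s.ℓ (s.a j) ∧ ℓ (bx n i j) = (bx n i j).val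

/-- the size of the box with number `i` -/
def sz (n : ℕ) (ℓ : Ix n → ℕ) (i : ℕ) : ℕ := ∏ j, nb ℓ (bx n i j)

/-- the total size of the sub-boxes to come -/
noncomputable def Sg (s : St p n) (ℓ : Ix n → ℕ) (t : ℕ) : ℕ := ((s.boxes ℓ t).map (sz n ℓ)).sum

/-- the frame of the loop -/
noncomputable def fw (s : St p n) (f : GG p n) (ℓ : Ix n → ℕ) (t : ℕ) (o : Out p n) : FR p n :=
  ⟨false, s, s.fra f ℓ, [], (s.boxes ℓ t).map fun i => (i, 1, 0), o⟩

theorem boxes_pos (s : St p n) (ℓ : Ix n → ℕ) {t : ℕ} (ht : t < top n) (h : IsB s ℓ t) :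
    s.boxes ℓ t = t :: s.boxes ℓ (t + 1) := by
  have e : top n - t = top n - (t + 1) + 1 := by omega
  rw [St.boxes, e, List.range'_succ, List.filter_cons, if_pos (decide_eq_true h)]
  rfl

theorem boxes_neg (s : St p n) (ℓ : Ix n → ℕ) {t : ℕ} (ht : t < top n) (h : ¬ IsB s ℓ t) :
    s.boxes ℓ t = s.boxes ℓ (t + 1) := by
  have e : top n - t = top n - (t + 1) + 1 := by omega
  rw [St.boxes, e, List.range'_succ, List.filter_cons, if_neg fun k => h (of_decide_eq_true k)]
  rfl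

theorem boxes_top (s : St p n) (ℓ : Ix n → ℕ) : s.boxes ℓ (top n) = [] := by
  rw [St.boxes, Nat.sub_self]; rfl

theorem isB_of {s : St p n} {ℓ : Ix n → ℕ} {t i : ℕ} (h : i ∈ s.boxes ℓ t) :
    i ≤ top n ∧ IsB s ℓ i := by
  rw [St.boxes, List.mem_filter, List.mem_range'_1] at h
  exact ⟨by omega, of_decide_eq_true h.2⟩

theorem len_boxes (s : St p n) (ℓ : Ix n → ℕ) (t : ℕ) : (s.boxes ℓ t).length ≤ top n :=
  (List.length_filter_le _ _).trans (by rw [List.length_range']; omega)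

theorem key_can {ℓ : Ix n → ℕ} {b : Fin 3 → Ix n} (h : ∀ j, ℓ (b j) = (b j).val) :
    key ℓ b = enc3 b := by rw [key, h, h, h, enc3]

theorem key_box {s : St p n} {ℓ : Ix n → ℕ} {t : ℕ} (ht : t < top n) (h : IsB s ℓ t) :
    key ℓ (bx n t) = t := by
  obtain ⟨k, rfl⟩ := exists_enc3 ht
  rw [key_can fun j => (h j).2, bx_enc]

theorem sg_zero (hSZ : S_SZ p n) {s : St p n} {f : GG p n} {ℓ : Ix n → ℕ}
    (hf : Fine s.f s.ℓ f ℓ) : Sg s ℓ 0 = s.sz := by
  classical
  have e : Sg s ℓ 0 = ∑ i ∈ (Finset.range (top n)).filter (IsB s ℓ), sz n ℓ i := by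
    rw [Sg, St.boxes, Nat.sub_zero, ← List.range_eq_range']
    congr
  rw [e, Finset.sum_filter, sum_range_top, ← (hSZ s f ℓ hf).1]
  refine Finset.sum_congr rfl fun k _ => ?_
  simp only [IsB, sz, bx_enc]

theorem two_le {L : List ℕ} {g : ℕ → ℕ} {z : ℕ} (h0 : 0 < z) (e : (L.map g).sum = z)
    (h : ∀ i ∈ L, g i < z) : 2 ≤ L.length := by
  match L, e, h with
  | [], e, _ => simp at e; omega
  | [i], e, h => have := h i (by simp); simp at e; omega
  | _ :: _ :: _, _, _ => simp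

theorem sm_fw (hk : S_KID 5) {s : St p n} {E EG B EG' t t' : ℕ} {f : GG p n} {ℓ : Ix n → ℕ}
    {o : Out p n} (h : s.PrE E EG) (hB : s.Bd B) (ht : top n ≤ B) (ho : s.Thr EG' f ℓ t' o)
    (hl : o.F.length ≤ B) : (fw s f ℓ t o).Sm B := by
  refine ⟨St.sm_of (s := s) hk h hB, St.sm_of (s := s) hk h hB, ⟨Nat.zero_le _, by simp [fw]⟩,
    ?_, fun q hq => ?_, smF_of hk ho.nw.kids hl⟩
  · exact (List.length_map _).le.trans ((len_boxes s ℓ t).trans ht)
  · obtain ⟨i, hi, rfl⟩ := List.mem_map.1 hq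
    exact (isB_of hi).1.trans ht

end LOOPSz

open LOOPSz in
theorem s_LOOPS (p n : ℕ) [Fact p.Prime] (t : TM p n) (q : TQ p n) (hSPL1 : S_SPL1 p n)
    (hSPL2 : S_SPL2 p n) (hSZ : S_SZ p n) (hQFIN : S_QFIN p n) : S_LOOPS p n := by
  intro γ om c s E EG B m f ℓ x hc hs hf htri hlt hS hG hB hpad hx
  obtain ⟨cc, τ, hPr, hE⟩ := id hs
  obtain ⟨-, z0, -, can, small⟩ := hSZ s f ℓ hf
  obtain ⟨dcall, dfeed, dcl, -⟩ := q.dec om c hc
  obtain ⟨thr0, sub1⟩ := hSPL1 s EG cc τ f ℓ hPr hf htri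
  have hp : 0 < p := (Fact.out : p.Prime).pos
  have hP : 0 < (m + 1) * 5 ^ E := Nat.mul_pos m.succ_pos (pow_pos (by omega) E)
  rw [Fin1]
  unfold Slv Fin1 at hS
  generalize (m + 1) * 5 ^ E = A at hP hpad hS ⊢
  have htop : top n ≤ c.2.2.length := by
    have h1 : top n ≤ rho p n := Nat.le_mul_of_pos_left _ (by omega)
    have h2 : rho p n ≤ rho p n * (6 * A * s.sz) :=
      Nat.le_mul_of_pos_right _ (Nat.mul_pos (by omega) z0)
    omega
  have hB' : s.Bd c.2.2.length := hB.mono (by omega)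
  have main : ∀ d u, u + d = top n → ∀ (y : Fm) (o : Out p n), fmD p n y = fw s f ℓ u o →
      s.Thr EG f ℓ u o → B + o.F.length + rho p n * (6 * A * Sg s ℓ u) ≤ c.2.2.length →
      ∃ z k, Ev om c y z k ∧ s.Po EG (outD p n (fin c z)) ∧
        k + 3 * A * (s.boxes ℓ u).length ≤ 6 * A * Sg s ℓ u ∧
        (outD p n (fin c z)).F.length ≤ o.F.length + rho p n * k := by
    intro d
    induction d with
    | zero =>
      intro u hu y o hy ho _
      obtain rfl : u = top n := hu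
      have e1 : todo y = [] := by
        have := congrArg FR.todo hy
        rw [fw, boxes_top] at this
        exact List.map_eq_nil_iff.1 this
      have e2 : outD p n (fin c y) = o := by
        rw [(hQFIN om c y hc).1 (by rw [hy]; rfl), hy]; rfl
      refine ⟨y, 0, Ev.done e1, ?_, by simp [boxes_top], by simp [e2]⟩
      rw [e2]
      exact (hSPL2 s EG f ℓ _ o hPr.toOk0 hf htri ho).2.2 le_rfl
    | succ d ih =>
      intro u hu y o hy ho hb
      have hut : u < top n := by omega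
      obtain ⟨nx1, nx2, -⟩ := hSPL2 s EG f ℓ u o hPr.toOk0 hf htri ho
      by_cases hb1 : IsB s ℓ u
      · have eb := boxes_pos s ℓ hut hb1
        have es : Sg s ℓ u = sz n ℓ u + Sg s ℓ (u + 1) := by
          rw [Sg, eb, List.map_cons, List.sum_cons]; rfl
        have hk := key_box hut hb1
        have hbl : ∀ j, s.ℓ (bx n u j) = s.ℓ (s.a j) := fun j => (hb1 j).1
        obtain ⟨w, L, e1, e2, -⟩ : ∃ q L, todo y = q :: L ∧ (q.1, paD p n q.2) = (u, 1, 0) ∧ True := by
          have := congrArg FR.todo hy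
          rw [fw, eb, List.map_cons] at this
          obtain ⟨q, L, k1, k2, -⟩ := List.map_eq_cons_iff.1 this
          exact ⟨q, L, k1, k2, trivial⟩
        have e3 : stD p n (call c y w) = s.sub f ℓ (bx n u) o := by
          rw [dcall, e2, hy]; rfl
        rw [es, Nat.mul_add, Nat.mul_add] at hb
        obtain ⟨y1, k1, ev1, po1, b1, l1⟩ := hS (sz n ℓ u) (small hlt _ hbl) (call c y w) EG
          (B + o.F.length) (e3 ▸ ⟨cc, τ, sub1 u o _ ho hbl hk, hE⟩) (by rw [e3]; rfl)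
          (by
            rw [e3]
            exact (Subgroup.card_le_of_le fun g hg => ((ho.isH g).1 hg).1).trans hG)
          (by
            rw [e3]
            exact ⟨(List.length_append).le.trans (Nat.add_le_add_right hB.1 _),
              (hB.mono (Nat.le_add_right _ _)).2⟩) (by omega)
        rw [e3] at po1 b1
        change _ ≤ 6 * A * sz n ℓ u at b1
        set r := outD p n (fin c y1) with hr
        have ho' := nx1 _ r hbl hk po1
        have l2 : (o.next r).F.length = o.F.length + r.F.length := List.length_append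
        have l3 : rho p n * (k1 + 1) ≤ rho p n * (6 * A * sz n ℓ u) :=
          Nat.mul_le_mul_left _ (by omega)
        have e4 : fmD p n (feed c y (fin c y1)) = fw s f ℓ (u + 1) (o.next r) := by
          rw [dfeed, hy, fw, eb]; rfl
        have e5 : fmD p n (clM c (feed c y (fin c y1))) = fw s f ℓ (u + 1) (o.next r) := by
          rw [dcl _ (e4 ▸ sm_fw t.kid hs hB' htop ho' (by omega)), e4]
        obtain ⟨z, k2, ev2, po2, b2, l4⟩ := ih (u + 1) (by omega) _ _ e5 ho' (by omega)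
        refine ⟨z, k1 + k2 + 2, Ev.call e1 ev1 ev2, po2, ?_, ?_⟩
        · rw [es, eb, List.length_cons, Nat.mul_add, Nat.mul_add]; omega
        · have : rho p n * (k1 + 1) + rho p n * k2 ≤ rho p n * (k1 + k2 + 2) := by
            rw [← Nat.mul_add]; exact Nat.mul_le_mul_left _ (by omega)
          omega
      · have eb := boxes_neg s ℓ hut hb1
        have es : Sg s ℓ u = Sg s ℓ (u + 1) := by rw [Sg, eb]; rfl
        have ho' : s.Thr EG f ℓ (u + 1) o := nx2 fun b hb2 hk => hb1 (by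
          obtain ⟨b', hb'⟩ := can b
          have e1 : enc3 b' = u := by
            rw [← key_can fun j => (hb' j).2, ← hk, key, key, (hb' 0).1, (hb' 1).1, (hb' 2).1]
          intro j
          rw [← e1, bx_enc, ← hb2 j]
          exact ⟨le_antisymm (hf.fine _ _ (hb' j).1.le) (hf.fine _ _ (hb' j).1.ge), (hb' j).2⟩)
        rw [es, eb]
        exact ih (u + 1) (by omega) y o (by rw [hy, fw, eb]; rfl) ho' (es ▸ hb)
  have e0 : fmD p n x = fw s f ℓ 0 ⟨s.G, s.X, [], some (1, 0)⟩ := hx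
  have e1 : fmD p n (clM c x) = fw s f ℓ 0 ⟨s.G, s.X, [], some (1, 0)⟩ := by
    rw [dcl _ (e0 ▸ sm_fw t.kid hs hB' htop thr0 (Nat.zero_le _)), e0]
  have e2 := sg_zero hSZ hf
  obtain ⟨z, k, ev, po, b1, l1⟩ := main (top n) 0 (Nat.zero_add _) _ _ e1 thr0
    (by rw [e2]; exact hpad)
  have h2 : 2 ≤ (s.boxes ℓ 0).length :=
    two_le z0 e2 fun i hi => small hlt _ fun j => ((isB_of hi).2 j).1
  refine ⟨z, k, ev, po, ?_, ?_⟩
  · have : 3 * A * 2 ≤ 3 * A * (s.boxes ℓ 0).length := Nat.mul_le_mul_left _ h2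
    rw [e2] at b1
    omega
  · rw [List.length_nil, Nat.zero_add] at l1
    exact l1.trans (Nat.mul_le_mul_left _ (Nat.le_succ _))

end Pool.Agent.P.MP_f1a348_lc.UP.CU.AF
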