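import Pool.Agent.P.MP_f1a348_lc.AF.Iface
import Pool.Agent.P.MP_f1a348_lc.LT.Lt
import Pool.Agent.P.MP_f1a348_lc.LT.Tz0
import Pool.Agent.P.MP_f1a348_lc.LT.Tz1

/-!
Project AF: Lemma T for groups that contain enough full stable subgroups.
-/

namespace Pool.Agent.P.MP_f1a348_lc.UP.CU.AF

open Matrix Module Pool.Agent.P.MP_f1a348_lc.PG Pool.Agent.P.MP_f1a348_lc.UP.LT
  Pool.Agent.P.MP_f1a348_lc.LT2

namespace LTG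

variable {p n : ℕ} [Fact p.Prime] (t : TB p n) {X Y : SG p n} {f : GG p n} {ℓ : Ix n → ℕ}
include t

theorem hm (hl : Lab ℓ) (h : TriR (Env X) f ℓ) :
    LT2.Hm X (gr ℓ ∘ₗ fr f) (gB (Env X) f ℓ) := by
  obtain ⟨-, -, -, -, a1, -, a2, -, a3, -⟩ := t.gi X f ℓ hl h
  have hR := (t.env.1 X).1
  refine ⟨a2, a1, fun x hx => ⟨x, hx, rfl⟩, fun x hx e => by
    simpa using ((t.rad _ f ℓ hR hl h).2.1 x hx e).2 1 hR.one, a3, fun θ H => ?_⟩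
  by_contra h0
  obtain ⟨η, e, H'⟩ := low0 t.low hl (θ := pull1 f.1 θ) fun e =>
    h0 (by rw [← f.2.2.1.pull1_st θ, e, map_zero])
  exact e (H η fun s hs e => H' _ (h s hs) (by
    rw [← pull1_mul, (t.env.2.1 f s s).2.2.2.2.2.2, pull1_mul, e]))

theorem tz2 (e : TE p n) (hCW : CE.C_CW p n) (hHP : CE.C_HP p n) (hs : Stable X) (hf : Full X)
    (hl : Lab ℓ) (hX : TriR (Env X) f ℓ) (h : ∀ z, z ∈ Y ↔ z.1 ∈ gi f ℓ X)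
    (he : Env Y = gB (Env X) f ℓ) (hp : PP p Y) {b : Ix n} (hb : ¬ Y ≤ Ker ⊥ (Vb ℓ b)) :
    ∃ Z ≤ Y, ∃ τ ∈ Y, ∃ s k, LT2.Tz Z τ s k ∧ ∃ x ∈ Vb ℓ b, τ.1 *ᵥ x ≠ x := by
  have hR := (t.env.1 X).1
  have hA := (t.rad _ f ℓ hR hl hX).1
  obtain ⟨a1, a2, a3⟩ := t.env.2.2.2.2.1 ℓ _ hl hA
  obtain ⟨g, ℓ', b1, b2⟩ := (t.cfx _ 1 ℓ hl a2).2.2 a1
  have b3 := (t.cfx _ 1 ℓ hl a2).2.1 g ℓ' b1 b2.tri
  rw [a3, inv_one, one_mul] at b3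
  obtain ⟨c0, c1, c2⟩ := (t.cfx _ f ℓ hl hX).1 ℓ' g _ b3
  have c3 : CF (Env X) (f * g) ℓ' := ⟨b2.lab, c1, c2 ▸ b2.sim⟩
  have c4 := ((t.stcf.1 X _ _ c3).1 hs).2
  have hB := ((t.rad _ _ _ hR c3.lab c1).2.2 c3).1
  obtain ⟨-, g1, g2, -⟩ := t.gi X _ _ c3.lab c1
  have G := (e.adm ℓ' _ _ hB (fun y hy => (g1 y hy).1) g2).1
  have c5 : ∀ N, CE.Sieg (gB (Env X) (f * g) ℓ') (QX (f * g) ℓ' X) N →
      ∃ y ∈ Y, (gr ℓ' ∘ₗ fr g) y.1 = CE.sgl N := fun N hN => by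
    obtain ⟨x, hx, e⟩ := hf _ _ c3 _ hN.eu
    obtain ⟨-, d1, -, -, -, -, -, -, -, -, d2⟩ := t.gi X f ℓ hl hX
    refine ⟨⟨_, (d1 _ ⟨x, hx, rfl⟩).2⟩, (h _).2 ⟨x, hx, rfl⟩, ?_⟩
    rw [← e, (d2 _ _ c0 _ (hX _ (env_mem hx))).1, inv_mul_cancel_left, LinearMap.comp_apply]
  have iv : Inv (Env Y) (Vb ℓ b) := fun x hx _ hu => (hA.dg x (he ▸ hx)).mulVec_mem hu
  rw [← he] at a1 b2 c2
  obtain ⟨L, U, d1, d2, d3⟩ : ∃ L U, SS (Env Y) L U ∧ U ≤ Vb ℓ b ∧ ¬ Y ≤ Ker L U := by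
    by_contra hc
    refine hb (uni hp inv_bot iv bot_le fun L U a _ c => ?_)
    by_contra e
    exact hc ⟨L, U, a, c, e⟩
  obtain ⟨β, e1, -⟩ := t.jh _ g ℓ' L U a1 b2 d1
  have nt : ¬ Triv ℓ' (gB (Env X) (f * g) ℓ') β := fun hT => d3 fun y hy =>
    ⟨d1.invL _ (env_mem hy), fun u hu => by
      simpa [sub_mulVec] using (e1.ge ((((t.blk _ g ℓ' a1 b2).1 β).2.2.2.2.2 y
        (env_mem hy)).1 ((t.stcf.2.1 Y _ g ℓ' β a1 b2 le_rfl).1 (c2 ▸ hT) hy))).2 u hu⟩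
  obtain ⟨a, c, F, hF⟩ := tz0 hCW hHP G nt (c4 β nt) (c4.big hB β nt)
  have H := hm t b2.lab b2.tri
  obtain ⟨Z, z1, τ, z2, s, k, z3, y, z4, z5⟩ := F.tz1 (c2 ▸ H) fun m h1 h2 h3 =>
    c5 m (hF m h1 h2 h3)
  refine ⟨Z, z1, τ, z2, s, k, z3, ?_⟩
  by_contra! hc
  have := (e1.le ⟨sub_mem (env_mem z2) a1.one, fun u hu => by
    rw [sub_mulVec, hc u (d2 hu), one_mulVec, sub_self]; exact zero_mem _⟩).2 β rfl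
  have e2 : (gr ℓ' ∘ₗ fr g) (τ.1 - 1) *ᵥ y = 0 := funext fun α => by
    change ∑ γ, gr ℓ' (fr g (τ.1 - 1)) α γ * y γ = 0
    refine Finset.sum_eq_zero fun γ _ => ?_
    by_cases e : ℓ' γ = ℓ' β
    · rw [gr_apply]
      split_ifs with e'
      exacts [by rw [this α γ (e'.trans e) e, zero_mul], zero_mul _]
    · rw [z4 γ e, mul_zero]
  rw [map_sub, H.one, sub_mulVec, one_mulVec] at e2
  exact z5 (sub_eq_zero.1 e2)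

end LTG

theorem s_LTG (p n : ℕ) [Fact p.Prime] (t : TB p n) (e : TE p n) (hCW : CE.C_CW p n)
    (hHP : CE.C_HP p n) : S_LTG p n := by
  intro Y g ℓ _ hc hW a hn θ hθ hi
  have hJ := (t.env.1 Y).1
  obtain ⟨-, -, -, -, -, -, a1, ⟨Y', y1, y2, -⟩, -⟩ := t.gi Y g ℓ hc.lab hc.tri
  refine lt ((t.rad _ g ℓ hJ hc.lab hc.tri).2.2 hc).1 y2 hθ (fun y hy => hi _ ((y1 y).1 hy)) hn
    fun j => ?_
  obtain ⟨W, w1, w2, w3, w4⟩ := hW (a j) fun h => hn j (t.stcf.2.2 Y g ℓ _ hc h)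
  have tr : TriR (Env W) g ℓ := fun x hx => hc.tri x (env_mono w1 hx)
  obtain ⟨-, b1, -, -, -, -, -, ⟨W', x1, x2, x3⟩, -⟩ := t.gi W g ℓ hc.lab tr
  have le : W' ≤ Y' := fun z hz =>
    let ⟨x, hx, e⟩ := (x1 z).1 hz
    (y1 z).2 ⟨x, w1 hx, e⟩
  obtain ⟨Z, z1, τ, z2, z3⟩ := LTG.tz2 t e hCW hHP w2 w3 hc.lab tr x1 x2 (x3 w2.1) (b := a j)
    fun kr => w4 fun x hx => (((t.blk _ g ℓ hJ hc).1 _).2.2.2.2.2 _ (env_mem (w1 hx))).2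
      ⟨sub_mem (env_mem (w1 hx)) hJ.one, by
        rintro _ rfl β γ hβ hγ
        have := congrFun ((Submodule.mem_bot _).1 ((kr ((x1 ⟨_, (b1 _ ⟨x, hx, rfl⟩).2⟩).2
          ⟨x, hx, rfl⟩)).2 _ (single_mem_Vb hγ 1))) β
        rw [map_sub, (t.env.2.1 g 1 1).2.2.1]
        simpa [one_apply, Pi.single_apply, hβ.trans hγ.symm] using this⟩
  exact ⟨Z, z1.trans le, τ, le z2, z3⟩

end Pool.Agent.P.MP_f1a348_lc.UP.CU.AF
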