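import Pool.Agent.P.MP_f1a348_lc.AF.Iface

/-!
Project AF, tasks LZ, FCM and PREF: full groups over stable groups.
-/

namespace Pool.Agent.P.MP_f1a348_lc.UP.CU.AF

open Matrix Module Pool.Agent.P.MP_f1a348_lc.PG
open Pool.Agent.P.MP_f1a348_lc.CE (QS QY UQ EU LTY Geo)
open scoped commutatorElement

namespace LZz

variable {p n : ℕ} [Fact p.Prime] {X N Y Γ : SG p n} {f g : GG p n} {ℓ : Ix n → ℕ}

theorem flags (b : TB p n) (h : Y ≤ X) (hl : Lab ℓ) (ht : TriR (Env X) f ℓ) :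
    ∃ f1 ℓ1 g ℓ', Fine f ℓ f1 ℓ1 ∧ CF (Env X) f1 ℓ1 ∧ Fine f1 ℓ1 g ℓ' ∧ CF (Env Y) g ℓ' := by
  obtain ⟨f1, ℓ1, h1, h2⟩ := (b.cfx _ f ℓ hl ht).2.2 (b.env.1 X).1
  obtain ⟨g, ℓ', h3, h4⟩ := (b.cfx (Env Y) f1 ℓ1 h2.lab
    fun x hx => h2.tri x ((b.env.1 Y).2.2.1 X h hx)).2.2 (b.env.1 Y).1
  exact ⟨f1, ℓ1, g, ℓ', h1, h2, h3, h4⟩

theorem tri0 (b : TB p n) (X : SG p n) : TriR (Env X) 1 (l0 n) :=
  (b.env.2.2.2.1 _ (b.env.1 X).1).2.2.2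

theorem full_of (b : TB p n) (hOVF : S_OVF p n) (h : LS N Y) (hc : CF (Env Y) g ℓ) (hΓ : Γ ≤ N)
    (ho : Ov Γ Y g ℓ) : Full Y := by
  obtain ⟨h1, h2, h3⟩ := hOVF Γ Y g ℓ h.stable hc ho
  rwa [le_antisymm h1 (h.max _ (((b.op _).1 Γ).1.trans hΓ) h2)]

theorem ks_of (b : TB p n) (h : Y ≤ X) (hc : CF (Env Y) g ℓ) {S : SG p n} (hS : S ≤ Y) {β : Ix n}
    (hK : S ≤ KS g ℓ β) (H : ∀ y ∈ Y, ∃ x ∈ Env S, y.1 - x ∈ Rad (Env X)) : Y ≤ KS g ℓ β := by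
  intro y hy
  have sa := (b.env.1 Y).1
  have ev := (b.env.1 Y).2.1
  have hb := ((b.blk _ g ℓ sa hc).1 β).2.2.2.2.2
  obtain ⟨x, hx, hr⟩ := H y hy
  have h1 : y.1 - x ∈ Env Y := sub_mem (ev y hy) ((b.env.1 S).2.2.1 Y hS hx)
  have h2 := ((b.rad _ g ℓ sa hc.lab hc.tri).2.2 hc).2 _
    ((b.env.2.2.2.1 _ (b.env.1 X).1).2.2.1 _ ((b.env.1 Y).2.2.1 X h) _ hr h1)
  have h3 : ∀ α γ, ℓ α = ℓ γ → fr g (y.1 - x) α γ = 0 := fun α γ e => by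
    have := congrFun (congrFun h2 α) γ
    rwa [gr_apply, if_pos e] at this
  have h4 : x (c0 n) (c0 n) = 1 := by
    have := h3 (c0 n) (c0 n) rfl
    rw [((b.env.2.1 g _ 0).2.2.2.2.2.1 (sa.dg _ h1)).2, Matrix.sub_apply, y.2.2.2,
      sub_eq_zero] at this
    exact this.symm
  have h5 := ((b.env.1 S).2.2.2.2.2.2 ((MI (Env Y) g ℓ {β}).comap (LinearMap.id -
    (Matrix.entryLinearMap (ZMod p) (ZMod p) (c0 n) (c0 n)).smulRight 1))).2 (fun w hw => by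
      simpa [w.2.2.2] using (hb w (ev w (hS hw))).1 (hK hw)) hx
  have h6 : y.1 - x ∈ MI (Env Y) g ℓ {β} :=
    ⟨h1, fun α _ α' γ e e' => h3 α' γ (e.trans e'.symm)⟩
  refine (hb y (ev y hy)).2 ?_
  simpa [h4] using add_mem h6 h5

end LZz

open LZz in
theorem s_LZ (p n : ℕ) [Fact p.Prime] (b : TB p n) (hCMX : S_CMX p n) (hONT : S_ONT p n)
    (hLIF : S_LIF p n) (hLTG : S_LTG p n) (hOVF : S_OVF p n) : S_LZ p n := by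
  intro X Y f ℓ a κ hl ht hs hf hκ hY hsY h0 hd
  obtain ⟨f1, ℓ1, g, ℓ', h1, h2, h3, h4⟩ := flags b hY hl ht
  obtain ⟨Γ, k1, k2, k3⟩ := hONT.2 X Y _ f1 ℓ1 g ℓ' hY hsY (b.env.1 X).1 le_rfl h2
    (hCMX X X Y f1 ℓ1 hs hf h2 hY subset_rfl) h3 h4
  obtain ⟨Γ', k4, k5⟩ := hLIF Γ Y f ℓ g ℓ' a κ hsY h4 k2
    ((b.sec.2.2.2.2.1 f f1 ℓ ℓ1 h1).2.2.2.2.2.2.2.2 g ℓ' h3)
    ⟨hκ.one, fun x hx y hy => hκ.mul x (k1 hx) y (k1 hy), fun x hx => hκ.tot x (k1 hx),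
      fun x hx => hκ.wt x (k1 hx)⟩ h0
    (hd.imp id fun H => hLTG Y g ℓ' hsY h4 fun β hβ => by
      by_contra! e
      exact hβ (ks_of b hY h4 (sSup_le fun W hW => hW.1)
        (sSup_le fun W hW => e W hW.1 hW.2.1 hW.2.2) H))
  obtain ⟨k6, k7, k8⟩ := hOVF Γ' Y g ℓ' hsY h4 k5
  have k9 := fun z hz => (k4 z).1 (((b.op _).1 Γ').1 hz)
  exact ⟨_, k6, fun z hz => k1 (k9 z hz).1, fun z hz => (k9 z hz).2, k7, k8,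
    fun z hz => k3 z (k9 z hz).1⟩

open LZz in
theorem s_FCM (p n : ℕ) [Fact p.Prime] (b : TB p n) (hCMX : S_CMX p n) (hONT : S_ONT p n)
    (hOVF : S_OVF p n) : S_FCM p n := by
  refine ⟨fun X N Y hs hf hN H hY => ?_, fun X N Y hs hf hN hY H => ?_, fun R Y hR hY => ?_⟩
  · obtain ⟨f1, ℓ1, g, ℓ', -, h2, h3, h4⟩ := flags b (hY.le.trans hN) lab_l0 (tri0 b X)
    obtain ⟨Γ, k1, k2, -⟩ := hONT.2 N Y _ f1 ℓ1 g ℓ' hY.le hY.stable (b.env.1 X).1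
      ((b.env.1 N).2.2.1 X hN) h2 (hCMX X N Y f1 ℓ1 hs hf h2 (hY.le.trans hN) (by
        rintro _ ⟨x, hx, rfl⟩
        obtain ⟨w, hw, e⟩ := H x hx
        have := ((b.rad _ f1 ℓ1 (b.env.1 X).1 h2.lab h2.tri).2.2 h2).2 _ e
        exact ⟨w, hw, by rwa [map_sub, map_sub, sub_eq_zero] at this⟩)) h3 h4
    exact full_of b hOVF hY h4 k1 k2
  · obtain ⟨f1, ℓ1, g, ℓ', -, h2, h3, h4⟩ := flags b (hY.le.trans hN) lab_l0 (tri0 b X)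
    obtain ⟨Γ, k1, k2, k3⟩ := hONT.2 X Y _ f1 ℓ1 g ℓ' (hY.le.trans hN) hY.stable (b.env.1 X).1
      le_rfl h2 (hCMX X X Y f1 ℓ1 hs hf h2 (hY.le.trans hN) subset_rfl) h3 h4
    exact full_of b hOVF hY h4 (fun x hx => H x (k1 hx) (k3 x hx)) k2
  · obtain ⟨g, ℓ, -, h4⟩ := (b.cfx _ 1 _ lab_l0 (tri0 b Y)).2.2 (b.env.1 Y).1
    obtain ⟨Γ, k1, k2⟩ := hONT.1 Y g ℓ hY.stable h4
    have u := (b.env.2.2.2.1 R hR).1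
    exact full_of b hOVF hY h4 (fun x hx => (u x).2 (((b.env.1 Y).2.2.2.2.2.2 R).2
      (fun y hy => (u y).1 (hY.le hy)) (((b.env.2.2.2.1 _ (b.env.1 Y).1).1 x).1 (k1 hx)))) k2

theorem s_PREF (p n : ℕ) [Fact p.Prime] (b : TB p n) (hCLIFF : S_CLIFF p n) (hFCM : S_FCM p n) :
    S_PREF p n := by
  intro s A N Y h hs _ hN hY
  have h1 : N ≤ s.X := fun g hg => ((hN g).1 hg).1
  refine hFCM.2.1 s.X N Y h.stable h.full h1 hY fun x hx ⟨y, hy, e⟩ => (hN x).2 ⟨hx, ?_⟩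
  have h2 := (hCLIFF s h hs).2.1 _ e
  rw [map_sub, sub_eq_zero] at h2
  change s.lo _ ∈ A
  rw [h2]
  exact ((b.coc s h).2.2.2.2.2.1 Y ((hY.le.trans h1).trans h.le)).2.2.2.2.1 A
    (fun g hg => ((hN g).1 (hY.le hg)).2) ⟨y, hy, rfl⟩

end Pool.Agent.P.MP_f1a348_lc.UP.CU.AF
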