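import Pool.Agent.P.MP_f1a348_lc.AF.Iface

/-! Project AF: un-pinning through the core; the first call. -/

namespace Pool.Agent.P.MP_f1a348_lc.UP.CU.AF

open Matrix Module Pool.Agent.P.MP_f1a348_lc.PG
open scoped commutatorElement

theorem s_NWC (p n : ℕ) [Fact p.Prime] (b : TB p n) (hLOCST : S_LOCST p n) : S_NWC p n := by
  intro s H Y F c h0 hs hG hZ hc hf hcT
  obtain ⟨a1, a2, a3, a4, -⟩ := (b.op (GG p n)).1 (s.X ⊓ s.N1)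
  obtain ⟨-, -, -, -, -, -, -, -, -, c1, -⟩ := b.coc s h0
  obtain ⟨-, -, -, -, -, -, -, -, -, -, -, s1, s2, s3, -⟩ := b.sol (GG p n)
  have hst := (hLOCST s h0 hs).1
  have b1 : Op p (s.X ⊓ s.N1) ≤ H := hZ _ a1 a2
  have b2 : Op p (s.X ⊓ s.N1) ≤ H ⊓ s.X := le_inf b1 (a1.trans inf_le_left)
  refine ⟨hc.inv.le, hc.inv.nm, hc.stable, hf,
    fun Z h1 h2 => (a4 Z h1 h2).trans (hc.inv.max _ b2 hst),
    (b.kid (GG p n)).1 _ _ _ _ _ hc.inv.val hcT le_rfl, hc.inv.solv, ?_⟩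
  exact hc.inv.near _ _ inf_le_left (s1 _ _ _ (s3 H) (s2 _ _ _ hG c1)).1
    (le_inf b2 (le_inf b1 (a1.trans inf_le_right))) hst fun x hx => a3 x ⟨hx.1.2, hx.2.2⟩

theorem s_UNC (p n : ℕ) [Fact p.Prime] (t : TM p n) : S_UNC p n := by
  intro s EG H Y F φ h0 hs hH hφ hc hf
  obtain ⟨-, -, -, -, -, -, -, -, -, -, -, -, c2, -⟩ := t.coc s h0
  exact ⟨hH, hφ, t.nwc s H Y F _ h0 hs (fun g hg => ((hH g).1 hg).1)
    (fun Z h1 h2 g hg => (hH g).2 ⟨h0.le (h1 hg).1, c2 _ (h1.trans inf_le_right) h2 g hg⟩) hc hf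
    (Nat.le_add_left _ _)⟩

theorem s_UNT (p n : ℕ) [Fact p.Prime] (t : TM p n) (hUNC : S_UNC p n) : S_UNT p n := by
  intro s EG H Y F φ h0 hs ⟨j, hj⟩ hH hφ hc
  have hY : Y ≤ s.X := hc.inv.le.trans inf_le_right
  obtain ⟨Z, z1, z2, z3, z4, z5, -⟩ := t.lz s.X Y s.f s.ℓ s.a s.Kp h0.lab
    (fun x hx => h0.tri x ((t.env.1 s.X).2.2.1 _ h0.le hx)) h0.stable h0.full
    ((t.cok s h0).2.2.2.2.2.2.2.1 _ h0.le) hY hc.stable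
    (fun y hy => ((hH y).1 (hc.inv.le hy).1).2) (.inl ⟨j, hY.trans hj⟩)
  have e : Z = Y := le_antisymm
    (hc.inv.max _ (fun g hg => ⟨(hH g).2 ⟨h0.le (z2 hg), z3 g hg⟩, z2 hg⟩) z4) z1
  exact hUNC s EG H Y F φ h0 hs hH hφ hc (e ▸ z5)

theorem s_START (p n : ℕ) [Fact p.Prime] (t : TM p n) : S_START p n := by
  intro H N Y R F F' c ν hN _ hV hR e hc h1 h2
  obtain ⟨k1, -, -, -, -, -, k2⟩ := t.kid (GG p n)
  refine ⟨hc.inv.le.trans hN, hc.inv.nm, hc.stable,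
    t.fcm.2.2 R Y hR (e ▸ (t.core H N hN).2.2 Y F' hc),
    k2 ν _ H H N Y F F' ⟨k1 _ _ _ _ _ hV.1 h1 le_rfl, hV.2⟩ le_rfl h2 hc.inv.val ?_⟩
  rw [inf_eq_right.2 hN]
  exact hc.inv.solv

namespace NWCz

variable {p n : ℕ} [Fact p.Prime]

theorem wt_le {ℓ : Ix n → ℕ} (h : Lab ℓ) (a : Fin 3 → Ix n) {w : Frm p n}
    (hw : w ∈ Wt ℓ (key ℓ a)) : pull1 (1 : GG p n).1 w ∈ Lowr ℓ a := by
  rw [val_one, pull1_one]
  exact fun i _ ⟨j, hj⟩ => hw i fun e => hj.ne ((key_eq_iff h).1 e j)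

theorem pha_le (t : TM p n) (μ : Fin 3 → ℕ) {ℓ : Ix n → ℕ} {A : Sub p n} (h : Lab ℓ)
    (hA : Alg ℓ A) : PhA μ ℓ A ≤ 6 * (2 * n + 1) := by
  refine csSup_le' ?_
  rintro _ ⟨ℓ', g, B', h1, h2, rfl⟩
  exact (t.phb μ ℓ' B' ⟨h1.lab, (t.pm.ref ℓ A h hA).2.1 _ _ _ h1, h2⟩).1

end NWCz

open NWCz in
theorem s_ROOT (p n : ℕ) [Fact p.Prime] (t : TM p n) : S_ROOT p n := by
  intro a H X F K δ ν hc k1 km kw kt hδ hν
  obtain ⟨e1, e2, -⟩ := t.env.1 H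
  have ok : (root a H X F K δ ν).Ok0 :=
    ⟨lab_l0, (t.env.2.2.2.1 _ e1).2.2.2, fun g _ w hw => wt_le lab_l0 _ (kw g w hw),
      wt_le lab_l0 _ hδ, hc.le, hc.nm, hc.stable, hc.full, k1,
      fun g _ h _ w v hw hv => km g w h v hw hv, fun g hg => (kt g).1 hg⟩
  obtain ⟨c1, -, -, -, -, c2, -⟩ := t.coc _ ok
  have dl : ∀ w ∈ Wt (l0 n) (key (l0 n) a), (root a H X F K δ ν).dl w = w := fun w hw => by
    change cmp (l0 n) (key (l0 n) a) (pull1 1 w) = w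
    rw [pull1_one]
    exact mem_Wt_iff.1 hw
  have sol : ∀ g w, (root a H X F K δ ν).Sol (g, w) ↔ K g w ∧ pull1 g.1 δ + w = 0 := fun g w => by
    have hd : ∀ hw : K g w, (root a H X F K δ ν).dl (pull1 g.1 δ + w) = pull1 g.1 δ + w :=
      fun hw => dl _ (add_mem (pull1_mem_Wt lab_l0 (e1.dg _ (e2 g ((kt g).2 ⟨w, hw⟩))) hδ)
        (kw g w hw))
    exact ⟨fun h => ⟨h.1.2, (hd h.1.2).symm.trans h.2⟩,
      fun h => ⟨⟨(kt g).2 ⟨w, h.1⟩, h.1⟩, (hd h.1).trans h.2⟩⟩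
  refine ⟨⟨fun _ => ν, fun _ => tauN p n, ⟨ok, hc.val, fun _ => nb_le _ _,
    fun _ _ e => absurd e nofun, fun _ _ => le_rfl, fun _ e => absurd e (lt_irrefl _),
    Nat.mul_le_mul_left _ ?_, le_rfl, hν⟩, ?_⟩, fun o ho => ⟨fun g => (ho.isH g).trans ?_, ?_,
      fun x e => (sol x.1 x.2).1 (ho.isS.1 x e),
      fun e g w hw h => ho.isS.2 e (g, w) ((sol g w).2 ⟨hw, h⟩)⟩⟩
  · have := pha_le t (root a H X F K δ ν).μ c1 (c2 _ le_rfl).1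
    change 200 * PhA _ _ _ + 1200 * ∑ _ : Fin 3, (2 * n + 1) ≤ 4800 * (2 * n + 1)
    rw [Fin.sum_const, smul_eq_mul]
    omega
  · rw [Fin.sum_const, smul_eq_mul, EE]
  · exact ⟨fun ⟨_, w, hw, e⟩ => ((dl w (kw g w hw)).symm.trans e) ▸ hw,
      fun h => ⟨(kt g).2 ⟨0, h⟩, 0, h, map_zero _⟩⟩
  · exact ⟨ho.nw.le.trans inf_le_left, ho.nw.nm, ho.nw.stable, ho.nw.full,
      (t.kid _).2.2.2.2.2.2 ν _ H _ X _ F _ hc.val (fun g hg => ((ho.isH g).1 hg).1) hν ho.nw.kids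
        ho.nw.solv⟩

end Pool.Agent.P.MP_f1a348_lc.UP.CU.AF
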