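import Pool.Agent.P.MP_f1a348_lc.AF.Iface

/-!
Project AF: groups over the elementary group.
-/

namespace Pool.Agent.P.MP_f1a348_lc.UP.CU.AF

open Matrix Module Pool.Agent.P.MP_f1a348_lc.PG
open Pool.Agent.P.MP_f1a348_lc.CE (QS QY UQ EU LTY Geo)
open scoped commutatorElement

namespace ONTz

variable {p n : ℕ} [Fact p.Prime]

/-- elementary elements lift to isometries of the envelope -/
theorem tf (e : TE p n) {Y : SG p n} {g : GG p n} {ℓ : Ix n → ℕ} (hp : PP p Y)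
    (ht : TriR (Env Y) g ℓ) (hs : Str ℓ (gB (Env Y) g ℓ)) (hb : Big ℓ (gB (Env Y) g ℓ) 200)
    {z : Mat p n} (hz : z ∈ EX g ℓ Y) :
    ∃ u, UQ (Env Y) (QY (Env Y) {x | ∃ y ∈ Y, y.1 = x}) u ∧ gr ℓ (fr g u) = z := by
  refine e.tf3 ℓ g {x | ∃ y ∈ Y, y.1 = x} ⟨⟨1, one_mem _, rfl⟩, ?_, ?_, ?_⟩ ?_ ?_ ht hs hb z ?_
  · rintro _ ⟨x, hx, rfl⟩ _ ⟨y, hy, rfl⟩
    exact ⟨x * y, mul_mem hx hy, rfl⟩
  · rintro _ ⟨x, -, rfl⟩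
    exact x.2.2.1
  · rintro _ ⟨x, hx, rfl⟩
    exact ⟨x⁻¹, inv_mem hx, rfl⟩
  · rintro ψ hψ _ ⟨x, hx, rfl⟩
    exact hp (fun a => ψ a.1) (fun a ha c hc => hψ _ ⟨a, ha, rfl⟩ _ ⟨c, hc, rfl⟩) x hx
  · rintro _ ⟨x, -, rfl⟩
    exact x.2
  · have : (fun y => gr ℓ (fr g y)) '' {x | ∃ y ∈ Y, y.1 = x} = gi g ℓ Y := by
      ext w
      exact ⟨fun ⟨_, ⟨y, hy, rfl⟩, h⟩ => ⟨y, hy, h⟩, fun ⟨y, hy, h⟩ => ⟨_, ⟨y, hy, rfl⟩, h⟩⟩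
    rw [this]
    exact hz

/-- the geometry of a stable group -/
theorem geo (b : TB p n) (e : TE p n) {Y : SG p n} {g : GG p n} {ℓ : Ix n → ℕ} (hs : Stable Y)
    (hc : CF (Env Y) g ℓ) : Geo ℓ (gB (Env Y) g ℓ) (QX g ℓ Y) ∧ Giant ℓ (gB (Env Y) g ℓ) ∧
      ∀ z ∈ gi g ℓ Y, UQ (gB (Env Y) g ℓ) (QX g ℓ Y) z := by
  obtain ⟨-, h1, h2, -⟩ := b.gi Y g ℓ hc.lab hc.tri
  have h3 := e.adm ℓ _ (gi g ℓ Y) ((b.rad _ g ℓ (b.env.1 Y).1 hc.lab hc.tri).2.2 hc).1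
    (fun z hz => (h1 z hz).1) h2
  exact ⟨h3.1, ((b.stcf.1 Y g ℓ hc).1 hs).2, h3.2.1⟩

end ONTz

open ONTz

theorem s_ONT (p n : ℕ) [Fact p.Prime] (b : TB p n) (e : TE p n) : S_ONT p n := by
  refine ⟨fun Y g ℓ hs hc => ?_, fun N Y R f ℓ g ℓ' hYN hs hR hNR hc hm hf hc' => ?_⟩
  · obtain ⟨hG, hB, hY⟩ := geo b e hs hc
    obtain ⟨-, -, -, -, m1, -, m3, -⟩ := b.gi Y g ℓ hc.lab hc.tri
    obtain ⟨sa, mem, -⟩ := b.env.1 Y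
    have hU := e.base.2.1 ℓ _ (QX g ℓ Y) hc.lab hG.str.alg
    refine ⟨sg (fun x => x.1 ∈ Env Y ∧ UQ (gB (Env Y) g ℓ) (QX g ℓ Y) (gr ℓ (fr g x.1)))
      ⟨sa.one, by rw [val_one, m3]; exact hU.one⟩ fun x y hx hy => ⟨sa.mul _ hx.1 _ hy.1, by
        rw [val_mul, m1 _ hx.1 _ hy.1]; exact hU.mul _ hx.2 _ hy.2⟩,
      fun x hx => ((b.env.2.2.2.1 _ sa).1 x).2 hx.1, fun y hy => ⟨mem y hy, hY _ ⟨y, hy, rfl⟩⟩,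
      ((b.env.1 _).2.2.2.2.2.1 g ℓ).2 fun x hx => hc.tri _ hx.1, ?_, fun z hz => ?_⟩
    · rintro _ ⟨x, hx, rfl⟩
      exact hx.2
    · obtain ⟨u, hu, rfl⟩ := tf e hs.1 hc.tri hG.str (hB.big hG.str) hz
      exact ⟨⟨u, (hu.1.lev lab_l0 sa).par⟩, ⟨hu.1.1, (e.base.2.2.2.2.1 ℓ _ _ hG).2 _ hz⟩, rfl⟩
  · obtain ⟨hG, hB, hY⟩ := geo b e hs hc'
    have hYR : Env Y ≤ R := ((b.env.1 Y).2.2.1 N hYN).trans hNR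
    have memN : ∀ x ∈ N, x.1 ∈ Env N := (b.env.1 N).2.1
    have memY : ∀ x ∈ Y, x.1 ∈ Env Y := (b.env.1 Y).2.1
    obtain ⟨-, y1, -, -, -, -, m3, ⟨Y1, k1, k2, k3⟩, -, -, hl⟩ :=
      b.gi Y f ℓ hc.lab fun x hx => hc.tri x (hYR hx)
    obtain ⟨-, -, -, -, m1, -⟩ := b.gi N f ℓ hc.lab fun x hx => hc.tri x (hNR hx)
    have two : ∀ x ∈ R, gr ℓ' (fr g x) = gr ℓ' (fr (f⁻¹ * g) (gr ℓ (fr f x))) := fun x hx =>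
      (hl g ℓ' hf x (hc.tri x hx)).1
    have t1 : TriR (Env Y1) (f⁻¹ * g) ℓ' := by
      rw [k2]
      rintro _ ⟨x, hx, rfl⟩
      exact (hl g ℓ' hf x (hc.tri x (hYR hx))).2.1 (hc'.tri x hx)
    have e1 : gB (Env Y1) (f⁻¹ * g) ℓ' = gB (Env Y) g ℓ' := by
      rw [k2]
      ext z
      exact ⟨fun ⟨_, ⟨x, hx, rfl⟩, h⟩ => ⟨x, hx, (two x (hYR hx)).trans h⟩,
        fun ⟨x, hx, h⟩ => ⟨_, ⟨x, hx, rfl⟩, (two x (hYR hx)).symm.trans h⟩⟩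
    have e2 : gi (f⁻¹ * g) ℓ' Y1 = gi g ℓ' Y := by
      ext z
      constructor
      · rintro ⟨x, hx, rfl⟩
        obtain ⟨y, hy, h⟩ := (k1 x).1 hx
        exact ⟨y, hy, by rw [two _ (hYR (memY y hy)), h]⟩
      · rintro ⟨y, hy, rfl⟩
        exact ⟨⟨_, (y1 _ ⟨y, hy, rfl⟩).2⟩, (k1 _).2 ⟨y, hy, rfl⟩, (two _ (hYR (memY y hy))).symm⟩
    have e3 : {x | ∃ y ∈ Y1, y.1 = x} = gi f ℓ Y := by
      ext z
      exact ⟨fun ⟨x, hx, h⟩ => h ▸ (k1 x).1 hx, fun h => ⟨⟨z, (y1 z h).2⟩, (k1 _).2 h, rfl⟩⟩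
    have e4 : Env Y1 ≤ gB R f ℓ := k2 ▸ Submodule.map_mono hYR
    obtain ⟨-, -, -, -, n1, n2, n3, -⟩ := b.gi Y1 (f⁻¹ * g) ℓ' hf.lab' t1
    have sa := (b.env.1 Y1).1
    have lift : ∀ z ∈ EX g ℓ' Y, ∃ u ∈ Env Y1, gr ℓ' (fr (f⁻¹ * g) u) = z ∧
        UQ (gB R f ℓ) (QY (gB R f ℓ) (gi f ℓ Y)) u := fun z hz => by
      obtain ⟨u, hu, h⟩ := tf e (k3 hs.1) t1 (e1 ▸ hG.str) (e1 ▸ hB.big hG.str) (z := z)
        (by rw [EX, QX, e1, e2]; exact hz)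
      rw [e3] at hu
      exact ⟨u, hu.1.1, h, e.base.2.2.1 _ _ _ _ u e4 (e.base.1 _ _ _ _ e4 subset_rfl) hu⟩
    have hU := e.base.2.1 ℓ' _ (QX g ℓ' Y) hf.lab' hG.str.alg
    obtain ⟨hE, hE'⟩ := e.base.2.2.2.2.1 ℓ' _ _ hG
    obtain ⟨Γ, hΓ⟩ : ∃ Γ : SG p n, ∀ x, x ∈ Γ ↔ x ∈ N ∧ gr ℓ (fr f x.1) ∈ Env Y1 ∧
        UQ (gB (Env Y) g ℓ') (QX g ℓ' Y) (gr ℓ' (fr (f⁻¹ * g) (gr ℓ (fr f x.1)))) :=
      ⟨sg _ ⟨one_mem _, by rw [val_one, m3]; exact sa.one, by rw [val_one, m3, n3]; exact hU.one⟩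
        fun x y hx hy => ⟨mul_mem hx.1 hy.1, by
          rw [val_mul, m1 _ (memN x hx.1) _ (memN y hy.1)]; exact sa.mul _ hx.2.1 _ hy.2.1, by
          rw [val_mul, m1 _ (memN x hx.1) _ (memN y hy.1), n1 _ hx.2.1 _ hy.2.1]
          exact hU.mul _ hx.2.2 _ hy.2.2⟩, fun _ => Iff.rfl⟩
    have t2 : TriR (Env Γ) g ℓ' := ((b.env.1 _).2.2.2.2.2.1 g ℓ').2 fun x hx =>
      (hl g ℓ' hf _ (hc.tri _ (hNR (memN x ((hΓ x).1 hx).1)))).2.2 (t1 _ ((hΓ x).1 hx).2.1)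
    have hgi := (b.gi Γ g ℓ' hf.lab' t2).1
    refine ⟨Γ, fun x hx => ((hΓ x).1 hx).1, ⟨fun y hy => (hΓ y).2 ⟨hYN hy,
      k2 ▸ ⟨_, memY y hy, rfl⟩, two _ (hYR (memY y hy)) ▸ hY _ ⟨y, hy, rfl⟩⟩, t2, ?_,
      fun z hz => ?_⟩, fun x hx => ?_⟩
    · rintro _ ⟨x, hx, rfl⟩
      rw [two _ (hNR (memN x ((hΓ x).1 hx).1))]
      exact ((hΓ x).1 hx).2.2
    · have h := (e.perf ℓ' _ _ hG (hB.big' hG.str (by norm_num))).2.1 hz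
      clear hz
      induction h using Submonoid.closure_induction with
      | one => exact hgi.one
      | mul x y _ _ hx hy => exact hgi.mul x hx y hy
      | mem w hw =>
        obtain ⟨a, ha, c, hc2, rfl⟩ := hw
        obtain ⟨u, u1, rfl, u2⟩ := lift a ha
        obtain ⟨v, v1, rfl, v2⟩ := lift c hc2
        obtain ⟨x, hx, h⟩ := hm u v u2 v2
        have w1 := sa.mul u u1 v v1
        have w2 := sa.mul _ w1 _ (sa.star u u1)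
        have w3 := congrArg (fun t => gr ℓ' (fr (f⁻¹ * g) t)) h
        simp only [n1 _ w2 _ (sa.star v v1), n1 _ w1 _ (sa.star u u1), n1 _ u1 _ v1, n2] at w3
        refine ⟨x, (hΓ x).2 ⟨hx, h ▸ sa.mul _ w2 _ (sa.star v v1), ?_⟩,
          (two _ (hNR (memN x hx))).trans w3⟩
        rw [w3]
        exact hE' _ (hE.mul _ (hE.mul _ (hE.mul _ ha _ hc2) _ (hE.star _ ha)) _ (hE.star _ hc2))
    · obtain ⟨h1, h2, -⟩ := (hΓ x).1 hx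
      rw [k2] at h2
      obtain ⟨y, hy, h⟩ := h2
      refine ⟨y, hy, (b.rad R f ℓ hR hc.lab hc.tri).2.1 _ (sub_mem (hNR (memN x h1)) (hYR hy)) ?_⟩
      rw [map_sub, map_sub, ← h]
      exact sub_self _

end Pool.Agent.P.MP_f1a348_lc.UP.CU.AF
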