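import Pool.Agent.P.MP_f1a348_lc.AF.TPAYB

/-! Project AF: centralisers of module maps pay. -/

namespace Pool.Agent.P.MP_f1a348_lc.UP.CU.AF

open Matrix Module Pool.Agent.P.MP_f1a348_lc.PG
open scoped commutatorElement

namespace PAYCz

theorem idx {Γ X : Type} [Group Γ] [Finite X] {G Q : Subgroup Γ} {T : Set X} (φ : Γ → X)
    (h : ∀ g ∈ G, φ g ∈ T) (h' : ∀ g ∈ G, ∀ g' ∈ G, φ g = φ g' → g⁻¹ * g' ∈ Q) :
    Q.relIndex G ≤ T.ncard :=
  Nat.card_le_card_of_injective (fun q : G ⧸ Q.subgroupOf G => (⟨φ q.out, h _ q.out.2⟩ : T))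
    fun q q' e => by
      rw [← q.out_eq', ← q'.out_eq', QuotientGroup.eq]
      exact h' _ q.out.2 _ q'.out.2 (congrArg Subtype.val e)

variable {p n : ℕ} [Fact p.Prime] {s : St p n} {ℓ : Ix n → ℕ} {A B : Sub p n} {α β : Ix n}
  {C : Mat p n} {g h : GG p n}

omit [Fact p.Prime] in
theorem cb_anti (e : A ≤ B) : Cb ℓ B α β ≤ Cb ℓ A α β := fun _ h => ⟨fun x hx => h.1 x (e hx), h.2⟩

theorem div (h : Str ℓ A) (β : Ix n) : PX.Div (Cb ℓ A β β) (pr ℓ β) :=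
  ⟨cb_pr h.alg β, fun _ => cb_left, fun _ => cb_right, fun _ a _ c => cb_mul a c,
    fun _ a c => (schur h a c).imp fun _ d => ⟨d.1, d.2.2⟩⟩

theorem two (hB : Str ℓ B) (e : A ≤ B) {ζ : Mat p n} (h : ζ ∈ Cb ℓ A β β) (h' : ζ ∉ Com B) :
    2 * eb ℓ B β ≤ eb ℓ A β := by
  let F := (Cb ℓ B β β).subtype.coprod (LinearMap.mulRight (ZMod p) ζ ∘ₗ (Cb ℓ B β β).subtype)
  have i : Function.Injective F := (injective_iff_map_eq_zero F).2 fun ⟨x, y⟩ e => by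
    have e' : x.1 + y.1 * ζ = 0 := e
    have : y.1 = 0 := by
      by_contra h0
      obtain ⟨D, d1, -, d2⟩ := schur hB y.2 h0
      refine h' ?_
      rw [← cb_left h, ← d2, mul_assoc, eq_neg_of_add_eq_zero_right e']
      exact com_mul d1.1 (neg_mem x.2.1)
    rw [this, zero_mul, add_zero] at e'
    exact Prod.ext (Subtype.ext e') (Subtype.ext this)
  have := Submodule.finrank_mono (show LinearMap.range F ≤ Cb ℓ A β β by
    rintro _ ⟨⟨x, y⟩, rfl⟩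
    exact add_mem (cb_anti e x.2) (cb_mul (cb_anti e y.2) h))
  rwa [LinearMap.finrank_range_of_inj i, finrank_prod, ← two_mul] at this

theorem card (S : Sub p n) : (S : Set (Mat p n)).ncard = p ^ finrank (ZMod p) S := by
  have := Module.natCard_eq_pow_finrank (K := ZMod p) (V := S)
  rwa [Nat.card_zmod] at this

theorem cj_pow {u : Mat p n} (hu : Un u) (x : Mat p n) (k : ℕ) : cj u x ^ k = cj u (x ^ k) := by
  induction k with
  | zero => rw [pow_zero, pow_zero, hu.cj_one]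
  | succ k ih => rw [pow_succ, pow_succ, hu.cj_mul, ih]

variable (b : TB p n) (h0 : s.Ok0)
include b h0

theorem lev (hg : g ∈ s.G) : Lev s.ll (s.lo g.1) :=
  have c := b.coc s h0
  ⟨c.1, (c.2.2.2.2.2.2.1 g hg).1, (c.2.2.2.2.2.1 _ le_rfl).1.dg _
    ((c.2.2.2.2.2.1 _ le_rfl).2.2.2.1 g hg)⟩

theorem lo_inv (hg : g ∈ s.G) : s.lo (g⁻¹).1 = st (s.lo g.1) :=
  ((b.coc s h0).2.2.2.2.1 _ ((b.env.1 _).2.1 g hg)).1

theorem norm (hg : g ∈ s.G) (hC : C ∈ Cb s.ll (s.le s.X) α β) :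
    cj (s.lo g.1) C ∈ Cb s.ll (s.le s.X) α β := by
  have l := lev b h0 hg
  refine ⟨fun x hx => ?_, ?_⟩
  · have := ((b.coc s h0).2.2.2.2.2.1 _ h0.le).2.2.2.2.2 _ (inv_mem hg) (h0.nm _ (inv_mem hg)) x hx
    rw [lo_inv b h0 hg] at this
    rw [← l.un.cj_cj' x, ← l.un.cj_mul, ← l.un.cj_mul, hC.1 _ this]
  · rw [← l.cj_pr α, ← l.cj_pr β, ← l.un.cj_mul, ← l.un.cj_mul, hC.2]

theorem sep (hg : g ∈ s.G) (hh : h ∈ s.G) (e : cj (s.lo g.1) C = cj (s.lo h.1) C) :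
    s.lo (g⁻¹ * h).1 * C = C * s.lo (g⁻¹ * h).1 := by
  have := congrArg (fun x => st (s.lo g.1) * x * s.lo h.1) e
  simp only [cj_apply, mul_assoc, (lev b h0 hh).un.st_mul, mul_one] at this
  rw [val_mul, ((b.coc s h0).2.2.2.2.1 _ ((b.env.1 _).2.1 _ (inv_mem hg))).2.2 _
    ((b.env.1 _).2.1 h hh), lo_inv b h0 hg, mul_assoc, ← this, ← mul_assoc,
    (lev b h0 hg).un.st_mul, one_mul]

theorem off (h1 : s.Sim) (h : α ∉ s.lam) : Triv s.ll (s.le s.G) α := by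
  have c := b.coc s h0
  have := (b.lcs s.ℓ s.lam _ ((b.rad _ s.f s.ℓ (b.env.1 _).1 h0.lab h0.tri).2.2 h1).1
    c.2.1).2.2.2.1 α h
  rwa [gB, ← Submodule.map_comp, ← LinearMap.comp_assoc, show lc s.ℓ s.lam ∘ₗ gr s.ℓ = lc s.ℓ s.lam
    from LinearMap.ext fun x => ((b.lc.1 _ _ h0.lab c.2.1).2.2.2.1 x).2.2.2.1] at this

theorem ks {j : Fin 3} (h : s.ℓ α = s.ℓ (s.a j) ∨ s.ℓ α = s.ℓ (s.a j).rev) (hg : g ∈ s.G) :
    g ∈ KS s.f s.ℓ α ↔ g ∈ s.ks j := by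
  have k : ∀ γ, s.ℓ α = s.ℓ γ → KS s.f s.ℓ α = KS s.f s.ℓ γ := fun γ e => by
    rw [KS, KS, sL, sL, sH, sH, nb_congr e, e]
  rcases h with h | h <;> rw [k _ h]
  · rfl
  · exact (b.sec.1 s.f s.ℓ _ h0.lab).2.2.2.2.2.2.2 g (h0.tri _ ((b.env.1 _).2.1 g hg))

end PAYCz

open PAYCz PAYBz in
theorem s_PAYC (p n : ℕ) [Fact p.Prime] (b : TB p n) (hFLD : PX.S_FLD p) (hFRB : S_FRB p) :
    S_PAYC p n := by
  intro s α β C Q h0 h1 hs hX hk hC hQ hn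
  have _ := hFLD
  have c := b.coc s h0
  have q := b.qb s h0
  have hB := c.2.2.2.2.2.2.2.2.2.2.2.2.2 h1
  obtain ⟨q1, -, q2⟩ := (q.2.1 C hC.1).2 Q hQ
  have cQ := c.2.2.2.2.2.1 Q q2
  have cG := c.2.2.2.2.2.1 _ le_rfl
  have l1 := cQ.2.2.1 _ q1
  have l2 := cG.2.2.1 _ q2
  have hT : Str s.ll (s.le Q) := ⟨c.1, cQ.1, fun a x hx e y hy =>
    (hX.sim a x hx e y hy).imp fun _ d => ⟨l1 d.1, d.2⟩⟩
  have nc : C ∉ Com (s.le s.G) := fun h => hn fun g hg =>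
    (hQ g).2 ⟨hg, (h _ (cG.2.2.2.1 g hg)).symm⟩
  have hC0 : C ≠ 0 := fun e => nc (e ▸ zero_mem _)
  have hCt : C ∈ Cb s.ll (s.le Q) α β := ⟨fun x hx => (cQ.2.2.2.2.1
    (Com (Submodule.span (ZMod p) {C})) (fun g hg y hy => by
      obtain ⟨a, rfl⟩ := Submodule.mem_span_singleton.1 hy
      rw [mul_smul_comm, smul_mul_assoc, ((hQ g).1 hg).2]) hx C
      (Submodule.mem_span_singleton_self C)).symm, hC.2⟩
  have tv : ∀ γ, Triv s.ll (s.le s.X) γ → ∀ g ∈ s.G, s.lo g.1 * pr s.ll γ = pr s.ll γ :=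
    fun γ t g hg => mat_ext fun u => by
      have t' : Triv s.ll (s.le s.G) γ := by
        by_cases m : γ ∈ s.lam
        · have a := ((q.2.2.2 _ γ h0.le m).2 hX).2 t
          obtain ⟨j, hj⟩ := id m
          exact ((q.2.2.2 _ γ le_rfl m).2 hB).1 fun g hg => (ks b h0 hj hg).2
            (hk j (fun x hx => (ks b h0 hj (h0.le hx)).1 (a hx)) hg)
        · exact off b h0 h1 m
      rw [← Matrix.mulVec_mulVec, triv_act hB t' (pr_mulVec_mem γ u) (cG.2.2.2.1 g hg),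
        (lev b h0 hg).par.2.2, one_smul]
  have nt : ¬ Triv s.ll (s.le s.G) β := fun t => hn fun g hg => (hQ g).2 ⟨hg, by
    have t1 : Triv s.ll (s.le s.X) β := fun e =>
      t (eq_bot_iff.2 ((cb_anti (l1.trans l2)).trans e.le))
    have t2 := (triv_iff hX (cb_ne_of hC hC0)).2 t1
    rw [← cb_left hC, ← mul_assoc, tv α t2 g hg, cb_left hC, ← cb_right hC, mul_assoc,
      (lev b h0 hg).dg.comm_pr, tv β t1 g hg]⟩
  have m : β ∈ s.lam := not_not.1 fun m => nt (off b h0 h1 m)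
  have sc : Sc s.μ (nb s.ll β) := by
    rw [(slot b h0 m).1]
    obtain ⟨j, e | e⟩ := m <;> rw [nb_congr e]
    exacts [hs j, (h0.lab.nb_rev _).symm ▸ hs j]
  have hp : 1 < p := (Fact.out : p.Prime).one_lt
  rcases (b.gabc s.μ s.ll _ _ hB cQ.1 l2).2.2 hT.sim β nt sc with d | ⟨d1, d2⟩
  · have := idx (T := Cb s.ll (s.le s.X) α β) (Q := Q) (fun g => cj (s.lo g.1) C)
      (fun g hg => norm b h0 hg hC) fun g hg h hh e => (hQ _).2 ⟨mul_mem (inv_mem hg) hh, sep b h0 hg hh e⟩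
    rw [card] at this
    have h2 := nb_pos s.ll β
    exact paid b h0 h1 (this.trans (Nat.pow_le_pow_right hp.le ((finrank_cb_le hX α β).trans
      (Nat.le_of_dvd h2 (eb_dvd_nb hX β))))) (by omega)
  · obtain ⟨μ, m1, m2⟩ := exists_cb_ne fun e => cb_symm hT (cb_ne_of hCt hC0) (d2 α e)
    obtain ⟨D, m3, -, m4⟩ := schur hB m1 m2
    have z1 := cb_mul (cb_anti l2 m1) hCt
    have z2 : C = D * (μ * C) := by rw [← mul_assoc, m4, cb_left hC]
    have z3 := two hB l2 z1 fun h => nc (z2 ▸ com_mul m3.1 h)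
    have z4 := eb_pos hB.alg β
    have z5 := (hFRB _ _ _ (div hT β)).1 _ z1
    have := idx (Q := Q) (T := {x | x ∈ Cb s.ll (s.le s.X) β β ∧ x ^ p ^ eb s.ll (s.le Q) β = x})
      (fun g => cj (s.lo g.1) (μ * C))
      (fun g hg => ⟨norm b h0 hg (cb_anti l1 z1), by rw [cj_pow (lev b h0 hg).un, eb, z5]⟩)
      fun g hg h hh e => (hQ _).2 ⟨mul_mem (inv_mem hg) hh, by
        rw [z2, ← mul_assoc, ← m3.1 _ (cG.2.2.2.1 _ (mul_mem (inv_mem hg) hh)), mul_assoc,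
          sep b h0 hg hh e, ← mul_assoc]⟩
    exact paid b h0 h1 (this.trans ((hFRB _ _ _ (div hX β)).2 _
      (Nat.one_lt_pow (by omega) hp))) (by omega)

end Pool.Agent.P.MP_f1a348_lc.UP.CU.AF
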