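import Pool.Agent.P.MP_f1a348_lc.AF.PIf

/-!
Project AF: annihilators of the values at the unit element, and values that solve the equation.
-/

namespace Pool.Agent.P.MP_f1a348_lc.UP.CU.AF

open Matrix Module Pool.Agent.P.MP_f1a348_lc.PG
open scoped commutatorElement

namespace QANN2
variable {p n : ℕ} [Fact p.Prime] {c : Cx}

/-- the standard pairing of forms -/
def dF (y : Frm p n) : Frm p n →ₗ[ZMod p] ZMod p where
  toFun u := ∑ k, u k * y k
  map_add' u v := by simp [add_mul, Finset.sum_add_distrib]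
  map_smul' a u := by simp [Finset.mul_sum, mul_assoc]

theorem dF_apply (y u : Frm p n) : dF y u = ∑ k, u k * y k := rfl

theorem dF_comm (y u : Frm p n) : dF y u = dF u y := by simp only [dF_apply, mul_comm]

theorem cast_dot (h : UP.Ok p n c) (x y : V) :
    ((dot c x y : ℕ) : ZMod p) = dF (fV p n y) (fV p n x) := by
  rw [dot, cast_sm, h.len3, sum_range_top, dF_apply]
  exact Finset.sum_congr rfl fun k _ => by rw [Nat.cast_mul, fV_apply, fV_apply]

theorem annF (h : UP.Ok p n c) (R : List V) :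
    (preAll c [()] (u3 c) (units c (u3 c)) R (fun w y => [dot c w y]) []).length ≤ (u3 c).length ∧
    ∀ u, u ∈ sp (frm p n) R ↔
      ∀ a ∈ preAll c [()] (u3 c) (units c (u3 c)) R (fun w y => [dot c w y]) [],
        dF (fV p n a) u = 0 := by
  have hW := preAll_bas (u := [()]) (ts := R) (f := fun w y => [dot c w y]) h.hp (dec_cf 1) h.d3
    (units c (u3 c)) (fun r => (dF (fV p n r)).smulRight (Pi.single 0 1)) (fun r _ x => by
      funext i
      rw [dv, cf_apply, LinearMap.smulRight_apply, dF_comm, ← cast_dot h]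
      rcases i with _ | i <;> simp [tv]) []
  rw [sp_units_top h.hp h.d3 frm_surj, top_inf_eq] at hW
  generalize hV : (⨅ t ∈ R, _ : Submodule (ZMod p) (Frm p n)) = W at hW
  have e : ∀ a, a ∈ W ↔ ∀ r ∈ R, dF (fV p n r) a = 0 := fun a => by
    rw [← hV]; simp [Submodule.mem_iInf]
  refine ⟨?_, fun u => ⟨fun hu a ha => ?_, fun H => ?_⟩⟩
  · rw [hW.len, h.len3]
    exact (Submodule.finrank_le _).trans (by simp [top, pow_succ])
  · have h1 := (e _).1 (hW.sp ▸ mem_sp ha)
    exact (sp_le (W := LinearMap.ker (dF (fV p n a)))).2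
      (fun r hr => (dF_comm _ _).trans (h1 r hr)) hu
  · by_contra hc
    obtain ⟨φ, h1, h2⟩ := (sp (frm p n) R).exists_dual_map_eq_bot_of_notMem hc inferInstance
    have h3 : ∀ x, φ x = dF x fun k => φ (fun j => if k = j then 1 else 0) := fun x => by
      rw [LinearMap.pi_apply_eq_sum_univ, dF_apply]
      simp only [smul_eq_mul, mul_comm]
    have h4 : W ≤ LinearMap.ker (dF u) :=
      hW.sp ▸ sp_le.2 fun a ha => (dF_comm _ _).trans (H a ha)
    refine h1 ((h3 u).trans (h4 ((e _).2 fun r hr => ?_)))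
    have : φ (fV p n r) ∈ (sp (frm p n) R).map φ := ⟨_, mem_sp hr, rfl⟩
    rwa [h2, Submodule.mem_bot, h3] at this

end QANN2

open QANN2 in
theorem s_QANN2 (p n : ℕ) [Fact p.Prime] : S_QANN p n := by
  rintro γ om c s _ h rfl h1
  refine ⟨⟨fun i => dF (fV p n ((annP om c s).getD i [])), fun d i x => ?_, fun u => ?_⟩,
    fun x hx hw => ?_⟩
  · rw [crdT, mod_eq_zero_iff h.hp, cast_dot h.up]
  · obtain ⟨a1, a2⟩ := annF h.up (s0P om c s)
    rw [← h.s0P s h1, a2]
    beta_reduce
    unfold annP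
    refine ⟨fun H i _ => ?_, fun H a ha => ?_⟩
    · by_cases e : i < (annP om c s).length <;> unfold annP at e
      · rw [List.getD_eq_getElem _ _ e]
        exact H _ (List.getElem_mem e)
      · rw [List.getD_eq_default _ _ (not_lt.1 e), fV_nil, dF_comm, map_zero]
    · obtain ⟨i, hi, rfl⟩ := List.getElem_of_mem ha
      have := H i (mem_ran.2 (hi.trans_le a1))
      rwa [List.getD_eq_getElem _ _ hi] at this
  have key : ∀ v, ((1 : ZMod p), v) ∈ sp (pl (frm p n)) (preim c (u3 c) (() :: u3 c)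
      (afP om c s x) (fun y => dlP c s (axpy c (u3 c) (y.getD 0 0) (pull1P c (nrm c x) (sD s))
        y.tail)) []) ↔ (stD p n s).Sol (gD p n x, v) := fun v => by
    rw [mem_preim h.hp h.d3 h.dp3 ((stD p n s).dl ∘ₗ ((LinearMap.fst _ _ _).smulRight
      (pull1 (gD p n x).1 (fV p n (sD s))) + LinearMap.snd _ _ _)) fun y _ => ?_, h.afK s hw,
      sp_nil, Submodule.mem_bot]
    · rw [LinearMap.comp_apply, LinearMap.add_apply, LinearMap.smulRight_apply,
        LinearMap.fst_apply, one_smul]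
      exact ⟨fun e => ⟨⟨hx, e.1⟩, e.2⟩, fun e => ⟨e.1.2, e.2⟩⟩
    · rw [← fV, h.dlP, fV, dv_axpy h.hp h.d3, dv_pl, ← fV, h.pull1P, h.nrm]
      rfl
  refine ⟨fun y e => ?_, fun e w hs => ?_⟩
  · obtain ⟨w, e', rfl⟩ := Option.map_eq_some_iff.1 e
    exact ⟨rfl, (key _).1 (aff_some h.hp h.d3 e')⟩
  · have := (aff_isSome h.hp h.d3 _).2 ⟨w, (key w).2 hs⟩
    rw [Option.map_eq_none_iff.1 e] at this
    exact Bool.false_ne_true this

end Pool.Agent.P.MP_f1a348_lc.UP.CU.AF
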