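import Pool.Agent.P.MP_f1a348_lc.AF.Iface

/-!
Project AF: the subgroups that the rules branch on.
-/

namespace Pool.Agent.P.MP_f1a348_lc.UP.CU.AF

open Matrix Module Pool.Agent.P.MP_f1a348_lc.PG
open scoped commutatorElement

namespace QBz

variable {p n : ℕ} {ℓ : Ix n → ℕ}

theorem gr_pr (y : Mat p n) (β : Ix n) : gr ℓ y * pr ℓ β = pr ℓ β * y * pr ℓ β := by
  ext α γ
  simp only [mul_pr_apply, pr_mul_apply, gr_apply]
  split_ifs <;> simp_all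

theorem e0_vecMul {b : Mat p n} (hb : Tri ℓ b) : e0 ᵥ* b = b (c0 n) (c0 n) • (e0 : Vec p n) := by
  funext γ
  rw [e0, Matrix.single_one_vecMul]
  by_cases h : γ = c0 n
  · simp [h]
  · simp [h, hb.row_c0 h]

/-- a block on which the algebra acts by the central character is trivial -/
theorem triv_of [Fact p.Prime] {B : Sub p n} (h : Str ℓ B) {β : Ix n}
    (e : ∀ b ∈ B, ∀ v ∈ Vb ℓ β, b *ᵥ v = b (c0 n) (c0 n) • v) : Triv ℓ B β := fun hb => by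
  have hv := single_mem_Vb (ℓ := ℓ) (p := p) (a := β) rfl 1
  have : Matrix.vecMulVec (Pi.single β 1) e0 ∈ Cb ℓ B β (c0 n) := ⟨fun b hb => by
    rw [Matrix.mul_vecMulVec, Matrix.vecMulVec_mul, e b hb _ hv,
      e0_vecMul ((h.alg.dg b hb).tri h.lab), Matrix.smul_vecMulVec, Matrix.vecMulVec_smul], by
    rw [Matrix.mul_vecMulVec, Matrix.vecMulVec_mul, mem_Vb_iff.1 hv,
      e0_vecMul ((dg_pr _).tri h.lab)]
    simp [pr]⟩
  rw [hb, Submodule.mem_bot] at this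
  simpa [e0, Matrix.vecMulVec_apply] using congrFun (congrFun this β) (c0 n)

end QBz

open QBz in
theorem s_QB (p n : ℕ) [Fact p.Prime] (c : CU.TC p n) (hCOC : S_COC p n) : S_QB p n := by
  intro s h
  have hSOL := c.sol
  have hENV := c.env
  have hSEC := c.sec
  have hLC := c.lc
  obtain ⟨lab', clo, -, lo1, c5, c6, c7, -, -, -, -⟩ := hCOC s h
  have lab := h.lab
  obtain ⟨-, -, -, l4, l5, -⟩ := hLC.1 s.ℓ s.lam lab clo
  have eG : ∀ g ∈ s.G, g.1 ∈ Env s.G := (hENV.1 s.G).2.1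
  have mul : ∀ g ∈ s.G, ∀ k ∈ s.G, s.lo (g * k).1 = s.lo g.1 * s.lo k.1 := fun g hg k hk =>
    (c5 _ (eG g hg)).2.2 _ (eG k hk)
  have act : ∀ β ∈ s.lam, ∀ x : Mat p n, ∀ v ∈ Vb s.ℓ β,
      s.lo x *ᵥ v = (pr s.ℓ β * fr s.f x * pr s.ℓ β) *ᵥ v := fun β hβ x v hv => by
    rw [← gr_pr, ← (l4 (fr s.f x)).2.2.2.2.1 β hβ, ← Matrix.mulVec_mulVec, mem_Vb_iff.1 hv]
    rfl
  have vb : ∀ β ∈ s.lam, (Vb s.ll β : VS p n) = Vb s.ℓ β := fun β hβ => (l5 β hβ).2.1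
  refine ⟨fun j v hv => ?_, fun C hC => ⟨⟨sg (fun g => g ∈ s.G ∧ s.lo g.1 * C = C * s.lo g.1)
    ⟨one_mem _, by simp [lo1]⟩ fun a b ha hb => ⟨mul_mem ha.1 hb.1, by
      rw [mul a ha.1 b hb.1, mul_assoc, hb.2, ← mul_assoc, ha.2, mul_assoc]⟩, fun _ => Iff.rfl⟩,
    fun Q hQ => ⟨fun g hg => (hQ g).2 ⟨h.le hg, (hC _ ((c6 _ h.le).2.2.2.1 g hg)).symm⟩,
      fun g hg => (hQ g).2 ⟨hg.1, by simp [(c7 g hg.1).2.1.1 hg]⟩, fun g hg => ((hQ g).1 hg).1⟩⟩,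
    fun Y A hY hA => ?_, fun Y β hY hβ => ?_⟩
  · have ha : s.a j ∈ s.lam := (hLC.2 s.ℓ s.a lab).2.1 j
    rw [vb _ ha] at hv
    obtain ⟨-, -, s3, -, s5, s6, -⟩ := hSEC.1 s.f s.ℓ (s.a j) lab
    set L := sL s.f s.ℓ (s.a j)
    set W := L ⊔ orb (Env s.X) (s.f.1 *ᵥ v) with hW
    have eX : Env s.X ≤ Env s.G := (hENV.1 s.X).2.2.1 _ h.le
    have lm : ∀ x : Mat p n, ∀ u ∈ Vb s.ℓ (s.a j), s.lo x *ᵥ u ∈ Vb s.ℓ (s.a j) := fun x u hu => by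
      rw [act _ ha x u hu, mul_assoc, ← Matrix.mulVec_mulVec]
      exact pr_mulVec_mem _ _
    have A : ∀ x ∈ Env s.G, ∀ u ∈ Vb s.ℓ (s.a j),
        x *ᵥ (s.f.1 *ᵥ u) - s.f.1 *ᵥ (s.lo x *ᵥ u) ∈ L := fun x hx u hu => by
      rw [act _ ha x u hu, ← Matrix.mulVec_mulVec u, mem_Vb_iff.1 hu]
      exact s6 x (s5 x (h.tri x hx)).2 u hu
    have B : ∀ u ∈ Vb s.ℓ (s.a j), s.f.1 *ᵥ u ∈ W ↔ u ∈ orb (s.le s.X) v := fun u hu => by
      refine ⟨fun e => ?_, ?_⟩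
      · obtain ⟨l, hl, _, ⟨x, hx, rfl⟩, e⟩ := Submodule.mem_sup.1 e
        refine ⟨_, ⟨x, hx, rfl⟩, (sub_eq_zero.1 ((s3 _ (sub_mem hu (lm x v hv))).2 ?_)).symm⟩
        rw [Matrix.mulVec_sub, ← e, add_sub_assoc]
        exact add_mem hl (A x (eX hx) v hv)
      · rintro ⟨_, ⟨x, hx, rfl⟩, rfl⟩
        have := W.sub_mem (Submodule.mem_sup_right (mem_orb.2 ⟨x, hx, rfl⟩))
          (Submodule.mem_sup_left (A x (eX hx) v hv))
        rwa [sub_sub_cancel] at this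
    have C : ∀ x ∈ Env s.G, ∀ u ∈ Vb s.ℓ (s.a j),
        x *ᵥ (s.f.1 *ᵥ u) ∈ W ↔ s.lo x *ᵥ u ∈ orb (s.le s.X) v := fun x hx u hu => by
      rw [← B _ (lm x u hu)]
      have := Submodule.mem_sup_left (T := orb (Env s.X) (s.f.1 *ᵥ v)) (A x hx u hu)
      exact ⟨fun e => by simpa using sub_mem e this, fun e => by simpa using add_mem this e⟩
    have v0 : v ∈ orb (s.le s.X) v := mem_orb.2 ⟨1, (c6 _ h.le).1.one, Matrix.one_mulVec _⟩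
    have D : ∀ x ∈ Env s.X, ∀ u ∈ W, x *ᵥ u ∈ W := fun x hx u hu => by
      obtain ⟨l, hl, _, ⟨y, hy, rfl⟩, rfl⟩ := Submodule.mem_sup.1 hu
      rw [Matrix.mulVec_add, evx_apply, Matrix.mulVec_mulVec]
      exact Submodule.add_mem_sup ((s5 x (h.tri x (eX hx))).1 l hl)
        (mem_orb.2 ⟨_, (hENV.1 s.X).1.mul x hx y hy, rfl⟩)
    have E : ∀ g, g ∈ s.qb j (s.f.1 *ᵥ v) ↔ g ∈ s.G ∧ s.lo g.1 *ᵥ v ∈ orb (s.le s.X) v := fun g => by
      refine and_congr_right fun hg => ?_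
      rw [← C _ (eG g hg) v hv]
      refine ⟨fun e => mem_Stb.1 e _ ((B v hv).2 v0), fun e => mem_Stb.2 fun u hu => ?_⟩
      obtain ⟨l, hl, _, ⟨y, hy, rfl⟩, rfl⟩ := Submodule.mem_sup.1 hu
      rw [Matrix.mulVec_add, evx_apply, ← g.2.2.1.cj_mulVec]
      exact add_mem (Submodule.mem_sup_left ((s5 _ (h.tri _ (eG g hg))).1 l hl))
        (D _ (mem_NmS.1 ((hENV.1 s.X).2.2.2.1 _ h.nm hg) y hy) _ e)
    refine ⟨fun g hg => (E g).2 ⟨h.le hg, mem_orb.2 ⟨_, (c6 _ h.le).2.2.2.1 g hg, rfl⟩⟩,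
      fun g hg => (E g).2 ⟨hg.1, by rwa [(c7 g hg.1).2.1.1 hg, Matrix.one_mulVec]⟩, E, ?_, ?_⟩
    · rintro _ ⟨y, hy, rfl⟩ u hu
      have hu' : u ∈ Vb s.ℓ (s.a j) := by
        obtain ⟨_, ⟨x, -, rfl⟩, rfl⟩ := hu
        exact lm x v hv
      exact (C y ((hENV.1 _).2.2.1 _ inf_le_left hy) u hu').1
        (((hENV.1 _).2.2.2.2.1 W).2 inf_le_right y hy _ ((B u hu').2 hu))
    · classical
      have := Fintype.ofFinite (Vb s.ℓ (s.a j) : VS p n)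
      have ex : ∀ w : (Vb s.ℓ (s.a j) : VS p n), ∃ t : GG p n,
          (∃ g ∈ s.G, s.lo g.1 *ᵥ v = w.1) → t ∈ s.G ∧ s.lo t.1 *ᵥ v = w.1 := fun w => by
        by_cases e : ∃ g ∈ s.G, s.lo g.1 *ᵥ v = w.1
        · exact ⟨e.choose, fun _ => e.choose_spec⟩
        · exact ⟨1, fun e' => (e e').elim⟩
      choose t ht using ex
      refine ((hSOL (GG p n)).2.2.2.2.2.2.2.2.2.2.2.2.2.2 (Finset.univ.toList.map t) _ _
        fun g hg => ?_).trans_eq ?_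
      · obtain ⟨t1, t2⟩ := ht ⟨_, lm g.1 v hv⟩ ⟨g, hg, rfl⟩
        refine ⟨_, List.mem_map.2 ⟨⟨_, lm g.1 v hv⟩, by simp, rfl⟩,
          (E _).2 ⟨mul_mem (inv_mem t1) hg, ?_⟩⟩
        generalize t _ = u at t1 t2 ⊢
        rw [mul _ (inv_mem t1) g hg, ← Matrix.mulVec_mulVec,
          ← show s.lo u.1 *ᵥ v = s.lo g.1 *ᵥ v from t2, Matrix.mulVec_mulVec,
          ← mul _ (inv_mem t1) _ t1, inv_mul_cancel, val_one, lo1, Matrix.one_mulVec]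
        exact v0
      · rw [List.length_map, Finset.length_toList, Finset.card_univ, Module.card_eq_pow_finrank
          (K := ZMod p), ZMod.card, finrank_Vb]
  · let Q : SG p n := sg (fun g => g ∈ Y ∧ s.lo g.1 ∈ A) ⟨one_mem _, by simpa [lo1] using hA.one⟩
      fun a b ha hb => ⟨mul_mem ha.1 hb.1, by
        rw [mul a (hY ha.1) b (hY hb.1)]; exact hA.mul _ ha.2 _ hb.2⟩
    refine ⟨⟨Q, fun _ => Iff.rfl⟩, fun S Z hZ h1 h2 h3 g => ?_⟩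
    have sq : Subgroup.closure S ≤ Q := (Subgroup.closure_le _).2 h2
    refine ⟨fun hg => sq hg, fun hg => ?_⟩
    let T : SG p n := sg (fun z => ∃ y ∈ Subgroup.closure S, s.lo y.1 = z.1) ⟨1, one_mem _, lo1⟩ (by
      rintro a b ⟨x, hx, ea⟩ ⟨y, hy, eb⟩
      exact ⟨x * y, mul_mem hx hy, by rw [mul x (hY (sq hx).1) y (hY (sq hy).1), ea, eb, val_mul]⟩)
    have zt : Subgroup.closure Z ≤ T := (Subgroup.closure_le _).2 h1
    obtain ⟨z, hz, ez⟩ := hZ g hg.1 hg.2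
    obtain ⟨y, hy, e⟩ := zt hz
    rw [ez] at e
    have y1 := hY (sq hy).1
    have y2 := mul_mem (inv_mem (sq hy).1) hg.1
    have := mul_mem hy (h3 ⟨y2, (c7 _ (hY y2)).2.1.2 (by
      rw [mul _ (inv_mem y1) g (hY hg.1), ← show s.lo y.1 = s.lo g.1 from e,
        ← mul _ (inv_mem y1) _ y1, inv_mul_cancel, val_one, lo1])⟩)
    rwa [mul_inv_cancel_left] at this
  · obtain ⟨-, -, -, -, s5, -, s7, -⟩ := hSEC.1 s.f s.ℓ β lab
    have K : ∀ g ∈ s.G, g ∈ KS s.f s.ℓ β ↔ ∀ v ∈ Vb s.ℓ β, s.lo g.1 *ᵥ v = v := fun g hg => by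
      rw [s7 g (s5 _ (h.tri _ (eG g hg))).1 (s5 _ (h.tri _ (eG g hg))).2]
      refine ⟨fun e v hv => by rw [act β hβ _ v hv, e, mem_Vb_iff.1 hv], fun e => mat_ext fun x => ?_⟩
      rw [← e _ (pr_mulVec_mem β x), act β hβ _ _ (pr_mulVec_mem β x), Matrix.mulVec_mulVec,
        mul_assoc _ (pr s.ℓ β), pr_mul_pr]
    have M : Y ≤ KS s.f s.ℓ β ↔ ∀ b ∈ s.le Y, ∀ v ∈ Vb s.ll β,
        b *ᵥ v = b (c0 n) (c0 n) • v := by
      rw [vb β hβ]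
      refine ⟨fun e => ?_, fun e g hg => (K g (hY hg)).2 fun v hv => by
        rw [e _ ((c6 Y hY).2.2.2.1 g hg) v hv, (c7 g (hY hg)).1.2.2, one_smul]⟩
      rintro _ ⟨y, hy, rfl⟩ v hv
      induction hy using Submodule.span_induction with
      | mem x hx =>
        obtain ⟨g, hg, rfl⟩ := hx
        rw [(K g (hY hg)).1 (e hg) v hv, (c7 g (hY hg)).1.2.2, one_smul]
      | zero => simp
      | add x y _ _ hx hy => rw [map_add, Matrix.add_mulVec, hx, hy, Matrix.add_apply, add_smul]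
      | smul c x _ hx =>
        rw [map_smul, Matrix.smul_mulVec, hx, Matrix.smul_apply, smul_eq_mul, mul_smul]
    exact ⟨M, fun hS => M.trans ⟨triv_of hS, fun t b hb v hv => triv_act hS t hv hb⟩⟩

end Pool.Agent.P.MP_f1a348_lc.UP.CU.AF
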