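import Pool.Agent.P.MP_f1a348_lc.AF.PIf

namespace Pool.Agent.P.MP_f1a348_lc.UP.CU.AF

open Matrix Module Pool.Agent.P.MP_f1a348_lc.PG
open scoped commutatorElement

namespace QDECz

variable {p n : ℕ} [Fact p.Prime] {c : Cx}

omit [Fact p.Prime] in
theorem st_ext {s t : St p n} (h1 : s.f = t.f) (h2 : s.ℓ = t.ℓ) (h3 : s.a = t.a) (h4 : s.μ = t.μ)
    (h5 : s.G = t.G) (h6 : s.X = t.X) (h7 : s.F = t.F) (h8 : s.ptr = t.ptr) (h9 : s.K = t.K)
    (h10 : s.δ = t.δ) (h11 : s.ν = t.ν) : s = t := by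
  cases s; cases t; congr

omit [Fact p.Prime] in
theorem out_ext {s t : Out p n} (h1 : s.H = t.H) (h2 : s.X = t.X) (h3 : s.F = t.F)
    (h4 : s.φ = t.φ) : s = t := by
  cases s; cases t; congr

omit [Fact p.Prime] in
theorem af_ext {s t : FR p n} (h1 : s.br = t.br) (h2 : s.s = t.s) (h3 : s.k = t.k)
    (h4 : s.F = t.F) (h5 : s.todo = t.todo) (h6 : s.acc = t.acc) : s = t := by
  cases s; cases t; congr

open Classical in
/-- the entries with the property `P` -/
noncomputable def mask (P : (Fin 3 → Ix n) → Prop) : Frm p n →ₗ[ZMod p] Frm p n where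
  toFun w i := if P i then w i else 0
  map_add' w v := by funext i; by_cases e : P i <;> simp [e]
  map_smul' a w := by funext i; by_cases e : P i <;> simp [e]

theorem mask_eq {P : (Fin 3 → Ix n) → Prop} {w : Frm p n} :
    mask P w = 0 ↔ ∀ i, P i → w i = 0 := by
  refine funext_iff.trans (forall_congr' fun i => ?_)
  by_cases e : P i <;> simp [mask, e]

variable [γ : Gl p n] {om : V → List V}

theorem inBx_iff (h : Ok p n om c) (s : PS) (i : Fin 3 → Ix n) :
    inBx c s (enc3 i) = true ↔ ∀ j, (stD p n s).ℓ (i j) = (stD p n s).ℓ ((stD p n s).a j) := by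
  rw [inBx, all3]
  refine forall_congr' fun j => ?_
  rw [h.co, sl_val, h.aj, same_iff, h.lP]

theorem belP_eq (h : Ok p n om c) (s k : PS) (t : ℕ) (w : V) : fV p n (belP c s k t w) =
    mask (fun i => (∀ j, (stD p n s).ℓ (i j) = (stD p n s).ℓ ((stD p n s).a j)) ∧
      key (stD p n k).ℓ i < t) (fV p n w) := by
  funext i
  rw [fV, belP, dv_tab h.hp h.d3, frm_apply, h.keyP, h.lP]
  have e := inBx_iff h s i
  by_cases e1 : inBx c s (enc3 i) = true
  · by_cases e2 : key (stD p n k).ℓ i < t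
    · rw [e1, Nat.blt_eq.mpr e2]
      exact (if_pos ⟨e.1 e1, e2⟩).symm
    · rw [Bool.eq_false_iff.2 (mt Nat.blt_eq.mp e2), Bool.and_false, cond_false, Nat.cast_zero]
      exact (if_neg fun k => e2 k.2).symm
  · rw [Bool.eq_false_iff.2 e1, Bool.false_and, cond_false, Nat.cast_zero]
    exact (if_neg fun k => e1 (e.2 k.1)).symm

theorem keyB_eq (h : Ok p n om c) (k : PS) (b : ℕ) :
    keyB c k b = key (stD p n k).ℓ (bx n b) := by
  have e : (fun j => bx n b (pm 0 j)) = bx n b := by
    funext j; fin_cases j <;> rfl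
  have e1 : [co c 0 b % mM c, co c 1 b % mM c, co c 2 b % mM c] = tr3 (bx n b) := by
    simp only [tr3, bx, co, h.hM]
    rfl
  rw [keyB, e1, h.tP, h.lP, e]

theorem call_eq (h : Ok p n om c) (x : Fm) (q : ℕ × V × V) :
    stD p n (call c x q) = (fmD p n x).call (q.1, paD p n q.2) := by
  obtain ⟨b, s, k, F, L, o⟩ := x
  cases b
  · refine st_ext rfl rfl (funext fun j => ?_) rfl rfl rfl (foD_append _ _) rfl ?_ ?_ rfl
    · change ixD n ([co c 0 q.1, co c 1 q.1, co c 2 q.1].getD j.val 0) = bx n q.1 j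
      simp only [bx, co, h.hM]
      rfl
    · funext g w
      refine propext ?_
      change (γ.K g w ∧ w ∈ sp (frm p n) (preim c (u3 c) (u3 c) (sV s)
        (fun w => belP c s k (keyB c k q.1) (pull1P c (fm c k) w)) [])) ↔
        ((γ.K g w ∧ w ∈ sp (frm p n) (sV s)) ∧ (stD p n s).Bel (stD p n k).ℓ
          (key (stD p n k).ℓ (bx n q.1)) (pull1 (stD p n k).f.1 w))
      rw [mem_preim h.hp h.d3 h.d3 (mask (fun i => (∀ j, (stD p n s).ℓ (i j) =
        (stD p n s).ℓ ((stD p n s).a j)) ∧ key (stD p n k).ℓ i < keyB c k q.1) ∘ₗ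
        pull1 (stD p n k).f.1) (fun y _ => by
          rw [← fV, belP_eq h, h.pull1P, h.fm]; rfl), sp_nil, Submodule.mem_bot,
        LinearMap.comp_apply, mask_eq, keyB_eq h, and_assoc]
      simp only [St.Bel, and_imp]
    · obtain ⟨H, X, F', _ | g⟩ := o
      · exact fV_nil
      · exact h.tg s g
  · refine st_ext rfl rfl rfl rfl rfl rfl rfl rfl rfl ?_ rfl
    change fV p n (bif q.1 == 2 then tgP c (sD s) q.2 else q.2.2) =
      if q.1 = 2 then (stD p n s).tg (paD p n q.2) else fV p n q.2.2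
    by_cases e : q.1 = 2
    · rw [if_pos e, beq_iff_eq.2 e, cond_true, h.tg]
    · rw [if_neg e, beq_false_of_ne e, cond_false]

theorem next_eq (h : Ok p n om c) (o r : PO) :
    outD p n (nextP c o r) = (outD p n o).next (outD p n r) := by
  refine out_ext rfl rfl (foD_append _ _) ?_
  obtain ⟨H, X, F, _ | g⟩ := o
  · rfl
  · obtain ⟨H', X', F', _ | g'⟩ := r
    · rfl
    · exact congrArg some (h.pmP g g')

theorem join_eq (h : Ok p n om c) (q : ℕ × V × V) (o r : PO) :
    outD p n (joinP c q o r) = Out.join (q.1, paD p n q.2) (outD p n o) (outD p n r) := by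
  rw [joinP, Out.join]
  by_cases e0 : q.1 = 0
  · rw [if_pos e0, e0]; rfl
  rw [if_neg e0, beq_false_of_ne e0, cond_false]
  by_cases e1 : q.1 = 1
  · rw [if_pos e1, e1]
    refine out_ext ((gS_append _ _).trans (congrArg _ (congrArg Subgroup.closure ?_))) rfl rfl rfl
    obtain ⟨H', X', F', _ | g'⟩ := r <;> simp [outD, paD, h.gD_mul, eq_comm]
  · rw [if_neg e1, beq_false_of_ne e1, cond_false]
    refine out_ext rfl rfl rfl ?_
    obtain ⟨H, X, F, _ | g⟩ := o <;> obtain ⟨H', X', F', _ | g'⟩ := r <;> simp [outD, h.pmP]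

theorem feed_eq (h : Ok p n om c) (x : Fm) (r : PO) :
    fmD p n (feed c x r) = (fmD p n x).feed (outD p n r) := by
  obtain ⟨b, s, k, F, L, o⟩ := x
  refine af_ext rfl rfl rfl rfl List.map_tail ?_
  cases b
  · exact next_eq h _ _
  · refine (join_eq h _ _ _).trans ?_
    cases L
    · have e : paD p n ([], []) = (1, 0) := Prod.ext gD_nil fV_nil
      exact congrArg (fun g => Out.join (0, g) _ _) e
    · rfl

theorem clF_eq (hR : S_QRED p n) (h : Ok p n om c) {F : Fo}
    (hF : SmF c.2.2.length (foD p n F)) : foD p n (clF c F) = foD p n F := by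
  rw [clF, List.take_of_length_le ((length_foD F).symm.trans_le hF.1), foD, foD, List.map_map]
  refine List.map_congr_left fun r hr => ?_
  simp only [Function.comp, hR c _ h.up]
  rw [mn_eq (hF.2 _ (List.mem_map_of_mem hr))]

theorem clP_eq (hR : S_QRED p n) (h : Ok p n om c) {π : PPt}
    (hF : SmF c.2.2.length (ptD p n π).F) : ptD p n (clP1 c π) = ptD p n π := by
  simp only [ptD, clP1, hR c _ h.up, h.gD_nrm, h.labD_nl, h.mod_ix, ixD_val, clF_eq hR h hF]

theorem clS_eq (hR : S_QRED p n) (h : Ok p n om c) {s : PS}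
    (hs : (stD p n s).Sm c.2.2.length) : stD p n (clS c s) = stD p n s := by
  refine st_ext (h.gD_nrm _) (h.labD_nl _) (funext fun j => ?_) (funext fun j => ?_) (hR c _ h.up)
    (hR c _ h.up) (clF_eq hR h hs.1) (funext fun j => ?_) ?_ (h.nv3 _) rfl
  · exact (congrArg (ixD n) ((getD3 (aj c s) 0 j).trans (h.aj s j))).trans (ixD_val _)
  · change min (muD (muP c s) j) _ = _
    rw [h.muP]
    exact min_eq_left (min_le_right _ _)
  · refine (congrArg (Option.map (ptD p n)) (getD3 (fun j => (sP s j).map (clP1 c)) none j)).trans ?_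
    have e := hs.2 j
    change (∀ r, (sP s j.val).map (ptD p n) = some r → _) at e
    change _ = (sP s j.val).map (ptD p n)
    cases e' : sP s j.val with
    | none => rfl
    | some π => exact congrArg some (clP_eq hR h (e _ (by rw [e']; rfl)))
  · exact congrArg (fun (W : Submodule (ZMod p) (Frm p n)) g w => γ.K g w ∧ w ∈ W)
      (basis_bas h.hp h.d3 (sV s)).sp

theorem clM_eq (hR : S_QRED p n) (h : Ok p n om c) (x : Fm)
    (hx : (fmD p n x).Sm c.2.2.length) : fmD p n (clM c x) = fmD p n x := by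
  refine af_ext rfl (clS_eq hR h hx.s) (clS_eq hR h hx.k) (clF_eq hR h hx.F) ?_
    (out_ext (hR c _ h.up) (hR c _ h.up) (clF_eq hR h hx.acc) ?_)
  · change (((todo x).take _).map _).map _ = (todo x).map _
    rw [List.take_of_length_le ((List.length_map _).symm.trans_le hx.len), List.map_map]
    refine List.map_congr_left fun q hq => ?_
    simp only [Function.comp, h.clQ]
    rw [mn_eq (hx.tag _ (List.mem_map_of_mem hq))]
  · change ((acc x).2.2.2.map _).map _ = (acc x).2.2.2.map _
    rw [Option.map_map]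
    exact congrArg (fun f => Option.map f _) (funext h.clQ)

theorem reset_eq (h : Ok p n om c) (s : PS) : stD p n (resetP c s) = (stD p n s).reset := by
  refine st_ext rfl rfl rfl (funext fun j => ?_) rfl rfl rfl rfl rfl rfl rfl
  change min (([0, 1, 2].map fun j => bif Nat.ble (2 * nbP c (lP c s) (aj c s j))
    ((muP c s).getD j 0) then nbP c (lP c s) (aj c s j) else (muP c s).getD j 0).getD j.val 0)
    (2 * n + 1) = _
  rw [getD3]
  have e : (muP c s).getD j.val 0 = (stD p n s).μ j := congrFun (h.muP s) j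
  simp only [e, h.aj, h.nbP, h.lP, Bool.cond_eq_ite, Nat.ble_eq, St.reset]
  refine min_eq_left ?_
  split_ifs
  · exact nb_le _ _
  · exact min_le_right _ _

theorem initB_eq (h : Ok p n om c) (s : PS) (b : PB) :
    fmD p n (initB c s b) = (stD p n s).frB (brcD p n b) := by
  refine af_ext rfl rfl (st_ext rfl rfl rfl rfl rfl rfl (foD_append _ _) rfl rfl fV_nil rfl) rfl ?_
    (out_ext gS_nil gS_nil rfl rfl)
  simp [fmD, initB, todo, St.frB, brcD, h.pa_one, Function.comp_def]

theorem box_eq (h : Ok p n om c) (s k : PS) :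
    (ran (u3 c)).filter (boxT c s k) = (stD p n s).boxes (stD p n k).ℓ 0 := by
  rw [ran_eq, h.len3, List.range_eq_range', St.boxes, Nat.sub_zero]
  refine List.filter_congr fun i hi => ?_
  obtain ⟨a, rfl⟩ := exists_enc3 (n := n) (i := i) (by simpa using hi)
  rw [Bool.eq_iff_iff, boxT, Bool.and_eq_true, inBx_iff h, all3, decide_eq_true_iff, bx_enc,
    ← forall_and]
  refine forall_congr' fun j => ?_
  rw [h.co, sl_val, beq_iff_eq, ← h.lP k]
  rfl

theorem initF_eq (h : Ok p n om c) (s : PS) (o : PO) :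
    fmD p n (initF c s o) = (stD p n s).frF (outD p n o) := by
  refine af_ext rfl rfl rfl rfl ?_ rfl
  change [(dg3 c (aj c s (0 : Fin 3).val) (aj c s (1 : Fin 3).val) (aj c s (2 : Fin 3).val),
    paD p n (oneP c, []))] = [(enc3 (stD p n s).a, 1, 0)]
  rw [h.aj, h.aj, h.aj, h.dg3, h.pa_one]

theorem root_eq (h : Ok p n om c) (k : ℕ) (G : List V) (y : List V × Fo) (d : V) :
    stD p n (rootP c k G y d) = root ![Fin.last _, if k = 0 then Fin.last _ else c0 n, 0]
      (gS p n G) (gS p n y.1) (foD p n y.2) γ.K (fV p n d) γ.ν := by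
  refine st_ext h.gD_one ((labD_of (h.l0P ▸ lab_l0)).trans h.l0P) (funext fun j => ?_)
    (funext fun j => ?_) rfl rfl rfl (funext fun j => ?_) ?_ rfl rfl
  · have e : n % (2 * n + 1) = n := Nat.mod_eq_of_lt (by omega)
    by_cases e0 : k = 0
    · fin_cases j <;> simp [stD, rootP, root, ixD, h.hM, Fin.ext_iff, e0]
    · fin_cases j <;> simp [stD, rootP, root, ixD, h.hM, Fin.ext_iff, e0, beq_false_of_ne e0, h.cz,
        c0, e]
  · fin_cases j <;> simp [stD, rootP, root, h.hM]
  · rfl
  · funext g w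
    change (γ.K g w ∧ w ∈ sp (frm p n) (units c (u3 c))) = γ.K g w
    rw [sp_units_top h.hp h.d3 frm_surj]
    simp

end QDECz

open QDECz in
theorem s_QDEC (p n : ℕ) [Fact p.Prime] (q : TP p n) : S_QDEC p n := fun _ _ h =>
  ⟨call_eq h, feed_eq h, clM_eq q.red h, reset_eq h, fun _ _ => rfl, initB_eq h, box_eq h,
    initF_eq h, fun _ => clF_eq q.red h, root_eq h⟩

end Pool.Agent.P.MP_f1a348_lc.UP.CU.AF
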