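import Pool.Agent.P.MP_f1a348_lc.AF.PIf

/-!
Project AF, task QEN: the engine at a resolved node.
-/

namespace Pool.Agent.P.MP_f1a348_lc.UP.CU.AF

open Matrix Module Pool.Agent.P.MP_f1a348_lc.PG
open scoped commutatorElement

namespace QENz

theorem triv {p n : ℕ} (hn : n = 0) (g : GG p n) : g = 1 := by
  refine Subtype.ext (Matrix.ext fun a b => ?_)
  have ha : a = c0 n := Fin.ext (by have := a.2; simp only [c0]; omega)
  have hb : b = c0 n := Fin.ext (by have := b.2; simp only [c0]; omega)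
  rw [ha, hb, g.2.2.2]
  exact (1 : GG p n).2.2.2.symm

end QENz

theorem s_QEN (p n : ℕ) [Fact p.Prime] (t : TM p n) (q : TQ p n) (hKR : S_KR p n)
    (hQLEAF : S_QLEAF p n) (hENF : RN.S_QENF p n) : S_QEN p n := by
  intro γ om c s S h hS ok0 hsim hres hscl hleaf
  have el : lab n (llP c s) = S.ll := hS ▸ h.llP s
  have em : muD (muP c s) = S.μ := hS ▸ h.muP s
  have eG : gS p n (sG s) = S.G := by rw [← hS]; rfl
  have eX : gS p n (sX s) = S.X := by rw [← hS]; rfl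
  have ed : fV p n (dlP c s (sD s)) = S.dl S.δ := by rw [h.dlP, ← hS]; rfl
  have elo : ∀ x, mV p n (loP c s (nrm c x)) = S.lo (gD p n x).1 := fun x => by
    rw [h.loP, h.up.nrm, hS]
  have e0 : sp (frm p n) (s0P om c s) = S.S0 := hS ▸ h.s0P s (hS ▸ ok0.one)
  have mG : ∀ x ∈ sG s, gD p n x ∈ S.G := fun x hx => eG ▸ mem_gS hx
  have ekp : ∀ x ∈ sG s, S.Kp (gD p n x) (fV p n (kpP om c s [] x)) := fun x hx =>
    hS ▸ h.kp s (hS ▸ ok0.tot _ (mG x hx))
  have eB : sp (mat p n) (leP c s (sX s)) = S.le S.X := by rw [(q.st om c s S h hS).1, eX]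
  obtain ⟨-, -, hkey, hone, -⟩ := t.coc S ok0
  have h0 := (t.cok S ok0).2.2.2.2.1
  obtain ⟨hKL, hGX, hSp, -, hU, hEng, hlf, hgen⟩ := hKR S ok0 hsim hres
  have eS : sp (frm p n) (spS om c s) = SpK S.Kc := by
    rw [hSp]; exact (hQLEAF om c s S h hS ok0).1
  have hn : 0 < n := Nat.pos_of_ne_zero fun e => hleaf fun g _ u hu =>
    Submodule.subset_span ⟨g, QENz.triv e g ▸ one_mem _, hu⟩
  have hE := hENF c (llP c s) (leP c s (sX s)) S.a (muP c s) (plS om c s) (spS om c s)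
    (dlP c s (sD s)) (S.li S.G) S.Kc h.up hn
  rw [el, eB, em, hkey, ed] at hE
  replace hE := hE hres.str hU hKL
    (hgen {g | ∃ x ∈ sG s, gD p n x = g} _ eG (fun y hy => ?_) (fun g hg => ?_) ?_) eS
  · obtain ⟨k1, k2, k3⟩ := hE
    have eph : S.ph (S.le S.G) = PhiS S.μ S.ll (S.le S.X) := by
      rw [hGX]; exact (t.phi S.μ).2.1 _ _ hres.str
    refine ⟨fun e => Option.isSome_iff_ne_none.2 fun e1 =>
      hleaf (hlf (k1 (hres.giant.big hres.str) hscl hEng e e1)), fun e he => ?_,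
      fun A Y Y' he => ?_⟩
    · obtain ⟨b, -, hb⟩ := k2 e he
      exact ⟨b, hb⟩
    · obtain ⟨m1, m2, m3⟩ := k3 A Y Y' he
      exact ⟨m1, by rw [St.Paid, eph]; exact m2, by rw [St.Paid, eph]; exact m3⟩
  · obtain ⟨z, hz, rfl⟩ := hy
    rcases List.mem_append.1 hz with hz | hz
    · obtain ⟨x, hx, rfl⟩ := List.mem_map.1 hz
      exact ⟨_, mG x hx, (elo x).symm, ekp x hx⟩
    · obtain ⟨w, hw, rfl⟩ := List.mem_map.1 hz
      exact ⟨1, one_mem _, hone.trans h.up.oneP.symm, (h0 _).2 (e0 ▸ mem_sp hw)⟩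
  · obtain ⟨x, hx, rfl⟩ := hg
    exact ⟨_, ekp x hx, _, List.mem_append_left _ (List.mem_map_of_mem hx), by rw [elo]⟩
  · rw [← e0]
    exact sp_le.2 fun w hw => Submodule.subset_span
      ⟨_, List.mem_append_right _ (List.mem_map_of_mem hw), by rw [h.up.oneP]⟩

end Pool.Agent.P.MP_f1a348_lc.UP.CU.AF
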