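import Pool.Agent.P.MP_f1a348_lc.AF.Iface
import Pool.Agent.P.MP_f1a348_lc.UP.TCOC
import Pool.Agent.P.MP_f1a348_lc.UP.TQB

namespace Pool.Agent.P.MP_f1a348_lc.UP.CU.AF

open Matrix Module Pool.Agent.P.MP_f1a348_lc.PG
open Pool.Agent.P.MP_f1a348_lc.UP.CU.RN

namespace QFz

variable {p n : ℕ} [Fact p.Prime] {ℓ : Ix n → ℕ}

theorem triv_of {B : Sub p n} (hl : Lab ℓ) (h : Alg ℓ B) {β : Ix n}
    (e : ∀ b ∈ B, b * pr ℓ β = b (c0 n) (c0 n) • pr ℓ β) : Triv ℓ B β := fun hb => by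
  have hv := single_mem_Vb (ℓ := ℓ) (p := p) (a := β) rfl 1
  have : Matrix.vecMulVec (Pi.single β 1) e0 ∈ Cb ℓ B β (c0 n) := ⟨fun b hb => by
    rw [Matrix.mul_vecMulVec, Matrix.vecMulVec_mul, ← mem_Vb_iff.1 hv, Matrix.mulVec_mulVec, e b hb,
      QBz.e0_vecMul ((h.dg b hb).tri hl), Matrix.smul_mulVec, Matrix.smul_vecMulVec,
      Matrix.vecMulVec_smul], by
    rw [Matrix.mul_vecMulVec, Matrix.vecMulVec_mul, mem_Vb_iff.1 hv,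
      QBz.e0_vecMul ((dg_pr _).tri hl)]
    simp [pr]⟩
  rw [hb, Submodule.mem_bot] at this
  simpa [e0, Matrix.vecMulVec_apply] using congrFun (congrFun this β) (c0 n)

theorem supp (hl : Lab ℓ) {b : Ix n} {v : Frm p n} (hv : v ∈ Wt ℓ (key ℓ (bx b)))
    {i : Fin 3 → Ix n} (e : v i ≠ 0) : ℓ (i 0) = ℓ b ∧ i = bx (i 0) := by
  have := (key_eq_iff hl).1 (not_not.1 fun h => e (hv i h))
  refine ⟨this 0, funext fun j => ?_⟩
  fin_cases j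
  exacts [rfl, hl.ctr _ (this 1), hl.ctr _ (this 2)]

omit [Fact p.Prime] in
theorem row {ℓ' : Ix n → ℕ} {x y : Mat p n} (hx : Par ℓ x) (hy : Par ℓ' y) (β : Ix n) :
    x (c0 n) β = y (c0 n) β := by
  by_cases e : β = c0 n
  · rw [e, hx.2.2, hy.2.2]
  · rw [hx.1.row_c0 e, hy.1.row_c0 e]

theorem pr_c0 (hl : Lab ℓ) {x : Mat p n} (h : x (c0 n) (c0 n) = 1) :
    pr ℓ (c0 n) * x * pr ℓ (c0 n) = pr ℓ (c0 n) := by
  ext α β
  have k : ∀ γ, ℓ γ = ℓ (c0 n) ↔ γ = c0 n := fun γ => ⟨hl.ctr γ, fun e => e ▸ rfl⟩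
  rw [mul_pr_apply, pr_mul_apply, pr, Matrix.diagonal_apply]
  simp only [k]
  split_ifs <;> simp_all

end QFz

open QFz

theorem s_QF (p n : ℕ) [Fact p.Prime] (b : TB p n) : S_QF p n := by
  intro s a ψ h H
  obtain ⟨hlab, hclo, -, lo1, lox, loY, log, kp1, -⟩ := b.coc s h
  obtain ⟨-, -, -, k4, s0, k6, -⟩ := b.cok s h
  obtain ⟨-, -, -, l4, -, -, l7, l8, -⟩ := b.lc.1 s.ℓ s.lam h.lab hclo
  have pk : ∀ g ∈ s.G, ∀ u, s.Kp g u → u ∈ PK s.Kc := fun g hg u hu => mem_PK ⟨g, hg, rfl, hu⟩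
  have wd : ∀ g ∈ s.G, ∀ u v, s.Kp g u → s.Kp g v → ψ v = ψ u := fun g hg u v hu hv => by
    rw [← sub_eq_zero, ← map_sub]
    exact H.sp _ ⟨1, one_mem _, lo1, (s0 _).2 (((k6 g hg u hu).2.1 v).1 hv)⟩
  have ml : ∀ g ∈ s.G, ∀ k ∈ s.G, ∀ u v, s.Kp g u → s.Kp k v → ∃ w, s.Kp (g * k) w ∧
      ψ w = pull1 (s.lo k.1) (ψ u) + ψ v := fun g hg k hk u v hu hv =>
    ⟨_, (k6 g hg u hu).2.2.2 k hk v hv, by rw [map_add, H.eqv _ ⟨k, hk, rfl⟩ u (pk g hg u hu)]⟩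
  refine ⟨⟨sg (fun g => g ∈ s.G ∧ ∃ u, s.Kp g u ∧ ψ u = 0) ⟨one_mem _, 0, kp1, map_zero _⟩ ?_,
    fun _ => Iff.rfl⟩, fun Q hQ => ?_⟩
  · rintro g k ⟨hg, u, hu, e⟩ ⟨hk, v, hv, e'⟩
    obtain ⟨w, hw, e''⟩ := ml g hg k hk u v hu hv
    exact ⟨mul_mem hg hk, w, hw, by rw [e'', e, e', map_zero, add_zero]⟩
  have le : Q ≤ s.G := fun g hg => ((hQ g).1 hg).1
  have iff : ∀ g ∈ s.G, ∀ u, s.Kp g u → (g ∈ Q ↔ ψ u = 0) := fun g hg u hu =>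
    (hQ g).trans ⟨fun ⟨_, v, hv, e⟩ => (wd g hg v u hv hu).trans e, fun e => ⟨hg, u, hu, e⟩⟩
  refine ⟨le, fun g hg => ?_, ?_, ?_, iff, fun x y hx hy => ?_,
    fun Y hY => ⟨⟨0, kp1, map_zero _⟩, ?_, fun g hg => ?_, ?_⟩⟩
  · obtain ⟨u, hu⟩ := (log g hg.1).2.2
    exact (iff g hg.1 u hu).2 (H.sp u ⟨g, hg.1, (log g hg.1).2.1.1 hg, hu⟩)
  · obtain ⟨_, u, ⟨g, hg, rfl, hu⟩, e⟩ := H.ne
    have h1 : Q.relIndex s.G ≠ 1 := fun e' =>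
      e ((iff g hg u hu).1 (Subgroup.relIndex_eq_one.1 e' hg))
    have h2 : Q.relIndex s.G ≠ 0 := Subgroup.index_ne_zero_of_finite
    have h3 := (Q.subgroupOf s.G).index_mul_card
    rw [Nat.card_congr (Subgroup.subgroupOfEquivOfLe le).toEquiv] at h3
    rw [← h3]
    exact Nat.mul_le_mul_right _ (show 2 ≤ Q.relIndex s.G by omega)
  · choose! c hc using fun g hg => (log g hg).2.2
    refine (Nat.card_le_card_of_injective (β := Vec p n)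
      (fun q i => ψ (c (q.out.1)⁻¹) (bx i)) fun q q' e => ?_).trans (by simp [Nat.card_eq_fintype_card])
    rw [← q.out_eq, ← q'.out_eq]
    refine Quotient.sound (QuotientGroup.leftRel_apply.2 ?_)
    have e1 : ψ (c (q.out.1)⁻¹) = ψ (c (q'.out.1)⁻¹) := funext fun i => by
      by_cases e2 : i = bx (i 0)
      · rw [e2]; exact congrFun e _
      · have z : ∀ w, ψ w i = 0 := fun w => not_not.1 fun e3 => e2 (supp hlab (H.wt w) e3).2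
        rw [z, z]
    have a1 := inv_mem q.out.2
    have a2 := inv_mem q'.out.2
    obtain ⟨w, hw, e2⟩ := ml _ a1 _ q'.out.2 _ _ (hc _ a1) (hc _ q'.out.2)
    obtain ⟨w', hw', e3⟩ := ml _ a2 _ q'.out.2 _ _ (hc _ a2) (hc _ q'.out.2)
    rw [inv_mul_cancel] at hw'
    exact (iff _ (mul_mem a1 q'.out.2) w hw).2
      (by rw [e2, e1, ← e3, wd 1 (one_mem _) _ _ kp1 hw', map_zero])
  · obtain ⟨-, -, x3, x4⟩ := k4 x hx
    obtain ⟨v, hv, e⟩ := (x3 y hy.1).2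
    have hq := mul_mem (inv_mem hx.1) hy.1.1
    have e1 := hy.2
    obtain ⟨-, k2, -⟩ := b.cok s h
    rw [← e, x4, map_add, (k2 _ hq _ (k4 x hx).1).2] at e1
    have un := (log _ hq).1.2.1
    obtain ⟨-, -, kl, -⟩ := k6 _ hq _ ⟨v, hv, rfl⟩
    rw [eq_neg_of_add_eq_zero_right e1, map_neg, neg_neg, un.pull1_st] at kl
    rw [← Q.inv_mem_iff, iff _ (inv_mem hq) _ kl]
  · rintro g hg k hk _ _ ⟨u, hu, rfl⟩ ⟨v, hv, rfl⟩
    obtain ⟨w, hw, e⟩ := ml g (hY hg) k (hY hk) u v hu hv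
    refine ⟨w, hw, e.trans (congrArg (· + ψ v) (funext fun i => ?_))⟩
    refine Finset.sum_congr rfl fun m _ => ?_
    by_cases e1 : ψ u m = 0
    · rw [e1, zero_mul, zero_mul]
    obtain ⟨e2, e3⟩ := supp hlab (H.wt u) e1
    have r0 := row (log k (hY hk)).1 (Par.gr h.lab (g := fr s.f k.1)
      ⟨h.tri _ ((b.env.1 _).2.1 k (hY hk)), by
        rw [← b.env.2.2.1]; exact (s.f⁻¹ * k * s.f).2.2⟩)
    rw [e3]
    refine congrArg _ (Finset.prod_congr rfl fun j _ => ?_)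
    fin_cases j
    swap; exact r0 _
    swap; exact r0 _
    rcases H.nt with e4 | e4
    · exact hlab.ctr _ (e4 ▸ e2) ▸ r0 _
    refine COCz.lc_row hclo _ (l7.blk _ _ e2.symm (not_not.1 fun e5 => e4 ?_)) _
    refine triv_of hlab (loY _ h.le).1 ?_
    rintro _ ⟨x, -, rfl⟩
    exact ((l4 _).2.2.2.2.2.1 a e5).trans (congrArg (· • _) (l4 _).2.2.1.symm)
  · obtain ⟨u, hu⟩ := (log g (hY hg)).2.2
    exact ⟨_, u, hu, rfl⟩
  · rintro g - _ ⟨u, -, rfl⟩ i hi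
    refine H.wt u i fun e => hi ((key_eq_iff h.lab).2 fun j => ?_)
    have := (key_eq_iff hlab).1 e j
    exact le_antisymm (l8 _ _ this.le) (l8 _ _ this.ge)

theorem s_FREE (p n : ℕ) [Fact p.Prime] (t : TM p n) (hQF : S_QF p n) : S_FREE p n := by
  intro s EG c τ a ψ Q Y F φ h hs H hQ hc hφ
  have h0 := h.toOk0
  obtain ⟨q1, q2, -, -, q5, q6, q7⟩ := (hQF s a ψ h0 H).2 Q hQ
  obtain ⟨hlab, -, -, -, -, loY, -⟩ := t.coc s h0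
  obtain ⟨-, -, -, k4, -⟩ := t.cok s h0
  have ls := (t.core Q _ inf_le_left).2.2 Y F hc
  have yx : Y ≤ s.X := ls.le.trans inf_le_right
  have c0k : Y ≤ KS s.f s.ℓ (c0 n) := fun y hy => by
    have tri := h.tri _ ((t.env.1 _).2.1 y (h.le (yx hy)))
    obtain ⟨-, -, -, -, s5, -, s7, -⟩ := t.sec.1 s.f s.ℓ (c0 n) h.lab
    exact (s7 y (s5 _ tri).1 (s5 _ tri).2).2
      (pr_c0 h.lab (t.env.2.2.1 s.f y ▸ (s.f⁻¹ * y * s.f).2.2.2))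
  have full : Full Y := by
    obtain ⟨Z, z1, z2, z3, z4, z5, -⟩ := t.lz s.X Y s.f s.ℓ (bx a) _ h.lab
      (fun x hx => h.tri x ((t.env.1 _).2.2.1 _ h.le hx)) h.stable h.full (q7 _ h.le) yx ls.stable
      (fun y hy => ((hQ y).1 (ls.le hy).1).2) (Or.inl ⟨1, c0k⟩)
    rwa [le_antisymm z1 (ls.max Z (le_inf (fun z hz => (hQ z).2 ⟨h.le (z2 hz), z3 z hz⟩) z2) z4)]
  have nw := fun k => t.nwc s Q Y F k h0 hs q1
    (fun Z hZ _ => hZ.trans (inf_le_right.trans q2)) hc full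
  have bel : ∀ w, s.Bel s.ℓ (key s.ℓ s.a) w := fun w i hi e =>
    absurd ((key_eq_iff h.lab).2 hi) e.ne
  obtain ⟨k1, k2, k3, -, -, -, k7⟩ := t.kid (GG p n)
  have w0 := nw _ le_rfl
  refine ⟨⟨⟨h.lab, fun x hx => h.tri x ((t.env.1 Q).2.2.1 _ q1 hx),
    fun g hg w hw => h.low g (q1 hg) w hw.1, ?_, w0.le.trans inf_le_left, w0.nm, w0.stable, full,
    ⟨h.one, bel _⟩, fun g hg k hk w v hw hv => ⟨h.mul g (q1 hg) k (q1 hk) w v hw.1 hv.1, bel _⟩,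
    fun g hg => (h.tot g (q1 hg)).imp fun w hw => ⟨hw, bel _⟩⟩,
    k7 _ _ _ _ _ _ _ _ h.val q1 (le_of_add_le_right h.nu) w0.kids w0.solv, h.mu, fun j π e => ?_,
    h.none, fun j e => q1.trans (h.tau j e), le_trans ?_ h.pot, h.cap, h.nu⟩, fun r hr => ?_⟩
  · cases φ with
    | none => exact (map_zero (pull1 s.f.1)).symm ▸ zero_mem _
    | some x => exact (k4 x (hφ.1 x rfl).1).1
  · have k := h.ptr j π e
    exact ⟨k.stb, k.lo, k.hi, yx.trans k.triv, fun g hg => k.cov g (q1 hg), k.val⟩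
  · exact Nat.mul_le_mul_left _ (Nat.add_le_add_right (Nat.mul_le_mul_left _
      (t.phm _ _ _ _ hlab (loY _ le_rfl).1 (loY _ q1).1 ((loY _ le_rfl).2.2.1 _ q1))) _)
  have hH : ∀ g, g ∈ r.H ↔ g ∈ Q ∧ s.Kp g 0 := fun g => (hr.isH g).trans (and_congr_right fun _ =>
    ⟨fun ⟨w, hw, e⟩ => ⟨w, hw.1, e⟩, fun ⟨w, hw, e⟩ => ⟨w, ⟨hw, bel _⟩, e⟩⟩)
  have hle : r.H ≤ Q := fun g hg => ((hH g).1 hg).1
  have hN : Q ⊓ s.N1 ≤ (s.sub s.f s.ℓ s.a ⟨Q, Y, F, φ⟩).N1 := inf_le_inf_left _ inf_le_right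
  have hX : r.X ≤ r.H ⊓ Y := hr.nw.le
  have w1 := nw (EG + cT p n) (Nat.le_add_left _ _)
  obtain ⟨-, -, -, -, -, -, s1, s2, -⟩ := t.sol (GG p n)
  refine ⟨fun g => (hH g).trans ⟨fun e => ⟨q1 e.1, e.2⟩,
      fun e => ⟨(q5 g e.1 0 e.2).2 (map_zero _), e.2⟩⟩, ⟨fun x hx => ?_, fun hx y hy => ?_⟩,
    hX.trans (inf_le_inf_left _ yx), hr.nw.nm, hr.nw.stable, hr.nw.full, fun Z hZ hP => ?_,
    k2 _ _ _ _ (k1 _ _ _ _ _ w1.kids le_rfl hle) hr.nw.kids, ?_, ?_⟩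
  · obtain ⟨g, hg, hx⟩ := Option.bind_eq_some_iff.1 hx
    obtain ⟨u, hu, rfl⟩ := Option.map_eq_some_iff.1 hx
    obtain rfl : φ = some g := hg
    obtain ⟨⟨u1, u2⟩, u3⟩ := hr.isS.1 u hu
    obtain ⟨-, -, x3, x4⟩ := k4 g (hφ.1 g rfl).1
    exact ⟨(x3 u ⟨q1 u1, u2.1⟩).1, by rw [x4]; exact u3⟩
  · cases φ with
    | none => exact hφ.2 rfl y hy
    | some x =>
      have hr0 : r.φ = none := by
        simpa only [Out.next, Option.bind_some, Option.map_eq_none_iff] using hx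
      obtain ⟨x1, x2⟩ := hφ.1 x rfl
      obtain ⟨-, -, x3, x4⟩ := k4 x x1
      obtain ⟨v, hv, e⟩ := (x3 y hy.1).2
      refine hr.isS.2 hr0 (x.1⁻¹ * y.1, v) ⟨⟨(q6 x y x1 hy).2 x2, hv, bel _⟩, ?_⟩
      have := hy.2
      rwa [← e, x4] at this
  · have h1 := w1.off Z hZ hP
    exact hr.nw.off Z (le_inf h1 ((le_inf (h1.trans (w1.le.trans inf_le_left))
      (hZ.trans inf_le_right)).trans hN)) hP
  · change SolvMod (r.H ⊓ s.X ⊓ topI (F ++ r.F)) r.X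
    rw [k3]
    refine s2 _ Y _ (s1 _ _ _ _ ?_ le_rfl w1.solv) (s1 _ _ _ _ ?_ le_rfl hr.nw.solv)
    · exact inf_le_inf (inf_le_inf_right _ hle) inf_le_left
    · exact fun g hg => ⟨⟨hg.1.1.1, hg.2⟩, hg.1.2.2⟩
  · change r.H ⊓ s.N1 ≤ topI (F ++ r.F)
    rw [k3]
    exact le_inf ((inf_le_inf_right _ hle).trans w1.near)
      ((le_inf inf_le_left ((inf_le_inf_right _ hle).trans hN)).trans hr.nw.near)

end Pool.Agent.P.MP_f1a348_lc.UP.CU.AF
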