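import Pool.Agent.P.MP_f1a348_lc.AF.PIf

/-!
Project AF: the result of a finished frame.
-/

namespace Pool.Agent.P.MP_f1a348_lc.UP.CU.AF

open Matrix Module Pool.Agent.P.MP_f1a348_lc.PG
open scoped commutatorElement

namespace QFINz

variable {p n : ℕ} [Fact p.Prime] [Gl p n] {om : V → List V} {c : Cx}

theorem kk (t : TM p n) (q : TQ p n) (hAUTC : S_AUTC p n) (h : Ok p n om c) (ps : PS)
    (H : List V) (h0 : (stD p n ps).Ok0) (hsim : (stD p n ps).Sim) (hT : ¬ (stD p n ps).TBox)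
    (hHG : gS p n H ≤ (stD p n ps).G) :
    Pre (stD p n ps).f (stD p n ps).ℓ (stD p n ps).lam (gS p n H)
      ((stD p n ps).le (stD p n ps).X) (gS p n (kkP c ps H)) := by
  obtain ⟨Q, hQ⟩ := ((t.qb _ h0).2.2.1 _ _ hHG ((t.coc _ h0).2.2.2.2.2.1 _ h0.le).1).1
  have h1 : Tst (fun g => mem c (u2 c) (leP c ps (sX ps)) (loP c ps g)) (gS p n H) (· ∈ Q) :=
    fun x g hg e => by
      refine (mem_iff h.hp h.d2 _ _).trans (Iff.trans ?_ (hQ g).symm)
      rw [(q.st om c ps _ h rfl).1, and_iff_right hg]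
      change mV p n (loP c ps x) ∈ _ ↔ _
      rw [h.loP, e]
      rfl
  obtain ⟨h2, h3⟩ := (q.bfs c _ H h.up).2.2 Q h1
  have h4 := (h3 (h2.trans ((hAUTC _ _ _ h0 hsim hT hHG hQ).2.trans
    (h.cu.pow_le (by simp only [bud2, gam, KG]; omega))))).2
  rw [inf_eq_right.2 fun g hg => ((hQ g).1 hg).1] at h4
  rw [kkP, h4]
  exact hQ

end QFINz

open QFINz in
theorem s_QFIN (p n : ℕ) [Fact p.Prime] (t : TM p n) (q : TQ p n) (hUNT : S_UNT p n)
    (hUNG : S_UNG p n) (hAUTC : S_AUTC p n) : S_QFIN p n := by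
  rintro γ om c ⟨br, ps, pk, F, td, H, X, F1, φ⟩ h
  refine ⟨fun e => ?_, fun s b E EG k EG' o e hs hQ hF h0 hsim hbr hpo hX hF1 hH hS => ?_⟩
  · obtain rfl : br = false := e
    rfl
  obtain rfl : br = true := e
  obtain rfl : stD p n ps = s := hs
  replace hQ : gS p n (sG pk) = b.Q := hQ
  replace hF : foD p n F = b.F := hF
  replace hX : gS p n X = o.X := hX
  replace hF1 : foD p n F1 = o.F := hF1
  replace hH : (stD p n ps).IsH (gS p n H) := hH
  replace hS : (stD p n ps).IsS (φ.map (paD p n)) := hS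
  have hHG : gS p n H ≤ (stD p n ps).G := fun g hg => ((hH g).1 hg).1
  obtain ⟨st1, -, -, st4, -⟩ := q.st om c ps _ h rfl
  obtain ⟨-, n1, -, tb⟩ := st4 h0
  by_cases hT : (stD p n ps).TBox
  · obtain ⟨Y, F', hc, hl, e⟩ := q.out om c ps _ H φ h rfl h0 hHG
    have e1 : fin c (true, ps, pk, F, td, H, X, F1, φ) = outC c ps H φ := by
      simp only [fin, tb.2 hT, cond_true]; rfl
    rw [e1, e]
    exact ⟨hUNT _ EG _ Y F' _ h0 hsim hT hH hS hc,
      hl.trans ((Nat.le_add_left _ _).trans (Nat.le_add_right _ _))⟩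
  have e1 : fin c (true, ps, pk, F, td, H, X, F1, φ) = ungP c ps (sG pk) F (H, X, F1, φ) := by
    simp only [fin, Bool.eq_false_iff.2 (mt tb.1 hT), cond_true, cond_false]; rfl
  have eA : sp (mat p n) (leP c ps (ncl c H X)) = (stD p n ps).le (Ncl (gS p n H) o.X) := by
    rw [st1, (q.ncl c H X h.up).1, hX]
  have hU := fun XJ KK Y F' => hUNG _ E EG b k EG' o _ XJ KK Y F' (φ.map (paD p n)) h0 hsim hT hbr
    hpo hH
  have hN := (hU ⊥ ⊥ ⊥ []).1.1
  have coc := (t.coc _ h0).2.2.2.2.2.1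
  obtain ⟨L, hL, -, pre⟩ := q.pre om c ps _ (sX ps) h rfl h0 h0.le
  have hA := (coc _ (hN.trans h0.le)).1
  have hJ := (pre (leP c ps (ncl c H X)) (eA ▸ hA)).2 (eA ▸
    ((t.locu _ h0 hsim).2.1 _ L _ le_rfl h0.le hL hA ((coc _ h0.le).2.2.1 _ hN)).trans
      (h.cu.pow_le (by simp only [bud2, gam, KG]; omega)))
  rw [eA] at hJ
  have hm := (hU _ ⊥ ⊥ []).1.2 hJ
  have ecap := q.cap c H _ h.up hm
  obtain ⟨hc, hl⟩ := q.core c H (capN c H (preP c ps (sX ps) (leP c ps (ncl c H X)))) h.cu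
    (ecap ▸ inf_le_left) (ecap ▸ fun g hg y hy =>
      ⟨(gS p n H).mul_mem ((gS p n H).mul_mem hg hy.1) ((gS p n H).inv_mem hg), hm g hg y hy.2⟩)
  rw [ecap] at hc
  have hP := (hU _ _ _ _).2 hS hJ (kk t q hAUTC h ps H h0 hsim hT hHG) hc
  rw [← n1 H hHG, ← gS_append, ← hQ, ← hF, ← hF1] at hP
  rw [e1]
  refine ⟨(congrArg _ ?_).mp hP, ?_⟩
  · simp only [outD, ungP, ungQ, foD, up, List.map_cons, List.map_append, List.map_map,
      List.map_nil]
    rfl
  · rw [← hF, ← hF1]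
    simp only [outD, ungP, ungQ, length_foD, up, List.length_cons, List.length_append,
      List.length_map, List.length_nil]
    omega

end Pool.Agent.P.MP_f1a348_lc.UP.CU.AF
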