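import Pool.Agent.P.MP_f1a348_lc.AF.PIf

/-! The program at a leaf of the affine recursion. -/

namespace Pool.Agent.P.MP_f1a348_lc.UP.CU.AF

open Matrix Module Pool.Agent.P.MP_f1a348_lc.PG
open scoped commutatorElement

namespace QLEAFz

variable {p n : ℕ} [Fact p.Prime]

/-- the values on the box, shifted by a target -/
def Kd (S : St p n) (D : Frm p n) (g : GG p n) (v : Frm p n) : Prop :=
  ∃ w, S.K g w ∧ S.dl (pull1 g.1 D + w) = v

theorem kd0 {S : St p n} {g : GG p n} {v : Frm p n} : Kd S 0 g v ↔ S.Kp g v := by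
  simp only [Kd, St.Kp, map_zero, zero_add]

theorem kd_sub (t : TM p n) {S : St p n} (h0 : S.Ok0) {D v v' : Frm p n} {g : GG p n}
    (hg : g ∈ S.G) (a : Kd S D g v) (b : Kd S D g v') : v' - v ∈ S.S0 := by
  obtain ⟨w, hw, rfl⟩ := a
  obtain ⟨w', hw', rfl⟩ := b
  have := (((t.cok S h0).2.2.2.2.2.1 g hg _ ⟨w, hw, rfl⟩).2.1 _).1 ⟨w', hw', rfl⟩
  rwa [map_add, map_add, add_sub_add_left_eq_sub]

theorem kd_mul (t : TM p n) {S : St p n} (h0 : S.Ok0) {D v v' : Frm p n} {g u : GG p n}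
    (hD : pull1 S.f.1 D ∈ Lowr S.ℓ S.a) (hg : g ∈ S.G) (hu : u ∈ S.N1) (a : Kd S D g v)
    (b : S.Kp u v') : Kd S D (g * u) (v + v') := by
  obtain ⟨w, hw, rfl⟩ := a
  obtain ⟨w', hw', rfl⟩ := b
  have hu' : u ∈ S.G := hu.1
  have c2 := (t.cok S h0).2.1
  have e1 : S.lo u.1 = 1 := (((t.coc S h0).2.2.2.2.2.2.1 u hu').2.1).1 hu
  have l1 : pull1 S.f.1 (pull1 g.1 D + w) ∈ Lowr S.ℓ S.a := by
    rw [map_add]
    exact add_mem (c2 g hg D hD).1 (h0.low g hg w hw)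
  refine ⟨_, h0.mul g hg u hu' w w' hw hw', ?_⟩
  rw [val_mul, pull1_mul, ← add_assoc, ← map_add, map_add S.dl, (c2 u hu' _ l1).2, e1, pull1_one]

end QLEAFz

open QLEAFz in
theorem s_QLEAF (p n : ℕ) [Fact p.Prime] (t : TM p n) (q : TQ p n) (hQANN : S_QANN p n) :
    S_QLEAF p n := by
  intro γ om c s S h hS h0
  obtain ⟨l1, l2, l3, -, l5, l6, l7, l8, l9⟩ := t.leaf1 S h0
  obtain ⟨-, -, -, -, c5, c6, -⟩ := t.cok S h0
  obtain ⟨⟨lam, a1, a2⟩, a3⟩ := hQANN om c s S h hS h0.one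
  have hG : gS p n (sG s) = S.G := hS ▸ rfl
  have hle : S.N1 ≤ S.G := inf_le_left
  have hN : gS p n (n1P c s (sG s)) = S.N1 := by
    rw [((q.st om c s S h hS).2.2.2.1 h0).2.1 _ hG.le, hG, inf_eq_right.2 hle]
  have kd : ∀ d x, gD p n x ∈ S.G → Kd S (fV p n d) (gD p n x) (fV p n (kpP om c s d x)) := by
    intro d x hx
    have := h0.tot _ hx
    subst hS
    exact ⟨_, h.omP s this, (h.kpP s d x).symm⟩
  have k1 : ∀ x, gD p n x ∈ S.G → S.Kp (gD p n x) (fV p n (kpP om c s [] x)) := fun x hx =>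
    kd0.1 (by simpa only [fV_nil] using kd [] x hx)
  have p1 : sp (frm p n) (spS om c s) = S.Sp := by
    have e0 : sp (frm p n) (s0P om c s) = S.S0 := hS ▸ h.s0P s (hS ▸ h0.one)
    rw [spS, sp_append, e0, l2 {y | ∃ x ∈ n1P c s (sG s),
      (gD p n x, fV p n (kpP om c s [] x)) = y} ?_ ?_, sp_eq_span]
    · congr 2
      ext w
      simp only [Set.mem_image, Set.mem_ofPred_eq, List.mem_map]
      constructor
      · rintro ⟨_, ⟨x, hx, rfl⟩, rfl⟩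
        exact ⟨_, ⟨x, hx, rfl⟩, rfl⟩
      · rintro ⟨_, ⟨x, hx, rfl⟩, rfl⟩
        exact ⟨_, ⟨x, hx, rfl⟩, rfl⟩
    · rintro _ ⟨x, hx, rfl⟩
      exact k1 x (hle (hN ▸ mem_gS hx))
    · rw [← hN, gS]
      congr 1
      ext g
      constructor
      · rintro ⟨_, ⟨x, hx, rfl⟩, rfl⟩
        exact ⟨x, hx, rfl⟩
      · rintro ⟨x, hx, rfl⟩
        exact ⟨_, ⟨x, hx, rfl⟩, rfl⟩
  refine ⟨p1, ?_, fun hall => ?_⟩
  · simp only [leafT, List.all_eq_true, mem_iff h.hp h.d3, p1]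
    refine ⟨fun k => l5 {y | ∃ x ∈ sG s, (gD p n x, fV p n (kpP om c s [] x)) = y} ?_ ?_,
      fun k x hx => k _ (hG ▸ mem_gS hx) _ (k1 x (hG ▸ mem_gS hx))⟩
    · rintro _ ⟨x, hx, rfl⟩
      exact ⟨k1 x (hG ▸ mem_gS hx), k x hx⟩
    · rw [← hG, gS]
      congr 1
      ext g
      constructor
      · rintro ⟨_, ⟨x, hx, rfl⟩, rfl⟩
        exact ⟨x, hx, rfl⟩
      · rintro ⟨x, hx, rfl⟩
        exact ⟨_, ⟨x, hx, rfl⟩, rfl⟩
  have z0 : ∀ i ∈ ran (u3 c), ∀ u ∈ S.S0, lam i u = 0 := fun i hi u hu => (a2 u).1 hu i hi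
  have eqv : ∀ i ∈ ran (u3 c), ∀ u v, v - u ∈ S.S0 → (lam i u = 0 ↔ lam i v = 0) := by
    intro i hi u v e
    have := z0 i hi _ e
    rw [map_sub, sub_eq_zero] at this
    rw [this]
  have exq : ∀ i : ℕ, ∃ Q : SG p n, i ∈ ran (u3 c) → Q.relIndex S.N1 ≤ p ∧
      ∀ g ∈ S.N1, ∀ u, S.Kp g u → (g ∈ Q ↔ lam i u = 0) := fun i => by
    by_cases hi : i ∈ ran (u3 c)
    · obtain ⟨Q, hQ⟩ := l8 (lam i) (z0 i hi)
      exact ⟨Q, fun _ => hQ⟩
    · exact ⟨⊥, fun e => absurd e hi⟩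
  choose Q hQ using exq
  have hp : p ≤ c.2.2.length := by
    simpa using h.cu.pow_le (k := 1) (by unfold bud2 gam KG; omega)
  have hT : ∀ i ∈ ran (u3 c), Tst (crdT om c s [] i) S.N1 (· ∈ Q i) ∧
      (Q i).relIndex S.N1 ≤ c.2.2.length := fun i hi =>
    ⟨fun x g hg e => by
      obtain rfl := gD_of e
      rw [a1]
      exact ((hQ i hi).2 _ hg _ (k1 x (hle hg))).symm, (hQ i hi).1.trans hp⟩
  have sol : ∀ d : V, pull1 S.f.1 (fV p n d) ∈ Lowr S.ℓ S.a → ∀ g, gD p n g ∈ S.G →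
      (gD p n g)⁻¹ * gD p n (solP om c s d g) ∈ S.N1 ∧ gD p n (solP om c s d g) ∈ S.G ∧
        ∀ v ∈ S.Sp, Kd S (fV p n d) (gD p n g) v →
          ∃ v ∈ S.S0, Kd S (fV p n d) (gD p n (solP om c s d g)) v := by
    intro d hD g hg
    obtain ⟨-, b2, b3⟩ := q.cos c (crdT om c s []) (crdT om c s d) (ran (u3 c)) g
      (n1P c s (sG s)) h.up
    rw [hN] at b2 b3
    have b4 : gD p n (solP om c s d g) ∈ S.G := by
      have := mul_mem hg (hle b2)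
      rwa [mul_inv_cancel_left] at this
    refine ⟨b2, b4, fun v m hv => ⟨_, (a2 _).2 fun i hi => ?_, kd d _ b4⟩⟩
    have b5 := b3 Q (fun i g => ∃ v, Kd S (fV p n d) g v ∧ lam i v = 0) (fun i hi =>
      ⟨(hT i hi).1, (hT i hi).2, fun x u hu e => ?_, fun u hu e w hw => ?_⟩) ?_ i hi
    · obtain ⟨v', e1, e2⟩ := b5
      exact (eqv i hi _ _ (kd_sub t h0 b4 e1 (kd d _ b4))).1 e2
    · have e' := gD_of e
      have m' : gD p n x ∈ S.G := e' ▸ mul_mem hg (hle hu)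
      rw [a1, ← e']
      exact ⟨fun k => ⟨_, kd d x m', k⟩,
        fun ⟨v', e1, e2⟩ => (eqv i hi _ _ (kd_sub t h0 m' e1 (kd d _ m'))).1 e2⟩
    · obtain ⟨v1, e1, e2⟩ := e
      obtain ⟨w1, hw1⟩ := h0.tot w (hle hw)
      have m' := mul_mem hg (hle hu)
      have e3 := kd_mul t h0 hD m' hw e1 ⟨w1, hw1, rfl⟩
      have e4 : lam i (v1 + S.dl w1) = lam i (S.dl w1) := by rw [map_add, e2, zero_add]
      rw [(hQ i hi).2 w hw _ ⟨w1, hw1, rfl⟩, ← e4]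
      exact ⟨fun ⟨v', f1, f2⟩ => (eqv i hi _ _ (kd_sub t h0 (mul_mem m' (hle hw)) f1 e3)).1 f2,
        fun k => ⟨_, e3, k⟩⟩
    · obtain ⟨u, hu, e⟩ := l1 _ (neg_mem m)
      exact ⟨u, hu, fun i _ => ⟨_, kd_mul t h0 hD hg hu hv e, by rw [add_neg_cancel, map_zero]⟩⟩
  have sub := q.subs c (crdT om c s []) (ran (u3 c)) (n1P c s (sG s)) Q h.up (hN ▸ chn_of hT)
  rw [hN] at sub
  have z1 : ∀ g ∈ S.G, ∀ v ∈ S.S0, S.Kp g v → S.Kp g 0 := fun g hg v hv k =>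
    ((c6 g hg v k).2.1 0).2 (by rw [zero_sub]; exact neg_mem hv)
  have hD0 : pull1 S.f.1 (fV p n []) ∈ Lowr S.ℓ S.a := by
    rw [fV_nil, map_zero]; exact zero_mem _
  constructor
  · refine l9 _ _ hG ?_ ?_ fun u hu e => ?_
    · rintro _ ⟨x, hx, rfl⟩
      rcases List.mem_append.1 hx with a | a
      · obtain ⟨g, hg, rfl⟩ := List.mem_map.1 a
        have b := hG ▸ mem_gS (p := p) (n := n) hg
        obtain ⟨-, b2, b3⟩ := sol [] hD0 g b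
        obtain ⟨v, hv, k⟩ := b3 _ (hall _ b _ (k1 g b)) (kd [] g b)
        rw [fV_nil] at k
        exact ⟨b2, z1 _ b2 v hv (kd0.1 k)⟩
      · obtain ⟨b1, b2⟩ := (sub _).1 (mem_gS a)
        exact ⟨hle b1, z1 _ (hle b1) _ ((a2 _).2 fun i hi =>
          ((hQ i hi).2 _ b1 _ (k1 x (hle b1))).1 (b2 i hi)) (k1 x (hle b1))⟩
    · rintro _ ⟨g, hg, rfl⟩
      refine ⟨_, (sol [] hD0 g (hG ▸ mem_gS hg)).1, ?_⟩
      rw [mul_inv_cancel_left]
      exact mem_gS (List.mem_append_left _ (List.mem_map_of_mem hg))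
    · have := (sub u).2 ⟨hu, fun i hi => ((hQ i hi).2 u hu _ e).2 (map_zero _)⟩
      exact (gS_append _ _).ge (Subgroup.mem_sup_right this)
  · have hδ : fV p n (sD s) = S.δ := hS ▸ rfl
    obtain ⟨b1, b2, b3⟩ := sol (sD s) (hδ ▸ h0.low') (oneP c) (h.gD_one ▸ one_mem _)
    rw [h.gD_one, inv_one, one_mul] at b1
    rw [h.gD_one, hδ] at b3
    obtain ⟨d1, d2⟩ := a3 _ b2 (h0.tot _ b2)
    rw [leafS]
    refine ⟨fun x hx => ?_, fun hx x k => ?_⟩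
    · obtain ⟨y, hy, rfl⟩ := Option.map_eq_some_iff.1 hx
      exact (d1 y hy).2
    · obtain ⟨v, hv, w, hw, e⟩ := b3 _ (l6 hall x k) ⟨0, h0.one, by
        rw [val_one, pull1_one, add_zero]⟩
      have e1 := (((t.coc S h0).2.2.2.2.2.2.1 _ b2).2.1).1 b1
      rw [map_add, ((t.cok S h0).2.1 _ b2 _ h0.low').2, e1, pull1_one] at e
      obtain ⟨w', k'⟩ := l7 _ b1 _ ⟨w, hw, rfl⟩ (e ▸ hv)
      exact d2 (Option.map_eq_none_iff.1 hx) w' k'

end Pool.Agent.P.MP_f1a348_lc.UP.CU.AF
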