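import Pool.Agent.P.MP_f1a348_lc.AF.PIf

/-!
Project AF, task QMV: representatives are moved into the group.
-/

namespace Pool.Agent.P.MP_f1a348_lc.UP.CU.AF

open Matrix Module Pool.Agent.P.MP_f1a348_lc.PG
open scoped commutatorElement

theorem s_QMV (p n : ℕ) [Fact p.Prime] (t : TM p n) (q : TQ p n) : S_QMV p n := by
  intro γ om c s S A Z h hS ok0 hsim hA hle hZ
  have eG : gS p n (sG s) = S.G := by rw [← hS]; rfl
  obtain ⟨L, hL, hT, hgen⟩ := q.pre om c s S (sG s) h hS ok0 eG.le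
  rw [eG] at hL
  obtain ⟨hll, -, -, -, -, hY, hg, -⟩ := t.coc S ok0
  have idx : L.relIndex (UG (sp (mat p n) A)) ≤ c.2.2.length :=
    ((t.locu S ok0 hsim).2.1 S.G L _ ok0.le le_rfl hL hA hle).trans
      (h.cu.pow_le (by simp only [CU.bud2, CU.gam, KG]; omega))
  obtain ⟨b1, b2⟩ := (q.bfs c (memL c s (sG s)) (GF.genQ c (llP c s) A) h.up).2.2 L
    (hT.mono le_top)
  rw [(hgen A hA).1] at b1 b2
  have cov := (b2 (b1.trans idx)).1
  obtain ⟨-, -, -, hok, -⟩ := q.st om c s S h hS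
  obtain ⟨hfix, hlift, -⟩ := q.fix c (sG s) h.up
  rw [eG] at hfix hlift
  obtain ⟨-, -, hlf, -⟩ := hfix _ _ (hok ok0).1
  have uA := (t.env.2.2.2.1 _ (t.env.2.2.2.2.1 _ _ hll hA).1).1
  refine ⟨?_, fun x hx => ?_, fun y hy ⟨g, hg1, hg2⟩ => ?_⟩
  · rw [mvL, List.length_map]
    exact List.length_filterMap_le _ _
  · obtain ⟨w, -, rfl⟩ := List.mem_map.1 hx
    exact (hlift _ _).2
  · have vy : mV p n y = (gD p n y).1 := vd_par
      ⟨((hY _ ok0.le).2.1.dg _ (hZ y hy).1).tri lab_l0, (hZ y hy).2⟩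
    obtain ⟨z, ez⟩ : ∃ z : GG p n, S.lo g.1 = z.1 :=
      ⟨⟨_, ((hY _ le_rfl).2.1.dg _ ((hY _ le_rfl).2.2.2.1 g hg1)).tri lab_l0, (hg g hg1).1.2⟩, rfl⟩
    have zL : z ∈ L := (hL z).2 ⟨g, hg1, ez⟩
    obtain ⟨r', hr', e⟩ := cov.cov ((gD p n y)⁻¹ * z) ((uA _).2 (by rwa [vy, ez] at hg2))
    obtain ⟨r, hr, rfl⟩ := List.mem_map.1 hr'
    have yr : gD p n y * gD p n r ∈ L := by
      simpa [mul_assoc] using L.mul_mem zL (L.inv_mem e.2)
    cases hf : ((bfs c (memL c s (sG s)) (GF.genQ c (llP c s) A)).map (gmul c y)).find?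
        (memL c s (sG s)) with
    | none =>
      exact absurd ((hT _ _ trivial (h.up.gmul y r)).2 yr)
        (List.find?_eq_none.1 hf _ (List.mem_map_of_mem hr))
    | some w =>
      obtain ⟨r1, hr1, rfl⟩ := List.mem_map.1 (List.mem_of_find?_eq_some hf)
      obtain ⟨g1, h1, h2⟩ := (hL _).1 ((hT _ _ trivial (h.up.gmul y r1)).1 (List.find?_some hf))
      refine ⟨_, List.mem_map_of_mem (List.mem_filterMap.2 ⟨y, hy, hf⟩), ?_⟩
      rw [hlf _ ⟨g1, h1, h2.trans (h.up.gmul y r1).symm⟩, h.up.gmul, val_mul, ← vy, ← mul_assoc,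
        (hZ y hy).2.1.st_mul, one_mul]
      exact (uA _).1 (cov.mem _ (List.mem_map_of_mem hr1))

end Pool.Agent.P.MP_f1a348_lc.UP.CU.AF
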