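import Pool.Agent.P.MP_f1a348_lc.AF.PIf

/-!
Project AF, task QPRE: preimages of algebras.
-/

namespace Pool.Agent.P.MP_f1a348_lc.UP.CU.AF

open Matrix Module Pool.Agent.P.MP_f1a348_lc.PG
open scoped commutatorElement

namespace QPREz

variable {p n : ℕ} [Fact p.Prime] {c : Cx}

/-- the generators of the unitary group -/
theorem gen (t : TM p n) (hQGEN : GF.S_QGEN p n) (h : UP.Ok p n c) {l : V} {A : List V}
    (hl : Lab (lab n l)) (hA : Alg (lab n l) (sp (mat p n) A)) :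
    gS p n (GF.genQ c l A) = UG (sp (mat p n) A) := by
  obtain ⟨h1, h2⟩ := hQGEN c l A h hl hA
  have hS := (t.env.2.2.2.2.1 _ _ hl hA).1
  have h3 := (t.env.2.2.2.1 _ hS).1
  have hv : ∀ x ∈ GF.genQ c l A, Vd p n x := fun x hx =>
    vd_par ⟨(hS.dg _ (h1 x hx).1).tri lab_l0, (h1 x hx).2⟩
  refine le_antisymm (gS_le.2 fun x hx => (h3 _).2 (hv x hx ▸ (h1 x hx).1)) fun g hg => ?_
  have key : ∀ z ∈ Submonoid.closure {x | ∃ g ∈ GF.genQ c l A, mV p n g = x},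
      ∃ k ∈ gS p n (GF.genQ c l A), k.1 = z := fun z hz => by
    induction hz using Submonoid.closure_induction with
    | mem z hz =>
      obtain ⟨x, hx, rfl⟩ := hz
      exact ⟨_, mem_gS hx, (hv x hx).symm⟩
    | one => exact ⟨1, one_mem _, rfl⟩
    | mul a b _ _ ha hb =>
      obtain ⟨a, ha, rfl⟩ := ha
      obtain ⟨b, hb, rfl⟩ := hb
      exact ⟨a * b, mul_mem ha hb, rfl⟩
  obtain ⟨k, hk, e⟩ := key _ (h2 g.1 ⟨(h3 g).1 hg, g.2.2⟩)
  exact (Subtype.ext e : k = g) ▸ hk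

/-- the image of a group under a computed homomorphism -/
theorem img (h : UP.Ok p n c) {ρ : V → V} {σ : GG p n → Mat p n} {Y : List V}
    (hm : Hom ρ (gS p n Y) σ) (hp : ∀ g ∈ gS p n Y, Par (l0 n) (σ g)) (z : GG p n) :
    z ∈ gS p n (Y.map fun y => ρ (nrm c y)) ↔ ∃ y ∈ gS p n Y, σ y = z.1 := by
  let φ : gS p n Y →* GG p n :=
    { toFun := fun g => ⟨σ g.1, hp g.1 g.2⟩
      map_one' := Subtype.ext hm.one
      map_mul' := fun a b => Subtype.ext (hm.mul a.1 a.2 b.1 b.2) }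
  have hv : ∀ y (hy : y ∈ Y), gD p n (ρ (nrm c y)) = φ ⟨_, mem_gS hy⟩ := fun y hy =>
    gD_of (hm.val _ _ (mem_gS hy) (h.nrm y))
  constructor
  · intro hz
    have : gS p n (Y.map fun y => ρ (nrm c y)) ≤ φ.range := gS_le.2 fun x hx => by
      obtain ⟨y, hy, rfl⟩ := List.mem_map.1 hx
      exact ⟨_, (hv y hy).symm⟩
    obtain ⟨g, rfl⟩ := this hz
    exact ⟨g.1, g.2, rfl⟩
  · rintro ⟨y, hy, e⟩
    have : ∀ y (hy : y ∈ gS p n Y), φ ⟨y, hy⟩ ∈ gS p n (Y.map fun y => ρ (nrm c y)) := by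
      intro y hy
      induction hy using Subgroup.closure_induction with
      | mem y hy =>
        obtain ⟨x, hx, rfl⟩ := hy
        exact hv x hx ▸ mem_gS (List.mem_map.2 ⟨x, hx, rfl⟩)
      | one => exact (map_one φ).symm ▸ one_mem _
      | mul a b ha hb ia ib => exact (map_mul φ ⟨a, ha⟩ ⟨b, hb⟩).symm ▸ mul_mem ia ib
      | inv a ha ia => exact (map_inv φ ⟨a, ha⟩).symm ▸ inv_mem ia
    exact (Subtype.ext e : φ ⟨y, hy⟩ = z) ▸ this y hy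

theorem vd_sub (h : UP.Ok p n c) {t : V → Bool} {S : List V} {w : V} (hw : w ∈ subG c t S) :
    Vd p n w := by
  obtain ⟨x, -, rfl⟩ := List.mem_map.1 hw
  exact vd_of (h.nrm x)

end QPREz

theorem s_QPRE (p n : ℕ) [Fact p.Prime] (t : TM p n) (q : TP p n) (hQST : S_QST p n)
    (hQGEN : GF.S_QGEN p n) : S_QPRE p n := by
  rintro γ om c s _ Y h rfl h0 hY
  have hc := t.coc _ h0
  have hm := (((hQST om c s _ h rfl).2.2.2.1 h0).1).mono hY
  have hp := (t.locx _ _ _ _ h0.lab hc.2.1 h0.tri).1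
  have hI := QPREz.img h.up hm fun g hg => hp g (hY hg)
  have hT : Tst (memL c s Y) ⊤ (· ∈ gS p n (Y.map fun y => loP c s (nrm c y))) :=
    (q.fix c _ h.up).2.2
  refine ⟨_, hI, hT, fun A hA => ?_⟩
  have hll : Lab (lab n (llP c s)) := h.llP s ▸ hc.1
  have hA' : Alg (lab n (llP c s)) (sp (mat p n) A) := h.llP s ▸ hA
  have e := QPREz.gen t hQGEN h.up hll hA'
  refine ⟨e, fun hi => ?_⟩
  have hU := (t.env.2.2.2.1 _ (t.env.2.2.2.2.1 _ _ hll hA').1).1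
  have hn : ∀ g ∈ (stD p n s).G, g ∈ (stD p n s).N1 ↔ (stD p n s).lo g.1 = 1 :=
    fun g hg => (hc.2.2.2.2.2.2.1 g hg).2.1
  obtain ⟨b1, b2⟩ := (q.bfs c (memL c s Y) (GF.genQ c (llP c s) A) h.up).2.2 _
    fun x g _ => hT x g trivial
  have eW := (b2 (b1.trans (e ▸ hi))).2
  rw [e] at eW
  have hW : ∀ w ∈ subG c (memL c s Y) (GF.genQ c (llP c s) A), gD p n w ∈ UG (sp (mat p n) A) ⊓
      gS p n (Y.map fun y => loP c s (nrm c y)) := fun w hw => eW ▸ mem_gS hw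
  obtain ⟨Z, z1, z2, z3, z4⟩ := ((q.fix c Y h.up).1 _ _ hm).2.2.2 _ fun w hw => by
    obtain ⟨y, hy, e'⟩ := (hI _).1 (hW w hw).2
    exact ⟨y, hy, e'.trans (QPREz.vd_sub h.up hw).symm⟩
  rw [preP, ← z1]
  refine ((t.qb _ h0).2.2.1 _ _ hY hA).2 Z
    {g | ∃ x ∈ subG c (memL c s Y) (GF.genQ c (llP c s) A), gD p n x = g} (fun y hy hyA => ?_) ?_
    (fun y hy => ⟨(z2 y hy).1, ?_⟩) fun g hg => z3 g hg.1 ((hn g hg.2.1).1 hg.2)
  · refine ⟨⟨_, hp y (hY hy)⟩, ?_, rfl⟩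
    show _ ∈ gS p n _
    rw [eW]
    exact ⟨(hU _).2 hyA, (hI _).2 ⟨y, hy, rfl⟩⟩
  · rintro _ ⟨x, hx, rfl⟩
    obtain ⟨a, ha, e⟩ := z4 x hx
    exact ⟨a, Subgroup.subset_closure ha, e.trans (QPREz.vd_sub h.up hx)⟩
  · rcases (z2 y hy).2 with e | ⟨w, hw, e⟩
    · exact e ▸ hA.one
    · exact e ▸ QPREz.vd_sub h.up hw ▸ (hU _).1 (hW w hw).1

end Pool.Agent.P.MP_f1a348_lc.UP.CU.AF
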