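import Pool.Agent.P.MP_f1a348_lc.AF.PIf

namespace Pool.Agent.P.MP_f1a348_lc.UP.CU.AF

open Matrix Module Pool.Agent.P.MP_f1a348_lc.PG
open scoped commutatorElement

namespace QRAz

theorem head_mem {β : Type} {L : List β} (M : List β) (d : β) (h : L ≠ []) :
    (L ++ M).headD d ∈ L := by
  cases L with
  | nil => exact absurd rfl h
  | cons a L => simp

end QRAz

theorem s_QRA (p n : ℕ) [Fact p.Prime] (t : TM p n) (q : TQ p n) (hRA : S_RA p n) :
    S_QRA p n := by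
  intro γ om c s S E EG B h hS hP hB
  subst hS
  have ok0 := St.PrE.ok0 hP
  obtain ⟨-, -, hT, h4, -⟩ := q.st om c s _ h rfl
  obtain ⟨-, -, hxk, -⟩ := h4 ok0
  obtain ⟨-, -, -, -, -, -, -, -, -, -, hco, -⟩ := t.coc _ ok0
  have hG : (stD p n s).G = gS p n (sG s) := rfl
  have hX : (stD p n s).X = gS p n (sX s) := rfl
  have hk : 23 * (2 * n + 1) ≤ bud2 n := by simp only [bud2, gam, KG]; omega
  have hpw : pwN c (23 * mM c) = p ^ (23 * (2 * n + 1)) := by
    rw [h.hM]; exact h.cu.pwN hk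
  have hT' : ∀ j : Fin 3, Tst (ksT c s j.val) (gS p n (sG s)) (· ∈ (stD p n s).ks j) :=
    fun j => (hT j).mono (hco j).2
  have hx1 : ∀ j : Fin 3, xkP c s j.val (sX s) = true ↔ (stD p n s).X ≤ (stD p n s).ks j :=
    fun j => hxk j (sX s) ok0.le
  have hx2 : ∀ j : Fin 3, xkP c s j.val (sG s) = true ↔ (stD p n s).G ≤ (stD p n s).ks j :=
    fun j => hxk j (sG s) le_rfl
  refine ⟨fun b hb => ?_, fun hA j hXj hI => ?_⟩
  · obtain ⟨i, hi, hb⟩ := List.mem_flatMap.1 hb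
    obtain ⟨j, rfl⟩ := mem3.1 hi
    obtain ⟨hc, rfl⟩ := mem_chk.1 hb
    rw [Bool.and_eq_true, Bool.and_eq_true, Nat.ble_eq, hpw, Bool.not_eq_true',
      ← Bool.not_eq_true, hx1, hx2] at hc
    obtain ⟨⟨h1, h2⟩, h3⟩ := hc
    obtain ⟨hcov, hsub⟩ := ((q.bfs c (ksT c s j.val) (sG s) h.up).2.2 _ (hT' j)).2
      (h3.trans (h.cu.pow_le hk))
    have e : brcD p n (brS om c s (subG c (ksT c s j.val) (sG s)) s.2.2.1
        (bfs c (ksT c s j.val) (sG s))) = ⟨(stD p n s).G ⊓ (stD p n s).ks j, (stD p n s).X, [],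
          (stD p n s).ptr, (prs om c s (bfs c (ksT c s j.val) (sG s))).map (paD p n),
          (prs om c s (bfs c (ksT c s j.val) (sG s))).map (paD p n)⟩ := by
      rw [hG, ← hsub]; rfl
    rw [e]
    exact ⟨hRA _ E EG j _ hP h1 h2 (h.covK ok0 hcov) (by rwa [length_prs]), Nat.zero_le _, hB.2⟩
  · by_contra hn
    have := List.flatMap_eq_nil_iff.1 hA j.val (mem3.2 ⟨j, rfl⟩)
    rw [chk_eq_nil, ← Bool.not_eq_true, Bool.and_eq_true, Bool.and_eq_true, Nat.ble_eq, hpw,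
      Bool.not_eq_true', ← Bool.not_eq_true, hx1, hx2] at this
    refine this ⟨⟨hXj, hn⟩, ?_⟩
    refine (((q.bfs c (ksT c s j.val) (sG s) h.up).2.2 _ (hT' j)).1).trans ?_
    rw [hG, Subgroup.inf_relIndex_left] at hI
    exact hI

theorem s_QBR (p n : ℕ) [Fact p.Prime] (hTSL : S_TSL p n) (hRES : S_RES p n) (hQRA : S_QRA p n)
    (hQRB : S_QRB p n) (hQRC : S_QRC p n) (hQRD : S_QRD p n) (hQRE : S_QRE p n)
    (hQEN : S_QEN p n) (hQRF : S_QRF p n) : S_QBR p n := by
  intro γ om c s S E EG B h hS hP hE hB hSim hTi hL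
  obtain ⟨a1, a2⟩ := hQRA om c s S E EG B h hS hP hB
  obtain ⟨b1, b2⟩ := hQRB om c s S E EG B h hS hP hB
  obtain ⟨d1, d2⟩ := hQRD om c s S E EG B h hS hP hE hB
  have hres : ruleA om c s = [] → ruleB om c s = [] → ruleD om c s = [] →
      Str S.ll (S.le S.X) ∧ Scl S.μ S.ll (S.le S.X) ∧ (ruleC om c s = [] → S.Res) := by
    intro eA eB eD
    have hK : ∀ j, S.X ≤ S.ks j → S.G ≤ S.ks j := by
      intro j hj
      obtain ⟨G1, g1, g2⟩ := d2 eD j hj
      rcases hTSL S E EG j G1 hP hSim hTi hj g1 with k | ⟨v, hv, k⟩ | k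
      · exact a2 eA j hj k
      · exact absurd k (b2 eB j v hv)
      · exact absurd k g2
    obtain ⟨r1, -, r3, r4⟩ := hRES S E EG hP hSim hTi hK (b2 eB)
    refine ⟨r1, r3, fun eC => ?_⟩
    obtain ⟨sd, s1, s2, s3⟩ := (hQRC om c s S E EG B h hS hP hB r1).2 eC
    exact r4 sd s1 s2 s3
  by_cases e4 : rl4 om c s = []
  · have e5 := e4
    simp only [rl4, List.append_eq_nil_iff] at e5
    obtain ⟨eA, eB, eD, eC⟩ := e5
    obtain ⟨-, r3, r4⟩ := hres eA eB eD
    have ok0 := St.PrE.ok0 hP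
    obtain ⟨n1, n2, -⟩ := hQEN om c s S h hS ok0 hSim (r4 eC) r3 hL
    rw [freS, brP, e4, List.isEmpty_nil, cond_true, List.nil_append]
    refine ⟨fun e => ?_, fun e he => ?_⟩
    · have hne : ruleE om c s ≠ [] := by
        obtain ⟨x, hx⟩ := Option.isSome_iff_exists.1 (n1 e)
        simp [ruleE, hx]
      have := QRAz.head_mem [] (brS om c s [] [] []) hne
      rw [List.append_nil] at this
      exact hQRE om c s S E EG B h hS hP hB hSim (r4 eC) r3 hL _ this
    · obtain ⟨b, hb⟩ := n2 e he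
      exact hQRF om c s S e b h hS ok0 hb
  · have e5 : (rl4 om c s).isEmpty = false := by simpa using e4
    rw [freS, e5, cond_false]
    refine ⟨fun _ => ?_, fun e he => nomatch he⟩
    rw [brP, rl4, List.append_assoc]
    by_cases eA : ruleA om c s = []
    swap
    · exact a1 _ (QRAz.head_mem _ _ eA)
    rw [eA, List.nil_append, List.append_assoc]
    by_cases eB : ruleB om c s = []
    swap
    · exact b1 _ (QRAz.head_mem _ _ eB)
    rw [eB, List.nil_append, List.append_assoc]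
    by_cases eD : ruleD om c s = []
    swap
    · exact d1 _ (QRAz.head_mem _ _ eD)
    rw [eD, List.nil_append]
    refine (hQRC om c s S E EG B h hS hP hB (hres eA eB eD).1).1 _ (QRAz.head_mem _ _ fun eC => ?_)
    exact e4 (by rw [rl4, eA, eB, eD, eC]; rfl)

end Pool.Agent.P.MP_f1a348_lc.UP.CU.AF
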