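import Pool.Agent.P.MP_f1a348_lc.AF.PIf

namespace Pool.Agent.P.MP_f1a348_lc.UP.CU.AF

open Matrix Module Pool.Agent.P.MP_f1a348_lc.PG
open scoped commutatorElement

set_option linter.unusedSectionVars false

namespace QRDz

variable {p n : ℕ} [Fact p.Prime]

theorem flip {K : SG p n} {a b : GG p n} (h : a⁻¹ * b ∈ K) : b⁻¹ * a ∈ K := by
  have := inv_mem h
  rwa [_root_.mul_inv_rev, inv_inv] at this

theorem ptr_set [Gl p n] (s : PS) (j : Fin 3) (π : PPt) :
    ptrD p n (setP s j.val π) = Function.update (stD p n s).ptr j (some (ptD p n π)) := by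
  funext i
  rw [ptrD, setP, getD3]
  by_cases e : i = j
  · subst e
    rw [Function.update_self, beq_self_eq_true, cond_true, Option.map_some]
  · rw [Function.update_of_ne e]
    have : (i.val == j.val) = false := by
      rw [beq_eq_false_iff_ne]; exact fun k => e (Fin.ext k)
    rw [this, cond_false]
    rfl

theorem pt_len {S : St p n} {B : ℕ} (hB : S.Bd B) (j : Fin 3) : (S.pt j).F.length ≤ B := by
  unfold St.pt
  cases e : S.ptr j with
  | none => exact hB.1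
  | some r => exact hB.2 j r e

theorem ptB_upd {B : ℕ} {π : Fin 3 → Option (Ptr p n)} (h : PtB B π) (j : Fin 3) {r : Ptr p n}
    (hr : r.F.length ≤ B) : PtB B (Function.update π j (some r)) := by
  intro i r' e
  by_cases k : i = j
  · subst k
    rw [Function.update_self] at e
    exact Option.some.inj e ▸ hr
  · rw [Function.update_of_ne k] at e
    exact h i r' e

theorem ab_iff (t : TM p n) {c : Cx} (h : UP.Ok p n c) (s : PS) (j : ℕ) (L U : VS p n)
    (hT : Tst (ksT c s j) (Stb L ⊓ Stb U) (· ∈ Ker L U)) (C : List V)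
    (hC : gS p n C ≤ Stb L ⊓ Stb U) :
    abT c s j C = true ↔ ∀ a ∈ gS p n C, ∀ b ∈ gS p n C, ⁅a, b⁆ ∈ Ker L U := by
  have e : ∀ a ∈ C, ∀ b ∈ C, ksT c s j (gcom c a b) = true ↔
      ⁅gD p n a, gD p n b⁆ ∈ Ker L U := by
    intro a ha b hb
    have h1 := hC (mem_gS ha)
    have h2 := hC (mem_gS hb)
    refine hT _ _ ?_ ?_
    · rw [commutatorElement_def]
      exact mul_mem (mul_mem (mul_mem h1 h2) (inv_mem h1)) (inv_mem h2)
    · rw [commutatorElement_def]; exact h.gcom a b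
  obtain ⟨-, -, -, -, -, -, -, -, -, gen, -⟩ := t.sol (GG p n)
  obtain ⟨-, -, -, nm, -⟩ := t.sec
  simp only [abT, List.all_eq_true]
  refine ⟨fun k => gen _ _ (fun g hg => nm L U g (hC hg)) ?_, fun k a ha b hb =>
    (e a ha b hb).2 (k _ (mem_gS ha) _ (mem_gS hb))⟩
  rintro _ ⟨a, ha, rfl⟩ _ ⟨b, hb, rfl⟩
  exact (e a ha b hb).1 (k a ha b hb)

end QRDz

theorem s_QRD (p n : ℕ) [Fact p.Prime] (t : TM p n) (q : TQ p n) (hRD : S_RD p n) :
    S_QRD p n := by
  intro γ om c s S E EG B h hS hP hpad hB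
  subst hS
  have ok0 := St.PrE.ok0 hP
  obtain ⟨-, -, hT, h4, -⟩ := q.st om c s _ h rfl
  obtain ⟨-, -, hxk, -⟩ := h4 ok0
  have hx1 : ∀ j : Fin 3, xkP c s j.val (sX s) = true ↔ (stD p n s).X ≤ (stD p n s).ks j :=
    fun j => hxk j (sX s) ok0.le
  have key : ∀ (j : Fin 3) (π : PPt) (G1 : List V), π = ptP c s j.val →
      G1 = trn c π π.1 (sG s) → (stD p n s).X ≤ (stD p n s).ks j →
      (stD p n s).IsG1 j (gS p n G1) ∧ ∀ r ∈ tops π.2.2.2.2,
        (abT c s j.val (capN c G1 r.1.1) = true ↔ ∀ a ∈ gS p n G1 ⊓ gS p n r.1.1,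
          ∀ b ∈ gS p n G1 ⊓ gS p n r.1.1, ⁅a, b⁆ ∈ (stD p n s).ks j) ∧
        (abT c s j.val (capN c G1 r.1.1) = true → (stD p n s).GB E EG B
          (brcD p n (brD om c s j.val π (subG c (memG c r.1.2) G1) r.2))) := by
    intro j π G1 eπ eG hX
    have hπ : (stD p n s).pt j = ptD p n π := by rw [eπ]; exact (h.ptP s j).symm
    obtain ⟨r1, r2, r3, -, r5⟩ := hRD _ E EG j hP hX
    have i1 : (stD p n s).IsG1 j (gS p n G1) := by
      intro g
      rw [hπ] at r1 r2 r3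
      rw [eG, q.trn c π π.1 (sG s) h.up r1 r2 (fun g hg => by
        obtain ⟨a, ha, k⟩ := r3 g hg
        exact ⟨a, ha, QRDz.flip k⟩) g, hπ]
      exact and_congr Iff.rfl ⟨fun ⟨a, ha, k⟩ => ⟨a, ha, QRDz.flip k⟩,
        fun ⟨a, ha, k⟩ => ⟨a, ha, QRDz.flip k⟩⟩
    obtain ⟨g1, g2⟩ := r5 _ i1
    refine ⟨i1, fun r hr => ?_⟩
    have hr' : ((gS p n r.1.1, gS p n r.1.2), foD p n r.2) ∈ tops ((stD p n s).pt j).F := by
      rw [hπ]
      show _ ∈ tops (foD p n π.2.2.2.2)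
      rw [tops_foD]
      exact List.mem_map.2 ⟨r, hr, rfl⟩
    obtain ⟨k1, k2, -, k4⟩ := g2 _ hr'
    have hcap := q.cap c G1 r.1.1 h.up k1
    have hab := QRDz.ab_iff t h.up s j.val _ _ (hT j) (capN c G1 r.1.1)
      (by rw [hcap]; exact inf_le_left.trans g1)
    rw [hcap] at hab
    refine ⟨hab, fun hc => ?_⟩
    obtain ⟨b1, b2⟩ := (q.bfs c (memG c r.1.2) G1 h.up).2.2 (gS p n r.1.2)
      ((q.fix c r.1.2 h.up).2.2.mono le_top)
    obtain ⟨-, hP'⟩ := b2 (b1.trans (k2.trans hpad))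
    generalize subG c (memG c r.1.2) G1 = P' at hP' ⊢
    have hQ : (stD p n s).IsQd j (gS p n G1 ⊓ gS p n r.1.2) (gS p n (trn c π (sG s) P')) := by
      intro g
      rw [hπ] at r1 r2
      rw [q.trn c π (sG s) P' h.up r2 (by
        rw [hP']
        exact fun a ha => r1 (hπ ▸ ((i1 a).1 ha.1).1)) (by
        rw [hP', ← hπ]
        exact fun a ha => ((i1 a).1 ha.1).2) g, hP', hπ]
      rfl
    obtain ⟨m1, m2⟩ := k4 _ hQ
    obtain ⟨d1, d2⟩ := (q.bfs c (memG c (trn c π (sG s) P')) (sG s) h.up).2.2 _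
      ((q.fix c (trn c π (sG s) P') h.up).2.2.mono le_top)
    obtain ⟨hcov, -⟩ := d2 (d1.trans (m1.trans hpad))
    have hle : gS p n (trn c π (sG s) P') ≤ gS p n (sG s) := fun a ha => ((hQ a).1 ha).1
    rw [inf_eq_right.2 hle] at hcov
    have e : brcD p n (brD om c s j.val π P' r.2) = ⟨gS p n (trn c π (sG s) P'), (stD p n s).X, [],
        Function.update (stD p n s).ptr j (some ⟨gS p n G1 ⊓ gS p n r.1.2, ((stD p n s).pt j).L,
          ((stD p n s).pt j).U, foD p n r.2⟩),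
        (prs om c s (bfs c (memG c (trn c π (sG s) P')) (sG s))).map (paD p n),
        (prs om c s (bfs c (memG c (trn c π (sG s) P')) (sG s))).map (paD p n)⟩ := by
      rw [hπ, ← hP']
      exact congrArg (fun z => (⟨_, _, _, z, _, _⟩ : Brc p n))
        (QRDz.ptr_set s j (P', π.2.1, π.2.2.1, π.2.2.2.1, r.2))
    rw [e]
    exact ⟨m2 _ (hab.1 hc) (h.covK ok0 hcov) (by rwa [length_prs]), Nat.zero_le _,
      QRDz.ptB_upd hB.2 j ((length_of_tops hr').trans (QRDz.pt_len hB j))⟩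
  refine ⟨fun b hb => ?_, fun hD j hX => ?_⟩
  · obtain ⟨i, hi, hb⟩ := List.mem_flatMap.1 hb
    obtain ⟨j, rfl⟩ := mem3.1 hi
    cases e : xkP c s j.val (sX s) with
    | false => rw [e, cond_false] at hb; exact absurd hb List.not_mem_nil
    | true =>
      rw [e, cond_true] at hb
      obtain ⟨r, hr, hb⟩ := List.mem_flatMap.1 hb
      obtain ⟨hc, rfl⟩ := mem_chk.1 hb
      exact ((key j _ _ rfl rfl ((hx1 j).1 e)).2 r hr).2 hc
  · obtain ⟨i1, i2⟩ := key j _ _ rfl rfl hX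
    refine ⟨_, i1, fun ⟨r', hr', k⟩ => ?_⟩
    have := List.flatMap_eq_nil_iff.1 hD j.val (mem3.2 ⟨j, rfl⟩)
    rw [(hx1 j).2 hX, cond_true] at this
    rw [← h.ptP] at hr'
    change _ ∈ tops (foD p n (ptP c s j.val).2.2.2.2) at hr'
    rw [tops_foD] at hr'
    obtain ⟨r, hr, rfl⟩ := List.mem_map.1 hr'
    have h2 := List.flatMap_eq_nil_iff.1 this r hr
    rw [chk_eq_nil, (i2 r hr).1.2 k] at h2
    exact absurd h2 (by decide)

end Pool.Agent.P.MP_f1a348_lc.UP.CU.AF
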