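import Pool.Agent.P.MP_f1a348_lc.AF.PIf

/-! The rule of the engine and the free step. -/

namespace Pool.Agent.P.MP_f1a348_lc.UP.CU.AF

open Matrix Module Pool.Agent.P.MP_f1a348_lc.PG
open scoped commutatorElement

theorem s_QRE (p n : ℕ) [Fact p.Prime] (t : TM p n) (q : TQ p n) (hRP : S_RP p n)
    (hRE : S_RE p n) (hQEN : S_QEN p n) (hQMV : S_QMV p n) : S_QRE p n := by
  intro γ om c s S E EG B h hS hP hB hsim hres hscl hlf b hb
  have ok0 := St.PrE.ok0 hP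
  obtain ⟨⟨A, Z, Z'⟩, he, rfl⟩ := List.mem_map.1 hb
  obtain ⟨eo, pZ, pZ'⟩ := (hQEN om c s S h hS ok0 hsim hres hscl hlf).2.2 A Z Z'
    (Option.mem_toList.1 he)
  obtain ⟨L, hL, -, hpre⟩ := q.pre om c s S (sG s) h hS ok0 (hS ▸ le_rfl)
  subst hS
  have pG := (hpre A eo.alg).2 (((t.locu _ ok0 hsim).2.1 _ L _ ok0.le le_rfl hL eo.alg
    eo.le).trans (h.cu.pow_le (by simp only [bud2, gam, KG]; omega)))
  obtain ⟨Y, F, k4, k5, k6⟩ := q.out om c s _ (preP c s (sG s) A) none h rfl ok0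
    fun g hg => ((pG g).1 hg).1
  have mv := fun W (hW : ∀ y ∈ W.map (mV p n), U1 ((stD p n s).le (stD p n s).X) y) =>
    hQMV om c s _ A W h rfl ok0 hsim eo.alg eo.le fun y hy => hW _ (List.mem_map_of_mem hy)
  have cv : ∀ W (hW : ∀ y ∈ W.map (mV p n), U1 ((stD p n s).le (stD p n s).X) y),
      ∀ y ∈ W.map (mV p n),
      (∃ g ∈ (stD p n s).G, st y * (stD p n s).lo g.1 ∈ sp (mat p n) A) →
      ∃ t ∈ (prs om c s (mvL c s (bfs c (memL c s (sG s)) (GF.genQ c (llP c s) A)) W)).map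
        (paD p n), st y * (stD p n s).lo t.1.1 ∈ sp (mat p n) A := fun W hW y hy e => by
    obtain ⟨z, hz, rfl⟩ := List.mem_map.1 hy
    obtain ⟨u, hu, e'⟩ := (mv W hW).2.2 z hz e
    exact ⟨_, mem_prs.2 ⟨u, hu, rfl⟩, e'⟩
  have pd := (hRP _ E EG hP).2.2.1
  have e1 := congrArg Out.X k6
  have e2 := congrArg Out.F k6
  dsimp only at e1 e2
  subst e1 e2
  exact ⟨hRE _ E EG _ _ _ _ hP hsim hres eo pG _ _ _ _
    (fun x hx => (List.mem_append.1 hx).elim (h.prs ok0 (mv Z eo.mem).2.1 x)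
      (h.prs ok0 (mv Z' eo.mem').2.1 x)) (cv Z eo.mem) (cv Z' eo.mem')
    (pd _ _ _ ((length_prs _ _).le.trans (mv Z eo.mem).1) pZ)
    (pd _ _ _ ((length_prs _ _).le.trans (mv Z' eo.mem').1) pZ') k4, k5, hB.2⟩

theorem s_QRF (p n : ℕ) [Fact p.Prime] (t : TM p n) (q : TQ p n) (hQF : S_QF p n) :
    S_QRF p n := by
  intro γ om c s S e b h hS ok0 fo
  subst hS
  obtain ⟨⟨Q, hQ⟩, hq⟩ := hQF _ b _ ok0 fo
  obtain ⟨q1, -, -, q4, q5, q6, -⟩ := hq Q hQ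
  have ps : ∀ d x, psT om c s e d x = true ↔ RN.psiD p n e (fV p n (kpP om c s d x)) = 0 :=
    fun d x => by rw [psT, isz_iff h.hp h.d3, ← fV, RN.dv_psiP h.up]
  have ts : Tst (psT om c s e []) (gS p n (sG s)) (· ∈ Q) := fun x g hg ex => by
    obtain rfl := gD_of ex
    rw [ps]
    exact (q5 _ hg _ (h.kp s (ok0.tot _ hg))).symm
  obtain ⟨b1, b2, b3⟩ := q.bfs c (psT om c s e []) (sG s) h.up
  obtain ⟨b3, b4⟩ := b3 Q ts
  obtain ⟨b4, b5⟩ := b4 (b3.trans (q4.trans (h.cu.pow_le (by simp only [bud2, gam, KG]; omega))))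
  obtain ⟨Y, F, k4, k5, k6⟩ := q.out om c s _ (subG c (psT om c s e []) (sG s))
    (prs om c s ((bfs c (psT om c s e []) (sG s)).filter (psT om c s e (sD s)))).head? h rfl ok0 b2
  have eQ : gS p n (subG c (psT om c s e []) (sG s)) = Q := b5.trans (inf_eq_right.2 q1)
  have mm : ∀ r ∈ bfs c (psT om c s e []) (sG s),
      (stD p n s).Mem (paD p n (r, omP om c s r)) := fun r hr =>
    ⟨b1 r hr, h.omP s (ok0.tot _ (b1 r hr))⟩
  rw [outF, k6]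
  refine ⟨⟨b, _, fo, eQ ▸ hQ, fun x hx => ?_, fun hn y hy => ?_⟩, k4, k5⟩
  · obtain ⟨z, hz, rfl⟩ := Option.map_eq_some_iff.1 hx
    obtain ⟨r, hr, rfl⟩ := List.mem_map.1 (List.mem_of_head? hz)
    obtain ⟨r1, r2⟩ := List.mem_filter.1 hr
    exact ⟨mm r r1, h.kpD s r ▸ (ps _ _).1 r2⟩
  · obtain ⟨_, hr, e'⟩ := b4.cov y.1 hy.1.1
    obtain ⟨r, r1, rfl⟩ := List.mem_map.1 hr
    have r2 := (ps _ _).2 (h.kpD s r ▸ (q6 _ y (mm r r1) hy).1 e'.2)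
    have := List.head?_eq_none_iff.1 (Option.map_eq_none_iff.1 hn)
    rw [prs, List.map_eq_nil_iff] at this
    exact List.ne_nil_of_mem (List.mem_filter.2 ⟨r1, r2⟩) this

end Pool.Agent.P.MP_f1a348_lc.UP.CU.AF
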