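import Pool.Agent.P.MP_f1a348_lc.AF.PIf

/-!
Project AF: the start and one call of the solver.
-/

namespace Pool.Agent.P.MP_f1a348_lc.UP.CU.AF

open Matrix Module Pool.Agent.P.MP_f1a348_lc.PG
open scoped commutatorElement

namespace QSOLVEz

theorem card_le (p n : ℕ) [Fact p.Prime] (G : SG p n) :
    Nat.card G ≤ 2 ^ (Nat.size p * ((2 * n + 1) * (2 * n + 1))) := by
  have h1 : Nat.card G ≤ Nat.card (Mat p n) :=
    Nat.card_le_card_of_injective (fun g : G => g.1.1) fun _ _ e => Subtype.ext (Subtype.ext e)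
  have h2 : Nat.card (Mat p n) = p ^ ((2 * n + 1) * (2 * n + 1)) := by
    change Nat.card (Ix n → Ix n → ZMod p) = _
    rw [Nat.card_fun, Nat.card_fun, Nat.card_zmod, Nat.card_fin, pow_mul]
  rw [pow_mul]
  exact h1.trans (h2.trans_le (Nat.pow_le_pow_left (Nat.lt_size_self p).le _))

end QSOLVEz

theorem s_QSTART (p n : ℕ) [Fact p.Prime] (q : TP p n) (hSTART : S_START p n) :
    S_QSTART p n := by
  intro c H N F R c1 ν h h1 h2 h3 h4 h5 h6 h7
  obtain ⟨k1, k2⟩ := q.core c H N h h1 h2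
  rw [startP, foD_append, List.length_append]
  exact ⟨hSTART _ _ _ R _ _ c1 ν h1 h2 h3 h4 h5 k1 h6 h7, Nat.add_le_add_left k2 _⟩

theorem s_QSOLVE (p n : ℕ) [Fact p.Prime] (t : TM p n) (q : TQ p n) (hROOT : S_ROOT p n)
    (hSZ : S_SZ p n) (hMAINP : S_MAINP p n) (hMACH : S_MACH) : S_QSOLVE p n := by
  intro γ om c k G y d a h ha k1 k2 k3 k4 k5 hc hν hb
  obtain ⟨hpre, hout⟩ := hROOT a _ _ _ γ.K _ γ.ν hc k1 k2 k3 k4 k5 hν
  obtain ⟨-, -, -, -, -, -, -, -, hcl, hd⟩ := q.dec om c h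
  have hd := hd k G y d
  rw [← ha] at hd
  rw [← hd] at hpre hout
  have hsz := (hSZ (stD p n (rootP c k G y d)) _ _
    (t.sec.2.2.2.2.2 _ _ (stD_lab _)).1).2.2.1
  have hbd : (stD p n (rootP c k G y d)).Bd y.2.length := by
    rw [hd]
    exact ⟨(length_foD _).le, fun j r e => by cases e⟩
  have hnum : rho p n * (6 * ((Nat.size p * ((2 * n + 1) * (2 * n + 1)) + 1) * 5 ^ EE p n γ.ν) *
      (stD p n (rootP c k G y d)).sz) ≤ bet p n γ.ν :=
    Nat.mul_le_mul_left _ (Nat.mul_le_mul_left _ hsz)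
  obtain ⟨y', k', hev, hpo, hk, hl⟩ := hMAINP om c h (EE p n γ.ν) _ _ _ (capW p n) y.2.length hpre
    rfl (QSOLVEz.card_le p n _) hbd ((Nat.add_le_add_left hnum _).trans hb)
  have hr : 0 < rho p n := Nat.mul_pos (Nat.mul_pos (by norm_num) (Fact.out : p.Prime).pos)
    (Nat.mul_pos (Nat.mul_pos (Nat.succ_pos _) (Nat.succ_pos _)) (Nat.succ_pos _))
  have h1 : rho p n * (k' + 1) ≤ bet p n γ.ν :=
    (Nat.mul_le_mul_left _ (by omega)).trans hnum
  have hk' : k' ≤ c.2.2.length := by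
    have := Nat.le_mul_of_pos_left (k' + 1) hr
    omega
  rw [solveP, hMACH om c _ y' k' hev hk', List.map_singleton, List.headD_cons]
  generalize fin c y' = o at hpo hl
  obtain ⟨o1, o2, o3, o4⟩ := hout _ hpo
  have hl' : (y.2 ++ o.2.2.1).length ≤ y.2.length + bet p n γ.ν := by
    rw [List.length_append]
    exact Nat.add_le_add_left (((length_foD _).symm.trans_le hl).trans h1) _
  have hF : foD p n (clF c (y.2 ++ o.2.2.1)) = foD p n y.2 ++ foD p n o.2.2.1 := by
    rw [hcl _ (smF_of t.kid (k := γ.ν) (G := gS p n o.1) (by rw [foD_append]; exact o2.val.1)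
      ((length_foD _).trans_le (hl'.trans hb))), foD_append]
  refine ⟨o1, ?_, ?_, fun x hx => o3 (paD p n x) (congrArg (Option.map (paD p n)) hx),
    fun hx => o4 (congrArg (Option.map (paD p n)) hx)⟩
  · change Cert γ.ν (gS p n o.1) (gS p n (red c o.2.1)) (foD p n (clF c (y.2 ++ o.2.2.1)))
    rw [q.red c _ h.up, hF]
    exact o2
  · exact (List.length_map _).trans_le ((List.length_take_le' _ _).trans hl')

end Pool.Agent.P.MP_f1a348_lc.UP.CU.AF
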