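import Pool.Agent.P.MP_f1a348_lc.AF.PIf

/-!
Project AF, task QST: the basic operations on states.
-/

namespace Pool.Agent.P.MP_f1a348_lc.UP.CU.AF

open Matrix Module Pool.Agent.P.MP_f1a348_lc.PG
open scoped commutatorElement

theorem s_QST (p n : ℕ) [Fact p.Prime] (t : TM p n) (q : TP p n) (hRP : S_RP p n) :
    S_QST p n := by
  rintro γ om c s _ h rfl
  have hl := stD_lab (p := p) (n := n) s
  have hll : Lab (lab n (llP c s)) := h.llP s ▸ (t.lc.1 _ _ hl (t.lc.2 _ _ hl).1).1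
  have h1 : ∀ Y, sp (mat p n) (leP c s Y) = (stD p n s).le (gS p n Y) := fun Y => by
    rw [leP, (basis_bas h.hp h.up.d2 _).sp, sp_map (δ := mat p n) _ fun x _ => h.loP s x,
      q.env c Y h.up, St.le]
  have h2 : ∀ A, Alg (stD p n s).ll (sp (mat p n) A) →
      phP c s A = (stD p n s).ph (sp (mat p n) A) := fun A hA => by
    rw [phP, (q.pot c _ _ h.up).2 A hll (h.llP s ▸ hA), h.muP, h.llP, St.ph]
  have h3 : ∀ j : Fin 3, Tst (ksT c s j.val) (Stb (sL (stD p n s).f (stD p n s).ℓ ((stD p n s).a j)) ⊓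
      Stb (sH (stD p n s).f (stD p n s).ℓ ((stD p n s).a j))) (· ∈ (stD p n s).ks j) :=
    fun j x g hg e => by
      rw [ksT, h.up.meq, h.up.mmul, h.up.mmul, h.aj, h.up.prP, h.lP, h.up.frP (h.fm s), e]
      exact ((t.sec.1 _ _ _ hl).2.2.2.2.2.2.1 g hg.1 hg.2).symm
  refine ⟨h1, h2, h3, fun h0 => ?_, fun E EG k A hP hA hG => ?_⟩
  · have hc := t.coc _ h0
    have hm : Hom (loP c s) (stD p n s).G fun g => (stD p n s).lo g.1 :=
      ⟨fun x g _ e => e ▸ h.loP s x, hc.2.2.2.1, fun a ha b hb =>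
        (hc.2.2.2.2.1 _ ((t.env.1 _).2.1 a ha)).2.2 _ ((t.env.1 _).2.1 b hb)⟩
    have hn : ∀ g ∈ (stD p n s).G, g ∈ (stD p n s).N1 ↔ (stD p n s).lo g.1 = 1 :=
      fun g hg => (hc.2.2.2.2.2.2.1 g hg).2.1
    have hx : ∀ (j : Fin 3) Y, gS p n Y ≤ (stD p n s).G →
        (xkP c s j.val Y = true ↔ gS p n Y ≤ (stD p n s).ks j) := fun j Y hY => by
      rw [xkP, List.all_eq_true, gS_le]
      exact forall₂_congr fun x hx =>
        h3 j _ _ ((hc.2.2.2.2.2.2.2.2.2.2.1 j).2 (hY (mem_gS hx))) (h.up.nrm x)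
    refine ⟨hm, fun Y hY => ?_, hx, ?_⟩
    · ext g
      rw [n1P, ((q.fix c Y h.up).1 _ _ (hm.mono hY)).2.1 g, Subgroup.mem_inf]
      exact and_congr_right fun hg => (hn g (hY hg)).symm
    · rw [tbP, any3]
      exact exists_congr fun j => hx j _ h0.le
  · obtain ⟨-, -, -, r1, r2, -⟩ := hRP _ E EG hP
    have r3 := r2 _ hA hG
    have r4 : capE n ≤ bud2 n := by simp only [capE, bud2, gam, KG]; omega
    have e : gS p n (sG s) = (stD p n s).G := rfl
    rw [paidP, Nat.ble_eq, h2 A hA, h2 _ (by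
      rw [h1, e]; exact ((t.coc _ hP.ok0).2.2.2.2.2.1 _ le_rfl).1), h1, e, h.cu.pwN (by omega),
      h.cu.pwN (by omega), h.hp, St.Paid]

theorem s_QOUT (p n : ℕ) [Fact p.Prime] (t : TM p n) (q : TP p n) : S_QOUT p n := by
  intro γ om c s S H φ h hs h0 hH
  subst hs
  have hN : Nm (gS p n H) (gS p n (sX s)) := fun g hg k hk => h0.nm g (hH hg) k hk
  have e := q.cap c H (sX s) h.up hN
  obtain ⟨k1, k2⟩ := q.core c H (capN c H (sX s)) h.cu (e ▸ inf_le_left) (by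
    rw [e]
    exact fun g hg k hk => ⟨(gS p n H).mul_mem ((gS p n H).mul_mem hg hk.1)
      ((gS p n H).inv_mem hg), hN g hg k hk.2⟩)
  rw [e] at k1
  exact ⟨_, _, k1, (length_foD _).trans_le k2, rfl⟩

end Pool.Agent.P.MP_f1a348_lc.UP.CU.AF
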