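import Pool.Agent.P.MP_f1a348_lc.AF.PIf

/-!
Project AF: the rules that branch over the cosets of a subgroup whose index is paid for.
-/

namespace Pool.Agent.P.MP_f1a348_lc.UP.CU.AF

open Matrix Module Pool.Agent.P.MP_f1a348_lc.PG
open scoped commutatorElement

theorem s_QTRY (p n : ℕ) [Fact p.Prime] (t : TM p n) (q : TQ p n) (hRP : S_RP p n) :
    S_QTRY p n := by
  intro γ om c s S E EG B tt Q h hS hP hB hT hX hN hQ
  subst hS
  have h0 := hP.ok0
  obtain ⟨r1, r2, r3, -⟩ := hRP _ E EG hP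
  obtain ⟨-, -, b3⟩ := q.bfs c tt (sG s) h
  obtain ⟨b4, b5⟩ := b3 Q hT
  obtain ⟨s1, -, -, -, s5⟩ := q.st om c s _ h rfl
  obtain ⟨-, -, -, -, -, c6, -⟩ := t.coc _ h0
  have eQ : gS p n (sG s) ⊓ Q = Q := inf_eq_right.2 hQ
  rw [eQ] at b5
  -- the test of the payment
  have key : (bfs c tt (sG s)).length ≤ c.2.2.length →
      (paidP c s (bfs c tt (sG s)).length (leP c s (subG c tt (sG s))) = true ↔
        (stD p n s).Paid (bfs c tt (sG s)).length ((stD p n s).le Q)) := fun hl => by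
    have e : sp (mat p n) (leP c s (subG c tt (sG s))) = (stD p n s).le Q := by
      rw [s1, (b5 hl).2]
    rw [← e]
    refine s5 E EG _ _ hP ?_ ?_
    · rw [e]; exact (c6 Q hQ).1
    · rw [e]; exact (c6 _ le_rfl).2.2.1 Q hQ
  refine ⟨fun b hb => ?_, fun he hp => ?_⟩
  · obtain ⟨hc, rfl⟩ := mem_chk.1 hb
    rw [Bool.and_eq_true, Nat.ble_eq] at hc
    obtain ⟨hl, hp⟩ := hc
    have e : brcD p n (brS om c s (subG c tt (sG s)) s.2.2.1 (bfs c tt (sG s))) =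
        ⟨Q, (stD p n s).X, [], (stD p n s).ptr, (prs om c s (bfs c tt (sG s))).map (paD p n),
          (prs om c s (bfs c tt (sG s))).map (paD p n)⟩ := by
      rw [← (b5 hl).2]; rfl
    rw [e]
    refine ⟨r1 Q _ hX hN hQ (h.covK h0 (b5 hl).1) ?_, Nat.zero_le _, hB.2⟩
    rw [length_prs]
    exact (key hl).1 hp
  · have hc := chk_eq_nil.1 he
    have hl : (bfs c tt (sG s)).length ≤ c.2.2.length :=
      b4.trans ((r2 _ _ hp).trans (h.pow_le (by rw [capE, bud2, gam, KG]; omega)))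
    have h1 := (key hl).2 (r3 _ _ _ b4 hp)
    rw [h1, Nat.ble_eq_true_of_le hl] at hc
    exact absurd hc (by decide)

theorem s_QRB (p n : ℕ) [Fact p.Prime] (t : TM p n) (q : TQ p n) (hQTRY : S_QTRY p n) :
    S_QRB p n := by
  intro γ om c s S E EG B h hS hP hB
  subst hS
  have h0 := hP.ok0
  obtain ⟨s1, -⟩ := q.st om c s _ h rfl
  obtain ⟨hl, -⟩ := t.coc _ h0
  obtain ⟨q1, -⟩ := t.qb _ h0
  have en : ∀ j : Fin 3, Enum (vec p n) (blkP c (llP c s) (aj c s j.val))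
      (Vb (stD p n s).ll ((stD p n s).a j) : VS p n) := fun j => by
    rw [h.aj, ← h.llP]
    exact h.blkP (by rw [h.llP]; exact hl) _
  have key : ∀ (j : Fin 3) (v : V), vV p n v ∈ Vb (stD p n s).ll ((stD p n s).a j) →
      (∀ b ∈ tryQ om c s (qbT c s (orbP c (leP c s (sX s)) v) v),
        (stD p n s).GB E EG B (brcD p n b)) ∧
      (tryQ om c s (qbT c s (orbP c (leP c s (sX s)) v) v) = [] →
        ¬ (stD p n s).Paid (((stD p n s).qb j ((stD p n s).f.1 *ᵥ vV p n v)).relIndex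
          (stD p n s).G) ((stD p n s).le ((stD p n s).qb j ((stD p n s).f.1 *ᵥ vV p n v)))) :=
    fun j v hv => by
      obtain ⟨a1, a2, a3, -⟩ := q1 j _ hv
      refine hQTRY om c s _ E EG B _ _ h rfl hP hB (fun x g hg hx => ?_) a1 a2 inf_le_left
      have e : dv (vec p n) (mvec c (loP c s x) v) = (stD p n s).lo g.1 *ᵥ vV p n v := by
        rw [← hx, ← h.loP]; exact h.mvec _ _
      rw [qbT, mem_iff h.hp h.d1, (h.orbP _ _).sp, s1, e]
      exact ⟨fun k => (a3 g).2 ⟨hg, k⟩, fun k => ((a3 g).1 k).2⟩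
  refine ⟨fun b hb => ?_, fun he j v hv => ?_⟩
  · obtain ⟨j', hj, hb⟩ := List.mem_flatMap.1 hb
    obtain ⟨j, rfl⟩ := mem3.1 hj
    obtain ⟨v, hv, hb⟩ := List.mem_flatMap.1 hb
    exact (key j v (((en j).mem _).2 ⟨v, hv, rfl⟩)).1 b hb
  · obtain ⟨x, hx, rfl⟩ := ((en j).mem v).1 hv
    exact (key j x hv).2 (List.flatMap_eq_nil_iff.1
      (List.flatMap_eq_nil_iff.1 he j.val (mem3.2 ⟨j, rfl⟩)) x hx)

theorem s_QRC (p n : ℕ) [Fact p.Prime] (t : TM p n) (q : TQ p n) (hQTRY : S_QTRY p n) :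
    S_QRC p n := by
  intro γ om c s S E EG B h hS hP hB hstr
  subst hS
  have h0 := hP.ok0
  obtain ⟨s1, -⟩ := q.st om c s _ h rfl
  obtain ⟨-, q2, -⟩ := t.qb _ h0
  have eB : (sdD p n (sdB c (llP c s) (leP c s (sX s)))).B = (stD p n s).le (stD p n s).X :=
    s1 (sX s)
  have gd : Good (stD p n s).ll (sdD p n (sdB c (llP c s) (leP c s (sX s)))) := by
    rw [← h.llP]
    exact h.sdB (by rw [h.llP, s1]; exact hstr)
  have com : ∀ C ∈ clP c (sdB c (llP c s) (leP c s (sX s))),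
      mV p n C ∈ Com ((stD p n s).le (stD p n s).X) := fun C hC => by
    have h1 : mV p n C ∈ CL (sdD p n (sdB c (llP c s) (leP c s (sX s)))) := by
      rw [← h.clP]; exact List.mem_map_of_mem hC
    obtain ⟨a, b, h2⟩ := mem_CL.1 h1
    rw [← eB]
    exact (gd.mem_cb h2).1
  have key : ∀ C ∈ clP c (sdB c (llP c s) (leP c s (sX s))), ∀ Q, (stD p n s).IsQc (mV p n C) Q →
      (∀ b ∈ tryQ om c s (qcT c s C), (stD p n s).GB E EG B (brcD p n b)) ∧
      (tryQ om c s (qcT c s C) = [] →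
        ¬ (stD p n s).Paid (Q.relIndex (stD p n s).G) ((stD p n s).le Q)) :=
    fun C hC Q hQ => by
      obtain ⟨a1, a2, a3⟩ := (q2 _ (com C hC)).2 Q hQ
      refine hQTRY om c s _ E EG B _ _ h rfl hP hB (fun x g hg hx => ?_) a1 a2 a3
      rw [qcT, h.meq, h.mmul, h.mmul, h.loP, hx]
      exact ⟨fun k => (hQ g).2 ⟨hg, k⟩, fun k => ((hQ g).1 k).2⟩
  refine ⟨fun b hb => ?_, fun he => ⟨_, gd, eB, fun C hC Q hQ => ?_⟩⟩
  · obtain ⟨C, hC, hb⟩ := List.mem_flatMap.1 hb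
    obtain ⟨Q, hQ⟩ := (q2 _ (com C hC)).1
    exact (key C hC Q hQ).1 b hb
  · rw [← h.clP] at hC
    obtain ⟨x, hx, rfl⟩ := List.mem_map.1 hC
    exact (key x hx Q hQ).2 (List.flatMap_eq_nil_iff.1 he x hx)

end Pool.Agent.P.MP_f1a348_lc.UP.CU.AF
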