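import Pool.Agent.P.MP_f1a348_lc.AF.TRA

/-!
Project AF, task RE: branching by the answer of the engine.
-/

namespace Pool.Agent.P.MP_f1a348_lc.UP.CU.AF

open Matrix Module Pool.Agent.P.MP_f1a348_lc.PG
open scoped commutatorElement

open RAz in
theorem s_RE (p n : ℕ) [Fact p.Prime] (t : TM p n) : S_RE p n := by
  intro s E EG A Z Z' Q hP hs _ e hQ R R' Y F hR hZ hZ' P P' hY
  obtain ⟨c, τ, h', -⟩ := id hP
  have h := h'.toOk0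
  have hc := t.coc s h
  have hG : Q ≤ s.G := fun g hg => ((hQ g).1 hg).1
  have h3 : s.N1 ≤ Q := fun g hg => (hQ g).2 ⟨hg.1, by
    change s.lo _ ∈ A
    rw [(hc.2.2.2.2.2.2.1 g hg.1).2.1.1 hg]; exact e.alg.one⟩
  have hm : ∀ x ∈ R, s.Mem x := fun x hx => hR x (List.mem_append_left _ hx)
  have hm' : ∀ x ∈ R', s.Mem x := fun x hx => hR x (List.mem_append_right _ hx)
  have hq : ∀ y, Un y → ∀ x ∈ s.G, ∀ g ∈ s.G, st y * s.lo x.1 ∈ A → st y * s.lo g.1 ∈ A →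
      x⁻¹ * g ∈ Q := fun y hy x hx g hg k k' => (hQ _).2 ⟨mul_mem (inv_mem hx) hg, by
    have ev := (t.env.1 s.G).2.1
    have := e.alg.mul _ (e.alg.star _ k) _ k'
    rw [st_mul, st_st, mul_assoc, ← mul_assoc y, hy.mul_st, one_mul] at this
    change s.lo _ ∈ A
    rwa [val_mul, (hc.2.2.2.2.1 _ (ev _ (inv_mem hx))).2.2 _ (ev g hg), val_inv,
      (hc.2.2.2.2.1 _ (ev x hx)).1]⟩
  refine paid_br t hP ⟨Q, Y, F, s.ptr, R, R'⟩ A hG h3 hm hm' (fun g hg k => ?_) (fun g hg => ?_)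
    rfl (t.phm _ _ _ _ hc.1 e.alg (hc.2.2.2.2.2.1 Q hG).1
      ((hc.2.2.2.2.2.1 Q hG).2.2.2.2.1 A fun g hg => ((hQ g).1 hg).2)) P P'
    (t.nwc s Q Y F _ h hs hG (fun W hW _ => hW.trans (inf_le_right.trans h3)) hY
      (t.pref s A (Q ⊓ s.X) Y h hs e.alg (fun g => ⟨fun k => ⟨k.2, ((hQ g).1 k.1).2⟩,
        fun k => ⟨(hQ g).2 ⟨h.le k.1, k.2⟩, k.1⟩⟩) ((t.core Q _ inf_le_left).2.2 Y F hY)) le_rfl)
  · obtain ⟨y, hy, k'⟩ := e.cov _ ⟨g, hg, rfl, k⟩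
    obtain ⟨x, hx, k''⟩ := hZ y hy ⟨g, hg, k'⟩
    exact ⟨x, hx, hq y (e.mem y hy).2.1 _ (hm x hx).1 g hg k'' k'⟩
  · obtain ⟨y, hy, k'⟩ := e.cov' _ _ ⟨g.1, hg.1.1, rfl, g.2, hg.1.2, rfl⟩
      (((t.cok s h).2.2.2.1 g hg.1).2.1.symm.trans hg.2)
    obtain ⟨x, hx, k''⟩ := hZ' y hy ⟨g.1, hg.1.1, k'⟩
    exact ⟨x, hx, hq y (e.mem' y hy).2.1 _ (hm' x hx).1 _ hg.1.1 k'' k'⟩

end Pool.Agent.P.MP_f1a348_lc.UP.CU.AF
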