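import Pool.Agent.P.MP_f1a348_lc.AF.Iface

/-! The loop over the sub-boxes: the start and the preconditions of the calls. -/

namespace Pool.Agent.P.MP_f1a348_lc.UP.CU.AF

open Matrix Module Pool.Agent.P.MP_f1a348_lc.PG
open Pool.Agent.P.MP_f1a348_lc.CE (QS QY UQ EU LTY Geo)
open scoped commutatorElement

namespace SPL1z

variable {p n : ℕ} [Fact p.Prime]

theorem frame (b : TB p n) (s : St p n) {f : GG p n} {ℓ : Ix n → ℕ} (hF : Fine s.f s.ℓ f ℓ)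
    {v : Frm p n} (h1 : pull1 s.f.1 v ∈ Lowr s.ℓ s.a) : pull1 f.1 v ∈ Lowr s.ℓ s.a := by
  have h3 := ((b.low s.ℓ s.a _ _ hF.lab (hF.dg.tri hF.lab)).1 h1).1
  rwa [← pull1_mul, ← val_mul, mul_inv_cancel_left] at h3

theorem low (b : TB p n) (s : St p n) {f : GG p n} {ℓ : Ix n → ℕ} (hF : Fine s.f s.ℓ f ℓ)
    {a : Fin 3 → Ix n} (ha : ∀ j, s.ℓ (a j) = s.ℓ (s.a j)) {v : Frm p n}
    (h1 : pull1 s.f.1 v ∈ Lowr s.ℓ s.a) (h2 : s.Bel ℓ (key ℓ a) (pull1 f.1 v)) :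
    pull1 f.1 v ∈ Lowr ℓ a := by
  have h3 := frame b s hF h1
  intro i hi ⟨j, hj⟩
  by_cases h : ∀ k, s.ℓ (i k) = s.ℓ (s.a k)
  · exact h2 i h (lt_of_le_of_ne (key_le hi) fun e => hj.ne ((key_eq_iff hF.lab').1 e j))
  · obtain ⟨k, hk⟩ := not_forall.1 h
    have h4 : ∀ k, s.ℓ (i k) ≤ s.ℓ (s.a k) := fun k => ha k ▸ hF.fine _ _ (hi k)
    exact h3 i h4 ⟨k, lt_of_le_of_ne (h4 k) hk⟩

theorem bel_pull {s : St p n} {f : GG p n} {ℓ : Ix n → ℕ} {t : ℕ} (h : Fine s.f s.ℓ f ℓ)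
    {u : Mat p n} (hu : Tri ℓ u) {w : Frm p n}
    (hl : w ∈ Lowr s.ℓ s.a) (hw : s.Bel ℓ t w) : s.Bel ℓ t (pull1 u w) := fun i hi hk => by
  refine Finset.sum_eq_zero fun k _ => ?_
  by_cases e : ∀ j, u (k j) (i j) ≠ 0
  · have h1 : ∀ j, ℓ (k j) ≤ ℓ (i j) := fun j => (hu _ _ (e j)).1
    have h2 : ∀ j, s.ℓ (k j) ≤ s.ℓ (s.a j) := fun j => hi j ▸ h.fine _ _ (h1 j)
    by_cases e2 : ∀ j, s.ℓ (k j) = s.ℓ (s.a j)
    · rw [hw k e2 ((key_le h1).trans_lt hk), zero_mul]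
    · obtain ⟨j, hj⟩ := not_forall.1 e2
      rw [hl k h2 ⟨j, lt_of_le_of_ne (h2 j) hj⟩, zero_mul]
  · obtain ⟨j, hj⟩ := not_forall.1 e
    rw [Finset.prod_eq_zero (Finset.mem_univ j) (not_not.1 hj), mul_zero]

theorem bel_mul (b : TB p n) {s : St p n} {f : GG p n} {ℓ : Ix n → ℕ} {t : ℕ}
    (hF : Fine s.f s.ℓ f ℓ) {h : GG p n} (hu : Tri ℓ (fr f h.1)) {w v : Frm p n}
    (hl : pull1 s.f.1 w ∈ Lowr s.ℓ s.a) (hw : s.Bel ℓ t (pull1 f.1 w))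
    (hv : s.Bel ℓ t (pull1 f.1 v)) : s.Bel ℓ t (pull1 f.1 (pull1 h.1 w + v)) := by
  have e : pull1 f.1 (pull1 h.1 w + v) = pull1 (fr f h.1) (pull1 f.1 w) + pull1 f.1 v := by
    rw [← pull1_mul f.1, (b.env.2.1 f h.1 h.1).2.2.2.2.2.2, pull1_mul, map_add]
  rw [e]
  intro i hi hk
  rw [Pi.add_apply, bel_pull hF hu (frame b s hF hl) hw i hi hk, hv i hi hk, add_zero]

end SPL1z

theorem s_SPL1 (p n : ℕ) [Fact p.Prime] (b : TB p n) : S_SPL1 p n := by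
  intro s EG c τ f ℓ h hF hT
  refine ⟨⟨fun g => ⟨fun hg => ⟨hg, (h.tot g hg).imp fun w hw =>
      ⟨hw, fun _ _ e => absurd e (Nat.not_lt_zero _)⟩⟩, And.left⟩,
    fun g hg => ⟨Option.some.inj hg ▸ ⟨s.G.one_mem, h.one⟩,
      fun _ _ e => absurd e (Nat.not_lt_zero _)⟩,
    fun e => absurd e (Option.some_ne_none _),
    ⟨le_inf h.le le_rfl, h.nm, h.stable, h.full, fun Z hZ _ => hZ.trans inf_le_left, Kids.nil _ _,
      ⟨0, inf_le_left.trans inf_le_right⟩, by simp [topI]⟩⟩, fun t o a ho ha ht => ?_⟩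
  subst ht
  have hH : o.H ≤ s.G := fun g hg => ((ho.isH g).1 hg).1
  have hE : Env o.H ≤ Env s.G := (b.env.1 o.H).2.2.1 _ hH
  obtain ⟨-, -, -, f1, -, -, f2, f3, -⟩ := b.sec.2.2.2.2.1 _ _ _ _ hF
  have eL : ∀ j, sL s.f s.ℓ (s.a j) ≤ sL f ℓ (a j) := fun j => by
    have := (f1 (a j)).2.2.1
    rwa [sL, ha j] at this
  have eH : ∀ j, sH f ℓ (a j) ≤ sH s.f s.ℓ (s.a j) := fun j => by
    have := (f1 (a j)).2.2.2
    rwa [sH, sH, nb_congr (ha j), ha j] at this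
  have hK : ∀ j, s.ks j ≤ KS f ℓ (a j) := fun j =>
    b.sec.2.1 _ _ _ _ (eL j) (b.sec.1 f ℓ (a j) hF.lab').1 (eH j)
  refine ⟨⟨hF.lab', fun x hx => hT x (hE hx),
    fun g hg w hw => SPL1z.low b s hF ha (h.low g (hH hg) w hw.1) hw.2, ?_,
    ho.nw.le.trans inf_le_left, ho.nw.nm, ho.nw.stable, ho.nw.full,
    ⟨h.one, fun i _ _ => by rw [map_zero]; rfl⟩,
    fun g hg k hk w v hw hv => ⟨h.mul g (hH hg) k (hH hk) w v hw.1 hv.1,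
      SPL1z.bel_mul b hF (hT _ ((b.env.1 s.G).2.1 k (hH hk))) (h.low g (hH hg) w hw.1) hw.2 hv.2⟩,
    fun g hg => ((ho.isH g).1 hg).2⟩,
    (b.kid (GG p n)).2.2.2.2.2.2 _ _ _ _ _ _ _ _ h.val hH
      ((Nat.add_le_add_right h.cap _).trans h.nu) ho.nw.kids ho.nw.solv,
    fun j => (f3 _).trans ((nb_congr (ha j)).trans_le (h.mu j)), fun j π e => ?_, h.none,
    fun j e => hH.trans ((h.tau j e).trans (hK j)), le_trans ?_ h.pot, h.cap, h.nu⟩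
  · change pull1 f.1 (o.φ.elim 0 s.tg) ∈ Lowr ℓ a
    rcases e : o.φ with _ | g
    · simp
    · obtain ⟨h1, h2⟩ := ho.some g e
      exact SPL1z.low b s hF ha ((b.cok s h.toOk0).2.2.2.1 g h1).1 h2
  · have hπ := h.ptr j π e
    obtain ⟨N, h1, h2⟩ := hπ.val
    exact ⟨hπ.stb, hπ.lo.trans (eL j), (eH j).trans hπ.hi,
      (ho.nw.le.trans inf_le_right).trans hπ.triv, fun g hg => hπ.cov g (hH hg), N, h1,
      (b.sol (GG p n)).2.2.2.2.2.2.1 _ _ _ _ le_rfl (hK j) h2⟩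
  · refine Nat.mul_le_mul_left _ (Nat.add_le_add_right (Nat.mul_le_mul_left _
      (b.locp (Env s.G) s.f f s.ℓ ℓ s.lam (Lam ℓ a)
      s.μ (b.env.1 _).1 hF hT (b.lc.2 _ _ hF.lab).1 (b.lc.2 _ _ hF.lab').1 ?_ _ (b.env.1 _).1 hE)) _)
    rintro β ⟨j, e | e⟩
    · exact ⟨j, Or.inl ((f2 _ _ e).trans (ha j))⟩
    · exact ⟨j, Or.inr ((f2 _ _ e).trans (hF.lab.rev_eq.2 (ha j)))⟩

end Pool.Agent.P.MP_f1a348_lc.UP.CU.AF
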