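import Pool.Agent.P.MP_f1a348_lc.AF.Iface

/-! Project AF: the loop over the sub-boxes. -/

namespace Pool.Agent.P.MP_f1a348_lc.UP.CU.AF

open Matrix Module Pool.Agent.P.MP_f1a348_lc.PG
open Pool.Agent.P.MP_f1a348_lc.CE (QS QY UQ EU LTY Geo)
open scoped commutatorElement

namespace SPL2z

variable {p n : ℕ} [Fact p.Prime] {s : St p n} {f : GG p n} {ℓ : Ix n → ℕ} {t : ℕ}

omit [Fact p.Prime] in
theorem coarse (h : Fine s.f s.ℓ f ℓ) {α β : Ix n} (e : ℓ α = ℓ β) : s.ℓ α = s.ℓ β :=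
  le_antisymm (h.fine _ _ e.le) (h.fine _ _ e.ge)

theorem bel_pull (h : Fine s.f s.ℓ f ℓ) {u : Mat p n} (hu : Tri ℓ u) {w : Frm p n}
    (hl : w ∈ Lowr s.ℓ s.a) (hw : s.Bel ℓ t w) : s.Bel ℓ t (pull1 u w) := fun i hi hk => by
  refine Finset.sum_eq_zero fun k _ => ?_
  by_cases e : ∀ j, u (k j) (i j) ≠ 0
  · have h1 : ∀ j, ℓ (k j) ≤ ℓ (i j) := fun j => (hu _ _ (e j)).1
    have h2 : ∀ j, s.ℓ (k j) ≤ s.ℓ (s.a j) := fun j => hi j ▸ h.fine _ _ (h1 j)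
    by_cases e2 : ∀ j, s.ℓ (k j) = s.ℓ (s.a j)
    · rw [hw k e2 ((key_le h1).trans_lt hk), zero_mul]
    · obtain ⟨j, hj⟩ := not_forall.1 e2
      rw [hl k h2 ⟨j, lt_of_le_of_ne (h2 j) hj⟩, zero_mul]
  · obtain ⟨j, hj⟩ := not_forall.1 e
    rw [Finset.prod_eq_zero (Finset.mem_univ j) (not_not.1 hj), mul_zero]

theorem bel_add {v w : Frm p n} (hv : s.Bel ℓ t v) (hw : s.Bel ℓ t w) : s.Bel ℓ t (v + w) :=
  fun i hi hk => by rw [Pi.add_apply, hv i hi hk, hw i hi hk, add_zero]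

theorem bel_cancel {v w : Frm p n} (hv : s.Bel ℓ t v) (hw : s.Bel ℓ t (v + w)) : s.Bel ℓ t w :=
  fun i hi hk => by
    have := hw i hi hk
    rwa [Pi.add_apply, hv i hi hk, zero_add] at this

theorem bel_succ (h : Fine s.f s.ℓ f ℓ) {b : Fin 3 → Ix n} (hb : ∀ j, s.ℓ (b j) = s.ℓ (s.a j))
    (hk : key ℓ b = t) {w : Frm p n} :
    s.Bel ℓ (t + 1) w ↔ s.Bel ℓ t w ∧ cmp ℓ (key ℓ b) w = 0 := by
  refine ⟨fun H => ⟨fun i hi e => H i hi (by omega), funext fun i => ?_⟩, fun H i hi e => ?_⟩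
  · rw [cmp_apply]
    split_ifs with e
    · exact H i (fun j => (coarse h ((key_eq_iff h.lab').1 e j)).trans (hb j)) (by omega)
    · rfl
  · rcases Nat.lt_succ_iff_lt_or_eq.1 e with e | e
    · exact H.1 i hi e
    · have := congrFun H.2 i
      rwa [cmp_apply, if_pos (e.trans hk.symm)] at this

theorem bel_skip (hb : ∀ b : Fin 3 → Ix n, (∀ j, s.ℓ (b j) = s.ℓ (s.a j)) → key ℓ b ≠ t)
    {w : Frm p n} : s.Bel ℓ (t + 1) w ↔ s.Bel ℓ t w :=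
  ⟨fun H i hi e => H i hi (by omega), fun H i hi e => H i hi (by have := hb i hi; omega)⟩

omit [Fact p.Prime] in
theorem pull_frame (f' f : GG p n) (w : Frm p n) :
    pull1 f.1 w = pull1 (f'⁻¹ * f).1 (pull1 f'.1 w) := by
  rw [← pull1_mul, ← val_mul, mul_inv_cancel_left]

theorem bel_top (h : Fine s.f s.ℓ f ℓ) (ht : top n ≤ t) (w : Frm p n) :
    s.Bel ℓ t (pull1 f.1 w) ↔ s.dl w = 0 := by
  have e : cmp s.ℓ s.t (pull1 f.1 w) = pull1 (s.f⁻¹ * f).1 (s.dl w) := by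
    rw [pull_frame s.f f, cmp_pull1_dg h.lab h.dg]; rfl
  have e2 : s.dl w = 0 ↔ cmp s.ℓ s.t (pull1 f.1 w) = 0 := by
    rw [e]
    refine ⟨fun H => by rw [H, map_zero], fun H => ?_⟩
    rw [← (s.f⁻¹ * f).2.2.1.pull1_st (s.dl w), H, map_zero]
  rw [e2]
  refine ⟨fun H => funext fun i => ?_, fun H i hi _ => ?_⟩
  · rw [cmp_apply]
    split_ifs with e3
    · exact H i ((key_eq_iff h.lab).1 e3) ((key_lt_top h.lab' i).trans_le ht)
    · rfl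
  · have := congrFun H i
    rwa [cmp_apply, if_pos (show key s.ℓ i = s.t from (key_eq_iff h.lab).2 hi)] at this

theorem coc (b : TB p n) (f h : GG p n) (w v : Frm p n) :
    pull1 f.1 (pull1 h.1 w + v) = pull1 (fr f h.1) (pull1 f.1 w) + pull1 f.1 v := by
  rw [← pull1_mul f.1, (b.env.2.1 f h.1 h.1).2.2.2.2.2.2, pull1_mul, map_add]

theorem low (b : TB p n) (h0 : s.Ok0) (h : Fine s.f s.ℓ f ℓ) {x : Pa p n} (hx : s.Mem x) :
    pull1 f.1 (s.tg x) ∈ Lowr s.ℓ s.a := by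
  rw [pull_frame s.f f]
  exact ((b.low _ _ _ _ h.lab (h.dg.tri h.lab)).1 ((b.cok s h0).2.2.2.1 x hx).1).1

theorem ks_le (b : TB p n) (h : Fine s.f s.ℓ f ℓ) {α β : Ix n} (e : s.ℓ β = s.ℓ α) :
    KS s.f s.ℓ α ≤ KS f ℓ β := by
  have e1 : KS s.f s.ℓ α = KS s.f s.ℓ β := by simp only [KS, sL, sH, nb, e]
  rw [e1]
  have h1 := (b.sec.2.2.2.2.1 _ _ _ _ h).2.2.2.1 β
  exact b.sec.2.1 _ _ _ _ h1.2.2.1 (b.sec.1 f ℓ β h.lab').1 h1.2.2.2

theorem kb_le (b : TB p n) (h : Fine s.f s.ℓ f ℓ) {a : Fin 3 → Ix n}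
    (ha : ∀ j, s.ℓ (a j) = s.ℓ (s.a j)) : KB s.f s.ℓ s.lam ≤ KB f ℓ (Lam ℓ a) := fun g hg => by
  refine mem_KB.2 fun β hβ => ks_le b h rfl (mem_KB.1 hg β ?_)
  obtain ⟨j, e | e⟩ := hβ
  · exact ⟨j, Or.inl ((coarse h e).trans (ha j))⟩
  · exact ⟨j, Or.inr ((coarse h e).trans
      (le_antisymm (h.lab.sym _ _ (ha j).ge) (h.lab.sym _ _ (ha j).le)))⟩

end SPL2z

open SPL2z in
theorem s_SPL2 (p n : ℕ) [Fact p.Prime] (b : TB p n) : S_SPL2 p n := by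
  intro s EG f ℓ t o h0 h htri ho
  have tri : ∀ g ∈ s.G, Tri ℓ (fr f g.1) := ((b.env.1 s.G).2.2.2.2.2.1 f ℓ).1 htri
  have ck := (b.cok s h0).2.2.2.1
  refine ⟨fun a r ha hk hr => ?_, fun hb => ?_, fun ht => ?_⟩
  · have hH : ∀ g, g ∈ r.H ↔ g ∈ o.H ∧ ∃ w, (s.K g w ∧ s.Bel ℓ (key ℓ a) (pull1 f.1 w)) ∧
        cmp ℓ (key ℓ a) (pull1 f.1 w) = 0 := hr.isH
    have hle : r.H ≤ o.H := fun g hg => ((hH g).1 hg).1
    have hN : o.H ⊓ s.N1 ≤ (s.sub f ℓ a o).N1 := inf_le_inf_left _ (inf_le_right.trans (kb_le b h ha))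
    have hX : r.X ≤ r.H ⊓ o.X := hr.nw.le
    obtain ⟨k1, k2, k3, -⟩ := b.kid (GG p n)
    obtain ⟨-, -, -, -, -, -, s1, s2, -⟩ := b.sol (GG p n)
    refine ⟨fun g => ?_, fun x hx => ?_, fun hx x hg hB => ?_,
      ⟨hX.trans (inf_le_inf_left _ (ho.nw.le.trans inf_le_right)), hr.nw.nm, hr.nw.stable,
        hr.nw.full, fun Z hZ hP => ?_, ?_, ?_, ?_⟩⟩
    · change g ∈ r.H ↔ _
      rw [hH, hk]
      constructor
      · rintro ⟨h1, w, ⟨h2, h3⟩, h4⟩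
        exact ⟨((ho.isH g).1 h1).1, w, h2, (bel_succ h ha hk).2 ⟨h3, hk ▸ h4⟩⟩
      · rintro ⟨h1, w, h2, h3⟩
        obtain ⟨h4, h5⟩ := (bel_succ h ha hk).1 h3
        exact ⟨(ho.isH g).2 ⟨h1, w, h2, h4⟩, w, ⟨h2, h4⟩, hk ▸ h5⟩
    · obtain ⟨g, hg, hx⟩ := Option.bind_eq_some_iff.1 hx
      obtain ⟨u, hu, rfl⟩ := Option.map_eq_some_iff.1 hx
      obtain ⟨⟨hu1, hu5, hu4⟩, hu2⟩ := hr.isS.1 u hu
      have hu3 := ((ho.isH u.1).1 hu1).1
      obtain ⟨hg1, hg2⟩ := ho.some g hg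
      refine ⟨((ck g hg1).2.2.1 u ⟨hu3, hu5⟩).1, ?_⟩
      rw [(ck g hg1).2.2.2 u]
      refine (bel_succ h ha hk).2 ⟨?_, ?_⟩
      · rw [coc b]
        exact bel_add (bel_pull h (tri _ hu3) (low b h0 h hg1) hg2) (hk ▸ hu4)
      · simp only [St.tg, St.dl, St.sub, St.t, hg, Option.elim_some] at hu2
        exact hu2
    · obtain ⟨hB1, hB2⟩ := (bel_succ h ha hk).1 hB
      cases hg0 : o.φ with
      | none => exact ho.none hg0 x hg hB1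
      | some g0 =>
        have hr0 : r.φ = none := by
          simpa only [Out.next, hg0, Option.bind_some, Option.map_eq_none_iff] using hx
        obtain ⟨hg1, hg2⟩ := ho.some g0 hg0
        have hu : g0.1⁻¹ * x.1 ∈ s.G := mul_mem (inv_mem hg1.1) hg.1
        obtain ⟨-, v, hv, e⟩ := (ck g0 hg1).2.2.1 x hg
        rw [← e, (ck g0 hg1).2.2.2] at hB1 hB2
        rw [coc b] at hB1
        have hv' := bel_cancel (bel_pull h (tri _ hu) (low b h0 h hg1) hg2) hB1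
        refine hr.isS.2 hr0 (g0.1⁻¹ * x.1, v) ⟨⟨(ho.isH _).2 ⟨hu, v, hv, hv'⟩, hv, hk ▸ hv'⟩, ?_⟩
        simp only [St.tg, St.dl, St.sub, St.t, hg0, Option.elim_some]
        exact hB2
    · have h1 := ho.nw.off Z hZ hP
      exact hr.nw.off Z (le_inf h1 ((le_inf (h1.trans (ho.nw.le.trans inf_le_left))
        (hZ.trans inf_le_right)).trans hN)) hP
    · exact k2 _ _ _ _ (k1 _ _ _ _ _ ho.nw.kids le_rfl hle) hr.nw.kids
    · change SolvMod (r.H ⊓ s.X ⊓ topI (o.F ++ r.F)) r.X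
      rw [k3]
      refine s2 _ o.X _ (s1 _ _ _ _ ?_ le_rfl ho.nw.solv) (s1 _ _ _ _ ?_ le_rfl hr.nw.solv)
      · exact inf_le_inf (inf_le_inf_right _ hle) inf_le_left
      · exact fun g hg => ⟨⟨hg.1.1.1, hg.2⟩, hg.1.2.2⟩
    · change r.H ⊓ s.N1 ≤ topI (o.F ++ r.F)
      rw [k3]
      exact le_inf ((inf_le_inf_right _ hle).trans ho.nw.near)
        ((le_inf inf_le_left ((inf_le_inf_right _ hle).trans hN)).trans hr.nw.near)
  · exact ⟨fun g => by simp only [bel_skip hb, ho.isH],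
      fun g hg => by rw [bel_skip hb]; exact ho.some g hg,
      fun hx g hg => by rw [bel_skip hb]; exact ho.none hx g hg, ho.nw⟩
  · refine ⟨fun g => ?_, ⟨fun g hg => ?_, fun hx g hg => ?_⟩, ho.nw⟩
    · simp only [ho.isH, bel_top h ht, St.Kp]
    · exact ⟨(ho.some g hg).1, (bel_top h ht _).1 (ho.some g hg).2⟩
    · exact ho.none hx g hg.1 ((bel_top h ht _).2 hg.2)

theorem s_ONE (p n : ℕ) [Fact p.Prime] (b : TB p n) (hSPL1 : S_SPL1 p n) (hSPL2 : S_SPL2 p n) :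
    S_ONE p n := by
  intro s EG c τ f ℓ hs hf hT hn
  obtain ⟨-, -, -, -, -, -, s3, -⟩ := b.sec.2.2.2.2.1 _ _ _ _ hf
  have hk : ∀ a : Fin 3 → Ix n, (∀ j, s.ℓ (a j) = s.ℓ (s.a j)) → key ℓ a = key ℓ s.a :=
    fun a ha => (key_eq_iff hf.lab').2 fun j => by
      have h1 := Finset.eq_of_subset_of_card_le
        (s := Finset.univ.filter fun β => ℓ β = ℓ (s.a j))
        (t := Finset.univ.filter fun β => s.ℓ β = s.ℓ (s.a j))
        (fun β hβ => by simpa using s3 _ _ (by simpa using hβ)) (hn j)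
      simpa [ha j] using Finset.ext_iff.1 h1 (a j)
  obtain ⟨h0, h1⟩ := hSPL1 s EG c τ f ℓ hs hf hT
  have skip : ∀ o t k, (∀ i, t ≤ i → i < t + k → i ≠ key ℓ s.a) → s.Thr EG f ℓ t o →
      s.Thr EG f ℓ (t + k) o := fun o t k hi ho => by
    induction k with
    | zero => exact ho
    | succ k ih =>
      exact (hSPL2 s EG f ℓ _ o hs.toOk0 hf hT (ih fun i i1 i2 => hi i i1 (by omega))).2.1
        fun a ha => hk a ha ▸ (hi _ (by omega) (by omega)).symm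
  have h2 := skip _ 0 (key ℓ s.a) (fun i _ hi => by omega) h0
  rw [zero_add] at h2
  have e : s.sub f ℓ s.a ⟨s.G, s.X, [], some (1, 0)⟩ = { s with f := f, ℓ := ℓ } := by
    have e1 : ∀ w, s.Bel ℓ (key ℓ s.a) w := fun w i hi hl => absurd (hk i hi) hl.ne
    simp [St.sub, St.tg, pull1_one, e1]
  refine ⟨e ▸ h1 _ _ s.a h2 (fun _ => rfl) rfl, fun o ho => ?_⟩
  have h3 := (hSPL2 s EG f ℓ _ _ hs.toOk0 hf hT h2).1 s.a o (fun _ => rfl) rfl (e ▸ ho)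
  have e' : Out.next ⟨s.G, s.X, [], some (1, 0)⟩ o = o := by
    obtain ⟨H, X, F, φ⟩ := o
    cases φ <;> simp [Out.next, pam]
  rw [e'] at h3
  exact (hSPL2 s EG f ℓ _ o hs.toOk0 hf hT (skip o _ (top n) (fun i hi _ => by omega) h3)).2.2
    (by omega)

end Pool.Agent.P.MP_f1a348_lc.UP.CU.AF
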