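import Pool.Agent.P.MP_f1a348_lc.AF.Iface

namespace Pool.Agent.P.MP_f1a348_lc.UP.CU.AF

open Matrix Module Pool.Agent.P.MP_f1a348_lc.PG
open scoped commutatorElement

namespace TSLz

variable {p n : ℕ}

theorem pr_gr (ℓ : Ix n → ℕ) (α : Ix n) (y : Mat p n) :
    pr ℓ α * y * pr ℓ α = gr ℓ y * pr ℓ α := by
  ext β γ
  rw [mul_pr_apply, mul_pr_apply, pr_mul_apply]
  by_cases h : ℓ γ = ℓ α
  · simp only [h, if_true, gr, LinearMap.coe_mk, AddHom.coe_mk, Matrix.of_apply]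
  · simp only [h, if_false]

theorem same {Γ A : Type} [Group Γ] [Monoid A] {D K : Subgroup Γ} {σ : Γ → A} (h : PX.Rp D σ)
    (hK : ∀ g ∈ D, g ∈ K ↔ σ g = 1) {g g' : Γ} (hg : g ∈ D) (hg' : g' ∈ D)
    (e : g'⁻¹ * g ∈ K) : σ g = σ g' := by
  have hm : g'⁻¹ * g ∈ D := mul_mem (inv_mem hg') hg
  have := h.mul _ hg' _ hm
  rwa [mul_inv_cancel_left, (hK _ hm).1 e, mul_one] at this

theorem comm {Γ A : Type} [Group Γ] [Monoid A] {D K : Subgroup Γ} {σ : Γ → A} (h : PX.Rp D σ)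
    (hK : ∀ g ∈ D, g ∈ K ↔ σ g = 1) {a b : Γ} (ha : a ∈ D) (hb : b ∈ D)
    (e : σ a * σ b = σ b * σ a) : ⁅a, b⁆ ∈ K := by
  have hab : a * b ∈ D := mul_mem ha hb
  have hba : b * a ∈ D := mul_mem hb ha
  have e1 : ⁅a, b⁆ = a * b * (b * a)⁻¹ := by rw [commutatorElement_def]; group
  rw [e1, hK _ (mul_mem hab (inv_mem hba)), h.mul _ hab _ (inv_mem hba), h.mul _ ha _ hb, e,
    ← h.mul _ hb _ ha, ← h.mul _ hba _ (inv_mem hba), mul_inv_cancel, h.one]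

variable [Fact p.Prime]

/-- the data of the pointer -/
theorem ptd (t : TM p n) {s : St p n} {EG : ℕ} {c τ : Fin 3 → ℕ} (hP : s.Pr EG c τ) (j : Fin 3)
    (hX : s.X ≤ s.ks j) : (s.pt j).L ≤ sL s.f s.ℓ (s.a j) ∧ sH s.f s.ℓ (s.a j) ≤ (s.pt j).U ∧
    ∃ c N, Val 5 c (s.pt j).G N (s.pt j).F ∧ SolvMod ((s.pt j).G ⊓ N) (s.ks j) := by
  unfold St.pt
  cases h : s.ptr j with
  | none =>
    exact ⟨le_rfl, le_rfl, _, _, hP.val, (t.sol _).2.2.2.2.1 _ _ (inf_le_right.trans hX)⟩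
  | some π =>
    have := hP.ptr j π h
    obtain ⟨N, h1, h2⟩ := this.val
    exact ⟨this.lo, this.hi, _, N, h1, h2⟩

end TSLz

open TSLz in
theorem s_TSL (p n : ℕ) [Fact p.Prime] (t : TM p n) (hRD : S_RD p n) (hPAYB : S_PAYB p n)
    (hKIDS : S_KIDS p) : S_TSL p n := by
  intro s E EG j G1 hE hS hT hX h1
  obtain ⟨-, -, hcov, -, hG1⟩ := hRD s E EG j hE hX
  obtain ⟨hD1, hr⟩ := hG1 G1 h1
  obtain ⟨c, τ, hP, -⟩ := hE
  have ok : s.Ok0 := hP.toOk0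
  obtain ⟨hL, hU, c', N, hV, hN⟩ := ptd t hP j hX
  obtain ⟨-, clo, -, -, -, cle, -, -, -, -, cj, -⟩ := t.coc s ok
  have hD : s.G ≤ Stb (sL s.f s.ℓ (s.a j)) ⊓ Stb (sH s.f s.ℓ (s.a j)) := (cj j).2
  obtain ⟨r1, r2, -, r4, r5, r6⟩ := t.rb s.f s.ℓ (s.a j) ok.lab
  obtain ⟨hRp, hK⟩ := r2 _ le_rfl
  have hKer : Ker (s.pt j).L (s.pt j).U ≤ s.ks j :=
    t.sec.2.1 _ _ _ _ hL (t.sec.1 s.f s.ℓ (s.a j) ok.lab).1 hU
  have f1 : ∀ g ∈ s.G, ∃ g' ∈ G1, g'⁻¹ * g ∈ s.ks j := fun g hg => by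
    obtain ⟨g', h', e⟩ := hcov g hg
    exact ⟨g', (h1 g').2 ⟨h', g, hg, e⟩, hKer e⟩
  have f2 : ∀ g ∈ s.G, ∃ g' ∈ G1, rb s.f s.ℓ (s.a j) g.1 = rb s.f s.ℓ (s.a j) g'.1 :=
    fun g hg => by
      obtain ⟨g', h', e⟩ := f1 g hg
      exact ⟨g', h', same hRp hK (hD hg) (hD1 h') e⟩
  have hj : s.a j ∈ s.lam := (t.lc.2 s.ℓ s.a ok.lab).2.1 j
  obtain ⟨-, -, -, l4, l5, -⟩ := t.lc.1 s.ℓ s.lam ok.lab clo
  have hVb : (Vb s.ll (s.a j) : VS p n) = Vb s.ℓ (s.a j) := (l5 _ hj).2.1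
  have hlo : ∀ (x : Mat p n) (v : (Vb s.ℓ (s.a j) : VS p n)),
      (rb s.f s.ℓ (s.a j) x v).1 = s.lo x *ᵥ v.1 := fun x v => by
    rw [r1, ← mem_Vb_iff.1 v.2, Matrix.mulVec_mulVec, Matrix.mulVec_mulVec, pr_gr]
    exact congrArg (· *ᵥ v.1) ((l4 (fr s.f x)).2.2.2.2.1 _ hj).symm
  obtain ⟨q1, -, -, q4⟩ := t.qb s ok
  by_contra hc
  simp only [not_or, not_exists, not_and] at hc
  obtain ⟨c1, c2, c3⟩ := hc
  have := r5
  have key := hKIDS (GG p n) (Vb s.ℓ (s.a j) : VS p n) G1 (s.ks j) (topI (s.pt j).F)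
    (fun g => rb s.f s.ℓ (s.a j) g.1) ((tops (s.pt j).F).map fun r => r.1.1)
    ⟨hRp.one, fun a ha b hb => hRp.mul a (hD1 ha) b (hD1 hb)⟩
    (fun W hW => r4 s.G hS W fun g hg x hx => by
      obtain ⟨g', h', e⟩ := f2 g hg
      show rb s.f s.ℓ (s.a j) g.1 x ∈ W
      rw [e]; exact hW g' h' x hx) ?_ (fun h hh => hK h (hD1 hh)) ?_ ?_ ?_
  · refine c1 (le_trans ?_ (key.trans ?_))
    · refine (t.kl _ _ (s.ks j) s.G G1 (t.sec.2.2.2.1 _ _) hD hD1).2.2.1 (s.ks j) _ f1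
        fun a ha g hg e => ⟨ha, ?_⟩
      have := mul_mem hg.2 e
      rwa [mul_inv_cancel_left] at this
    · rw [r6]
      exact Nat.pow_le_pow_right (Fact.out : p.Prime).pos (Nat.mul_le_mul_left _ (nb_le _ _))
  · rintro ⟨v, W, hW, hM⟩
    have hv : v.1 ∈ Vb s.ll (s.a j) := by rw [hVb]; exact v.2
    obtain ⟨-, -, k3, -, k5⟩ := q1 j v.1 hv
    have hQ : s.qb j (s.f.1 *ᵥ v.1) ≤ s.G := inf_le_left
    refine c2 v.1 hv (hPAYB s j ok hS (fun i => ⟨i, hT i, hP.mu i⟩) _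
      (W.map (Vb s.ℓ (s.a j) : VS p n).subtype) _ hQ ?_ ?_ ?_ k5)
    · rw [hVb]; exact Submodule.map_subtype_le _ _
    · intro x hx
      refine ((cle _ hQ).2.2.2.2.1 (ann ⊤ _ _) (fun g hg => ⟨trivial, ?_⟩) hx).2
      rintro _ ⟨u, hu, rfl⟩
      obtain ⟨hg1, hg2⟩ := (k3 g).1 hg
      obtain ⟨g', h', e⟩ := f2 g hg1
      refine ⟨_, hW g' h' ?_ u hu, ?_⟩
      · obtain ⟨b, hb, e'⟩ := mem_orb.1 hg2
        rw [((q4 s.X (s.a j) ok.le hj).1.1 hX) b hb v.1 hv, ← hlo, e] at e'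
        exact Submodule.mem_span_singleton.2 ⟨_, Subtype.ext e'⟩
      · exact (congrArg (fun z => (z u).1) e).symm.trans (hlo _ u)
    · rw [Submodule.finrank_map_subtype_eq, ← r6]; exact hM
  · intro K hK'
    obtain ⟨r, hr', rfl⟩ := List.mem_map.1 hK'
    refine ⟨(hr r hr').1, ?_⟩
    by_contra h
    push Not at h
    exact c3 r hr' fun a ha b hb => comm hRp hK (hD1 ha.1) (hD1 hb.1) (h a ha b hb)
  · intro g hg
    rw [((t.kid _).2.2.2.2.2.1 _ _ _ hV.1).2.1]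
    simp only [Subgroup.mem_iInf]
    exact fun r hr' => hg _ (List.mem_map.2 ⟨r, hr', rfl⟩)
  · obtain ⟨-, -, -, -, -, -, s7, s8, -⟩ := t.sol (GG p n)
    have hle : G1 ≤ (s.pt j).G := fun g hg => ((h1 g).1 hg).1
    exact s8 _ N _ (s7 _ _ _ _ (inf_le_inf_right _ hle) le_rfl hV.2)
      (s7 _ _ _ _ (inf_le_inf_right _ (inf_le_left.trans hle)) le_rfl hN)

end Pool.Agent.P.MP_f1a348_lc.UP.CU.AF
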