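import Pool.Agent.P.MP_f1a348_lc.AF.TAUTC
import Pool.Agent.P.MP_f1a348_lc.AF.TCLIFF
import Pool.Agent.P.MP_f1a348_lc.AF.TCOC
import Pool.Agent.P.MP_f1a348_lc.AF.TCOK
import Pool.Agent.P.MP_f1a348_lc.AF.TCONJ
import Pool.Agent.P.MP_f1a348_lc.AF.TFULLT
import Pool.Agent.P.MP_f1a348_lc.AF.TGENF
import Pool.Agent.P.MP_f1a348_lc.AF.TGI
import Pool.Agent.P.MP_f1a348_lc.AF.TGSL
import Pool.Agent.P.MP_f1a348_lc.AF.TJOIN
import Pool.Agent.P.MP_f1a348_lc.AF.TKR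
import Pool.Agent.P.MP_f1a348_lc.AF.TLEAF
import Pool.Agent.P.MP_f1a348_lc.AF.TLEAF1
import Pool.Agent.P.MP_f1a348_lc.AF.TLIF
import Pool.Agent.P.MP_f1a348_lc.AF.TLOCU
import Pool.Agent.P.MP_f1a348_lc.AF.TLOCX
import Pool.Agent.P.MP_f1a348_lc.AF.TLOOPB
import Pool.Agent.P.MP_f1a348_lc.AF.TLOOPF
import Pool.Agent.P.MP_f1a348_lc.AF.TLOOPS
import Pool.Agent.P.MP_f1a348_lc.AF.TLTG
import Pool.Agent.P.MP_f1a348_lc.AF.TLZ
import Pool.Agent.P.MP_f1a348_lc.AF.TMAINP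
import Pool.Agent.P.MP_f1a348_lc.AF.TNWC
import Pool.Agent.P.MP_f1a348_lc.AF.TONT
import Pool.Agent.P.MP_f1a348_lc.AF.TPAYB
import Pool.Agent.P.MP_f1a348_lc.AF.TPAYC
import Pool.Agent.P.MP_f1a348_lc.AF.TQANN2
import Pool.Agent.P.MP_f1a348_lc.AF.TQB
import Pool.Agent.P.MP_f1a348_lc.AF.TQDEC
import Pool.Agent.P.MP_f1a348_lc.AF.TQEN
import Pool.Agent.P.MP_f1a348_lc.AF.TQF
import Pool.Agent.P.MP_f1a348_lc.AF.TQFIN
import Pool.Agent.P.MP_f1a348_lc.AF.TQINIT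
import Pool.Agent.P.MP_f1a348_lc.AF.TQLEAF
import Pool.Agent.P.MP_f1a348_lc.AF.TQMV
import Pool.Agent.P.MP_f1a348_lc.AF.TQPRE
import Pool.Agent.P.MP_f1a348_lc.AF.TQRA
import Pool.Agent.P.MP_f1a348_lc.AF.TQRD
import Pool.Agent.P.MP_f1a348_lc.AF.TQRE
import Pool.Agent.P.MP_f1a348_lc.AF.TQSOLVE
import Pool.Agent.P.MP_f1a348_lc.AF.TQST
import Pool.Agent.P.MP_f1a348_lc.AF.TQTRY
import Pool.Agent.P.MP_f1a348_lc.AF.TRA
import Pool.Agent.P.MP_f1a348_lc.AF.TRD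
import Pool.Agent.P.MP_f1a348_lc.AF.TRE
import Pool.Agent.P.MP_f1a348_lc.AF.TRES
import Pool.Agent.P.MP_f1a348_lc.AF.TRESET
import Pool.Agent.P.MP_f1a348_lc.AF.TSPL1
import Pool.Agent.P.MP_f1a348_lc.AF.TSPL2
import Pool.Agent.P.MP_f1a348_lc.AF.TTSL
import Pool.Agent.P.MP_f1a348_lc.AF.TUNG
import Pool.Agent.P.MP_f1a348_lc.CU.All

/-!
Project AF: all statements hold.
-/

namespace Pool.Agent.P.MP_f1a348_lc.UP.CU.AF

set_option linter.unusedVariables false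
set_option linter.unusedSectionVars false

/-- the facts proved in other chapters -/
structure Ext (p n : ℕ) [Fact p.Prime] : Prop where
  adm : CE.C_ADM p n
  perf : CE.C_PERF p n
  span : CE.C_SPAN p n
  abel : CE.C_ABEL p n
  idx : CE.C_IDX p n
  eng : CE.C_ENGA p n
  lifk : CE.C_LIFK p n
  lift : CE.C_LIFT p n
  deg : CE.C_DEG p n
  tf3 : CE.C_TF3 p n
  qfind : GF.S_QFIND p n
  qgen : GF.S_QGEN p n
  cw : CE.C_CW p n
  hp : CE.C_HP p n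

variable (p n : ℕ) [Fact p.Prime] (x : Ext p n)
include x

theorem a_COC : S_COC p n := s_COC p n (CU.a_TC p n)
theorem a_COK : S_COK p n := s_COK p n (CU.a_TC p n) (a_COC p n x)
theorem a_QB : S_QB p n := s_QB p n (CU.a_TC p n) (a_COC p n x)
theorem a_GI : S_GI p n := s_GI p n (CU.a_TC p n)
theorem a_TB : TB p n := ⟨CU.a_TC p n, a_COC p n x, a_COK p n x, a_QB p n x, a_GI p n x⟩
theorem a_CEB : S_CEB p n := s_CEB p n
theorem a_TE : TE p n := ⟨a_CEB p n x, x.adm, x.perf, x.span, x.abel, x.idx, x.eng, x.lifk,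
  x.lift, x.deg, x.tf3⟩
theorem a_CLIFF : S_CLIFF p n := s_CLIFF p n (a_TB p n x) (CU.a_CLF p n) (CU.a_SSM p n) (CU.a_LOCF
  p n)
theorem a_LOCE : S_LOCE p n := s_LOCE p n (CU.a_TC p n)
theorem a_FULLT : S_FULLT p n := s_FULLT p n (a_TB p n x)
theorem a_LOCX : S_LOCX p n := s_LOCX p n (a_TB p n x) (a_LOCE p n x) (a_FULLT p n x)
theorem a_SSF : S_SSF p n := s_SSF p n (a_TB p n x) (a_TE p n x)
theorem a_LOCU : S_LOCU p n := s_LOCU p n (a_TB p n x) (a_CLIFF p n x) (a_LOCX p n x) (a_SSF p n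
  x)
theorem a_PPM : S_PPM p := s_PPM p (CU.a_OP p)
theorem a_GENF : S_GENF p n := s_GENF p n (a_TB p n x) (a_TE p n x) (a_PPM p n x) (a_LOCE p n x)
theorem a_LOCST : S_LOCST p n := s_LOCST p n (a_TB p n x) (a_CLIFF p n x) (a_GENF p n x)
theorem a_CMX : S_CMX p n := s_CMX p n (a_TB p n x) (a_TE p n x)
theorem a_ONT : S_ONT p n := s_ONT p n (a_TB p n x) (a_TE p n x)
theorem a_OVF : S_OVF p n := s_OVF p n (a_TB p n x) (a_TE p n x) (a_FULLT p n x)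
theorem a_FCM : S_FCM p n := s_FCM p n (a_TB p n x) (a_CMX p n x) (a_ONT p n x) (a_OVF p n x)
theorem a_PREF : S_PREF p n := s_PREF p n (a_TB p n x) (a_CLIFF p n x) (a_FCM p n x)
theorem a_LEAF1 : S_LEAF1 p n := s_LEAF1 p n (a_TB p n x)
theorem a_GSL : S_GSL p n := s_GSL p n (a_TB p n x) (a_CLIFF p n x) (CU.a_SSM p n)
theorem a_NWC : S_NWC p n := s_NWC p n (a_TB p n x) (a_LOCST p n x)
theorem a_LIF : S_LIF p n := s_LIF p n (a_TB p n x) (a_TE p n x)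
theorem a_LTG : S_LTG p n := s_LTG p n (a_TB p n x) (a_TE p n x) x.cw x.hp
theorem a_LZ : S_LZ p n := s_LZ p n (a_TB p n x) (a_CMX p n x) (a_ONT p n x) (a_LIF p n x) (a_LTG
  p n x) (a_OVF p n x)
theorem a_TM : TM p n := ⟨a_TB p n x, a_TE p n x, a_CLIFF p n x, a_LOCU p n x, a_LOCST p n x,
  a_PREF p n x, a_LEAF1 p n x, a_GSL p n x, a_NWC p n x, a_LZ p n x, a_FCM p n x, a_LOCX p n x⟩
theorem a_START : S_START p n := s_START p n (a_TM p n x)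
theorem a_QSTART : S_QSTART p n := s_QSTART p n (CU.a_TP p n) (a_START p n x)
theorem a_RP : S_RP p n := s_RP p n (a_TM p n x)
theorem a_QST : S_QST p n := s_QST p n (a_TM p n x) (CU.a_TP p n) (a_RP p n x)
theorem a_QPRE : S_QPRE p n := s_QPRE p n (a_TM p n x) (CU.a_TP p n) (a_QST p n x) x.qgen
theorem a_QDEC : S_QDEC p n := s_QDEC p n (CU.a_TP p n)
theorem a_QOUT : S_QOUT p n := s_QOUT p n (a_TM p n x) (CU.a_TP p n)
theorem a_TQ : TQ p n := ⟨CU.a_TP p n, a_QST p n x, a_QPRE p n x, a_QDEC p n x, a_QOUT p n x⟩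
theorem a_ROOT : S_ROOT p n := s_ROOT p n (a_TM p n x)
theorem a_SZ : S_SZ p n := s_SZ p n
theorem a_UNC : S_UNC p n := s_UNC p n (a_TM p n x)
theorem a_UNT : S_UNT p n := s_UNT p n (a_TM p n x) (a_UNC p n x)
theorem a_REL : S_REL p n := s_REL p n (a_TB p n x) (a_LEAF1 p n x)
theorem a_AUTC : S_AUTC p n := s_AUTC p n (a_TM p n x)
theorem a_CONJ : S_CONJ p n := s_CONJ p n (a_TB p n x)
theorem a_LIFTJ : S_LIFTJ p n := s_LIFTJ p n (a_TM p n x) (a_CONJ p n x)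
theorem a_UNG : S_UNG p n := s_UNG p n (a_TM p n x) (a_REL p n x) (a_AUTC p n x) (a_LIFTJ p n x)
theorem a_QFIN : S_QFIN p n := s_QFIN p n (a_TM p n x) (a_TQ p n x) (a_UNT p n x) (a_UNG p n x)
  (a_AUTC p n x)
theorem a_RESET : S_RESET p n := s_RESET p n (a_TB p n x)
theorem a_SPL1 : S_SPL1 p n := s_SPL1 p n (a_TB p n x)
theorem a_SPL2 : S_SPL2 p n := s_SPL2 p n (a_TB p n x)
theorem a_ONE : S_ONE p n := s_ONE p n (a_TB p n x) (a_SPL1 p n x) (a_SPL2 p n x)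
theorem a_LEAF : S_LEAF p n := s_LEAF p n (a_TM p n x) (a_UNC p n x)
theorem a_QANN : S_QANN p n := s_QANN2 p n
theorem a_QLEAF : S_QLEAF p n := s_QLEAF p n (a_TM p n x) (a_TQ p n x) (a_QANN p n x)
theorem a_RD : S_RD p n := s_RD p n (a_TM p n x)
theorem a_PAYB : S_PAYB p n := s_PAYB p n (a_TB p n x)
theorem a_TSL : S_TSL p n := s_TSL p n (a_TM p n x) (a_RD p n x) (a_PAYB p n x) (CU.a_KIDS p)
theorem a_PAYC : S_PAYC p n := s_PAYC p n (a_TB p n x) (CU.a_FLD p) (CU.a_FRB p)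
theorem a_CYC : S_CYC p n := s_CYC p n (a_TB p n x) (a_CLIFF p n x) (a_GSL p n x) (CU.a_HOMB p n)
  (CU.a_ACW p) (CU.a_CYB p)
theorem a_RES : S_RES p n := s_RES p n (a_TM p n x) (a_PAYB p n x) (a_PAYC p n x) (a_CYC p n x)
theorem a_RA : S_RA p n := s_RA p n (a_TM p n x)
theorem a_QRA : S_QRA p n := s_QRA p n (a_TM p n x) (a_TQ p n x) (a_RA p n x)
theorem a_QTRY : S_QTRY p n := s_QTRY p n (a_TM p n x) (a_TQ p n x) (a_RP p n x)
theorem a_QRB : S_QRB p n := s_QRB p n (a_TM p n x) (a_TQ p n x) (a_QTRY p n x)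
theorem a_QRC : S_QRC p n := s_QRC p n (a_TM p n x) (a_TQ p n x) (a_QTRY p n x)
theorem a_QRD : S_QRD p n := s_QRD p n (a_TM p n x) (a_TQ p n x) (a_RD p n x)
theorem a_RE : S_RE p n := s_RE p n (a_TM p n x)
theorem a_KR : S_KR p n := s_KR p n (a_TM p n x)
theorem a_QENF : RN.S_QENF p n := RN.s_QENF p n (CU.a_QPOT p n) (CU.a_QE5 p n) (CU.a_PQ p n)
  (CU.a_TB p n).pm.hinv (CU.a_TB p n).pm.nat3 (CU.a_NA5 p n) (CU.a_HI5 p n) x.qfind
theorem a_QEN : S_QEN p n := s_QEN p n (a_TM p n x) (a_TQ p n x) (a_KR p n x) (a_QLEAF p n x)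
  (a_QENF p n x)
theorem a_QMV : S_QMV p n := s_QMV p n (a_TM p n x) (a_TQ p n x)
theorem a_QRE : S_QRE p n := s_QRE p n (a_TM p n x) (a_TQ p n x) (a_RP p n x) (a_RE p n x) (a_QEN
  p n x) (a_QMV p n x)
theorem a_QF : S_QF p n := s_QF p n (a_TB p n x)
theorem a_QRF : S_QRF p n := s_QRF p n (a_TM p n x) (a_TQ p n x) (a_QF p n x)
theorem a_QBR : S_QBR p n := s_QBR p n (a_TSL p n x) (a_RES p n x) (a_QRA p n x) (a_QRB p n x)
  (a_QRC p n x) (a_QRD p n x) (a_QRE p n x) (a_QEN p n x) (a_QRF p n x)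
theorem a_QINIT : S_QINIT p n := s_QINIT p n (a_TM p n x) (a_TQ p n x) (a_RESET p n x) (a_ONE p n
  x) (a_LEAF p n x) (a_QLEAF p n x) (a_QBR p n x)
theorem a_LOOPS : S_LOOPS p n := s_LOOPS p n (a_TM p n x) (a_TQ p n x) (a_SPL1 p n x) (a_SPL2 p n
  x) (a_SZ p n x) (a_QFIN p n x)
theorem a_JOIN : S_JOIN p n := s_JOIN p n (a_TB p n x)
theorem a_LOOPB : S_LOOPB p n := s_LOOPB p n (a_TM p n x) (a_TQ p n x) (a_JOIN p n x) (a_QFIN p n
  x)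
theorem a_FREE : S_FREE p n := s_FREE p n (a_TM p n x) (a_QF p n x)
theorem a_LOOPF : S_LOOPF p n := s_LOOPF p n (a_TM p n x) (a_TQ p n x) (a_QF p n x) (a_FREE p n x)
  (a_QFIN p n x)
theorem a_MAINP : S_MAINP p n := s_MAINP p n (a_TM p n x) (a_TQ p n x) (a_QFIN p n x) (a_QINIT p n
  x) (a_LOOPS p n x) (a_LOOPB p n x) (a_LOOPF p n x)
theorem a_MACH : S_MACH := s_MACH
theorem a_QSOLVE : S_QSOLVE p n := s_QSOLVE p n (a_TM p n x) (a_TQ p n x) (a_ROOT p n x) (a_SZ p n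
  x) (a_MAINP p n x) (a_MACH p n x)

end Pool.Agent.P.MP_f1a348_lc.UP.CU.AF
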