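import Pool.Agent.P.MP_f1a348_lc.CU.Defs
import Pool.Agent.P.MP_f1a348_lc.CE.Defs

/-!
Project AF: stabilisers and transporters for affine actions on trilinear forms.
Mathematical definitions.
-/

namespace Pool.Agent.P.MP_f1a348_lc.UP.CU.AF

open Matrix Module Pool.Agent.P.MP_f1a348_lc.PG
open Pool.Agent.P.MP_f1a348_lc.CE (QS QY UQ EU LTY)
open scoped commutatorElement

noncomputable section

variable {p n : ℕ}

/-- group elements with forms -/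
abbrev Pa (p n : ℕ) : Type := GG p n × Frm p n

def pam (x y : Pa p n) : Pa p n := (x.1 * y.1, pull1 y.1.1 x.2 + y.2)

variable [Fact p.Prime]

/-- the block diagonal parts of the elements of `X` -/
def gi (f : GG p n) (ℓ : Ix n → ℕ) (X : SG p n) : Set (Mat p n) :=
  {z | ∃ x ∈ X, gr ℓ (fr f x.1) = z}

/-- the invariant quadratic functions on the graded module -/
def QX (f : GG p n) (ℓ : Ix n → ℕ) (X : SG p n) : QS p n := QY (gB (Env X) f ℓ) (gi f ℓ X)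

/-- the elementary group of `X` -/
def EX (f : GG p n) (ℓ : Ix n → ℕ) (X : SG p n) : Submonoid (Mat p n) :=
  EU (gB (Env X) f ℓ) (QX f ℓ X)

def Full (X : SG p n) : Prop := ∀ f ℓ, CF (Env X) f ℓ → ∀ z ∈ EX f ℓ X, z ∈ gi f ℓ X

/-- commutators of isometries lift to `N` -/
def Cm (N : SG p n) (R : Sub p n) (f : GG p n) (ℓ : Ix n → ℕ) (Y : SG p n) : Prop :=
  ∀ u v, UQ (gB R f ℓ) (QY (gB R f ℓ) (gi f ℓ Y)) u → UQ (gB R f ℓ) (QY (gB R f ℓ) (gi f ℓ Y)) v →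
    u * v * st u * st v ∈ gi f ℓ N

/-- `Γ` lies over the elementary group of `Y` -/
structure Ov (Γ Y : SG p n) (f : GG p n) (ℓ : Ix n → ℕ) : Prop where
  le : Y ≤ Γ
  tri : TriR (Env Γ) f ℓ
  uq : ∀ z ∈ gi f ℓ Γ, UQ (gB (Env Y) f ℓ) (QX f ℓ Y) z
  eu : ∀ z ∈ EX f ℓ Y, z ∈ gi f ℓ Γ

/-- multivalued cocycles with values on the level of `a` -/
structure Cy (N : SG p n) (f : GG p n) (ℓ : Ix n → ℕ) (a : Fin 3 → Ix n)
    (κ : GG p n → Frm p n → Prop) : Prop where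
  one : κ 1 0
  mul : ∀ g ∈ N, ∀ h ∈ N, ∀ u v, κ g u → κ h v → κ (g * h) (pull1 (gr ℓ (fr f h.1)) u + v)
  tot : ∀ g ∈ N, ∃ u, κ g u
  wt : ∀ g ∈ N, ∀ u, κ g u → u ∈ Wt ℓ (key ℓ a)

/-- invariant forms on three non-trivial blocks are traces -/
def LTc (Y : SG p n) (f : GG p n) (ℓ : Ix n → ℕ) : Prop := LTY ℓ (gB (Env Y) f ℓ) (gi f ℓ Y)

/-! ### budgets -/

def capW (p n : ℕ) : ℕ := Nat.size p * capE n
def tauN (p n : ℕ) : ℕ := Nat.size p * (23 * (2 * n + 1)) + 1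
/-- the budget of the first call -/
def EE (p n ν : ℕ) : ℕ := capW p n + 3 * (ν + tauN p n)

/-- certificates -/
structure Cert (ν : ℕ) (H X : SG p n) (F : List (Rec (GG p n))) : Prop where
  le : X ≤ H
  nm : Nm H X
  stable : Stable X
  full : Full X
  val : Val 5 ν H X F

structure PtrOK (c : ℕ) (G X : SG p n) (L U : VS p n) (π : Ptr p n) : Prop where
  stb : π.G ≤ Stb π.L ⊓ Stb π.U
  lo : π.L ≤ L
  hi : U ≤ π.U
  triv : X ≤ Ker π.L π.U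
  cov : ∀ g ∈ G, ∃ g' ∈ π.G, g'⁻¹ * g ∈ Ker π.L π.U
  val : ∃ N, Val 5 c π.G N π.F ∧ SolvMod (π.G ⊓ N) (Ker L U)

/-- the arguments of a call -/
structure St (p n : ℕ) where
  f : GG p n
  ℓ : Ix n → ℕ
  a : Fin 3 → Ix n
  μ : Fin 3 → ℕ
  G : SG p n
  X : SG p n
  F : List (Rec (GG p n))
  ptr : Fin 3 → Option (Ptr p n)
  K : GG p n → Frm p n → Prop
  δ : Frm p n
  ν : ℕ

/-- the result of a call -/
structure Out (p n : ℕ) where
  H : SG p n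
  X : SG p n
  F : List (Rec (GG p n))
  φ : Option (Pa p n)

namespace St
variable (s : St p n)

def lam : Set (Ix n) := Lam s.ℓ s.a
/-- labels of the local model -/
def ll : Ix n → ℕ := lS s.ℓ s.lam
def lo : Mat p n →ₗ[ZMod p] Mat p n := loc s.f s.ℓ s.lam
/-- the local algebra of a group -/
def le (Y : SG p n) : Sub p n := (Env Y).map s.lo
/-- the local models of the elements of a group -/
def li (Y : SG p n) : Set (Mat p n) := {z | ∃ y ∈ Y, s.lo y.1 = z}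
/-- the potential -/
def ph (A : Sub p n) : ℕ := PhA s.μ s.ll A
/-- the kernel on the slots -/
def N1 : SG p n := s.G ⊓ KB s.f s.ℓ s.lam
def ks (j : Fin 3) : SG p n := KS s.f s.ℓ (s.a j)
def t : ℕ := key s.ℓ s.a
/-- the component on the box -/
def dl : Frm p n →ₗ[ZMod p] Frm p n := cmp s.ℓ s.t ∘ₗ pull1 s.f.1
/-- the values on the box -/
def Kp (g : GG p n) (u : Frm p n) : Prop := ∃ w, s.K g w ∧ s.dl w = u
/-- the values at the identity -/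
def S0 : Submodule (ZMod p) (Frm p n) := Submodule.span (ZMod p) {u | s.Kp 1 u}
/-- the target seen from `x` -/
def tg (x : Pa p n) : Frm p n := pull1 x.1.1 s.δ + x.2
/-- pairs of the relation -/
def Mem (x : Pa p n) : Prop := x.1 ∈ s.G ∧ s.K x.1 x.2
def Sol (x : Pa p n) : Prop := s.Mem x ∧ s.dl (s.tg x) = 0
def TBox : Prop := ∃ j, s.X ≤ s.ks j
def sz : ℕ := ∏ j, nb s.ℓ (s.a j)
/-- `H` is the stabiliser -/
def IsH (H : SG p n) : Prop := ∀ g, g ∈ H ↔ g ∈ s.G ∧ s.Kp g 0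
/-- `φ` is a solution, if there is one -/
def IsS (φ : Option (Pa p n)) : Prop :=
  (∀ x, φ = some x → s.Sol x) ∧ (φ = none → ∀ x, ¬ s.Sol x)

/-- the conditions that do not involve budgets -/
structure Ok0 : Prop where
  lab : Lab s.ℓ
  tri : TriR (Env s.G) s.f s.ℓ
  low : ∀ g ∈ s.G, ∀ w, s.K g w → pull1 s.f.1 w ∈ Lowr s.ℓ s.a
  low' : pull1 s.f.1 s.δ ∈ Lowr s.ℓ s.a
  le : s.X ≤ s.G
  nm : Nm s.G s.X
  stable : Stable s.X
  full : Full s.X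
  one : s.K 1 0
  mul : ∀ g ∈ s.G, ∀ h ∈ s.G, ∀ w v, s.K g w → s.K h v → s.K (g * h) (pull1 h.1 w + v)
  tot : ∀ g ∈ s.G, ∃ w, s.K g w

/-- the precondition; `c` and `τ` are the budgets of the slots -/
structure Pr (EG : ℕ) (c τ : Fin 3 → ℕ) : Prop extends s.Ok0 where
  val : Val 5 s.ν s.G s.X s.F
  mu : ∀ j, nb s.ℓ (s.a j) ≤ s.μ j
  ptr : ∀ j π, s.ptr j = some π → PtrOK (c j) s.G s.X (sL s.f s.ℓ (s.a j)) (sH s.f s.ℓ (s.a j)) π
  none : ∀ j, s.ptr j = none → s.ν ≤ c j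
  tau : ∀ j, τ j < tauN p n → s.G ≤ s.ks j
  pot : Nat.size p * (200 * s.ph (s.le s.G) + 1200 * ∑ j, s.μ j) ≤ EG
  cap : EG ≤ capW p n
  nu : capW p n + cT p n ≤ s.ν

def PrE (E EG : ℕ) : Prop := ∃ c τ : Fin 3 → ℕ, s.Pr EG c τ ∧ EG + ∑ j, (c j + τ j) ≤ E

/-- the conditions on the new pair `(Y, F)` inside the subgroup `H` -/
structure Nw (c : ℕ) (H Y : SG p n) (F : List (Rec (GG p n))) : Prop where
  le : Y ≤ H ⊓ s.X
  nm : Nm H Y
  stable : Stable Y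
  full : Full Y
  off : ∀ Z, Z ≤ s.X ⊓ s.N1 → PP p Z → Z ≤ Y
  kids : Kids 5 c H F
  solv : SolvMod (H ⊓ s.X ⊓ topI F) Y
  near : H ⊓ s.N1 ≤ topI F

/-- the postcondition -/
structure Po (EG : ℕ) (o : Out p n) : Prop where
  isH : s.IsH o.H
  isS : s.IsS o.φ
  nw : s.Nw (EG + cT p n) o.H o.X o.F

/-- all blocks are simple -/
def Sim : Prop := CF (Env s.G) s.f s.ℓ

/-- the scales are tight -/
def Tight : Prop := ∀ j, s.μ j < 2 * nb s.ℓ (s.a j)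

def reset : St p n :=
  { s with μ := fun j => if 2 * nb s.ℓ (s.a j) ≤ s.μ j then nb s.ℓ (s.a j) else s.μ j }

/-- `w` vanishes on the sub-boxes with key below `t` -/
def Bel (ℓ : Ix n → ℕ) (t : ℕ) (w : Frm p n) : Prop :=
  ∀ i, (∀ j, s.ℓ (i j) = s.ℓ (s.a j)) → key ℓ i < t → w i = 0

/-- the call for the sub-box `b`, after the results `o` -/
def sub (f : GG p n) (ℓ : Ix n → ℕ) (b : Fin 3 → Ix n) (o : Out p n) : St p n :=
  { s with f := f, ℓ := ℓ, a := b, G := o.H, X := o.X, F := s.F ++ o.F,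
           K := fun g w => s.K g w ∧ s.Bel ℓ (key ℓ b) (pull1 f.1 w), δ := o.φ.elim 0 s.tg }

/-- the invariant of the loop over the sub-boxes -/
structure Thr (EG : ℕ) (f : GG p n) (ℓ : Ix n → ℕ) (t : ℕ) (o : Out p n) : Prop where
  isH : ∀ g, g ∈ o.H ↔ g ∈ s.G ∧ ∃ w, s.K g w ∧ s.Bel ℓ t (pull1 f.1 w)
  some : ∀ x, o.φ = some x → s.Mem x ∧ s.Bel ℓ t (pull1 f.1 (s.tg x))
  none : o.φ = none → ∀ x, s.Mem x → ¬ s.Bel ℓ t (pull1 f.1 (s.tg x))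
  nw : s.Nw (EG + cT p n) o.H o.X o.F

end St

/-- the accumulated result -/
def Out.next (o r : Out p n) : Out p n :=
  ⟨r.H, r.X, o.F ++ r.F, o.φ.bind fun x => r.φ.map fun y => pam x y⟩

/-! ### branching -/

structure Brc (p n : ℕ) where
  Q : SG p n
  X : SG p n
  F : List (Rec (GG p n))
  ptr : Fin 3 → Option (Ptr p n)
  R : List (Pa p n)
  R' : List (Pa p n)

namespace St
variable (s : St p n)

/-- the call for the target `δ'` -/
def kid (b : Brc p n) (δ' : Frm p n) : St p n :=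
  { s with G := b.Q, X := b.X, F := s.F ++ b.F, ptr := b.ptr, δ := δ' }

structure BrOK (E EG : ℕ) (b : Brc p n) (c EG' : ℕ) : Prop where
  le : b.Q ≤ s.G
  n1 : ¬ s.TBox → s.N1 ≤ b.Q
  mem : ∀ t ∈ b.R, s.Mem t
  mem' : ∀ t ∈ b.R', s.Mem t
  cov : ∀ g ∈ s.G, s.Kp g 0 → ∃ t ∈ b.R, t.1⁻¹ * g ∈ b.Q
  cov' : ∀ x, s.Sol x → ∃ t ∈ b.R', t.1⁻¹ * x.1 ∈ b.Q
  len : 5 * b.R.length ≤ 5 ^ c
  len' : 5 * b.R'.length ≤ 5 ^ c
  pos : 0 < c
  nw : s.Nw (cT p n) b.Q b.X b.F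
  pre : c ≤ E ∧ (s.kid b 0).PrE (E - c) EG'
  eg : EG' ≤ EG
  gg : ¬ s.TBox → EG' + c ≤ EG

/-- pairs over representatives of the cosets of `Q` -/
structure CovK (R : List (Pa p n)) (Q : SG p n) : Prop where
  mem : ∀ t ∈ R, s.Mem t
  cov : ∀ g ∈ s.G, ∃ t ∈ R, t.1⁻¹ * g ∈ Q

/-- the pointer of slot `j` -/
def pt (j : Fin 3) : Ptr p n :=
  (s.ptr j).getD ⟨s.G, sL s.f s.ℓ (s.a j), sH s.f s.ℓ (s.a j), s.F⟩

/-- `G1` is the preimage of the action of `G` in the group of the pointer -/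
def IsG1 (j : Fin 3) (G1 : SG p n) : Prop :=
  ∀ g', g' ∈ G1 ↔ g' ∈ (s.pt j).G ∧ ∃ g ∈ s.G, g'⁻¹ * g ∈ Ker (s.pt j).L (s.pt j).U

/-- the drop of the potential pays for `k` branches -/
def Paid (k : ℕ) (R : Sub p n) : Prop :=
  p * k * p ^ (200 * s.ph R) ≤ p ^ (200 * s.ph (s.le s.G))

/-- the stabiliser of a cyclic submodule of slot `j` -/
def qb (j : Fin 3) (x : Vec p n) : SG p n := s.G ⊓ Stb (sL s.f s.ℓ (s.a j) ⊔ orb (Env s.X) x)

/-- `Q` is the centraliser of `C` -/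
def IsQc (C : Mat p n) (Q : SG p n) : Prop := ∀ g, g ∈ Q ↔ g ∈ s.G ∧ s.lo g.1 * C = C * s.lo g.1

/-- `Q` is the preimage of `P` -/
def IsQd (j : Fin 3) (P Q : SG p n) : Prop :=
  ∀ g, g ∈ Q ↔ g ∈ s.G ∧ ∃ g' ∈ P, g'⁻¹ * g ∈ Ker (s.pt j).L (s.pt j).U

/-- `Q` is the kernel of the image of the relation under `ψ` -/
def IsQf (ψ : Frm p n →ₗ[ZMod p] Frm p n) (Q : SG p n) : Prop :=
  ∀ g, g ∈ Q ↔ g ∈ s.G ∧ ∃ u, s.Kp g u ∧ ψ u = 0

/-- `φ` solves the image of the problem under `ψ` -/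
def IsF (ψ : Frm p n →ₗ[ZMod p] Frm p n) (φ : Option (Pa p n)) : Prop :=
  (∀ x, φ = some x → s.Mem x ∧ ψ (s.dl (s.tg x)) = 0) ∧ (φ = none → ∀ x, ¬ s.Sol x)

/-- the span of the values of the kernel -/
def Sp : Submodule (ZMod p) (Frm p n) := Submodule.span (ZMod p) {u | ∃ g ∈ s.N1, s.Kp g u}

/-- all values come from the kernel -/
def Leaf : Prop := ∀ g ∈ s.G, ∀ u, s.Kp g u → u ∈ s.Sp

/-- slot `j` is a simple module of `X` -/
def XS (j : Fin 3) : Prop :=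
  ∀ x ∈ Vb s.ll (s.a j), x ≠ 0 → ∀ y ∈ Vb s.ll (s.a j), ∃ b ∈ s.le s.X, b *ᵥ x = y

/-- the box is resolved -/
structure Res : Prop where
  str : Str s.ll (s.le s.X)
  giant : Giant s.ll (s.le s.X)
  mem : ∀ g ∈ s.G, s.lo g.1 ∈ s.le s.X

/-- the relation between local models and values -/
def Kc (z : Mat p n) (u : Frm p n) : Prop := ∃ g ∈ s.G, s.lo g.1 = z ∧ s.Kp g u

end St

/-- the first call -/
def root (a : Fin 3 → Ix n) (H X : SG p n) (F : List (Rec (GG p n)))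
    (K : GG p n → Frm p n → Prop) (δ : Frm p n) (ν : ℕ) : St p n :=
  ⟨1, l0 n, a, fun _ => 2 * n + 1, H, X, F, fun _ => none, K, δ, ν⟩

end

end Pool.Agent.P.MP_f1a348_lc.UP.CU.AF
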