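import Pool.Agent.P.MP_f1a348_lc.AF.Defs
import Pool.Agent.P.MP_f1a348_lc.CE.Iface

/-!
Project AF: the statements of the mathematical tasks.
-/

namespace Pool.Agent.P.MP_f1a348_lc.UP.CU.AF

open Matrix Module Pool.Agent.P.MP_f1a348_lc.PG
open Pool.Agent.P.MP_f1a348_lc.CE (QS QY UQ EU LTY Geo Pol)
open Pool.Agent.P.MP_f1a348_lc.UP.CU.RN (KL PK FO Eng ER)
open scoped commutatorElement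

variable (p n : ℕ) [Fact p.Prime]

/-! ### elementary groups -/

def S_CEB : Prop :=
  (∀ (B B' : Sub p n) (Y Y' : Set (Mat p n)), B ≤ B' → Y ⊆ Y' → QY B' Y' ≤ QY B Y) ∧
  (∀ ℓ (B : Sub p n) Q, Lab ℓ → Alg ℓ B → Grp {z | UQ B Q z}) ∧
  (∀ (B B' : Sub p n) Q Q' z, B ≤ B' → Q' ≤ Q → UQ B Q z → UQ B' Q' z) ∧
  (∀ (B : Sub p n) Q Q', Q ≤ Q' → EU B Q' ≤ EU B Q) ∧
  (∀ ℓ (B : Sub p n) Q, Geo ℓ B Q → Grp (EU B Q : Set (Mat p n)) ∧ ∀ z ∈ EU B Q, UQ B Q z) ∧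
  (∀ (B : Sub p n) Y z, U1 B z → z ∈ Y → UQ B (QY B Y) z) ∧
  ∀ (B : Sub p n) (Y Y' : Set (Mat p n)), (∀ y ∈ Y', UQ B (QY B Y) y) → QY B Y ≤ QY B Y'

/-- the facts on elementary groups that are used -/
structure TE : Prop where
  base : S_CEB p n
  adm : CE.C_ADM p n
  perf : CE.C_PERF p n
  span : CE.C_SPAN p n
  abel : CE.C_ABEL p n
  idx : CE.C_IDX p n
  eng : CE.C_ENGA p n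
  lifk : CE.C_LIFK p n
  lift : CE.C_LIFT p n
  deg : CE.C_DEG p n
  tf3 : CE.C_TF3 p n

/-- groups between a perfect subgroup and a perfect group with abelian quotient -/
def S_PPM : Prop := ∀ (Γ : Type) [Group Γ] [Finite Γ] (E T Y : Subgroup Γ), E ≤ T → T ≤ Y →
  PP p E → PP p Y → (∀ a ∈ Y, ∀ b ∈ Y, ⁅a, b⁆ ∈ E) → PP p T

/-- the block diagonal parts of a group -/
def S_GI : Prop := ∀ (X : SG p n) f ℓ, Lab ℓ → TriR (Env X) f ℓ →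
  Grp (gi f ℓ X) ∧ (∀ z ∈ gi f ℓ X, U1 (gB (Env X) f ℓ) z ∧ Par (l0 n) z) ∧
  Submodule.span (ZMod p) (gi f ℓ X) = gB (Env X) f ℓ ∧ (PP p X → PPs (gi f ℓ X)) ∧
  (∀ x ∈ Env X, ∀ y ∈ Env X, gr ℓ (fr f (x * y)) = gr ℓ (fr f x) * gr ℓ (fr f y)) ∧
  (∀ x, gr ℓ (fr f (st x)) = st (gr ℓ (fr f x))) ∧ gr ℓ (fr f 1) = 1 ∧
  (∃ Y : SG p n, (∀ z, z ∈ Y ↔ z.1 ∈ gi f ℓ X) ∧ Env Y = gB (Env X) f ℓ ∧ (PP p X → PP p Y)) ∧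
  (∀ x ∈ X, gr ℓ (fr f x.1) = 1 → ∃ k : ℕ, x ^ p ^ k = 1) ∧
  (∀ Z : SG p n, Z ≤ X → ∀ E, Grp E → PPs E → E ⊆ gi f ℓ Z → E ⊆ gi f ℓ (Op p Z)) ∧
  ∀ g ℓ', Fine f ℓ g ℓ' → ∀ x, Tri ℓ (fr f x) →
    gr ℓ' (fr g x) = gr ℓ' (fr (f⁻¹ * g) (gr ℓ (fr f x))) ∧
    (Tri ℓ' (fr g x) ↔ Tri ℓ' (fr (f⁻¹ * g) (gr ℓ (fr f x))))

/-- one flag is enough -/
def S_FULLT : Prop := ∀ (X : SG p n) f ℓ, CF (Env X) f ℓ →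
  (∀ z ∈ EX f ℓ X, z ∈ gi f ℓ X) → Full X

def S_CONJ : Prop := ∀ (X X' : SG p n) (h : GG p n), (∀ x, x ∈ X' ↔ h⁻¹ * x * h ∈ X) →
  Stable X → Full X → Stable X' ∧ Full X'

/-- elementary groups of local models -/
def S_LOCE : Prop := ∀ ℓ S (B : Sub p n) (Y : Set (Mat p n)), Str ℓ B → Clo ℓ S → Grp Y →
  (∀ y ∈ Y, U1 B y) → Submodule.span (ZMod p) Y = B →
  ((∀ z ∈ EU B (QY B Y), z ∈ Y) →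
    ∀ z ∈ EU (B.map (lc ℓ S)) (QY (B.map (lc ℓ S)) (lc ℓ S '' Y)), z ∈ lc ℓ S '' Y) ∧
  ((∀ α ∈ S, ∀ β, Cb ℓ B α β ≠ ⊥ → β ∈ S) →
    EU (B.map (lc ℓ S)) (QY (B.map (lc ℓ S)) (lc ℓ S '' Y)) ≤ EU B (QY B Y))

def S_GENF : Prop := ∀ (X : SG p n) f ℓ (S : Set (Ix n)), Stable X → Full X → CF (Env X) f ℓ →
  Clo ℓ S → (∀ α ∈ S, ∀ β, Cb ℓ (gB (Env X) f ℓ) α β ≠ ⊥ → β ∈ S) →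
  ∀ Y, Y = Op p (X ⊓ KB f ℓ Sᶜ) → Stable Y ∧ CF (Env Y) f (lS ℓ S) ∧
    gB (Env Y) f (lS ℓ S) = (gB (Env X) f ℓ).map (lc ℓ S) ∧
    (∀ x ∈ Env Y, gr (lS ℓ S) (fr f x) = gr ℓ (fr f x)) ∧
    ∀ g ∈ X ⊓ KB f ℓ Sᶜ, ∃ y ∈ Y, gr ℓ (fr f y.1) = gr ℓ (fr f g.1)

/-- `Z` is the group of the local models of `Y` -/
def Img (f : GG p n) (ℓ : Ix n → ℕ) (S : Set (Ix n)) (Y Z : SG p n) : Prop :=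
  ∀ z, z ∈ Z ↔ ∃ y ∈ Y, loc f ℓ S y.1 = z.1

def S_LOCX : Prop := ∀ (X : SG p n) f ℓ S, Lab ℓ → Clo ℓ S → TriR (Env X) f ℓ →
  (∀ x ∈ X, Par (l0 n) (loc f ℓ S x.1)) ∧ (∃ Z, Img p n f ℓ S X Z) ∧ ∀ Z, Img p n f ℓ S X Z →
    Env Z = (Env X).map (loc f ℓ S) ∧ (Stable X → Full X → Stable Z ∧ Full Z)

/-- full groups with semisimple envelope -/
def S_SSF : Prop := ∀ X : SG p n, Stable X → Full X → (∀ x ∈ Rad (Env X), x = 0) →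
  (∀ a b : GG p n, a.1 ∈ Env X → b.1 ∈ Env X → (∀ x ∈ X, a * x * a⁻¹ ∈ X) →
    (∀ x ∈ X, b * x * b⁻¹ ∈ X) → ⁅a, b⁆ ∈ X) ∧
  X.relIndex (UG (Env X)) ≤ p ^ (11 * (2 * n + 1))

def S_CMX : Prop := ∀ (X N Y : SG p n) f ℓ, Stable X → Full X → CF (Env X) f ℓ → Y ≤ X →
  gi f ℓ X ⊆ gi f ℓ N → Cm N (Env X) f ℓ Y

/-- groups over the elementary group -/
def S_ONT : Prop :=
  (∀ (Y : SG p n) g ℓ, Stable Y → CF (Env Y) g ℓ → ∃ Γ, Γ ≤ UG (Env Y) ∧ Ov Γ Y g ℓ) ∧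
  ∀ (N Y : SG p n) R f ℓ g ℓ', Y ≤ N → Stable Y → SA R → Env N ≤ R → CF R f ℓ → Cm N R f ℓ Y →
    Fine f ℓ g ℓ' → CF (Env Y) g ℓ' →
    ∃ Γ, Γ ≤ N ∧ Ov Γ Y g ℓ' ∧ ∀ x ∈ Γ, ∃ y ∈ Env Y, x.1 - y ∈ Rad R

def S_OVF : Prop := ∀ (Γ Y : SG p n) g ℓ, Stable Y → CF (Env Y) g ℓ → Ov Γ Y g ℓ →
  Y ≤ Op p Γ ∧ Stable (Op p Γ) ∧ Full (Op p Γ)

/-- lifting through a box -/
def S_LIF : Prop := ∀ (Γ Y : SG p n) f ℓ g ℓ' a κ, Stable Y → CF (Env Y) g ℓ' → Ov Γ Y g ℓ' →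
  Fine f ℓ g ℓ' → Cy Γ f ℓ a κ → (∀ y ∈ Y, κ y 0) →
  ((∃ j, Y ≤ KS f ℓ (a j)) ∨ LTc Y g ℓ') →
  ∃ Γ', (∀ x, x ∈ Γ' ↔ x ∈ Γ ∧ κ x 0) ∧ Ov Γ' Y g ℓ'

def S_LTG : Prop := ∀ (Y : SG p n) g ℓ, Stable Y → CF (Env Y) g ℓ →
  (∀ β, ¬ Y ≤ KS g ℓ β → ∃ W, W ≤ Y ∧ Stable W ∧ Full W ∧ ¬ W ≤ KS g ℓ β) → LTc Y g ℓ

/-- stable subgroups of the kernel of a cocycle lie in full ones -/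
def S_LZ : Prop := ∀ (X Y : SG p n) f ℓ a κ, Lab ℓ → TriR (Env X) f ℓ → Stable X → Full X →
  Cy X f ℓ a κ → Y ≤ X → Stable Y → (∀ y ∈ Y, κ y 0) →
  ((∃ j, Y ≤ KS f ℓ (a j)) ∨
    ∀ y ∈ Y, ∃ x ∈ Env (sSup {W | W ≤ Y ∧ Stable W ∧ Full W}), y.1 - x ∈ Rad (Env X)) →
  ∃ Z, Y ≤ Z ∧ Z ≤ X ∧ (∀ z ∈ Z, κ z 0) ∧ Stable Z ∧ Full Z ∧
    ∀ z ∈ Z, ∃ y ∈ Env Y, z.1 - y ∈ Rad (Env X)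

def S_FCM : Prop :=
  (∀ X N Y : SG p n, Stable X → Full X → N ≤ X →
    (∀ x ∈ X, ∃ g ∈ N, g.1 - x.1 ∈ Rad (Env X)) → LS N Y → Full Y) ∧
  (∀ X N Y : SG p n, Stable X → Full X → N ≤ X → LS N Y →
    (∀ x ∈ X, (∃ y ∈ Env Y, x.1 - y ∈ Rad (Env X)) → x ∈ N) → Full Y) ∧
  ∀ (R : Sub p n) (Y : SG p n), SA R → LS (UG R) Y → Full Y

/-! ### boxes -/

def S_COC : Prop := ∀ s : St p n, s.Ok0 →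
  Lab s.ll ∧ Clo s.ℓ s.lam ∧ key s.ll s.a = s.t ∧ s.lo 1 = 1 ∧
  (∀ x ∈ Env s.G, s.lo (st x) = st (s.lo x) ∧ s.lo x (c0 n) (c0 n) = x (c0 n) (c0 n) ∧
    ∀ y ∈ Env s.G, s.lo (x * y) = s.lo x * s.lo y) ∧
  (∀ Y, Y ≤ s.G → Alg s.ll (s.le Y) ∧ SA (s.le Y) ∧ (∀ Y', Y' ≤ Y → s.le Y' ≤ s.le Y) ∧
    (∀ g ∈ Y, s.lo g.1 ∈ s.le Y) ∧ (∀ A : Sub p n, (∀ g ∈ Y, s.lo g.1 ∈ A) → s.le Y ≤ A) ∧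
    ∀ h ∈ s.G, (∀ y ∈ Y, h * y * h⁻¹ ∈ Y) → ∀ x ∈ s.le Y, cj (s.lo h.1) x ∈ s.le Y) ∧
  (∀ g ∈ s.G, Par s.ll (s.lo g.1) ∧ (g ∈ s.N1 ↔ s.lo g.1 = 1) ∧ ∃ u, s.Kp g u) ∧
  s.Kp 1 0 ∧ s.dl s.δ ∈ Wt s.ll s.t ∧ Nm s.G s.N1 ∧
  (∀ j, s.N1 ≤ s.ks j ∧ s.G ≤ Stb (sL s.f s.ℓ (s.a j)) ⊓ Stb (sH s.f s.ℓ (s.a j))) ∧
  (∃ H, s.IsH H) ∧ (∀ Z, Z ≤ s.N1 → PP p Z → ∀ g ∈ Z, s.Kp g 0) ∧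
  (s.Sim → Str s.ll (s.le s.G))

/-- the calculus of pairs -/
def S_COK : Prop := ∀ s : St p n, s.Ok0 →
  (∀ w, s.dl w ∈ Wt s.ll s.t) ∧
  (∀ g ∈ s.G, ∀ w, pull1 s.f.1 w ∈ Lowr s.ℓ s.a → pull1 s.f.1 (pull1 g.1 w) ∈ Lowr s.ℓ s.a ∧
    s.dl (pull1 g.1 w) = pull1 (s.lo g.1) (s.dl w)) ∧
  (∀ g ∈ s.G, ∀ w, s.K g w → s.K g⁻¹ (-pull1 (st g.1) w)) ∧
  (∀ x, s.Mem x → pull1 s.f.1 (s.tg x) ∈ Lowr s.ℓ s.a ∧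
    s.dl (s.tg x) = pull1 (s.lo x.1.1) (s.dl s.δ) + s.dl x.2 ∧
    (∀ y, s.Mem y → s.Mem (pam x y) ∧ ∃ v, s.K (x.1⁻¹ * y.1) v ∧ pam x (x.1⁻¹ * y.1, v) = y) ∧
    ∀ y, s.tg (pam x y) = pull1 y.1.1 (s.tg x) + y.2) ∧
  (∀ u, s.Kp 1 u ↔ u ∈ s.S0) ∧
  (∀ g ∈ s.G, ∀ u, s.Kp g u → u ∈ Wt s.ll s.t ∧ (∀ v, s.Kp g v ↔ v - u ∈ s.S0) ∧
    s.Kp g⁻¹ (-pull1 (st (s.lo g.1)) u) ∧
    ∀ h ∈ s.G, ∀ v, s.Kp h v → s.Kp (g * h) (pull1 (s.lo h.1) u + v)) ∧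
  (∀ g ∈ s.G, ∀ u ∈ s.S0, pull1 (s.lo g.1) u ∈ s.S0) ∧
  (∀ Y, Y ≤ s.G → Cy Y s.f s.ℓ s.a s.Kp) ∧
  (∀ Y, Y ≤ s.G → Grp (s.li Y) ∧ Submodule.span (ZMod p) (s.li Y) = s.le Y) ∧
  KL s.ll (s.li s.G) s.t s.Kc

def S_CLIFF : Prop := ∀ s : St p n, s.Ok0 → s.Sim → SSm (s.le s.X) ∧
  (∀ x ∈ Rad (Env s.X), s.lo x = 0) ∧
  ∀ f ℓ, Fine s.f s.ℓ f ℓ → CF (Env s.X) f ℓ → ∀ x ∈ Env s.X,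
    s.lo x = 0 ↔ x ∈ MI (Env s.X) f ℓ s.lam ∧ x (c0 n) (c0 n) = 0

def S_LOCU : Prop := ∀ s : St p n, s.Ok0 → s.Sim →
  (∀ D, D ≤ s.G → (∀ a ∈ D, s.lo a.1 ∈ s.le s.X) → ∀ y ∈ der 1 D, ∃ x ∈ s.X, x⁻¹ * y ∈ s.N1) ∧
  (∀ Y Z A, s.X ≤ Y → Y ≤ s.G → Img p n s.f s.ℓ s.lam Y Z → Alg s.ll A → A ≤ s.le s.X →
    Z.relIndex (UG A) ≤ p ^ (11 * (2 * n + 1))) ∧
  (Str s.ll (s.le s.X) → ∀ z ∈ EU (s.le s.X) (QY (s.le s.X) (s.li s.X)), z ∈ s.li s.X)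

def S_LOCST : Prop := ∀ s : St p n, s.Ok0 → s.Sim → Stable (Op p (s.X ⊓ s.N1)) ∧
  (∀ y ∈ s.X ⊓ s.N1, ∃ z ∈ Op p (s.X ⊓ s.N1), (z⁻¹ * y).1 - 1 ∈ Rad (Env s.X)) ∧
  ∀ x ∈ Env s.X, s.lo x = 0 → ∃ z ∈ Env (Op p (s.X ⊓ s.N1)), x - z ∈ Rad (Env s.X)

def S_PREF : Prop := ∀ (s : St p n) A N Y, s.Ok0 → s.Sim → Alg s.ll A →
  Pre s.f s.ℓ s.lam s.X A N → LS N Y → Full Y

def S_KR : Prop := ∀ s : St p n, s.Ok0 → s.Sim → s.Res →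
  KL s.ll (s.li s.G) s.t s.Kc ∧ s.le s.G = s.le s.X ∧ SpK s.Kc = s.Sp ∧ Grp (s.li s.G) ∧
  (∀ z ∈ s.li s.G, U1 (s.le s.X) z) ∧ Eng s.ll (s.le s.X) (s.li s.G) ∧
  ((∀ z u, s.Kc z u → s.Kc 1 u) → s.Leaf) ∧
  ∀ (S : Set (GG p n)) (P : Set (Mat p n × Frm p n)), Subgroup.closure S = s.G →
    (∀ y ∈ P, s.Kc y.1 y.2) → (∀ g ∈ S, ∃ u, s.Kp g u ∧ (s.lo g.1, u) ∈ P) →
    s.S0 ≤ Submodule.span (ZMod p) {u | (1, u) ∈ P} → ∀ z w, s.Kc z w ↔ GenK P z w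

def S_LIFTJ : Prop := ∀ (s : St p n) H Xi XJ Y, s.Ok0 → s.Sim → s.IsH H → Xi ≤ H ⊓ s.X →
  Stable Xi → Full Xi → (∀ Z, Z ≤ s.X ⊓ s.N1 → PP p Z → Z ≤ Xi) →
  Pre s.f s.ℓ s.lam s.X (s.le (Ncl H Xi)) XJ → LS (H ⊓ XJ) Y → Full Y

/-! ### splitting -/

def S_RESET : Prop := ∀ (s : St p n) EG c τ, s.Pr EG c τ → s.Sim →
  s.reset.Pr EG c τ ∧ s.reset.Sim ∧ s.reset.Tight ∧ ∀ o, s.reset.Po EG o → s.Po EG o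

def S_SPL1 : Prop := ∀ (s : St p n) EG c τ f ℓ, s.Pr EG c τ → Fine s.f s.ℓ f ℓ →
  TriR (Env s.G) f ℓ → s.Thr EG f ℓ 0 ⟨s.G, s.X, [], some (1, 0)⟩ ∧
  ∀ t o b, s.Thr EG f ℓ t o → (∀ j, s.ℓ (b j) = s.ℓ (s.a j)) → key ℓ b = t →
    (s.sub f ℓ b o).Pr EG c τ

def S_SPL2 : Prop := ∀ (s : St p n) EG f ℓ t o, s.Ok0 → Fine s.f s.ℓ f ℓ →
  TriR (Env s.G) f ℓ → s.Thr EG f ℓ t o →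
  (∀ b r, (∀ j, s.ℓ (b j) = s.ℓ (s.a j)) → key ℓ b = t → (s.sub f ℓ b o).Po EG r →
    s.Thr EG f ℓ (t + 1) (o.next r)) ∧
  ((∀ b, (∀ j, s.ℓ (b j) = s.ℓ (s.a j)) → key ℓ b ≠ t) → s.Thr EG f ℓ (t + 1) o) ∧
  (top n ≤ t → s.Po EG o)

def S_ONE : Prop := ∀ (s : St p n) EG c τ f ℓ, s.Pr EG c τ → Fine s.f s.ℓ f ℓ →
  TriR (Env s.G) f ℓ → (∀ j, nb s.ℓ (s.a j) ≤ nb ℓ (s.a j)) →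
  St.Pr { s with f := f, ℓ := ℓ } EG c τ ∧ ∀ o, St.Po { s with f := f, ℓ := ℓ } EG o → s.Po EG o

open Classical in
/-- the sizes of the sub-boxes -/
def S_SZ : Prop := ∀ (s : St p n) f ℓ, Fine s.f s.ℓ f ℓ →
  (∑ b : Fin 3 → Ix n, if (∀ j, s.ℓ (b j) = s.ℓ (s.a j) ∧ ℓ (b j) = (b j).val) then
    ∏ j, nb ℓ (b j) else 0) = s.sz ∧ 0 < s.sz ∧ s.sz ≤ top n ∧
  (∀ b : Fin 3 → Ix n, ∃ b' : Fin 3 → Ix n, ∀ j, ℓ (b' j) = ℓ (b j) ∧ ℓ (b' j) = (b' j).val) ∧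
  ((∃ j, nb ℓ (s.a j) < nb s.ℓ (s.a j)) → ∀ b : Fin 3 → Ix n, (∀ j, s.ℓ (b j) = s.ℓ (s.a j)) →
    ∏ j, nb ℓ (b j) < s.sz)

/-! ### leaves and un-pinning -/

def S_LEAF1 : Prop := ∀ s : St p n, s.Ok0 → (∀ w ∈ s.Sp, ∃ g ∈ s.N1, s.Kp g w) ∧
  (∀ P : Set (Pa p n), (∀ x ∈ P, s.Kp x.1 x.2) → Subgroup.closure (Prod.fst '' P) = s.N1 →
    s.Sp = s.S0 ⊔ Submodule.span (ZMod p) (Prod.snd '' P)) ∧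
  (∀ g ∈ s.G, ∀ h ∈ s.N1, ∀ u v, s.Kp g u → s.Kp h v → s.Kp (g * h) (u + v)) ∧
  (∀ h ∈ s.N1, ∀ u, s.Kp h u → ∀ k : ℕ, s.Kp (h ^ k) ((k : ZMod p) • u)) ∧
  (∀ P : Set (Pa p n), (∀ x ∈ P, s.Kp x.1 x.2 ∧ x.2 ∈ s.Sp) →
    Subgroup.closure (Prod.fst '' P) = s.G → s.Leaf) ∧
  (s.Leaf → ∀ x, s.Sol x → s.dl s.δ ∈ s.Sp) ∧
  (∀ g ∈ s.N1, ∀ u, s.Kp g u → s.dl s.δ + u ∈ s.S0 → ∃ w, s.Sol (g, w)) ∧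
  (∀ φ : Frm p n →ₗ[ZMod p] ZMod p, (∀ u ∈ s.S0, φ u = 0) → ∃ Q : SG p n,
    Q.relIndex s.N1 ≤ p ∧ ∀ g ∈ s.N1, ∀ u, s.Kp g u → (g ∈ Q ↔ φ u = 0)) ∧
  ∀ (S S' : Set (GG p n)), Subgroup.closure S = s.G → (∀ h ∈ S', h ∈ s.G ∧ s.Kp h 0) →
    (∀ g ∈ S, ∃ u ∈ s.N1, g * u ∈ Subgroup.closure S') →
    (∀ u ∈ s.N1, s.Kp u 0 → u ∈ Subgroup.closure S') → s.IsH (Subgroup.closure S')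

/-- the core of a subgroup that contains the perfect part of the kernel -/
def S_NWC : Prop := ∀ (s : St p n) H Y F c, s.Ok0 → s.Sim → H ≤ s.G →
  (∀ Z, Z ≤ s.X ⊓ s.N1 → PP p Z → Z ≤ H) → Core H (H ⊓ s.X) Y F → Full Y → cT p n ≤ c →
  s.Nw c H Y F

def S_UNC : Prop := ∀ (s : St p n) EG H Y F φ, s.Ok0 → s.Sim → s.IsH H → s.IsS φ →
  Core H (H ⊓ s.X) Y F → Full Y → s.Po EG ⟨H, Y, F, φ⟩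

def S_LEAF : Prop := ∀ (s : St p n) EG H Y F φ, s.Ok0 → s.Sim → s.Leaf →
  s.IsH H → s.IsS φ → Core H (H ⊓ s.X) Y F → s.Po EG ⟨H, Y, F, φ⟩

def S_JOIN : Prop := ∀ (s : St p n) E EG b c EG', s.Ok0 → s.BrOK E EG b c EG' →
  (∀ t, s.Mem t → (s.kid b t.2).PrE (E - c) EG' ∧ (s.kid b (s.tg t)).PrE (E - c) EG') ∧
  (∀ (HQ : SG p n) (φ : Pa p n → Option (Pa p n)) (S : Set (GG p n)), (s.kid b 0).IsH HQ →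
    (∀ t ∈ b.R, (s.kid b t.2).IsS (φ t)) →
    (∀ x, x ∈ S ↔ ∃ t ∈ b.R, ∃ y, φ t = some y ∧ x = t.1 * y.1) →
    s.IsH (HQ ⊔ Subgroup.closure S)) ∧
  (∀ t, s.Mem t → ∀ y, (s.kid b (s.tg t)).IsS (some y) → s.IsS (some (pam t y))) ∧
  ((∀ t ∈ b.R', (s.kid b (s.tg t)).IsS none) → s.IsS none)

def S_UNT : Prop := ∀ (s : St p n) EG H Y F φ, s.Ok0 → s.Sim → s.TBox →
  s.IsH H → s.IsS φ → Core H (H ⊓ s.X) Y F → s.Po EG ⟨H, Y, F, φ⟩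

def S_REL : Prop := ∀ (s : St p n) H D, s.Ok0 → s.IsH H → D ≤ H →
  (∀ a ∈ D, ∃ x ∈ s.X, x⁻¹ * a ∈ s.N1) → ∀ y ∈ der 1 D, ∃ x ∈ H ⊓ s.X, x⁻¹ * y ∈ H ⊓ s.N1

/-- the sections of the slots on which `X` acts are large -/
def S_GSL : Prop := ∀ (s : St p n) j β, s.Ok0 → s.Sim → ¬ s.X ≤ s.ks j →
  s.ℓ β = s.ℓ (s.a j) ∨ s.ℓ β = s.ℓ (s.a j).rev → ∀ L U, Inv (s.le s.X) L → Inv (s.le s.X) U →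
  L < U → U ≤ Vb s.ll β →
  gam n + finrank (ZMod p) (ann (s.le s.X) L U) < finrank (ZMod p) (s.le s.X)

def S_AUTC : Prop := ∀ (s : St p n) H KK, s.Ok0 → s.Sim → ¬ s.TBox → H ≤ s.G →
  Pre s.f s.ℓ s.lam H (s.le s.X) KK → Nm H KK ∧ KK.relIndex H ≤ p ^ (4 * (2 * n + 1))

def S_UNG : Prop := ∀ (s : St p n) E EG b c EG' o H XJ KK Y F φ, s.Ok0 → s.Sim → ¬ s.TBox →
  s.BrOK E EG b c EG' → (s.kid b 0).Po EG' o → s.IsH H →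
  (Ncl H o.X ≤ s.X ∧ (Pre s.f s.ℓ s.lam s.X (s.le (Ncl H o.X)) XJ → Nm H XJ)) ∧
  (s.IsS φ → Pre s.f s.ℓ s.lam s.X (s.le (Ncl H o.X)) XJ → Pre s.f s.ℓ s.lam H (s.le s.X) KK →
    Core H (H ⊓ XJ) Y F →
    s.Po EG ⟨H, Y, (0, H ⊓ s.N1 ⊔ Y, b.Q) :: (up (b.F ++ o.F ++ [(0, KK, KK)]) ++ F), φ⟩)

/-! ### the rules -/

def S_RA : Prop := ∀ (s : St p n) E EG j R, s.PrE E EG → s.X ≤ s.ks j → ¬ s.G ≤ s.ks j →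
  s.CovK R (s.G ⊓ s.ks j) → R.length ≤ p ^ (23 * (2 * n + 1)) →
  ∃ c EG', s.BrOK E EG ⟨s.G ⊓ s.ks j, s.X, [], s.ptr, R, R⟩ c EG'

def S_QB : Prop := ∀ s : St p n, s.Ok0 →
  (∀ j, ∀ v ∈ Vb s.ll (s.a j), s.X ≤ s.qb j (s.f.1 *ᵥ v) ∧ s.N1 ≤ s.qb j (s.f.1 *ᵥ v) ∧
    (∀ g, g ∈ s.qb j (s.f.1 *ᵥ v) ↔ g ∈ s.G ∧ s.lo g.1 *ᵥ v ∈ orb (s.le s.X) v) ∧
    Inv (s.le (s.qb j (s.f.1 *ᵥ v))) (orb (s.le s.X) v) ∧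
    (s.qb j (s.f.1 *ᵥ v)).relIndex s.G ≤ p ^ nb s.ℓ (s.a j)) ∧
  (∀ C ∈ Com (s.le s.X), (∃ Q, s.IsQc C Q) ∧ ∀ Q, s.IsQc C Q → s.X ≤ Q ∧ s.N1 ≤ Q ∧ Q ≤ s.G) ∧
  (∀ Y A, Y ≤ s.G → Alg s.ll A → (∃ Q, Pre s.f s.ℓ s.lam Y A Q) ∧
    ∀ S Z : Set (GG p n), (∀ y ∈ Y, s.lo y.1 ∈ A → ∃ z ∈ Subgroup.closure Z, z.1 = s.lo y.1) →
      (∀ z ∈ Z, ∃ y ∈ Subgroup.closure S, s.lo y.1 = z.1) → (∀ y ∈ S, y ∈ Y ∧ s.lo y.1 ∈ A) →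
      Y ⊓ s.N1 ≤ Subgroup.closure S → Pre s.f s.ℓ s.lam Y A (Subgroup.closure S)) ∧
  ∀ Y β, Y ≤ s.G → β ∈ s.lam → (Y ≤ KS s.f s.ℓ β ↔ ∀ b ∈ s.le Y, ∀ v ∈ Vb s.ll β,
    b *ᵥ v = b (c0 n) (c0 n) • v) ∧ (Str s.ll (s.le Y) → (Y ≤ KS s.f s.ℓ β ↔ Triv s.ll (s.le Y) β))

def S_RP : Prop := ∀ (s : St p n) E EG, s.PrE E EG →
  (∀ Q R, s.X ≤ Q → s.N1 ≤ Q → Q ≤ s.G → s.CovK R Q → s.Paid R.length (s.le Q) →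
    ∃ c EG', s.BrOK E EG ⟨Q, s.X, [], s.ptr, R, R⟩ c EG') ∧
  (∀ k R, s.Paid k R → k ≤ p ^ capE n) ∧ (∀ k k' R, k' ≤ k → s.Paid k R → s.Paid k' R) ∧
  200 * s.ph (s.le s.G) ≤ capE n ∧
  (∀ A, Alg s.ll A → A ≤ s.le s.G → s.ph A ≤ s.ph (s.le s.G)) ∧ EG ≤ E

def S_RD : Prop := ∀ (s : St p n) E EG j, s.PrE E EG → s.X ≤ s.ks j →
  (s.pt j).G ≤ Stb (s.pt j).L ⊓ Stb (s.pt j).U ∧ s.G ≤ Stb (s.pt j).L ⊓ Stb (s.pt j).U ∧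
  (∀ g ∈ s.G, ∃ g' ∈ (s.pt j).G, g'⁻¹ * g ∈ Ker (s.pt j).L (s.pt j).U) ∧ (∃ G1, s.IsG1 j G1) ∧
  ∀ G1, s.IsG1 j G1 → G1 ≤ Stb (sL s.f s.ℓ (s.a j)) ⊓ Stb (sH s.f s.ℓ (s.a j)) ∧
    ∀ r ∈ tops (s.pt j).F, Nm G1 r.1.1 ∧ r.1.2.relIndex G1 ≤ 5 ^ E ∧
      (∃ Q, s.IsQd j (G1 ⊓ r.1.2) Q) ∧ ∀ Q, s.IsQd j (G1 ⊓ r.1.2) Q → Q.relIndex s.G ≤ 5 ^ E ∧
      ∀ R, (∀ a ∈ G1 ⊓ r.1.1, ∀ b ∈ G1 ⊓ r.1.1, ⁅a, b⁆ ∈ s.ks j) → s.CovK R Q →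
        R.length ≤ Q.relIndex s.G → ∃ c EG', s.BrOK E EG ⟨Q, s.X, [],
          Function.update s.ptr j (some ⟨G1 ⊓ r.1.2, (s.pt j).L, (s.pt j).U, r.2⟩), R, R⟩ c EG'

def S_RE : Prop := ∀ (s : St p n) E EG A Z Z' Q, s.PrE E EG → s.Sim → s.Res →
  ER s.ll (s.le s.X) s.Kc (s.dl s.δ) A Z Z' → Pre s.f s.ℓ s.lam s.G A Q →
  ∀ (R R' : List (Pa p n)) Y F, (∀ t ∈ R ++ R', s.Mem t) →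
    (∀ y ∈ Z, (∃ g ∈ s.G, st y * s.lo g.1 ∈ A) → ∃ t ∈ R, st y * s.lo t.1.1 ∈ A) →
    (∀ y ∈ Z', (∃ g ∈ s.G, st y * s.lo g.1 ∈ A) → ∃ t ∈ R', st y * s.lo t.1.1 ∈ A) →
    s.Paid R.length A → s.Paid R'.length A → Core Q (Q ⊓ s.X) Y F →
    ∃ c EG', s.BrOK E EG ⟨Q, Y, F, s.ptr, R, R'⟩ c EG'

/-- the kernel of a map to a box of vectors -/
def S_QF : Prop := ∀ (s : St p n) b ψ, s.Ok0 → FO s.ll (s.le s.X) (s.li s.G) s.Kc b ψ →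
  (∃ Q, s.IsQf ψ Q) ∧ ∀ Q, s.IsQf ψ Q → Q ≤ s.G ∧ s.N1 ≤ Q ∧ 2 * Nat.card Q ≤ Nat.card s.G ∧
    Q.relIndex s.G ≤ p ^ (2 * n + 1) ∧ (∀ g ∈ s.G, ∀ u, s.Kp g u → (g ∈ Q ↔ ψ u = 0)) ∧
    (∀ x y, s.Mem x → s.Sol y → (x.1⁻¹ * y.1 ∈ Q ↔ ψ (s.dl (s.tg x)) = 0)) ∧
    ∀ Y, Y ≤ s.G → Cy Y s.f s.ℓ (RN.bx b) fun g v => ∃ u, s.Kp g u ∧ ψ u = v

def S_FREE : Prop := ∀ (s : St p n) EG c τ b ψ Q Y F φ, s.Pr EG c τ → s.Sim →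
  FO s.ll (s.le s.X) (s.li s.G) s.Kc b ψ → s.IsQf ψ Q → Core Q (Q ⊓ s.X) Y F → s.IsF ψ φ →
  (s.sub s.f s.ℓ s.a ⟨Q, Y, F, φ⟩).Pr EG c τ ∧
    ∀ r, (s.sub s.f s.ℓ s.a ⟨Q, Y, F, φ⟩).Po EG r → s.Po EG (Out.next ⟨Q, Y, F, φ⟩ r)

/-! ### some rule applies -/

def S_PAYB : Prop := ∀ (s : St p n) j, s.Ok0 → s.Sim → (∀ j, Sc s.μ (nb s.ℓ (s.a j))) →
  ∀ Q (U : VS p n) k, Q ≤ s.G → U ≤ Vb s.ll (s.a j) → Inv (s.le Q) U →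
    Mid (nb s.ℓ (s.a j)) (finrank (ZMod p) U) → k ≤ p ^ nb s.ℓ (s.a j) → s.Paid k (s.le Q)

def S_PAYC : Prop := ∀ (s : St p n) α β C Q, s.Ok0 → s.Sim → (∀ j, Sc s.μ (nb s.ℓ (s.a j))) →
  Str s.ll (s.le s.X) → (∀ j, s.X ≤ s.ks j → s.G ≤ s.ks j) → C ∈ Cb s.ll (s.le s.X) α β →
  s.IsQc C Q → ¬ s.G ≤ Q → s.Paid (Q.relIndex s.G) (s.le Q)

def S_TSL : Prop := ∀ (s : St p n) E EG j G1, s.PrE E EG → s.Sim → s.Tight → s.X ≤ s.ks j →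
  s.IsG1 j G1 → (s.G ⊓ s.ks j).relIndex s.G ≤ p ^ (23 * (2 * n + 1)) ∨
  (∃ v ∈ Vb s.ll (s.a j),
    s.Paid ((s.qb j (s.f.1 *ᵥ v)).relIndex s.G) (s.le (s.qb j (s.f.1 *ᵥ v)))) ∨
  ∃ r ∈ tops (s.pt j).F, ∀ a ∈ G1 ⊓ r.1.1, ∀ b ∈ G1 ⊓ r.1.1, ⁅a, b⁆ ∈ s.ks j

def S_CYC : Prop := ∀ (s : St p n) j, s.Ok0 → s.Sim → ¬ s.X ≤ s.ks j →
  (∃ v ∈ Vb s.ll (s.a j), Mid (nb s.ℓ (s.a j)) (finrank (ZMod p) (orb (s.le s.X) v))) ∨ s.XS j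

def S_RES : Prop := ∀ (s : St p n) E EG, s.PrE E EG → s.Sim → s.Tight →
  (∀ j, s.X ≤ s.ks j → s.G ≤ s.ks j) →
  (∀ j, ∀ v ∈ Vb s.ll (s.a j),
    ¬ s.Paid ((s.qb j (s.f.1 *ᵥ v)).relIndex s.G) (s.le (s.qb j (s.f.1 *ᵥ v)))) →
  Str s.ll (s.le s.X) ∧ Giant s.ll (s.le s.X) ∧
  Scl s.μ s.ll (s.le s.X) ∧
  ∀ sd : Side p n, Good s.ll sd → sd.B = s.le s.X →
    (∀ C ∈ CL sd, ∀ Q, s.IsQc C Q → ¬ s.Paid (Q.relIndex s.G) (s.le Q)) → s.Res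

/-! ### the first call -/

def S_START : Prop := ∀ (H N Y : SG p n) R F F' c ν, N ≤ H → Nm H N → Val 5 c H N F → SA R →
  N = UG R → Core H N Y F' → c ≤ ν → cT p n ≤ ν → Cert ν H Y (F ++ F')

def S_ROOT : Prop := ∀ (a : Fin 3 → Ix n) (H X : SG p n) F (K : GG p n → Frm p n → Prop) δ ν,
  Cert ν H X F → K 1 0 → (∀ g w h v, K g w → K h v → K (g * h) (pull1 h.1 w + v)) →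
  (∀ g w, K g w → w ∈ Wt (l0 n) (key (l0 n) a)) → (∀ g, g ∈ H ↔ ∃ w, K g w) →
  δ ∈ Wt (l0 n) (key (l0 n) a) → capW p n + cT p n ≤ ν →
  (root a H X F K δ ν).PrE (EE p n ν) (capW p n) ∧ ∀ o, (root a H X F K δ ν).Po (capW p n) o →
    (∀ g, g ∈ o.H ↔ K g 0) ∧ Cert ν o.H o.X (F ++ o.F) ∧
    (∀ x, o.φ = some x → K x.1 x.2 ∧ pull1 x.1.1 δ + x.2 = 0) ∧
    (o.φ = none → ∀ g w, K g w → pull1 g.1 δ + w ≠ 0)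

/-- the basic toolbox -/
structure TB : Prop extends CU.TC p n where
  coc : S_COC p n
  cok : S_COK p n
  qb : S_QB p n
  gi : S_GI p n

/-- the structure of stable groups -/
structure TM : Prop extends toB : TB p n where
  te : TE p n
  cliff : S_CLIFF p n
  locu : S_LOCU p n
  locst : S_LOCST p n
  pref : S_PREF p n
  leaf1 : S_LEAF1 p n
  gsl : S_GSL p n
  nwc : S_NWC p n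
  lz : S_LZ p n
  fcm : S_FCM p n
  locx : S_LOCX p n

end Pool.Agent.P.MP_f1a348_lc.UP.CU.AF
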