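import Pool.Agent.P.MP_f1a348_lc.AF.Prog
import Pool.Agent.P.MP_f1a348_lc.AF.Defs
import Pool.Agent.P.MP_f1a348_lc.CU.PIf

/-!
Project AF: how the lists of the program are read as states.
-/

namespace Pool.Agent.P.MP_f1a348_lc.UP.CU.AF

open Matrix Module Pool.Agent.P.MP_f1a348_lc.PG

set_option linter.unusedSectionVars false

/-- the data that are fixed in a run -/
class Gl (p n : ℕ) where
  K : GG p n → Frm p n → Prop
  ν : ℕ

noncomputable section

def paD (p n : ℕ) (q : V × V) : Pa p n := (gD p n q.1, fV p n q.2)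

def stD (p n : ℕ) [γ : Gl p n] (s : PS) : St p n :=
  ⟨gD p n s.1.1, labD n s.1.2.1, fun j => ixD n (s.1.2.2.1.getD j.val 0),
    fun j => min (s.1.2.2.2.getD j.val 0) (2 * n + 1), gS p n (sG s), gS p n (sX s),
    foD p n (sF s), ptrD p n s.2.2.1, fun g w => γ.K g w ∧ w ∈ sp (frm p n) (sV s),
    fV p n (sD s), γ.ν⟩

def outD (p n : ℕ) (o : PO) : Out p n :=
  ⟨gS p n o.1, gS p n o.2.1, foD p n o.2.2.1, o.2.2.2.map (paD p n)⟩

def brcD (p n : ℕ) (b : PB) : Brc p n :=
  ⟨gS p n b.1.1, gS p n b.1.2.1, foD p n b.1.2.2, ptrD p n b.2.1, b.2.2.1.map (paD p n),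
    b.2.2.2.map (paD p n)⟩

/-- frames of the machine -/
structure FR (p n : ℕ) where
  br : Bool
  s : St p n
  k : St p n
  F : List (Rec (GG p n))
  todo : List (ℕ × Pa p n)
  acc : Out p n

def fmD (p n : ℕ) [Gl p n] (x : Fm) : FR p n :=
  ⟨x.1, stD p n x.2.1, stD p n x.2.2.1, foD p n x.2.2.2.1,
    (todo x).map fun q => (q.1, paD p n q.2), outD p n (acc x)⟩

/-- the context is large and the oracle is correct -/
structure Ok (p n : ℕ) [γ : Gl p n] (om : V → List V) (c : Cx) : Prop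
    extends cu : CU.Ok p n c where
  orc : ∀ x w, γ.K (gD p n x) w → ∀ v,
    γ.K (gD p n x) v ↔ ((1 : ZMod p), v) ∈ sp (pl (frm p n)) (om x)

end

variable {p n : ℕ} [Fact p.Prime] [γ : Gl p n] {om : V → List V} {c : Cx}

instance : CoeOut (Ok p n om c) (CU.Ok p n c) := ⟨Ok.cu⟩

protected theorem Ok.up (h : Ok p n om c) : UP.Ok p n c := h.cu.toOk

/-! ### states -/

protected theorem Ok.fm (h : Ok p n om c) (s : PS) : mV p n (fm c s) = (stD p n s).f.1 := h.nrm _

protected theorem Ok.lP (h : Ok p n om c) (s : PS) : lab n (lP c s) = (stD p n s).ℓ := h.nl _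

theorem stD_lab (s : PS) : Lab (stD p n s).ℓ := lab_labD _

protected theorem Ok.aj (h : Ok p n om c) (s : PS) (j : Fin 3) :
    aj c s j.val = ((stD p n s).a j).val := h.mod_ix _

protected theorem Ok.a3 (h : Ok p n om c) (s : PS) : a3 c s = tr3 (stD p n s).a := by
  rw [tr3, ← h.aj, ← h.aj, ← h.aj]; rfl

protected theorem Ok.muP (h : Ok p n om c) (s : PS) : muD (muP c s) = (stD p n s).μ := by
  funext j
  rw [muD, AF.muP, h.hM]
  fin_cases j <;> rfl

protected theorem Ok.inL (h : Ok p n om c) (s : PS) (β : Ix n) :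
    inL c s β.val = true ↔ β ∈ (stD p n s).lam := by
  rw [AF.inL, any3]
  simp only [Bool.or_eq_true, h.aj, h.rv, same_iff, h.lP]
  rfl

protected theorem Ok.llP (h : Ok p n om c) (s : PS) : lab n (llP c s) = (stD p n s).ll := by
  funext β
  rw [AF.llP, lab_map_y h.up, St.ll, lS]
  by_cases e : β ∈ (stD p n s).lam
  · rw [if_pos e, (h.inL s β).2 e, cond_true, ← h.lP]; rfl
  · rw [if_neg e, Bool.eq_false_iff.2 (mt (h.inL s β).1 e), cond_false]

protected theorem Ok.loP (h : Ok p n om c) (s : PS) (x : V) :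
    mV p n (loP c s x) = (stD p n s).lo (mV p n x) := by
  rw [AF.loP, h.locP (h.fm s) (S := (stD p n s).lam), h.lP, St.lo]
  rw [h.diagP, eS]
  refine congrArg _ (funext fun β => ?_)
  by_cases e : β ∈ (stD p n s).lam
  · rw [if_pos e, if_pos ((h.inL s β).2 e)]
  · rw [if_neg e, if_neg (mt (h.inL s β).1 e)]

protected theorem Ok.ptP (h : Ok p n om c) (s : PS) (j : Fin 3) :
    ptD p n (ptP c s j.val) = (stD p n s).pt j := by
  rw [AF.ptP, St.pt]
  show _ = (Option.map (ptD p n) (sP s j.val)).getD _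
  cases sP s j.val with
  | some π => rfl
  | none =>
    rw [Option.getD_none, Option.map_none, Option.getD_none, ptD, AF.fm, h.gD_nrm, AF.lP, h.labD_nl,
      h.aj, ixD_val]
    rfl

/-! ### values -/

protected theorem Ok.dlP (h : Ok p n om c) (s : PS) (w : V) :
    fV p n (dlP c s w) = (stD p n s).dl (fV p n w) := by
  have e : (fun j => (stD p n s).a (pm 0 j)) = (stD p n s).a := by
    funext j; fin_cases j <;> rfl
  rw [AF.dlP, h.cmpP, h.pull1P, h.a3, h.tP, h.lP, h.fm, e]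
  rfl

theorem fV_nil : fV p n [] = 0 := dv_nil

protected theorem Ok.tgP (h : Ok p n om c) (d : V) (q : V × V) :
    fV p n (tgP c d q) = pull1 (gD p n q.1).1 (fV p n d) + fV p n q.2 := by
  rw [AF.tgP, fV, dv_axpy h.hp h.d3, Nat.cast_one, one_smul]
  exact congrArg (· + _) (by rw [← h.nrm, ← h.pull1P])

protected theorem Ok.tg (h : Ok p n om c) (s : PS) (q : V × V) :
    fV p n (tgP c (sD s) q) = (stD p n s).tg (paD p n q) := h.tgP _ _

protected theorem Ok.pmP (h : Ok p n om c) (q r : V × V) :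
    paD p n (pmP c q r) = pam (paD p n q) (paD p n r) :=
  Prod.ext (h.gD_mul _ _) (h.tgP _ _)

protected theorem Ok.clQ (h : Ok p n om c) (q : V × V) : paD p n (clQ c q) = paD p n q :=
  Prod.ext (h.gD_nrm _) (h.nv3 _)

protected theorem Ok.pa_one (h : Ok p n om c) : paD p n (oneP c, []) = (1, 0) :=
  Prod.ext h.gD_one fV_nil

theorem dv_tail (y : V) : fV p n y.tail = (dv (pl (frm p n)) y).2 := by rw [dv_pl]

protected theorem Ok.dp3 (h : Ok p n om c) : Dec (pl (frm p n)) (() :: u3 c).length :=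
  h.d3.pl

protected theorem Ok.afP (h : Ok p n om c) (s : PS) (x : V) (y : ZMod p × Frm p n) :
    y ∈ sp (pl (frm p n)) (afP om c s x) ↔
      y ∈ sp (pl (frm p n)) (om x) ∧ y.2 ∈ sp (frm p n) (sV s) :=
  mem_preim h.hp h.d3 h.dp3 (LinearMap.snd _ _ _) (fun y _ => dv_tail y) _ y

/-- the affine space of the values -/
protected theorem Ok.afK (h : Ok p n om c) (s : PS) {x : V}
    (e : ∃ w, (stD p n s).K (gD p n x) w) (v : Frm p n) :
    ((1 : ZMod p), v) ∈ sp (pl (frm p n)) (afP om c s x) ↔ (stD p n s).K (gD p n x) v := by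
  obtain ⟨w, hw⟩ := e
  rw [h.afP, ← h.orc x w hw.1]
  rfl

protected theorem Ok.omP (h : Ok p n om c) (s : PS) {x : V}
    (e : ∃ w, (stD p n s).K (gD p n x) w) : (stD p n s).K (gD p n x) (fV p n (omP om c s x)) :=
  let ⟨w, hw⟩ := e
  (h.afK s e _).1 (aff_getD h.hp h.d3 ((h.afK s e w).2 hw))

protected theorem Ok.kpP (h : Ok p n om c) (s : PS) (d x : V) : fV p n (kpP om c s d x) =
    (stD p n s).dl (pull1 (gD p n x).1 (fV p n d) + fV p n (omP om c s x)) := by
  rw [AF.kpP, h.dlP, h.tgP]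

protected theorem Ok.kp0 (h : Ok p n om c) (s : PS) (x : V) :
    fV p n (kpP om c s [] x) = (stD p n s).dl (fV p n (omP om c s x)) := by
  rw [h.kpP, fV_nil, map_zero, zero_add]

protected theorem Ok.kpD (h : Ok p n om c) (s : PS) (x : V) : fV p n (kpP om c s (sD s) x) =
    (stD p n s).dl ((stD p n s).tg (paD p n (x, omP om c s x))) := h.kpP _ _ _

/-- the program computes a value on the box -/
protected theorem Ok.kp (h : Ok p n om c) (s : PS) {x : V}
    (e : ∃ w, (stD p n s).K (gD p n x) w) :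
    (stD p n s).Kp (gD p n x) (fV p n (kpP om c s [] x)) := ⟨_, h.omP s e, (h.kp0 s x).symm⟩

protected theorem Ok.s0P (h : Ok p n om c) (s : PS) (h1 : (stD p n s).K 1 0) :
    sp (frm p n) (s0P om c s) = (stD p n s).S0 := by
  have k := h.afK s (x := oneP c) ⟨0, h.gD_one ▸ h1⟩
  rw [h.gD_one] at k
  rw [AF.s0P, sp_map (δ := pl (frm p n)) ((stD p n s).dl ∘ₗ LinearMap.snd _ _ _)
    fun y _ => by rw [← fV, h.dlP, dv_tail]; rfl]
  refine le_antisymm ?_ (Submodule.span_le.2 ?_)
  · rintro _ ⟨y, hy, rfl⟩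
    refine Submodule.subset_span ⟨y.2, (k _).1 ?_, rfl⟩
    have := add_mem hy (Submodule.smul_mem _ (1 - y.1) ((k 0).2 h1))
    rwa [show y + (1 - y.1) • ((1 : ZMod p), (0 : Frm p n)) = (1, y.2) by ext <;> simp] at this
  · rintro _ ⟨w, hw, rfl⟩
    exact ⟨(1, w), (k w).2 hw, rfl⟩

theorem prs_fst (s : PS) (R : List V) :
    ((prs om c s R).map (paD p n)).map Prod.fst = R.map (gD p n) := by
  simp only [prs, List.map_map]; rfl

theorem length_prs (s : PS) (R : List V) :
    ((prs om c s R).map (paD p n)).length = R.length := by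
  simp only [prs, List.length_map]

theorem mem_prs {s : PS} {R : List V} {t : Pa p n} : t ∈ (prs om c s R).map (paD p n) ↔
    ∃ x ∈ R, (gD p n x, fV p n (omP om c s x)) = t := by
  simp only [prs, List.map_map, List.mem_map]; rfl

protected theorem Ok.prs (h : Ok p n om c) {s : PS} (h0 : (stD p n s).Ok0) {R : List V}
    (hR : ∀ x ∈ R, gD p n x ∈ (stD p n s).G) :
    ∀ t ∈ (prs om c s R).map (paD p n), (stD p n s).Mem t := fun t ht => by
  obtain ⟨x, hx, rfl⟩ := mem_prs.1 ht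
  exact ⟨hR x hx, h.omP s (h0.tot _ (hR x hx))⟩

protected theorem Ok.covK (h : Ok p n om c) {s : PS} (h0 : (stD p n s).Ok0) {R : List V}
    {Q : SG p n} (hR : Cov (R.map (gD p n)) (stD p n s).G Q) :
    (stD p n s).CovK ((prs om c s R).map (paD p n)) Q :=
  ⟨h.prs h0 fun x hx => hR.mem _ (List.mem_map_of_mem hx), fun g hg => by
    obtain ⟨t, ht, e⟩ := hR.cov g hg
    obtain ⟨x, hx, rfl⟩ := List.mem_map.1 ht
    exact ⟨_, mem_prs.2 ⟨x, hx, rfl⟩, e⟩⟩

end Pool.Agent.P.MP_f1a348_lc.UP.CU.AF
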