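import Pool.Agent.P.MP_f1a348_lc.AF.PBase
import Pool.Agent.P.MP_f1a348_lc.AF.Iface
import Pool.Agent.P.MP_f1a348_lc.RN.Top

/-!
Project AF: the specifications of the program of the affine recursion.
-/

namespace Pool.Agent.P.MP_f1a348_lc.UP.CU.AF

open Matrix Module Pool.Agent.P.MP_f1a348_lc.PG
open scoped commutatorElement

set_option linter.unusedSectionVars false

noncomputable section
variable {p n : ℕ} [Fact p.Prime]

/-- the forests of the state are short -/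
def St.Bd (s : St p n) (B : ℕ) : Prop := s.F.length ≤ B ∧ PtB B s.ptr

def St.Sm (s : St p n) (B : ℕ) : Prop := SmF B s.F ∧ ∀ j r, s.ptr j = some r → SmF B r.F

structure FR.Sm (x : FR p n) (B : ℕ) : Prop where
  s : x.s.Sm B
  k : x.k.Sm B
  F : SmF B x.F
  len : x.todo.length ≤ B
  tag : ∀ q ∈ x.todo, q.1 ≤ B
  acc : SmF B x.acc.F

/-- a good branching -/
def St.GB (s : St p n) (E EG B : ℕ) (b : Brc p n) : Prop :=
  (∃ c EG', s.BrOK E EG b c EG') ∧ b.F.length ≤ rho0 p n ∧ PtB B b.ptr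

/-- a good free step -/
def St.GF (s : St p n) (o : Out p n) : Prop :=
  (∃ b ψ, RN.FO s.ll (s.le s.X) (s.li s.G) s.Kc b ψ ∧ s.IsQf ψ o.H ∧ s.IsF ψ o.φ) ∧
    Core o.H (o.H ⊓ s.X) o.X o.F ∧ o.F.length ≤ rho0 p n

/-- the state in another frame -/
def St.fra (s : St p n) (f : GG p n) (ℓ : Ix n → ℕ) : St p n := { s with f := f, ℓ := ℓ }

def FR.call (x : FR p n) (q : ℕ × Pa p n) : St p n :=
  if x.br = true then { x.k with δ := if q.1 = 2 then x.s.tg q.2 else q.2.2 }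
  else x.s.sub x.k.f x.k.ℓ (bx n q.1) x.acc

def Out.join (q : ℕ × Pa p n) (o r : Out p n) : Out p n :=
  if q.1 = 0 then ⟨r.H, r.X, r.F, none⟩ else if q.1 = 1 then
    ⟨o.H ⊔ Subgroup.closure {x | ∃ g, r.φ = some g ∧ x = q.2.1 * g.1}, o.X, o.F, o.φ⟩
  else ⟨o.H, o.X, o.F, o.φ.or (r.φ.map fun g => pam q.2 g)⟩

def FR.feed (x : FR p n) (r : Out p n) : FR p n :=
  { x with todo := x.todo.tail
           acc := if x.br = true then Out.join (x.todo.headD (0, 1, 0)) x.acc r else x.acc.next r }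

open Classical in
/-- the numbers `≥ t` of the sub-boxes -/
def St.boxes (s : St p n) (ℓ : Ix n → ℕ) (t : ℕ) : List ℕ :=
  (List.range' t (top n - t)).filter fun i =>
    decide (∀ j, s.ℓ (bx n i j) = s.ℓ (s.a j) ∧ ℓ (bx n i j) = (bx n i j).val)

/-- the first frame of a splitting -/
def St.frS (s : St p n) (f : GG p n) (ℓ : Ix n → ℕ) : FR p n :=
  ⟨false, s, s.fra f ℓ, [], (s.boxes ℓ 0).map fun i => (i, 1, 0), ⟨s.G, s.X, [], some (1, 0)⟩⟩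

/-- the first frame of a branching -/
def St.frB (s : St p n) (b : Brc p n) : FR p n :=
  ⟨true, s, s.kid b 0, b.F, (0, 1, 0) :: (b.R.map (fun t => (1, t)) ++ b.R'.map fun t => (2, t)),
    ⟨⊥, ⊥, [], none⟩⟩

/-- the first frame of a free step -/
def St.frF (s : St p n) (o : Out p n) : FR p n := ⟨false, s, s, [], [(enc3 s.a, 1, 0)], o⟩

/-- the frame `x` is finished as `y` after `k` steps -/
inductive Ev (om : V → List V) (c : Cx) : Fm → Fm → ℕ → Prop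
  | done {x} : todo x = [] → Ev om c x x 0
  | call {x q L y k z k'} : todo x = q :: L → Ev om c (clM c (init om c (call c x q))) y k →
      Ev om c (clM c (feed c x (fin c y))) z k' → Ev om c x z (k + k' + 2)

/-- the frame `x` solves the call `s` -/
def Fin1 (om : V → List V) (c : Cx) (x : Fm) (s : St p n) (E EG u : ℕ) : Prop :=
  ∃ y k, Ev om c (clM c x) y k ∧ s.Po EG (outD p n (fin c y)) ∧
    k + 2 + 3 * ((u + 1) * 5 ^ E) ≤ 6 * ((u + 1) * 5 ^ E) * s.sz ∧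
    (outD p n (fin c y)).F.length ≤ rho p n * (k + 1)

/-- the calls with budget `E`, size `z` and a group of order at most `2 ^ u` are solved -/
def Slv (p n : ℕ) [Fact p.Prime] [Gl p n] (om : V → List V) (c : Cx) (E z u : ℕ) : Prop :=
  ∀ (s : PS) (EG B : ℕ), (stD p n s).PrE E EG → (stD p n s).sz = z →
    Nat.card (stD p n s).G ≤ 2 ^ u → (stD p n s).Bd B →
    B + rho p n * (6 * ((u + 1) * 5 ^ E) * z) ≤ c.2.2.length →
    Fin1 om c (init om c s) (stD p n s) E EG u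

theorem smF_of (hk : S_KID 5) {k B : ℕ} {G : SG p n} {F : List (Rec (GG p n))}
    (h : Kids 5 k G F) (hB : F.length ≤ B) : SmF B F :=
  ⟨hB, fun r hr => (((hk _).2.2.2.2.2.1 k G F h).1 r hr).le.trans hB⟩

theorem St.sm_of (hk : S_KID 5) {s : St p n} {E EG B : ℕ} (h : s.PrE E EG) (hB : s.Bd B) :
    s.Sm B := by
  obtain ⟨cc, τ, h1, -⟩ := h
  refine ⟨smF_of hk h1.val.1 hB.1, fun j r e => ?_⟩
  obtain ⟨N, h2, -⟩ := (h1.ptr j r e).val
  exact smF_of hk h2.1 (hB.2 j r e)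

theorem St.Bd.mono {s : St p n} {B B' : ℕ} (h : s.Bd B) (e : B ≤ B') : s.Bd B' :=
  ⟨h.1.trans e, fun j r k => (h.2 j r k).trans e⟩

theorem St.PrE.ok0 {s : St p n} {E EG : ℕ} (h : s.PrE E EG) : s.Ok0 := by
  obtain ⟨cc, τ, h1, -⟩ := h
  exact h1.toOk0

end

variable (p n : ℕ) [Fact p.Prime]

/-! ### states -/

def S_QST : Prop := ∀ [Gl p n] (om : V → List V) (c : Cx) (s : PS) (S : St p n), Ok p n om c →
  stD p n s = S → (∀ Y, sp (mat p n) (leP c s Y) = S.le (gS p n Y)) ∧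
  (∀ A, Alg S.ll (sp (mat p n) A) → phP c s A = S.ph (sp (mat p n) A)) ∧
  (∀ j : Fin 3, Tst (ksT c s j.val) (Stb (sL S.f S.ℓ (S.a j)) ⊓ Stb (sH S.f S.ℓ (S.a j)))
    (· ∈ S.ks j)) ∧
  (S.Ok0 → Hom (loP c s) S.G (fun g => S.lo g.1) ∧
    (∀ Y, gS p n Y ≤ S.G → gS p n (n1P c s Y) = gS p n Y ⊓ S.N1) ∧
    (∀ (j : Fin 3) Y, gS p n Y ≤ S.G → (xkP c s j.val Y = true ↔ gS p n Y ≤ S.ks j)) ∧
    (tbP c s = true ↔ S.TBox)) ∧
  ∀ E EG k A, S.PrE E EG → Alg S.ll (sp (mat p n) A) → sp (mat p n) A ≤ S.le S.G →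
    (paidP c s k A = true ↔ S.Paid k (sp (mat p n) A))

/-- preimages of algebras -/
def S_QPRE : Prop := ∀ [Gl p n] (om : V → List V) (c : Cx) (s : PS) (S : St p n) (Y : List V),
  Ok p n om c → stD p n s = S → S.Ok0 → gS p n Y ≤ S.G →
  ∃ L, Img p n S.f S.ℓ S.lam (gS p n Y) L ∧ Tst (memL c s Y) ⊤ (· ∈ L) ∧
    ∀ A, Alg S.ll (sp (mat p n) A) →
      gS p n (GF.genQ c (llP c s) A) = UG (sp (mat p n) A) ∧
      (L.relIndex (UG (sp (mat p n) A)) ≤ c.2.2.length →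
        Pre S.f S.ℓ S.lam (gS p n Y) (sp (mat p n) A) (gS p n (preP c s Y A)))

/-- the functionals of a leaf and the final correction -/
def S_QANN : Prop := ∀ [Gl p n] (om : V → List V) (c : Cx) (s : PS) (S : St p n), Ok p n om c →
  stD p n s = S → S.K 1 0 →
  (∃ lam : ℕ → Frm p n →ₗ[ZMod p] ZMod p,
    (∀ d i x, crdT om c s d i x = true ↔ lam i (fV p n (kpP om c s d x)) = 0) ∧
    ∀ u, u ∈ S.S0 ↔ ∀ i ∈ ran (u3 c), lam i u = 0) ∧
  ∀ x, gD p n x ∈ S.G → (∃ w, S.K (gD p n x) w) →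
    (∀ y, solW om c s x = some y → y.1 = x ∧ S.Sol (paD p n y)) ∧
    (solW om c s x = none → ∀ w, ¬ S.Sol (gD p n x, w))

def S_QLEAF : Prop := ∀ [Gl p n] (om : V → List V) (c : Cx) (s : PS) (S : St p n), Ok p n om c →
  stD p n s = S → S.Ok0 →
  sp (frm p n) (spS om c s) = S.Sp ∧ (leafT om c s = true ↔ S.Leaf) ∧
  (S.Leaf → S.IsH (gS p n (leafH om c s)) ∧ S.IsS ((leafS om c s).map (paD p n)))

def S_QTRY : Prop := ∀ [Gl p n] (om : V → List V) (c : Cx) (s : PS) (S : St p n) (E EG B : ℕ)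
  (t : V → Bool) (Q : SG p n), Ok p n om c → stD p n s = S → S.PrE E EG → S.Bd B →
  Tst t S.G (· ∈ Q) → S.X ≤ Q → S.N1 ≤ Q → Q ≤ S.G →
  (∀ b ∈ tryQ om c s t, S.GB E EG B (brcD p n b)) ∧
    (tryQ om c s t = [] → ¬ S.Paid (Q.relIndex S.G) (S.le Q))

def S_QRA : Prop := ∀ [Gl p n] (om : V → List V) (c : Cx) (s : PS) (S : St p n) (E EG B : ℕ),
  Ok p n om c → stD p n s = S → S.PrE E EG → S.Bd B →
  (∀ b ∈ ruleA om c s, S.GB E EG B (brcD p n b)) ∧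
    (ruleA om c s = [] → ∀ j, S.X ≤ S.ks j →
      (S.G ⊓ S.ks j).relIndex S.G ≤ p ^ (23 * (2 * n + 1)) → S.G ≤ S.ks j)

def S_QRB : Prop := ∀ [Gl p n] (om : V → List V) (c : Cx) (s : PS) (S : St p n) (E EG B : ℕ),
  Ok p n om c → stD p n s = S → S.PrE E EG → S.Bd B →
  (∀ b ∈ ruleB om c s, S.GB E EG B (brcD p n b)) ∧
    (ruleB om c s = [] → ∀ j, ∀ v ∈ Vb S.ll (S.a j),
      ¬ S.Paid ((S.qb j (S.f.1 *ᵥ v)).relIndex S.G) (S.le (S.qb j (S.f.1 *ᵥ v))))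

def S_QRC : Prop := ∀ [Gl p n] (om : V → List V) (c : Cx) (s : PS) (S : St p n) (E EG B : ℕ),
  Ok p n om c → stD p n s = S → S.PrE E EG → S.Bd B → Str S.ll (S.le S.X) →
  (∀ b ∈ ruleC om c s, S.GB E EG B (brcD p n b)) ∧
    (ruleC om c s = [] → ∃ sd : Side p n, Good S.ll sd ∧ sd.B = S.le S.X ∧
      ∀ C ∈ CL sd, ∀ Q, S.IsQc C Q → ¬ S.Paid (Q.relIndex S.G) (S.le Q))

def S_QRD : Prop := ∀ [Gl p n] (om : V → List V) (c : Cx) (s : PS) (S : St p n) (E EG B : ℕ),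
  Ok p n om c → stD p n s = S → S.PrE E EG → 5 ^ E ≤ c.2.2.length → S.Bd B →
  (∀ b ∈ ruleD om c s, S.GB E EG B (brcD p n b)) ∧
    (ruleD om c s = [] → ∀ j, S.X ≤ S.ks j → ∃ G1, S.IsG1 j G1 ∧
      ¬ ∃ r ∈ tops (S.pt j).F, ∀ a ∈ G1 ⊓ r.1.1, ∀ b ∈ G1 ⊓ r.1.1, ⁅a, b⁆ ∈ S.ks j)

/-- the engine at a resolved node -/
def S_QEN : Prop := ∀ [Gl p n] (om : V → List V) (c : Cx) (s : PS) (S : St p n), Ok p n om c →
  stD p n s = S → S.Ok0 → S.Sim → S.Res → Scl S.μ S.ll (S.le S.X) → ¬ S.Leaf →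
  (RN.freP c (llP c s) (leP c s (sX s)) (plS om c s) (spS om c s) = none →
    (engS om c s).isSome = true) ∧
  (∀ e, RN.freP c (llP c s) (leP c s (sX s)) (plS om c s) (spS om c s) = some e →
    ∃ b, RN.FO S.ll (S.le S.X) (S.li S.G) S.Kc b (RN.psiD p n e)) ∧
  ∀ A Y Y', engS om c s = some (A, Y, Y') →
    RN.ER S.ll (S.le S.X) S.Kc (S.dl S.δ) (sp (mat p n) A) (Y.map (mV p n)) (Y'.map (mV p n)) ∧
    S.Paid Y.length (sp (mat p n) A) ∧ S.Paid Y'.length (sp (mat p n) A)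

/-- representatives are moved into the group -/
def S_QMV : Prop := ∀ [Gl p n] (om : V → List V) (c : Cx) (s : PS) (S : St p n) (A Z : List V),
  Ok p n om c → stD p n s = S → S.Ok0 → S.Sim → Alg S.ll (sp (mat p n) A) →
  sp (mat p n) A ≤ S.le S.X → (∀ y ∈ Z, U1 (S.le S.X) (mV p n y)) →
  (mvL c s (bfs c (memL c s (sG s)) (GF.genQ c (llP c s) A)) Z).length ≤ Z.length ∧
  (∀ t ∈ mvL c s (bfs c (memL c s (sG s)) (GF.genQ c (llP c s) A)) Z, gD p n t ∈ S.G) ∧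
  ∀ y ∈ Z, (∃ g ∈ S.G, st (mV p n y) * S.lo g.1 ∈ sp (mat p n) A) →
    ∃ t ∈ mvL c s (bfs c (memL c s (sG s)) (GF.genQ c (llP c s) A)) Z,
      st (mV p n y) * S.lo (gD p n t).1 ∈ sp (mat p n) A

def S_QRE : Prop := ∀ [Gl p n] (om : V → List V) (c : Cx) (s : PS) (S : St p n) (E EG B : ℕ),
  Ok p n om c → stD p n s = S → S.PrE E EG → S.Bd B → S.Sim → S.Res →
  Scl S.μ S.ll (S.le S.X) → ¬ S.Leaf → ∀ b ∈ ruleE om c s, S.GB E EG B (brcD p n b)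

def S_QOUT : Prop := ∀ [Gl p n] (om : V → List V) (c : Cx) (s : PS) (S : St p n) (H : List V)
  (φ : Option (V × V)), Ok p n om c → stD p n s = S → S.Ok0 → gS p n H ≤ S.G →
  ∃ Y F, Core (gS p n H) (gS p n H ⊓ S.X) Y F ∧ F.length ≤ rho0 p n ∧
    outD p n (outC c s H φ) = ⟨gS p n H, Y, F, φ.map (paD p n)⟩

def S_QRF : Prop := ∀ [Gl p n] (om : V → List V) (c : Cx) (s : PS) (S : St p n) (e : ℕ × V) b,
  Ok p n om c → stD p n s = S → S.Ok0 →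
  RN.FO S.ll (S.le S.X) (S.li S.G) S.Kc b (RN.psiD p n e) → S.GF (outD p n (outF om c s e))

def S_QBR : Prop := ∀ [Gl p n] (om : V → List V) (c : Cx) (s : PS) (S : St p n) (E EG B : ℕ),
  Ok p n om c → stD p n s = S → S.PrE E EG → 5 ^ E ≤ c.2.2.length → S.Bd B → S.Sim → S.Tight →
  ¬ S.Leaf → (freS om c s = none → S.GB E EG B (brcD p n (brP om c s))) ∧
    ∀ e, freS om c s = some e → S.GF (outD p n (outF om c s e))

/-! ### the machine -/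

def S_QDEC : Prop := ∀ [γ : Gl p n] (om : V → List V) (c : Cx), Ok p n om c →
  (∀ x q, stD p n (call c x q) = (fmD p n x).call (q.1, paD p n q.2)) ∧
  (∀ x r, fmD p n (feed c x r) = (fmD p n x).feed (outD p n r)) ∧
  (∀ x, (fmD p n x).Sm c.2.2.length → fmD p n (clM c x) = fmD p n x) ∧
  (∀ s, stD p n (resetP c s) = (stD p n s).reset) ∧
  (∀ s x, stD p n (refS s x) = (stD p n s).fra (gD p n x.2.1) (labD n x.1)) ∧
  (∀ s b, fmD p n (initB c s b) = (stD p n s).frB (brcD p n b)) ∧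
  (∀ s k, (ran (u3 c)).filter (boxT c s k) = (stD p n s).boxes (stD p n k).ℓ 0) ∧
  (∀ s o, fmD p n (initF c s o) = (stD p n s).frF (outD p n o)) ∧
  (∀ F, SmF c.2.2.length (foD p n F) → foD p n (clF c F) = foD p n F) ∧
  ∀ k G y d, stD p n (rootP c k G y d) = root ![Fin.last _, if k = 0 then Fin.last _ else c0 n, 0]
    (gS p n G) (gS p n y.1) (foD p n y.2) γ.K (fV p n d) γ.ν

def S_QFIN : Prop := ∀ [Gl p n] (om : V → List V) (c : Cx) (x : Fm), Ok p n om c →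
  ((fmD p n x).br = false → outD p n (fin c x) = (fmD p n x).acc) ∧
  ∀ (s : St p n) b E EG k EG' o, (fmD p n x).br = true → (fmD p n x).s = s →
    (fmD p n x).k.G = b.Q → (fmD p n x).F = b.F → s.Ok0 → s.Sim → s.BrOK E EG b k EG' →
    (s.kid b 0).Po EG' o → (fmD p n x).acc.X = o.X → (fmD p n x).acc.F = o.F →
    s.IsH (fmD p n x).acc.H → s.IsS (fmD p n x).acc.φ → s.Po EG (outD p n (fin c x)) ∧
      (outD p n (fin c x)).F.length ≤ o.F.length + b.F.length + rho0 p n + 2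

def S_QINIT : Prop := ∀ [Gl p n] (om : V → List V) (c : Cx) (s : PS) (S : St p n) (E EG B : ℕ),
  Ok p n om c → stD p n s = S → S.PrE E EG → 5 ^ E ≤ c.2.2.length → S.Bd B →
  (∃ f ℓ, Fine S.f S.ℓ f ℓ ∧ TriR (Env S.G) f ℓ ∧ (∃ j, nb ℓ (S.a j) < nb S.ℓ (S.a j)) ∧
    fmD p n (init om c s) = S.frS f ℓ) ∨
  ∃ S1 : St p n, S1.PrE E EG ∧ S1.Sim ∧ S1.sz = S.sz ∧ S1.G = S.G ∧ S1.Bd B ∧
    (∀ o, S1.Po EG o → S.Po EG o) ∧
    ((∃ o, S1.Po EG o ∧ o.F.length ≤ rho0 p n ∧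
      fmD p n (init om c s) = ⟨false, S1, S1, [], [], o⟩) ∨
    (∃ b, S1.GB E EG B b ∧ fmD p n (init om c s) = S1.frB b) ∨
    ∃ o, S1.GF o ∧ fmD p n (init om c s) = S1.frF o)

def S_MACH : Prop := ∀ (om : V → List V) (c : Cx) (s : PS) y k,
  Ev om c (clM c (init om c s)) y k → k ≤ c.2.2.length → runM om c s = [y]

def S_LOOPS : Prop := ∀ [Gl p n] (om : V → List V) (c : Cx) (s : St p n) (E EG B u : ℕ) f ℓ
  (x : Fm), Ok p n om c → s.PrE E EG → Fine s.f s.ℓ f ℓ → TriR (Env s.G) f ℓ →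
  (∃ j, nb ℓ (s.a j) < nb s.ℓ (s.a j)) → (∀ z < s.sz, Slv p n om c E z u) →
  Nat.card s.G ≤ 2 ^ u → s.Bd B → B + rho p n * (6 * ((u + 1) * 5 ^ E) * s.sz) ≤ c.2.2.length →
  fmD p n x = s.frS f ℓ → Fin1 om c x s E EG u

def S_LOOPB : Prop := ∀ [Gl p n] (om : V → List V) (c : Cx) (s : St p n) (E EG B u : ℕ) b
  (x : Fm), Ok p n om c → s.PrE E EG → s.Sim → s.GB E EG B b →
  (∀ E' < E, Slv p n om c E' s.sz u) → Nat.card s.G ≤ 2 ^ u → s.Bd B →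
  B + rho p n * (6 * ((u + 1) * 5 ^ E) * s.sz) ≤ c.2.2.length → fmD p n x = s.frB b →
  Fin1 om c x s E EG u

def S_LOOPF : Prop := ∀ [Gl p n] (om : V → List V) (c : Cx) (s : St p n) (E EG B u : ℕ) o
  (x : Fm), Ok p n om c → s.PrE E EG → s.Sim → s.GF o →
  (∀ u' < u, Slv p n om c E s.sz u') → Nat.card s.G ≤ 2 ^ u → s.Bd B →
  B + rho p n * (6 * ((u + 1) * 5 ^ E) * s.sz) ≤ c.2.2.length → fmD p n x = s.frF o →
  Fin1 om c x s E EG u

def S_MAINP : Prop := ∀ [Gl p n] (om : V → List V) (c : Cx), Ok p n om c →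
  ∀ E z u, Slv p n om c E z u

/-- bound for the forest of a run -/
def bet (p n ν : ℕ) : ℕ :=
  rho p n * (6 * ((Nat.size p * ((2 * n + 1) * (2 * n + 1)) + 1) * 5 ^ EE p n ν) * top n)

def S_QSTART : Prop := ∀ (c : Cx) (H N : List V) (F : Fo) (R : Sub p n) (c1 ν : ℕ),
  CU.Ok p n c → gS p n N ≤ gS p n H → Nm (gS p n H) (gS p n N) →
  Val 5 c1 (gS p n H) (gS p n N) (foD p n F) → SA R → gS p n N = UG R → c1 ≤ ν → cT p n ≤ ν →
  Cert ν (gS p n H) (gS p n (startP c H N F).1) (foD p n (startP c H N F).2) ∧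
    (startP c H N F).2.length ≤ F.length + rho0 p n

def S_QSOLVE : Prop := ∀ [γ : Gl p n] (om : V → List V) (c : Cx) (k : ℕ) (G : List V)
  (y : List V × Fo) (d : V) (a : Fin 3 → Ix n), Ok p n om c →
  a = ![Fin.last _, if k = 0 then Fin.last _ else c0 n, 0] → γ.K 1 0 →
  (∀ g w h v, γ.K g w → γ.K h v → γ.K (g * h) (pull1 h.1 w + v)) →
  (∀ g w, γ.K g w → w ∈ Wt (l0 n) (key (l0 n) a)) → (∀ g, g ∈ gS p n G ↔ ∃ w, γ.K g w) →
  fV p n d ∈ Wt (l0 n) (key (l0 n) a) → Cert γ.ν (gS p n G) (gS p n y.1) (foD p n y.2) →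
  capW p n + cT p n ≤ γ.ν → y.2.length + bet p n γ.ν ≤ c.2.2.length →
  (∀ z, z ∈ gS p n (solveP om c k G y d).1 ↔ γ.K z 0) ∧
  Cert γ.ν (gS p n (solveP om c k G y d).1) (gS p n (solveP om c k G y d).2.1.1)
    (foD p n (solveP om c k G y d).2.1.2) ∧
  (solveP om c k G y d).2.1.2.length ≤ y.2.length + bet p n γ.ν ∧
  (∀ x, (solveP om c k G y d).2.2 = some x → γ.K (gD p n x.1) (fV p n x.2) ∧
    pull1 (gD p n x.1).1 (fV p n d) + fV p n x.2 = 0) ∧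
  ((solveP om c k G y d).2.2 = none → ∀ z v, γ.K z v → pull1 z.1 (fV p n d) + v ≠ 0)

/-- the toolbox of the program -/
structure TQ : Prop extends TP p n where
  st : S_QST p n
  pre : S_QPRE p n
  dec : S_QDEC p n
  out : S_QOUT p n

end Pool.Agent.P.MP_f1a348_lc.UP.CU.AF
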