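import Pool.Agent.P.MP_f1a348_lc.AF.Prog
import Pool.Agent.P.MP_f1a348_lc.CU.PTime
import Pool.Agent.P.MP_f1a348_lc.RN.Time
import Pool.Agent.P.MP_f1a348_lc.GF.Time

/-!
Project AF: the affine recursion runs in polynomial time.
-/

namespace Pool.Agent.P.MP_f1a348_lc.UP.CU.AF

open Pool.Agent.Lib.Helper47 Pool.Agent.P.MP_f1a348_lc.PG
open Pool.Agent.P.MP_f1a348_lc.GI (ps_len)

set_option synthInstance.maxSize 4096

variable {α : Type} [Enc α]

theorem ps_bF {c : α → Cx} (h1 : PT c) : Lib.Helper47.PS (fun e => bF (c e)) :=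
  ((ps_len h1.snd.snd).mul (((PB.const 3).mul (ps_bW h1)).add (PB.const 1))).add (PB.const 1)

@[fun_prop] theorem pt_sG {s : α → PS} (h1 : PT s) : PT (fun ee => sG (s ee)) := by
  unfold sG; fun_prop

@[fun_prop] theorem pt_sX {s : α → PS} (h1 : PT s) : PT (fun ee => sX (s ee)) := by
  unfold sX; fun_prop

@[fun_prop] theorem pt_sF {s : α → PS} (h1 : PT s) : PT (fun ee => sF (s ee)) := by
  unfold sF; fun_prop

@[fun_prop] theorem pt_sV {s : α → PS} (h1 : PT s) : PT (fun ee => sV (s ee)) := by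
  unfold sV; fun_prop

@[fun_prop] theorem pt_sD {s : α → PS} (h1 : PT s) : PT (fun ee => sD (s ee)) := by
  unfold sD; fun_prop

@[fun_prop] theorem pt_sP {s : α → PS} {j : α → ℕ} (h1 : PT s) (h2 : PT j) : PT (fun ee => sP (s
    ee) (j ee)) := by
  unfold sP; fun_prop

@[fun_prop] theorem pt_fm {c : α → Cx} {s : α → PS} (h1 : PT c) (h2 : PT s) : PT (fun ee => fm (c
    ee) (s ee)) := by
  unfold fm; fun_prop

@[fun_prop] theorem pt_lP {c : α → Cx} {s : α → PS} (h1 : PT c) (h2 : PT s) : PT (fun ee => lP (c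
    ee) (s ee)) := by
  unfold lP; fun_prop

@[fun_prop] theorem pt_aj {c : α → Cx} {s : α → PS} {j : α → ℕ} (h1 : PT c) (h2 : PT s) (h3 : PT
    j) : PT (fun ee => aj (c ee) (s ee) (j ee)) := by
  unfold aj; fun_prop

@[fun_prop] theorem pt_a3 {c : α → Cx} {s : α → PS} (h1 : PT c) (h2 : PT s) : PT (fun ee => a3 (c
    ee) (s ee)) := by
  unfold a3; fun_prop

@[fun_prop] theorem pt_muP {c : α → Cx} {s : α → PS} (h1 : PT c) (h2 : PT s) : PT (fun ee => muP
    (c ee) (s ee)) := by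
  unfold muP; fun_prop

@[fun_prop] theorem pt_inL {c : α → Cx} {s : α → PS} {b : α → ℕ} (h1 : PT c) (h2 : PT s) (h3 : PT
    b) : PT (fun ee => inL (c ee) (s ee) (b ee)) := by
  unfold inL; fun_prop

@[fun_prop] theorem pt_llP {c : α → Cx} {s : α → PS} (h1 : PT c) (h2 : PT s) : PT (fun ee => llP
    (c ee) (s ee)) := by
  unfold llP; fun_prop

@[fun_prop] theorem pt_loP {c : α → Cx} {s : α → PS} {x : α → V} (h1 : PT c) (h2 : PT s) (h3 : PT
    x) : PT (fun ee => loP (c ee) (s ee) (x ee)) := by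
  unfold loP; fun_prop

@[fun_prop] theorem pt_leP {c : α → Cx} {s : α → PS} {Y : α → List V} (h1 : PT c) (h2 : PT s) (h3
    : PT Y) : PT (fun ee => leP (c ee) (s ee) (Y ee)) := by
  unfold leP; fun_prop

@[fun_prop] theorem pt_phP {c : α → Cx} {s : α → PS} {A : α → List V} (h1 : PT c) (h2 : PT s) (h3
    : PT A) : PT (fun ee => phP (c ee) (s ee) (A ee)) := by
  unfold phP; fun_prop

@[fun_prop] theorem pt_n1P {c : α → Cx} {s : α → PS} {Y : α → List V} (h1 : PT c) (h2 : PT s) (h3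
    : PT Y) : PT (fun ee => n1P (c ee) (s ee) (Y ee)) := by
  unfold n1P; fun_prop

@[fun_prop] theorem pt_ksT {c : α → Cx} {s : α → PS} {j : α → ℕ} {x : α → V} (h1 : PT c) (h2 : PT
    s) (h3 : PT j) (h4 : PT x) : PT (fun ee => ksT (c ee) (s ee) (j ee) (x ee)) := by
  unfold ksT; fun_prop

@[fun_prop] theorem pt_xkP {c : α → Cx} {s : α → PS} {j : α → ℕ} {Y : α → List V} (h1 : PT c) (h2
    : PT s) (h3 : PT j) (h4 : PT Y) : PT (fun ee => xkP (c ee) (s ee) (j ee) (Y ee)) := by
  unfold xkP; fun_prop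

@[fun_prop] theorem pt_tbP {c : α → Cx} {s : α → PS} (h1 : PT c) (h2 : PT s) : PT (fun ee => tbP
    (c ee) (s ee)) := by
  unfold tbP; fun_prop

@[fun_prop] theorem pt_memL {c : α → Cx} {s : α → PS} {Y : α → List V} {z : α → V} (h1 : PT c) (h2
    : PT s) (h3 : PT Y) (h4 : PT z) : PT (fun ee => memL (c ee) (s ee) (Y ee) (z ee)) := by
  unfold memL; fun_prop

@[fun_prop] theorem pt_preP {c : α → Cx} {s : α → PS} {Y : α → List V} {A : α → List V} (h1 : PT
    c) (h2 : PT s) (h3 : PT Y) (h4 : PT A) : PT (fun ee => preP (c ee) (s ee) (Y ee) (A ee)) := by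
  unfold preP; fun_prop

@[fun_prop] theorem pt_dlP {c : α → Cx} {s : α → PS} {w : α → V} (h1 : PT c) (h2 : PT s) (h3 : PT
    w) : PT (fun ee => dlP (c ee) (s ee) (w ee)) := by
  unfold dlP; fun_prop

@[fun_prop] theorem pt_tgP {c : α → Cx} {d : α → V} {q : α → V × V} (h1 : PT c) (h2 : PT d) (h3 :
    PT q) : PT (fun ee => tgP (c ee) (d ee) (q ee)) := by
  unfold tgP; fun_prop

@[fun_prop] theorem pt_pmP {c : α → Cx} {q : α → V × V} {r : α → V × V} (h1 : PT c) (h2 : PT q)
    (h3 : PT r) : PT (fun ee => pmP (c ee) (q ee) (r ee)) := by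
  unfold pmP; fun_prop

@[fun_prop] theorem pt_afP {om : α → V → List V} {c : α → Cx} {s : α → PS} {x : α → V} (h1 : PT
    (fun qq : α × V => om qq.1 qq.2)) (h2 : PT c) (h3 : PT s) (h4 : PT x) : PT (fun ee => afP (om
    ee) (c ee) (s ee) (x ee)) := by
  unfold afP; fun_prop

@[fun_prop] theorem pt_omP {om : α → V → List V} {c : α → Cx} {s : α → PS} {x : α → V} (h1 : PT
    (fun qq : α × V => om qq.1 qq.2)) (h2 : PT c) (h3 : PT s) (h4 : PT x) : PT (fun ee => omP (om
    ee) (c ee) (s ee) (x ee)) := by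
  unfold omP; fun_prop

@[fun_prop] theorem pt_kpP {om : α → V → List V} {c : α → Cx} {s : α → PS} {d : α → V} {x : α → V}
    (h1 : PT (fun qq : α × V => om qq.1 qq.2)) (h2 : PT c) (h3 : PT s) (h4 : PT d) (h5 : PT x) :
    PT (fun ee => kpP (om ee) (c ee) (s ee) (d ee) (x ee)) := by
  unfold kpP; fun_prop

@[fun_prop] theorem pt_s0P {om : α → V → List V} {c : α → Cx} {s : α → PS} (h1 : PT (fun qq : α ×
    V => om qq.1 qq.2)) (h2 : PT c) (h3 : PT s) : PT (fun ee => s0P (om ee) (c ee) (s ee)) := by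
  unfold s0P; fun_prop

@[fun_prop] theorem pt_prs {om : α → V → List V} {c : α → Cx} {s : α → PS} {R : α → List V} (h1 :
    PT (fun qq : α × V => om qq.1 qq.2)) (h2 : PT c) (h3 : PT s) (h4 : PT R) : PT (fun ee => prs
    (om ee) (c ee) (s ee) (R ee)) := by
  unfold prs; fun_prop

@[fun_prop] theorem pt_spS {om : α → V → List V} {c : α → Cx} {s : α → PS} (h1 : PT (fun qq : α ×
    V => om qq.1 qq.2)) (h2 : PT c) (h3 : PT s) : PT (fun ee => spS (om ee) (c ee) (s ee)) := by
  unfold spS; fun_prop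

@[fun_prop] theorem pt_leafT {om : α → V → List V} {c : α → Cx} {s : α → PS} (h1 : PT (fun qq : α
    × V => om qq.1 qq.2)) (h2 : PT c) (h3 : PT s) : PT (fun ee => leafT (om ee) (c ee) (s ee)) := by
  unfold leafT; fun_prop

@[fun_prop] theorem pt_dot {c : α → Cx} {x : α → V} {y : α → V} (h1 : PT c) (h2 : PT x) (h3 : PT
    y) : PT (fun ee => dot (c ee) (x ee) (y ee)) := by
  unfold dot; fun_prop

@[fun_prop] theorem pt_annP {om : α → V → List V} {c : α → Cx} {s : α → PS} (h1 : PT (fun qq : α ×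
    V => om qq.1 qq.2)) (h2 : PT c) (h3 : PT s) : PT (fun ee => annP (om ee) (c ee) (s ee)) := by
  unfold annP; fun_prop

@[fun_prop] theorem pt_crdT {om : α → V → List V} {c : α → Cx} {s : α → PS} {d : α → V} {i : α →
    ℕ} {x : α → V} (h1 : PT (fun qq : α × V => om qq.1 qq.2)) (h2 : PT c) (h3 : PT s) (h4 : PT d)
    (h5 : PT i) (h6 : PT x) : PT (fun ee => crdT (om ee) (c ee) (s ee) (d ee) (i ee) (x ee)) := by
  unfold crdT; fun_prop

@[fun_prop] theorem pt_solP {om : α → V → List V} {c : α → Cx} {s : α → PS} {d : α → V} {g : α →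
    V} (h1 : PT (fun qq : α × V => om qq.1 qq.2)) (h2 : PT c) (h3 : PT s) (h4 : PT d) (h5 : PT g)
    : PT (fun ee => solP (om ee) (c ee) (s ee) (d ee) (g ee)) := by
  unfold solP; fun_prop

@[fun_prop] theorem pt_leafH {om : α → V → List V} {c : α → Cx} {s : α → PS} (h1 : PT (fun qq : α
    × V => om qq.1 qq.2)) (h2 : PT c) (h3 : PT s) : PT (fun ee => leafH (om ee) (c ee) (s ee)) := by
  unfold leafH; fun_prop

@[fun_prop] theorem pt_solW {om : α → V → List V} {c : α → Cx} {s : α → PS} {x : α → V} (h1 : PT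
    (fun qq : α × V => om qq.1 qq.2)) (h2 : PT c) (h3 : PT s) (h4 : PT x) : PT (fun ee => solW (om
    ee) (c ee) (s ee) (x ee)) := by
  unfold solW; fun_prop

@[fun_prop] theorem pt_leafS {om : α → V → List V} {c : α → Cx} {s : α → PS} (h1 : PT (fun qq : α
    × V => om qq.1 qq.2)) (h2 : PT c) (h3 : PT s) : PT (fun ee => leafS (om ee) (c ee) (s ee)) := by
  unfold leafS; fun_prop

@[fun_prop] theorem pt_outQ {H : α → List V} {y : α → List V × Fo} {φ : α → Option (V × V)} (h1 :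
    PT H) (h2 : PT y) (h3 : PT φ) : PT (fun ee => outQ (H ee) (y ee) (φ ee)) := by
  unfold outQ; fun_prop

@[fun_prop] theorem pt_outC {c : α → Cx} {s : α → PS} {H : α → List V} {φ : α → Option (V × V)}
    (h1 : PT c) (h2 : PT s) (h3 : PT H) (h4 : PT φ) : PT (fun ee => outC (c ee) (s ee) (H ee) (φ
    ee)) := by
  unfold outC; fun_prop

@[fun_prop] theorem pt_paidP {c : α → Cx} {s : α → PS} {k : α → ℕ} {A : α → List V} (h1 : PT c)
    (h2 : PT s) (h3 : PT k) (h4 : PT A) : PT (fun ee => paidP (c ee) (s ee) (k ee) (A ee)) := by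
  unfold paidP; fun_prop

@[fun_prop] theorem pt_brS {om : α → V → List V} {c : α → Cx} {s : α → PS} {Q : α → List V} {π : α
    → List (Option PPt)} {R : α → List V} (h1 : PT (fun qq : α × V => om qq.1 qq.2)) (h2 : PT c)
    (h3 : PT s) (h4 : PT Q) (h5 : PT π) (h6 : PT R) : PT (fun ee => brS (om ee) (c ee) (s ee) (Q
    ee) (π ee) (R ee)) := by
  unfold brS; fun_prop

@[fun_prop] theorem pt_tryR {om : α → V → List V} {c : α → Cx} {s : α → PS} {Q : α → List V} {R :
    α → List V} (h1 : PT (fun qq : α × V => om qq.1 qq.2)) (h2 : PT c) (h3 : PT s) (h4 : PT Q) (h5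
    : PT R) : PT (fun ee => tryR (om ee) (c ee) (s ee) (Q ee) (R ee)) := by
  unfold tryR; fun_prop

@[fun_prop] theorem pt_tryQ {om : α → V → List V} {c : α → Cx} {s : α → PS} {t : α → V → Bool} (h1
    : PT (fun qq : α × V => om qq.1 qq.2)) (h2 : PT c) (h3 : PT s) (h4 : PT (fun qq : α × V => t
    qq.1 qq.2)) : PT (fun ee => tryQ (om ee) (c ee) (s ee) (t ee)) := by
  unfold tryQ; fun_prop

@[fun_prop] theorem pt_ruleA {om : α → V → List V} {c : α → Cx} {s : α → PS} (h1 : PT (fun qq : α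
    × V => om qq.1 qq.2)) (h2 : PT c) (h3 : PT s) : PT (fun ee => ruleA (om ee) (c ee) (s ee)) := by
  unfold ruleA; fun_prop

@[fun_prop] theorem pt_qbT {c : α → Cx} {s : α → PS} {W : α → List V} {v : α → V} {x : α → V} (h1
    : PT c) (h2 : PT s) (h3 : PT W) (h4 : PT v) (h5 : PT x) : PT (fun ee => qbT (c ee) (s ee) (W
    ee) (v ee) (x ee)) := by
  unfold qbT; fun_prop

@[fun_prop] theorem pt_ruleB {om : α → V → List V} {c : α → Cx} {s : α → PS} (h1 : PT (fun qq : α
    × V => om qq.1 qq.2)) (h2 : PT c) (h3 : PT s) : PT (fun ee => ruleB (om ee) (c ee) (s ee)) := by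
  unfold ruleB; fun_prop

@[fun_prop] theorem pt_ptP {c : α → Cx} {s : α → PS} {j : α → ℕ} (h1 : PT c) (h2 : PT s) (h3 : PT
    j) : PT (fun ee => ptP (c ee) (s ee) (j ee)) := by
  unfold ptP; fun_prop

@[fun_prop] theorem pt_abT {c : α → Cx} {s : α → PS} {j : α → ℕ} {C : α → List V} (h1 : PT c) (h2
    : PT s) (h3 : PT j) (h4 : PT C) : PT (fun ee => abT (c ee) (s ee) (j ee) (C ee)) := by
  unfold abT; fun_prop

@[fun_prop] theorem pt_setP {s : α → PS} {j : α → ℕ} {π : α → PPt} (h1 : PT s) (h2 : PT j) (h3 :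
    PT π) : PT (fun ee => setP (s ee) (j ee) (π ee)) := by
  unfold setP; fun_prop

@[fun_prop] theorem pt_brE {om : α → V → List V} {c : α → Cx} {s : α → PS} {j : α → ℕ} {π : α →
    PPt} {Q : α → List V} (h1 : PT (fun qq : α × V => om qq.1 qq.2)) (h2 : PT c) (h3 : PT s) (h4 :
    PT j) (h5 : PT π) (h6 : PT Q) : PT (fun ee => brE (om ee) (c ee) (s ee) (j ee) (π ee) (Q ee))
    := by
  unfold brE; fun_prop

@[fun_prop] theorem pt_brD {om : α → V → List V} {c : α → Cx} {s : α → PS} {j : α → ℕ} {π : α →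
    PPt} {P : α → List V} {F : α → Fo} (h1 : PT (fun qq : α × V => om qq.1 qq.2)) (h2 : PT c) (h3
    : PT s) (h4 : PT j) (h5 : PT π) (h6 : PT P) (h7 : PT F) : PT (fun ee => brD (om ee) (c ee) (s
    ee) (j ee) (π ee) (P ee) (F ee)) := by
  unfold brD; fun_prop

@[fun_prop] theorem pt_ruleD1 {om : α → V → List V} {c : α → Cx} {s : α → PS} {j : α → ℕ} {π : α →
    PPt} {G1 : α → List V} (h1 : PT (fun qq : α × V => om qq.1 qq.2)) (h2 : PT c) (h3 : PT s) (h4
    : PT j) (h5 : PT π) (h6 : PT G1) : PT (fun ee => ruleD1 (om ee) (c ee) (s ee) (j ee) (π ee)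
    (G1 ee)) := by
  unfold ruleD1; fun_prop

@[fun_prop] theorem pt_ruleD {om : α → V → List V} {c : α → Cx} {s : α → PS} (h1 : PT (fun qq : α
    × V => om qq.1 qq.2)) (h2 : PT c) (h3 : PT s) : PT (fun ee => ruleD (om ee) (c ee) (s ee)) := by
  unfold ruleD; fun_prop

@[fun_prop] theorem pt_qcT {c : α → Cx} {s : α → PS} {C : α → V} {x : α → V} (h1 : PT c) (h2 : PT
    s) (h3 : PT C) (h4 : PT x) : PT (fun ee => qcT (c ee) (s ee) (C ee) (x ee)) := by
  unfold qcT; fun_prop

@[fun_prop] theorem pt_ruleC {om : α → V → List V} {c : α → Cx} {s : α → PS} (h1 : PT (fun qq : α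
    × V => om qq.1 qq.2)) (h2 : PT c) (h3 : PT s) : PT (fun ee => ruleC (om ee) (c ee) (s ee)) := by
  unfold ruleC; fun_prop

@[fun_prop] theorem pt_plS {om : α → V → List V} {c : α → Cx} {s : α → PS} (h1 : PT (fun qq : α ×
    V => om qq.1 qq.2)) (h2 : PT c) (h3 : PT s) : PT (fun ee => plS (om ee) (c ee) (s ee)) := by
  unfold plS; fun_prop

@[fun_prop] theorem pt_engS {om : α → V → List V} {c : α → Cx} {s : α → PS} (h1 : PT (fun qq : α ×
    V => om qq.1 qq.2)) (h2 : PT c) (h3 : PT s) : PT (fun ee => engS (om ee) (c ee) (s ee)) := by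
  unfold engS RN.engF; fun_prop

@[fun_prop] theorem pt_mvL {c : α → Cx} {s : α → PS} {R : α → List V} {Z : α → List V} (h1 : PT c)
    (h2 : PT s) (h3 : PT R) (h4 : PT Z) : PT (fun ee => mvL (c ee) (s ee) (R ee) (Z ee)) := by
  unfold mvL; fun_prop

@[fun_prop] theorem pt_brF {om : α → V → List V} {c : α → Cx} {s : α → PS} {Q : α → List V} {y : α
    → List V × Fo} {R : α → List V} {Z : α → List V} {Z' : α → List V} (h1 : PT (fun qq : α × V =>
    om qq.1 qq.2)) (h2 : PT c) (h3 : PT s) (h4 : PT Q) (h5 : PT y) (h6 : PT R) (h7 : PT Z) (h8 :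
    PT Z') : PT (fun ee => brF (om ee) (c ee) (s ee) (Q ee) (y ee) (R ee) (Z ee) (Z' ee)) := by
  unfold brF; fun_prop

@[fun_prop] theorem pt_brG {om : α → V → List V} {c : α → Cx} {s : α → PS} {Q : α → List V} {R : α
    → List V} {Z : α → List V} {Z' : α → List V} (h1 : PT (fun qq : α × V => om qq.1 qq.2)) (h2 :
    PT c) (h3 : PT s) (h4 : PT Q) (h5 : PT R) (h6 : PT Z) (h7 : PT Z') : PT (fun ee => brG (om ee)
    (c ee) (s ee) (Q ee) (R ee) (Z ee) (Z' ee)) := by
  unfold brG; fun_prop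

@[fun_prop] theorem pt_ruleE {om : α → V → List V} {c : α → Cx} {s : α → PS} (h1 : PT (fun qq : α
    × V => om qq.1 qq.2)) (h2 : PT c) (h3 : PT s) : PT (fun ee => ruleE (om ee) (c ee) (s ee)) := by
  unfold ruleE; fun_prop

@[fun_prop] theorem pt_rl4 {om : α → V → List V} {c : α → Cx} {s : α → PS} (h1 : PT (fun qq : α ×
    V => om qq.1 qq.2)) (h2 : PT c) (h3 : PT s) : PT (fun ee => rl4 (om ee) (c ee) (s ee)) := by
  unfold rl4; fun_prop

@[fun_prop] theorem pt_brP {om : α → V → List V} {c : α → Cx} {s : α → PS} (h1 : PT (fun qq : α ×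
    V => om qq.1 qq.2)) (h2 : PT c) (h3 : PT s) : PT (fun ee => brP (om ee) (c ee) (s ee)) := by
  unfold brP; fun_prop

@[fun_prop] theorem pt_freS {om : α → V → List V} {c : α → Cx} {s : α → PS} (h1 : PT (fun qq : α ×
    V => om qq.1 qq.2)) (h2 : PT c) (h3 : PT s) : PT (fun ee => freS (om ee) (c ee) (s ee)) := by
  unfold freS; fun_prop

@[fun_prop] theorem pt_psT {om : α → V → List V} {c : α → Cx} {s : α → PS} {e : α → ℕ × V} {d : α
    → V} {x : α → V} (h1 : PT (fun qq : α × V => om qq.1 qq.2)) (h2 : PT c) (h3 : PT s) (h4 : PT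
    e) (h5 : PT d) (h6 : PT x) : PT (fun ee => psT (om ee) (c ee) (s ee) (e ee) (d ee) (x ee)) := by
  unfold psT; fun_prop

@[fun_prop] theorem pt_outF {om : α → V → List V} {c : α → Cx} {s : α → PS} {e : α → ℕ × V} (h1 :
    PT (fun qq : α × V => om qq.1 qq.2)) (h2 : PT c) (h3 : PT s) (h4 : PT e) : PT (fun ee => outF
    (om ee) (c ee) (s ee) (e ee)) := by
  unfold outF; fun_prop

@[fun_prop] theorem pt_ungQ {c : α → Cx} {s : α → PS} {Q : α → List V} {F : α → Fo} {o : α → PO}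
    {K : α → List V} {y : α → List V × Fo} (h1 : PT c) (h2 : PT s) (h3 : PT Q) (h4 : PT F) (h5 :
    PT o) (h6 : PT K) (h7 : PT y) : PT (fun ee => ungQ (c ee) (s ee) (Q ee) (F ee) (o ee) (K ee)
    (y ee)) := by
  unfold ungQ; fun_prop

@[fun_prop] theorem pt_kkP {c : α → Cx} {s : α → PS} {H : α → List V} (h1 : PT c) (h2 : PT s) (h3
    : PT H) : PT (fun ee => kkP (c ee) (s ee) (H ee)) := by
  unfold kkP; fun_prop

@[fun_prop] theorem pt_ungP {c : α → Cx} {s : α → PS} {Q : α → List V} {F : α → Fo} {o : α → PO}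
    (h1 : PT c) (h2 : PT s) (h3 : PT Q) (h4 : PT F) (h5 : PT o) : PT (fun ee => ungP (c ee) (s ee)
    (Q ee) (F ee) (o ee)) := by
  unfold ungP; fun_prop

@[fun_prop] theorem pt_todo {x : α → Fm} (h1 : PT x) : PT (fun ee => todo (x ee)) := by
  unfold todo; fun_prop

@[fun_prop] theorem pt_acc {x : α → Fm} (h1 : PT x) : PT (fun ee => acc (x ee)) := by
  unfold acc; fun_prop

@[fun_prop] theorem pt_resetP {c : α → Cx} {s : α → PS} (h1 : PT c) (h2 : PT s) : PT (fun ee =>
    resetP (c ee) (s ee)) := by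
  unfold resetP; fun_prop

@[fun_prop] theorem pt_kidP {s : α → PS} {b : α → PB} (h1 : PT s) (h2 : PT b) : PT (fun ee => kidP
    (s ee) (b ee)) := by
  unfold kidP; fun_prop

@[fun_prop] theorem pt_initB {c : α → Cx} {s : α → PS} {b : α → PB} (h1 : PT c) (h2 : PT s) (h3 :
    PT b) : PT (fun ee => initB (c ee) (s ee) (b ee)) := by
  unfold initB; fun_prop

@[fun_prop] theorem pt_initF {c : α → Cx} {s : α → PS} {o : α → PO} (h1 : PT c) (h2 : PT s) (h3 :
    PT o) : PT (fun ee => initF (c ee) (s ee) (o ee)) := by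
  unfold initF; fun_prop

@[fun_prop] theorem pt_init1 {om : α → V → List V} {c : α → Cx} {s : α → PS} (h1 : PT (fun qq : α
    × V => om qq.1 qq.2)) (h2 : PT c) (h3 : PT s) : PT (fun ee => init1 (om ee) (c ee) (s ee)) := by
  unfold init1; fun_prop

@[fun_prop] theorem pt_inBx {c : α → Cx} {s : α → PS} {i : α → ℕ} (h1 : PT c) (h2 : PT s) (h3 : PT
    i) : PT (fun ee => inBx (c ee) (s ee) (i ee)) := by
  unfold inBx; fun_prop

@[fun_prop] theorem pt_boxT {c : α → Cx} {s : α → PS} {k : α → PS} {i : α → ℕ} (h1 : PT c) (h2 :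
    PT s) (h3 : PT k) (h4 : PT i) : PT (fun ee => boxT (c ee) (s ee) (k ee) (i ee)) := by
  unfold boxT; fun_prop

@[fun_prop] theorem pt_init2 {om : α → V → List V} {c : α → Cx} {s : α → PS} {k : α → PS} (h1 : PT
    (fun qq : α × V => om qq.1 qq.2)) (h2 : PT c) (h3 : PT s) (h4 : PT k) : PT (fun ee => init2
    (om ee) (c ee) (s ee) (k ee)) := by
  unfold init2; fun_prop

@[fun_prop] theorem pt_refS {s : α → PS} {x : α → Lt} (h1 : PT s) (h2 : PT x) : PT (fun ee => refS
    (s ee) (x ee)) := by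
  unfold refS; fun_prop

@[fun_prop] theorem pt_init {om : α → V → List V} {c : α → Cx} {s : α → PS} (h1 : PT (fun qq : α ×
    V => om qq.1 qq.2)) (h2 : PT c) (h3 : PT s) : PT (fun ee => init (om ee) (c ee) (s ee)) := by
  unfold init; fun_prop

@[fun_prop] theorem pt_belP {c : α → Cx} {s : α → PS} {k : α → PS} {t : α → ℕ} {w : α → V} (h1 :
    PT c) (h2 : PT s) (h3 : PT k) (h4 : PT t) (h5 : PT w) : PT (fun ee => belP (c ee) (s ee) (k
    ee) (t ee) (w ee)) := by
  unfold belP; fun_prop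

@[fun_prop] theorem pt_keyB {c : α → Cx} {k : α → PS} {b : α → ℕ} (h1 : PT c) (h2 : PT k) (h3 : PT
    b) : PT (fun ee => keyB (c ee) (k ee) (b ee)) := by
  unfold keyB; fun_prop

@[fun_prop] theorem pt_subS {c : α → Cx} {s : α → PS} {k : α → PS} {b : α → ℕ} {o : α → PO} (h1 :
    PT c) (h2 : PT s) (h3 : PT k) (h4 : PT b) (h5 : PT o) : PT (fun ee => subS (c ee) (s ee) (k
    ee) (b ee) (o ee)) := by
  unfold subS; fun_prop

@[fun_prop] theorem pt_tgS {k : α → PS} {w : α → V} (h1 : PT k) (h2 : PT w) : PT (fun ee => tgS (k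
    ee) (w ee)) := by
  unfold tgS; fun_prop

@[fun_prop] theorem pt_call {c : α → Cx} {x : α → Fm} {q : α → ℕ × V × V} (h1 : PT c) (h2 : PT x)
    (h3 : PT q) : PT (fun ee => call (c ee) (x ee) (q ee)) := by
  unfold call; fun_prop

@[fun_prop] theorem pt_nextP {c : α → Cx} {o : α → PO} {r : α → PO} (h1 : PT c) (h2 : PT o) (h3 :
    PT r) : PT (fun ee => nextP (c ee) (o ee) (r ee)) := by
  unfold nextP; fun_prop

@[fun_prop] theorem pt_joinP {c : α → Cx} {q : α → ℕ × V × V} {o : α → PO} {r : α → PO} (h1 : PT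
    c) (h2 : PT q) (h3 : PT o) (h4 : PT r) : PT (fun ee => joinP (c ee) (q ee) (o ee) (r ee)) := by
  unfold joinP; fun_prop

@[fun_prop] theorem pt_feed {c : α → Cx} {x : α → Fm} {r : α → PO} (h1 : PT c) (h2 : PT x) (h3 :
    PT r) : PT (fun ee => feed (c ee) (x ee) (r ee)) := by
  unfold feed; fun_prop

@[fun_prop] theorem pt_fin {c : α → Cx} {x : α → Fm} (h1 : PT c) (h2 : PT x) : PT (fun ee => fin
    (c ee) (x ee)) := by
  unfold fin; fun_prop

@[fun_prop] theorem pt_clQ {c : α → Cx} {q : α → V × V} (h1 : PT c) (h2 : PT q) : PT (fun ee =>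
    clQ (c ee) (q ee)) := by
  unfold clQ; fun_prop

@[fun_prop] theorem pt_clS {c : α → Cx} {s : α → PS} (h1 : PT c) (h2 : PT s) : PT (fun ee => clS
    (c ee) (s ee)) := by
  unfold clS; fun_prop

@[fun_prop] theorem pt_clO {c : α → Cx} {o : α → PO} (h1 : PT c) (h2 : PT o) : PT (fun ee => clO
    (c ee) (o ee)) := by
  unfold clO; fun_prop

@[fun_prop] theorem pt_clM {c : α → Cx} {x : α → Fm} (h1 : PT c) (h2 : PT x) : PT (fun ee => clM
    (c ee) (x ee)) := by
  unfold clM; fun_prop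

@[fun_prop] theorem pt_stepM {om : α → V → List V} {c : α → Cx} {L : α → List Fm} (h1 : PT (fun qq
    : α × V => om qq.1 qq.2)) (h2 : PT c) (h3 : PT L) : PT (fun ee => stepM (om ee) (c ee) (L ee))
    := by
  unfold stepM; fun_prop

theorem size_clQ (c : Cx) (q : V × V) : size (clQ c q) ≤ bv c (u2 c) + bv c (u3 c) + 1 := by
  have h1 := size_nrm c q.1
  have h2 : size (nv c (u3 c) q.2) ≤ _ := size_tab _ _ _
  simp only [clQ, size_pair]; omega

theorem size_clS {c : Cx} (h0 : 0 < mM c) (s : PS) :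
    size (clS c s) ≤ 20 * bW c + 4 * bF c + bb c (u3 c) := by
  have h1 : size (fm c s) ≤ _ := size_nrm _ _
  have h2 : size (lP c s) ≤ _ := size_nl _ _
  have h3 : size (a3 c s) ≤ 3 * (4 * mM c + 1 + 1) + 1 := size_list_le' (fun y hy => by
    obtain ⟨j, -, rfl⟩ := List.mem_map.1 hy
    exact size_le_m (Nat.mod_lt _ h0).le) le_rfl
  have h4 : size (muP c s) ≤ 3 * (4 * mM c + 1 + 1) + 1 := size_list_le' (fun y hy => by
    obtain ⟨j, -, rfl⟩ := List.mem_map.1 hy
    exact size_le_m (Nat.min_le_right _ _)) le_rfl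
  have h5 := size_red c (sG s)
  have h6 := size_red c (sX s)
  have h7 := size_clF c (sF s)
  have h8 : size ([0, 1, 2].map fun j => (sP s j).map (clP1 c)) ≤
      3 * (3 * bW c + bF c + 2 + 1) + 1 := size_list_le' (fun y hy => by
    obtain ⟨j, -, rfl⟩ := List.mem_map.1 hy
    cases sP s j with
    | none => simp
    | some π => simpa using size_clP1 h0 π) le_rfl
  have h9 := size_basis c (u3 c) (sV s)
  have h10 : size (nv c (u3 c) (sD s)) ≤ _ := size_tab _ _ _
  simp only [clS, size_pair, bW] at h8 ⊢; omega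

theorem size_clO (c : Cx) (o : PO) : size (clO c o) ≤ 3 * bW c + bF c := by
  have h1 := size_red c o.1
  have h2 := size_red c o.2.1
  have h3 := size_clF c o.2.2.1
  have h4 : size (o.2.2.2.map (clQ c)) ≤ bv c (u2 c) + bv c (u3 c) + 1 + 2 := by
    cases o.2.2.2 with
    | none => simp
    | some g => simpa using size_clQ c g
  simp only [clO, size_pair, bW]; omega

theorem size_clM {c : Cx} (h0 : 0 < mM c) (x : Fm) :
    size (clM c x) + 1 ≤ 50 * bW c + 11 * bF c + 2 * bb c (u3 c) := by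
  have h1 := size_bool x.1
  have h2 := size_clS h0 x.2.1
  have h3 := size_clS h0 x.2.2.1
  have h4 := size_clF c x.2.2.2.1
  have h5 : size (((todo x).take c.2.2.length).map fun q => (mn c q.1, clQ c q.2)) ≤ bF c :=
    size_list_le' (fun y hy => by
      obtain ⟨q, -, rfl⟩ := List.mem_map.1 hy
      have a1 := size_mn c q.1
      have a2 := size_clQ c q.2
      simp only [size_pair, bW]; omega) (by rw [List.length_map]; exact List.length_take_le _ _)
  have h6 := size_clO c (acc x)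
  have h7 : 20 ≤ bW c := Nat.le_add_left _ _
  simp only [clM, size_pair]; omega

theorem size_stepM (om : V → List V) {c : Cx} (h0 : 0 < mM c) (L : List Fm) :
    size (stepM om c L) ≤ size L + (50 * bW c + 11 * bF c + 2 * bb c (u3 c)) := by
  unfold stepM
  cases L with
  | nil => exact Nat.le_add_right _ _
  | cons x L =>
    simp only [List.head?_cons, Option.elim_some, List.tail_cons]
    cases (todo x).head? with
    | some q =>
      have := size_clM h0 (init om c (call c x q))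
      rw [Option.elim_some, size_cons]; omega
    | none =>
      cases L with
      | nil => exact Nat.le_add_right _ _
      | cons y L =>
        have := size_clM h0 (feed c y (fin c x))
        simp only [Option.elim_none, List.head?_cons, Option.elim_some, List.tail_cons, size_cons]
        omega

theorem pt_runM {om : α → V → List V} {c : α → Cx} {s : α → PS} (h1 : PT (fun qq : α × V => om
    qq.1 qq.2)) (h2 : PT c) (h3 : PT s) (h0 : ∀ e, 0 < mM (c e)) : PT (fun ee => runM (om ee) (c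
    ee) (s ee)) :=
  PT.foldl_add (f := fun e L _ => stepM (om e) (c e) L) (by fun_prop) (by fun_prop) (by fun_prop) _
    ((((PB.const 50).mul (ps_bW h2)).add ((PB.const 11).mul (ps_bF h2))).add
      ((PB.const 2).mul (ps_bb h2 (pt_u3 h2))))
    fun e _ _ _ => size_stepM _ (h0 e) _

@[fun_prop] theorem pt_rootP {c : α → Cx} {k : α → ℕ} {G : α → List V} {y : α → List V × Fo} {d :
    α → V} (h1 : PT c) (h2 : PT k) (h3 : PT G) (h4 : PT y) (h5 : PT d) : PT (fun ee => rootP (c
    ee) (k ee) (G ee) (y ee) (d ee)) := by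
  unfold rootP; fun_prop

@[fun_prop] theorem pt_startP {c : α → Cx} {H : α → List V} {N : α → List V} {F : α → Fo} (h1 : PT
    c) (h2 : PT H) (h3 : PT N) (h4 : PT F) : PT (fun ee => startP (c ee) (H ee) (N ee) (F ee)) := by
  unfold startP; fun_prop

@[fun_prop] theorem pt_endP {c : α → Cx} {F : α → Fo} {o : α → PO} (h1 : PT c) (h2 : PT F) (h3 :
    PT o) : PT (fun ee => endP (c ee) (F ee) (o ee)) := by
  unfold endP; fun_prop

@[fun_prop] theorem pt_omA {om : α → V → V} {S0 : α → List V} {x : α → V} (h1 : PT (fun qq : α × V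
    => om qq.1 qq.2)) (h2 : PT S0) (h3 : PT x) : PT (fun ee => omA (om ee) (S0 ee) (x ee)) := by
  unfold omA; fun_prop

theorem pt_solveP {om : α → V → List V} {c : α → Cx} {k : α → ℕ} {G : α → List V} {y : α → List V
    × Fo} {d : α → V} (h1 : PT (fun qq : α × V => om qq.1 qq.2)) (h2 : PT c) (h3 : PT k) (h4 : PT
    G) (h5 : PT y) (h6 : PT d) (h0 : ∀ e, 0 < mM (c e)) : PT (fun ee => solveP (om ee) (c ee) (k
    ee) (G ee) (y ee) (d ee)) := by
  have := pt_runM h1 h2 (pt_rootP h2 h3 h4 h5 h6) h0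
  unfold solveP; fun_prop

theorem size_solveP (om : V → List V) (c : Cx) (k : ℕ) (G : List V) (y : List V × Fo) (d : V) :
    size (solveP om c k G y d).2.1 ≤ bR c + bF c + 1 := by
  unfold solveP endP
  generalize List.headD _ _ = o
  have h1 := size_red c o.2.1
  have h2 := size_clF c (y.2 ++ o.2.2.1)
  simp only [size_pair]; omega

end Pool.Agent.P.MP_f1a348_lc.UP.CU.AF
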