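import Pool.Agent.P.MP_f1a348_lc.CU.Prog
import Pool.Agent.P.MP_f1a348_lc.RN.ProgF

/-!
Project AF: the program of the affine recursion.  The oracle `om` sends a group element to a list
that spans the affine space of its values.
-/

namespace Pool.Agent.P.MP_f1a348_lc.UP.CU.AF

open Pool.Agent.P.MP_f1a348_lc.PG

/-! ### states -/

/-- (frame, labels, box, scales), (group, core, forest), pointers, space of values, target -/
abbrev PS : Type := (V × V × V × V) × (List V × List V × Fo) × List (Option PPt) × List V × V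
/-- stabiliser, core, forest, solution -/
abbrev PO : Type := List V × List V × Fo × Option (V × V)
/-- (subgroup, core, forest), pointers, representatives -/
abbrev PB : Type := (List V × List V × Fo) × List (Option PPt) × List (V × V) × List (V × V)

def sG (s : PS) : List V := s.2.1.1
def sX (s : PS) : List V := s.2.1.2.1
def sF (s : PS) : Fo := s.2.1.2.2
def sV (s : PS) : List V := s.2.2.2.1
def sD (s : PS) : V := s.2.2.2.2
def sP (s : PS) (j : ℕ) : Option PPt := s.2.2.1.getD j none
def fm (c : Cx) (s : PS) : V := nrm c s.1.1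
def lP (c : Cx) (s : PS) : V := nl c s.1.2.1
def aj (c : Cx) (s : PS) (j : ℕ) : ℕ := s.1.2.2.1.getD j 0 % mM c
def a3 (c : Cx) (s : PS) : V := [0, 1, 2].map (aj c s)
def muP (c : Cx) (s : PS) : V := [0, 1, 2].map fun j => min (s.1.2.2.2.getD j 0) (mM c)
def inL (c : Cx) (s : PS) (b : ℕ) : Bool :=
  [0, 1, 2].any fun j => same (lP c s) b (aj c s j) || same (lP c s) b (rv c (aj c s j))
def llP (c : Cx) (s : PS) : V :=
  (ran (u1 c)).map fun b => bif inL c s b then (lP c s).getD b 0 else b
def loP (c : Cx) (s : PS) (x : V) : V := locP c (fm c s) (lP c s) (diagP c (inL c s)) x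
def leP (c : Cx) (s : PS) (Y : List V) : List V := basis c (u2 c) ((envP c Y).map (loP c s))
def phP (c : Cx) (s : PS) (A : List V) : ℕ := potP c (muP c s) (llP c s) A
def n1P (c : Cx) (s : PS) (Y : List V) : List V := kerP c (loP c s) Y
def ksT (c : Cx) (s : PS) (j : ℕ) (x : V) : Bool :=
  meq c (mmul c (mmul c (prP c (lP c s) (aj c s j)) (frP c (fm c s) x)) (prP c (lP c s) (aj c s j)))
    (prP c (lP c s) (aj c s j))
def xkP (c : Cx) (s : PS) (j : ℕ) (Y : List V) : Bool := Y.all fun x => ksT c s j (nrm c x)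
def tbP (c : Cx) (s : PS) : Bool := [0, 1, 2].any fun j => xkP c s j (sX s)
/-- membership in the group of the local models of `Y` -/
def memL (c : Cx) (s : PS) (Y : List V) (z : V) : Bool :=
  memG c (Y.map fun y => loP c s (nrm c y)) z
def preP (c : Cx) (s : PS) (Y A : List V) : List V :=
  klP c (loP c s) Y (subG c (memL c s Y) (GF.genQ c (llP c s) A))

/-! ### values -/

def dlP (c : Cx) (s : PS) (w : V) : V :=
  cmpP c (lP c s) (tP c (lP c s) (a3 c s) 0) (pull1P c (fm c s) w)
/-- the new target -/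
def tgP (c : Cx) (d : V) (q : V × V) : V := axpy c (u3 c) 1 (pull1P c (nrm c q.1) d) q.2
/-- the product of pairs -/
def pmP (c : Cx) (q r : V × V) : V × V := (gmul c q.1 r.1, tgP c q.2 r)
def afP (om : V → List V) (c : Cx) (s : PS) (x : V) : List V :=
  preim c (u3 c) (() :: u3 c) (om x) (fun y => y.tail) (sV s)
/-- a value at `x` -/
def omP (om : V → List V) (c : Cx) (s : PS) (x : V) : V := (aff c (u3 c) (afP om c s x)).getD []
def kpP (om : V → List V) (c : Cx) (s : PS) (d x : V) : V := dlP c s (tgP c d (x, omP om c s x))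
def s0P (om : V → List V) (c : Cx) (s : PS) : List V :=
  (afP om c s (oneP c)).map fun y => dlP c s y.tail
def prs (om : V → List V) (c : Cx) (s : PS) (R : List V) : List (V × V) :=
  R.map fun t => (t, omP om c s t)

/-! ### leaves -/

def spS (om : V → List V) (c : Cx) (s : PS) : List V :=
  s0P om c s ++ (n1P c s (sG s)).map (kpP om c s [])
def leafT (om : V → List V) (c : Cx) (s : PS) : Bool :=
  (sG s).all fun g => mem c (u3 c) (spS om c s) (kpP om c s [] g)
def dot (c : Cx) (x y : V) : ℕ := sm (u3 c) fun k => x.getD k 0 * y.getD k 0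
/-- the functionals that vanish on the values at the unit element -/
def annP (om : V → List V) (c : Cx) (s : PS) : List V :=
  preAll c [()] (u3 c) (units c (u3 c)) (s0P om c s) (fun w y => [dot c w y]) []
def crdT (om : V → List V) (c : Cx) (s : PS) (d : V) (i : ℕ) (x : V) : Bool :=
  dot c (kpP om c s d x) ((annP om c s).getD i []) % pp c == 0
def solP (om : V → List V) (c : Cx) (s : PS) (d g : V) : V :=
  cos c (crdT om c s []) (crdT om c s d) (ran (u3 c)) g (n1P c s (sG s))
def leafH (om : V → List V) (c : Cx) (s : PS) : List V :=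
  (sG s).map (solP om c s []) ++ subs c (crdT om c s []) (ran (u3 c)) (n1P c s (sG s))
/-- a value at `x` that solves the equation -/
def solW (om : V → List V) (c : Cx) (s : PS) (x : V) : Option (V × V) :=
  (aff c (u3 c) (preim c (u3 c) (() :: u3 c) (afP om c s x) (fun y => dlP c s
    (axpy c (u3 c) (y.getD 0 0) (pull1P c (nrm c x) (sD s)) y.tail)) [])).map fun w => (x, w)
def leafS (om : V → List V) (c : Cx) (s : PS) : Option (V × V) :=
  solW om c s (solP om c s (sD s) (oneP c))
def outQ (H : List V) (y : List V × Fo) (φ : Option (V × V)) : PO := (H, y.1, y.2, φ)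
def outC (c : Cx) (s : PS) (H : List V) (φ : Option (V × V)) : PO :=
  outQ H (coreP c H (capN c H (sX s))) φ

/-! ### the rules -/

def paidP (c : Cx) (s : PS) (k : ℕ) (A : List V) : Bool :=
  Nat.ble (pp c * k * pwN c (200 * phP c s A)) (pwN c (200 * phP c s (leP c s (sG s))))
def brS (om : V → List V) (c : Cx) (s : PS) (Q : List V) (π : List (Option PPt)) (R : List V) :
    PB := ((Q, sX s, []), π, prs om c s R, prs om c s R)
def tryR (om : V → List V) (c : Cx) (s : PS) (Q R : List V) : List PB :=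
  chk (Nat.ble R.length c.2.2.length && paidP c s R.length (leP c s Q)) (brS om c s Q s.2.2.1 R)
def tryQ (om : V → List V) (c : Cx) (s : PS) (t : V → Bool) : List PB :=
  tryR om c s (subG c t (sG s)) (bfs c t (sG s))
def ruleA (om : V → List V) (c : Cx) (s : PS) : List PB :=
  [0, 1, 2].flatMap fun j => chk (xkP c s j (sX s) && !xkP c s j (sG s) &&
    Nat.ble (bfs c (ksT c s j) (sG s)).length (pwN c (23 * mM c)))
    (brS om c s (subG c (ksT c s j) (sG s)) s.2.2.1 (bfs c (ksT c s j) (sG s)))
def qbT (c : Cx) (s : PS) (W : List V) (v x : V) : Bool :=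
  mem c (u1 c) W (mvec c (loP c s x) v)
def ruleB (om : V → List V) (c : Cx) (s : PS) : List PB :=
  [0, 1, 2].flatMap fun j => (blkP c (llP c s) (aj c s j)).flatMap fun v =>
    tryQ om c s (qbT c s (orbP c (leP c s (sX s)) v) v)
def ptP (c : Cx) (s : PS) (j : ℕ) : PPt := (sP s j).getD (sG s, fm c s, lP c s, aj c s j, sF s)
def abT (c : Cx) (s : PS) (j : ℕ) (C : List V) : Bool :=
  C.all fun a => C.all fun b => ksT c s j (gcom c a b)
def setP (s : PS) (j : ℕ) (π : PPt) : List (Option PPt) :=
  [0, 1, 2].map fun i => bif i == j then some π else sP s i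
def brE (om : V → List V) (c : Cx) (s : PS) (j : ℕ) (π : PPt) (Q : List V) : PB :=
  brS om c s Q (setP s j π) (bfs c (memG c Q) (sG s))
def brD (om : V → List V) (c : Cx) (s : PS) (j : ℕ) (π : PPt) (P : List V) (F : Fo) : PB :=
  brE om c s j (P, π.2.1, π.2.2.1, π.2.2.2.1, F) (trn c π (sG s) P)
def ruleD1 (om : V → List V) (c : Cx) (s : PS) (j : ℕ) (π : PPt) (G1 : List V) : List PB :=
  (tops π.2.2.2.2).flatMap fun r => chk (abT c s j (capN c G1 r.1.1))
    (brD om c s j π (subG c (memG c r.1.2) G1) r.2)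
def ruleD (om : V → List V) (c : Cx) (s : PS) : List PB :=
  [0, 1, 2].flatMap fun j => bif xkP c s j (sX s) then
    ruleD1 om c s j (ptP c s j) (trn c (ptP c s j) (ptP c s j).1 (sG s)) else []
def qcT (c : Cx) (s : PS) (C x : V) : Bool :=
  meq c (mmul c (loP c s x) C) (mmul c C (loP c s x))
def ruleC (om : V → List V) (c : Cx) (s : PS) : List PB :=
  (clP c (sdB c (llP c s) (leP c s (sX s)))).flatMap fun C => tryQ om c s (qcT c s C)
/-- generators of the relation between local models and values -/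
def plS (om : V → List V) (c : Cx) (s : PS) : List (V × V) :=
  (sG s).map (fun g => (loP c s (nrm c g), kpP om c s [] g)) ++
    (s0P om c s).map fun w => (oneP c, w)
def engS (om : V → List V) (c : Cx) (s : PS) : Option (List V × List V × List V) :=
  RN.engF c (llP c s) (leP c s (sX s)) (muP c s) (plS om c s) (spS om c s) (dlP c s (sD s))
/-- representatives inside the group -/
def mvL (c : Cx) (s : PS) (R Z : List V) : List V :=
  (Z.filterMap fun y => (R.map (gmul c y)).find? (memL c s (sG s))).map (liftP c (loP c s) (sG s))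
def brF (om : V → List V) (c : Cx) (s : PS) (Q : List V) (y : List V × Fo) (R Z Z' : List V) :
    PB := ((Q, y.1, y.2), s.2.2.1, prs om c s (mvL c s R Z), prs om c s (mvL c s R Z'))
def brG (om : V → List V) (c : Cx) (s : PS) (Q R Z Z' : List V) : PB :=
  brF om c s Q (coreP c Q (capN c Q (sX s))) R Z Z'
def ruleE (om : V → List V) (c : Cx) (s : PS) : List PB :=
  (engS om c s).toList.map fun e => brG om c s (preP c s (sG s) e.1)
    (bfs c (memL c s (sG s)) (GF.genQ c (llP c s) e.1)) e.2.1 e.2.2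
def rl4 (om : V → List V) (c : Cx) (s : PS) : List PB :=
  ruleA om c s ++ (ruleB om c s ++ (ruleD om c s ++ ruleC om c s))
def brP (om : V → List V) (c : Cx) (s : PS) : PB :=
  (rl4 om c s ++ ruleE om c s).headD (brS om c s [] [] [])
def freS (om : V → List V) (c : Cx) (s : PS) : Option (ℕ × V) :=
  bif (rl4 om c s).isEmpty then
    RN.freP c (llP c s) (leP c s (sX s)) (plS om c s) (spS om c s) else none
def psT (om : V → List V) (c : Cx) (s : PS) (e : ℕ × V) (d x : V) : Bool :=
  isz c (u3 c) (RN.psiP c e (kpP om c s d x))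
/-- the accumulator of a free step -/
def outF (om : V → List V) (c : Cx) (s : PS) (e : ℕ × V) : PO :=
  outC c s (subG c (psT om c s e []) (sG s))
    (prs om c s ((bfs c (psT om c s e []) (sG s)).filter (psT om c s e (sD s)))).head?

/-! ### un-pinning -/

def ungQ (c : Cx) (s : PS) (Q : List V) (F : Fo) (o : PO) (K : List V) (y : List V × Fo) : PO :=
  (o.1, y.1, (0, n1P c s o.1 ++ y.1, Q) :: (up (F ++ o.2.2.1 ++ [(0, K, K)]) ++ y.2), o.2.2.2)
def kkP (c : Cx) (s : PS) (H : List V) : List V :=
  subG c (fun h => mem c (u2 c) (leP c s (sX s)) (loP c s h)) H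
def ungP (c : Cx) (s : PS) (Q : List V) (F : Fo) (o : PO) : PO :=
  ungQ c s Q F o (kkP c s o.1)
    (coreP c o.1 (capN c o.1 (preP c s (sX s) (leP c s (ncl c o.1 o.2.1)))))

/-! ### the machine -/

/-- branching or not, the state, the state of the children, a forest, the calls to come, the
results so far -/
abbrev Fm : Type := Bool × PS × PS × Fo × List (ℕ × V × V) × PO

def todo (x : Fm) : List (ℕ × V × V) := x.2.2.2.2.1
def acc (x : Fm) : PO := x.2.2.2.2.2
def resetP (c : Cx) (s : PS) : PS :=
  ((s.1.1, s.1.2.1, s.1.2.2.1, [0, 1, 2].map fun j =>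
    bif Nat.ble (2 * nbP c (lP c s) (aj c s j)) ((muP c s).getD j 0) then nbP c (lP c s) (aj c s j)
    else (muP c s).getD j 0), s.2)
def kidP (s : PS) (b : PB) : PS :=
  (s.1, (b.1.1, b.1.2.1, sF s ++ b.1.2.2), b.2.1, sV s, [])
def initB (c : Cx) (s : PS) (b : PB) : Fm :=
  (true, s, kidP s b, b.1.2.2,
    (0, oneP c, []) :: (b.2.2.1.map (fun t => (1, t)) ++ b.2.2.2.map fun t => (2, t)),
    ([], [], [], none))
def initF (c : Cx) (s : PS) (o : PO) : Fm :=
  (false, s, s, [], [(dg3 c (aj c s 0) (aj c s 1) (aj c s 2), oneP c, [])], o)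
def init1 (om : V → List V) (c : Cx) (s : PS) : Fm :=
  bif leafT om c s then (false, s, s, [], [], outC c s (leafH om c s) (leafS om c s))
  else (freS om c s).elim (initB c s (brP om c s)) fun e => initF c s (outF om c s e)
def inBx (c : Cx) (s : PS) (i : ℕ) : Bool :=
  [0, 1, 2].all fun j => same (lP c s) (co c j i) (aj c s j)
def boxT (c : Cx) (s k : PS) (i : ℕ) : Bool :=
  inBx c s i && [0, 1, 2].all fun j => (lP c k).getD (co c j i) 0 == co c j i
def init2 (om : V → List V) (c : Cx) (s k : PS) : Fm :=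
  bif [0, 1, 2].any fun j => Nat.blt (nbP c (lP c k) (aj c s j)) (nbP c (lP c s) (aj c s j)) then
    (false, s, k, [], ((ran (u3 c)).filter (boxT c s k)).map fun i => (i, oneP c, []),
      (sG s, sX s, [], some (oneP c, [])))
  else init1 om c (resetP c k)
def refS (s : PS) (x : Lt) : PS := ((x.2.1, x.1, s.1.2.2), s.2)
def init (om : V → List V) (c : Cx) (s : PS) : Fm :=
  init2 om c s (refS s (cfP c (fm c s) (lP c s) (envP c (sG s))))
/-- the entries in the sub-boxes with key below `t` -/
def belP (c : Cx) (s k : PS) (t : ℕ) (w : V) : V :=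
  tab c (u3 c) fun i => bif inBx c s i && Nat.blt (keyP c (lP c k) i) t then w.getD i 0 else 0
def keyB (c : Cx) (k : PS) (b : ℕ) : ℕ :=
  tP c (lP c k) [co c 0 b % mM c, co c 1 b % mM c, co c 2 b % mM c] 0
def subS (c : Cx) (s k : PS) (b : ℕ) (o : PO) : PS :=
  ((k.1.1, k.1.2.1, [co c 0 b, co c 1 b, co c 2 b], s.1.2.2.2), (o.1, o.2.1, sF s ++ o.2.2.1),
    s.2.2.1,
    preim c (u3 c) (u3 c) (sV s) (fun w => belP c s k (keyB c k b) (pull1P c (fm c k) w)) [],
    o.2.2.2.elim [] (tgP c (sD s)))
def tgS (k : PS) (w : V) : PS := (k.1, k.2.1, k.2.2.1, sV k, w)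
def call (c : Cx) (x : Fm) (q : ℕ × V × V) : PS :=
  bif x.1 then tgS x.2.2.1 (bif q.1 == 2 then tgP c (sD x.2.1) q.2 else q.2.2)
  else subS c x.2.1 x.2.2.1 q.1 (acc x)
def nextP (c : Cx) (o r : PO) : PO :=
  (r.1, r.2.1, o.2.2.1 ++ r.2.2.1, o.2.2.2.bind fun g => r.2.2.2.map (pmP c g))
def joinP (c : Cx) (q : ℕ × V × V) (o r : PO) : PO :=
  bif q.1 == 0 then (r.1, r.2.1, r.2.2.1, none) else
  bif q.1 == 1 then (o.1 ++ r.2.2.2.toList.map (fun h => gmul c q.2.1 h.1), o.2) else
    (o.1, o.2.1, o.2.2.1, (o.2.2.2.toList ++ r.2.2.2.toList.map (pmP c q.2)).head?)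
def feed (c : Cx) (x : Fm) (r : PO) : Fm :=
  (x.1, x.2.1, x.2.2.1, x.2.2.2.1, (todo x).tail,
    bif x.1 then joinP c ((todo x).headD (0, [], [])) (acc x) r else nextP c (acc x) r)
def fin (c : Cx) (x : Fm) : PO :=
  bif x.1 then
    (bif tbP c x.2.1 then outC c x.2.1 (acc x).1 (acc x).2.2.2
    else ungP c x.2.1 (sG x.2.2.1) x.2.2.2.1 (acc x))
  else acc x

def clQ (c : Cx) (q : V × V) : V × V := (nrm c q.1, nv c (u3 c) q.2)
def clS (c : Cx) (s : PS) : PS :=
  ((fm c s, lP c s, a3 c s, muP c s), (red c (sG s), red c (sX s), clF c (sF s)),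
    [0, 1, 2].map (fun j => (sP s j).map (clP1 c)), basis c (u3 c) (sV s), nv c (u3 c) (sD s))
def clO (c : Cx) (o : PO) : PO := (red c o.1, red c o.2.1, clF c o.2.2.1, o.2.2.2.map (clQ c))
def clM (c : Cx) (x : Fm) : Fm :=
  (x.1, clS c x.2.1, clS c x.2.2.1, clF c x.2.2.2.1,
    ((todo x).take c.2.2.length).map (fun q => (mn c q.1, clQ c q.2)), clO c (acc x))
def stepM (om : V → List V) (c : Cx) (L : List Fm) : List Fm :=
  L.head?.elim L fun x => (todo x).head?.elim
    (L.tail.head?.elim L fun y => clM c (feed c y (fin c x)) :: L.tail.tail)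
    fun q => clM c (init om c (call c x q)) :: L
def runM (om : V → List V) (c : Cx) (s : PS) : List Fm :=
  c.2.2.foldl (fun L _ => stepM om c L) [clM c (init om c s)]

/-! ### the solver -/

def rootP (c : Cx) (k : ℕ) (G : List V) (y : List V × Fo) (d : V) : PS :=
  ((oneP c, l0P c, [mM c - 1, bif k == 0 then mM c - 1 else cz c, 0], [mM c, mM c, mM c]),
    (G, y.1, y.2), [], units c (u3 c), d)
def startP (c : Cx) (H N : List V) (F : Fo) : List V × Fo :=
  ((coreP c H N).1, F ++ (coreP c H N).2)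
def endP (c : Cx) (F : Fo) (o : PO) : List V × (List V × Fo) × Option (V × V) :=
  (o.1, (red c o.2.1, clF c (F ++ o.2.2.1)), o.2.2.2)
/-- the affine spaces of an oracle for one value -/
def omA (om : V → V) (S0 : List V) (x : V) : List V := (1 :: om x) :: S0.map fun w => 0 :: w
def solveP (om : V → List V) (c : Cx) (k : ℕ) (G : List V) (y : List V × Fo) (d : V) :
    List V × (List V × Fo) × Option (V × V) :=
  endP c y.2 (((runM om c (rootP c k G y d)).map (fin c)).headD ([], [], [], none))

end Pool.Agent.P.MP_f1a348_lc.UP.CU.AF
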