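import Pool.Agent.P.MP_f1a348_lc.AF.Iface
import Pool.Agent.P.MP_f1a348_lc.UP.TAUTC

/-!
Project AF: the elements whose local model lies in the local algebra have small index.
-/

namespace Pool.Agent.P.MP_f1a348_lc.UP.CU.AF

open Matrix Module Pool.Agent.P.MP_f1a348_lc.PG
open scoped commutatorElement

open AUTCz in
theorem s_AUTC (p n : ℕ) [Fact p.Prime] (t : TM p n) : S_AUTC p n := by
  intro s H KK ok sim nt hH hK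
  obtain ⟨c1, c2, -, c4, c5, c6, c7, -⟩ := t.coc s ok
  obtain ⟨a1, a2, -, -, -, a6⟩ := c6 s.X ok.le
  obtain ⟨m1, -, m3, m4⟩ := t.ssm _ a2 (t.cliff s ok sim).1
  have hE : ∀ g ∈ s.G, g.1 ∈ Env s.G := (t.env.1 s.G).2.1
  have hs : Su s.ll s.lam (s.le s.X) := ⟨a1, (t.lc.1 s.ℓ s.lam ok.lab c2).2.2.2.2.2.2.1,
    by rintro _ ⟨y, -, rfl⟩; exact lc_chi (ℓ := s.ℓ) (S := s.lam) (fr s.f y),
    fun β ⟨j, hj⟩ L U i1 i2 i3 i4 => lt_of_le_of_lt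
      (Nat.add_le_add_right (Nat.mul_le_mul_right _ (by decide : 200 ≤ KG)) _)
      (t.gsl s j β ok sim (fun e => nt ⟨j, e⟩) hj L U i1 i2 i3 i4)⟩
  have hmul : ∀ g ∈ s.G, ∀ h ∈ s.G, s.lo (g * h).1 = s.lo g.1 * s.lo h.1 := fun g hg h hh =>
    (c5 _ (hE g hg)).2.2 _ (hE h hh)
  have hinv : ∀ g ∈ s.G, s.lo (g⁻¹).1 = st (s.lo g.1) := fun g hg => (c5 _ (hE g hg)).1
  have hcj : ∀ g ∈ s.G, ∀ x ∈ s.le s.X, cj (s.lo g.1) x ∈ s.le s.X := fun g hg =>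
    a6 g hg (ok.nm g hg)
  refine ⟨fun h hh k hk => ?_, ?_⟩
  · obtain ⟨k1, k2⟩ := (hK k).1 hk
    refine (hK _).2 ⟨mul_mem (mul_mem hh k1) (inv_mem hh), ?_⟩
    show s.lo _ ∈ _
    rw [hmul _ (hH (mul_mem hh k1)) _ (hH (inv_mem hh)), hmul h (hH hh) k (hH k1), hinv h (hH hh)]
    exact hcj h (hH hh) _ k2
  obtain ⟨φ, hφ⟩ : ∃ φ : H →* GG p n, ∀ h, (φ h).1 = s.lo h.1.1 :=
    ⟨MonoidHom.mk' (fun h => ⟨s.lo h.1.1, (c7 h.1 (hH h.2)).1.l0⟩)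
      fun g h => Subtype.ext (hmul g.1 (hH g.2) h.1 (hH h.2)), fun _ => rfl⟩
  obtain ⟨h1, h2⟩ := hs.index t.autq t.homb m1 m3 m4 φ.range
    (by rintro _ ⟨h, rfl⟩ x hx; rw [hφ]; exact hcj _ (hH h.2) x hx)
    (by rintro _ ⟨h, rfl⟩; rw [hφ]; exact LCz.eS_comm hs.clo (LCz.lc_dg ok.lab c2 (fr s.f h.1.1)))
    (by
      rintro _ ⟨h, rfl⟩
      have := lc_chi (ℓ := s.ℓ) (S := s.lam) (fr s.f h.1.1)
      rwa [show lc s.ℓ s.lam (fr s.f h.1.1) = (φ h).1 from (hφ h).symm, (φ h).2.2.2,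
        one_smul] at this)
  rw [← Subgroup.index_comap] at h2
  refine (Subgroup.index_antitone fun h hh => (hK h.1).2 ⟨h.2, ?_⟩).trans h2
  have := h1 _ ⟨h, rfl⟩ hh
  rwa [hφ] at this

end Pool.Agent.P.MP_f1a348_lc.UP.CU.AF
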