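import Pool.Agent.P.MP_f1a348_lc.AF.Iface

namespace Pool.Agent.P.MP_f1a348_lc.UP.CU.AF

open Matrix Module Pool.Agent.P.MP_f1a348_lc.PG
open Pool.Agent.P.MP_f1a348_lc.CE (QS QY UQ EU LTY Geo)
open scoped commutatorElement

namespace KRz

variable {p n : ℕ} [Fact p.Prime]

theorem adj {P : Set (Mat p n × Frm p n)} {z : Mat p n} {v : Frm p n}
    (hv : v ∈ Submodule.span (ZMod p) {u | (1, u) ∈ P}) : ∀ u, GenK P z u → GenK P z (u + v) := by
  induction hv using Submodule.span_induction with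
  | mem x hx => intro u hu; simpa [pull1_one] using GenK.mul hu hx
  | zero => intro u hu; rwa [add_zero]
  | add x y _ _ a b => intro u hu; rw [← add_assoc]; exact b _ (a _ hu)
  | smul c x _ a =>
    rw [← ZMod.natCast_zmod_val c, Nat.cast_smul_eq_nsmul]
    induction c.val with
    | zero => intro u hu; rwa [zero_nsmul, add_zero]
    | succ k ih => intro u hu; rw [succ_nsmul, ← add_assoc]; exact a _ (ih _ hu)

end KRz

theorem s_KR (p n : ℕ) [Fact p.Prime] (t : TM p n) : S_KR p n := by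
  intro s h0 hs res
  obtain ⟨-, -, -, lo1, hlo, hY, hg, kp1, -⟩ := t.coc s h0
  obtain ⟨-, -, -, -, -, hk, -, -, hli, kl⟩ := t.cok s h0
  have hE := (t.env.1 s.G).2.1
  have sub : s.li s.X ⊆ s.li s.G := fun _ ⟨x, hx, e⟩ => ⟨x, h0.le hx, e⟩
  have u1 : ∀ z ∈ s.li s.G, U1 (s.le s.X) z := by
    rintro _ ⟨g, gG, rfl⟩
    exact ⟨res.mem g gG, (hg g gG).1.2.1, (hg g gG).1.2.2⟩
  have sp : ∀ u, s.Kc 1 u ↔ ∃ g ∈ s.N1, s.Kp g u := fun u =>
    ⟨fun ⟨g, gG, e, h⟩ => ⟨g, (hg g gG).2.1.2 e, h⟩,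
      fun ⟨g, gN, h⟩ => ⟨g, gN.1, (hg g gN.1).2.1.1 gN, h⟩⟩
  refine ⟨kl, le_antisymm ((hY s.G le_rfl).2.2.2.2.1 _ res.mem) ((hY s.G le_rfl).2.2.1 _ h0.le),
    ?_, (hli s.G le_rfl).1, u1, ?_, fun h g gG u hu => ?_, fun S P hS hP hSP h1 z w => ?_⟩
  · unfold SpK St.Sp
    congr 1
    exact Set.ext sp
  · obtain ⟨geo, -, nm, -⟩ := t.te.adm s.ll _ (s.li s.X) res.str (fun y hy => u1 y (sub hy))
      (hli s.X h0.le).2
    refine t.te.eng s.ll _ _ _ geo (res.giant.big res.str) ⟨(hli s.G le_rfl).1, fun z hz =>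
      nm z (u1 z hz) ?_, fun z hz => sub ((t.locu s h0 hs).2.2 res.str z hz)⟩
    obtain ⟨g, gG, rfl⟩ := hz
    rintro _ ⟨x, hx, rfl⟩
    refine ⟨g * x * g⁻¹, h0.nm g gG x hx, ?_⟩
    rw [val_mul, (hlo _ (hE _ (mul_mem gG (h0.le hx)))).2.2 _ (hE _ (inv_mem gG)), val_mul,
      (hlo _ (hE g gG)).2.2 _ (hE x (h0.le hx)), val_inv, (hlo _ (hE g gG)).1]
  · exact Submodule.subset_span ((sp u).1 (h _ u ⟨g, gG, rfl, hu⟩))
  · have hSG : ∀ g ∈ S, g ∈ s.G := fun g h => hS ▸ Subgroup.subset_closure h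
    constructor
    · rintro ⟨g, gG, rfl, hw⟩
      have h2 : ∀ g, g ∈ Submonoid.closure S ↔ g ∈ s.G := fun g => by
        rw [← Subgroup.closure_toSubmonoid_of_finite, Subgroup.mem_toSubmonoid, hS]
      have h3 : ∀ g ∈ Submonoid.closure S, ∃ u, s.Kp g u ∧ GenK P (s.lo g.1) u := by
        intro g h
        induction h using Submonoid.closure_induction_right with
        | one => exact ⟨0, kp1, by rw [val_one, lo1]; exact GenK.one⟩
        | mul_right x hx y hy ih =>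
          obtain ⟨u, a, b⟩ := ih
          obtain ⟨v, c, d⟩ := hSP y hy
          refine ⟨_, (hk x ((h2 x).1 hx) u a).2.2.2 y (hSG y hy) v c, ?_⟩
          rw [val_mul, (hlo _ (hE x ((h2 x).1 hx))).2.2 _ (hE y (hSG y hy))]
          exact GenK.mul b d
      obtain ⟨u, a, b⟩ := h3 g ((h2 g).2 gG)
      have := KRz.adj (h1 (((hk g gG u a).2.1 w).1 hw)) u b
      rwa [add_sub_cancel] at this
    · intro h
      induction h with
      | one => exact kl.one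
      | mul _ hy ih => exact kl.mul _ _ _ _ ih (hP _ hy)

theorem s_LIFTJ (p n : ℕ) [Fact p.Prime] (t : TM p n) (hCONJ : S_CONJ p n) : S_LIFTJ p n := by
  intro s H Xi XJ Y h0 hs hH hXi st fu off pre ls
  obtain ⟨-, -, -, -, -, hY, -⟩ := t.coc s h0
  obtain ⟨-, -, -, -, -, -, -, cy, -⟩ := t.cok s h0
  have mono : ∀ {Z Z' : SG p n}, Z ≤ Z' → Env Z ≤ Env Z' := fun h => (t.env.1 _).2.2.1 _ h
  have JX : Ncl H Xi ≤ H ⊓ s.X := by
    refine (Subgroup.closure_le _).2 ?_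
    rintro _ ⟨h, hh, x, hx, rfl⟩
    exact ⟨H.mul_mem (H.mul_mem hh (hXi hx).1) (H.inv_mem hh), h0.nm h ((hH h).1 hh).1 x (hXi hx).2⟩
  have JG : Ncl H Xi ≤ s.G := fun g h => h0.le (JX h).2
  have JJ : Ncl H Xi ≤ H ⊓ XJ := fun g h =>
    ⟨(JX h).1, (pre g).2 ⟨(JX h).2, (hY _ JG).2.2.2.1 g h⟩⟩
  have JS : Ncl H Xi ≤ sSup {W | W ≤ Y ∧ Stable W ∧ Full W} := by
    refine (Subgroup.closure_le _).2 ?_
    rintro _ ⟨h, hh, x, hx, rfl⟩
    have e : ∀ y, y ∈ Xi.comap (MulAut.conj h⁻¹).toMonoidHom ↔ h⁻¹ * y * h ∈ Xi := fun y => by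
      simp [Subgroup.mem_comap]
    obtain ⟨a, b⟩ := hCONJ Xi _ h e st fu
    have c : Xi.comap (MulAut.conj h⁻¹).toMonoidHom ≤ Ncl H Xi := fun y hy =>
      Subgroup.subset_closure ⟨h, hh, _, (e y).1 hy, by group⟩
    exact le_sSup (s := {W | W ≤ Y ∧ Stable W ∧ Full W}) ⟨ls.max _ (c.trans JJ) a, a, b⟩
      ((e _).2 (by rwa [show h⁻¹ * (h * x * h⁻¹) * h = x by group]))
  have XiJ : Xi ≤ Ncl H Xi := fun x hx => Subgroup.subset_closure ⟨1, one_mem _, x, hx, by group⟩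
  have YX : Y ≤ s.X := fun y hy => ((pre y).1 (ls.le hy).2).1
  have YJ : ∀ y ∈ Y, s.lo y.1 ∈ s.le (Ncl H Xi) := fun y hy => ((pre y).1 (ls.le hy).2).2
  obtain ⟨Z, YZ, ZX, Z0, sZ, fZ, hZ⟩ := t.lz s.X Y s.f s.ℓ s.a s.Kp h0.lab
    (fun x hx => h0.tri x (mono h0.le hx)) h0.stable h0.full (cy _ h0.le) YX ls.stable
    (fun y hy => ((hH y).1 (ls.le hy).1).2) (Or.inr fun y hy => by
      obtain ⟨x, hx, e⟩ := YJ y hy
      obtain ⟨z, hz, r⟩ := (t.locst s h0 hs).2.2 (y.1 - x)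
        (sub_mem ((t.env.1 _).2.1 y (YX hy)) (mono (JX.trans inf_le_right) hx))
        (by rw [map_sub, e, sub_self])
      obtain ⟨o1, o2, -⟩ := (t.op (GG p n)).1 (s.X ⊓ s.N1)
      refine ⟨x + z, mono JS (add_mem hx (mono ((off _ o1 o2).trans XiJ) hz)), ?_⟩
      rwa [← sub_sub])
  have ZY : Z ≤ Y := by
    refine ls.max Z (fun z hz => ⟨(hH z).2 ⟨h0.le (ZX hz), Z0 z hz⟩, (pre z).2 ⟨ZX hz, ?_⟩⟩) sZ
    obtain ⟨y, hy, r⟩ := hZ z hz
    have e := (t.cliff s h0 hs).2.1 _ r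
    rw [map_sub, sub_eq_zero] at e
    show s.lo z.1 ∈ _
    rw [e]
    exact (hY Y (YX.trans h0.le)).2.2.2.2.1 _ YJ (Submodule.mem_map_of_mem hy)
  rwa [le_antisymm YZ ZY]

end Pool.Agent.P.MP_f1a348_lc.UP.CU.AF
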