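import Pool.Agent.P.MP_f1a348_lc.AF.PIf

/-!
Project AF: the recursion solves every call, and the machine runs the recursion.
-/

namespace Pool.Agent.P.MP_f1a348_lc.UP.CU.AF

open Matrix Module Pool.Agent.P.MP_f1a348_lc.PG
open scoped commutatorElement

namespace MAINPz

theorem step_call (om : V → List V) (c : Cx) {x : Fm} {q : ℕ × V × V} {L' : List (ℕ × V × V)}
    (h : todo x = q :: L') (L : List Fm) :
    stepM om c (x :: L) = clM c (init om c (call c x q)) :: x :: L := by
  simp [stepM, h]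

theorem step_ret (om : V → List V) (c : Cx) {y : Fm} (h : todo y = []) (x : Fm) (L : List Fm) :
    stepM om c (y :: x :: L) = clM c (feed c x (fin c y)) :: L := by
  simp [stepM, h]

theorem step_end (om : V → List V) (c : Cx) {y : Fm} (h : todo y = []) : stepM om c [y] = [y] := by
  simp [stepM, h]

theorem ev_run {om : V → List V} {c : Cx} {x y : Fm} {k : ℕ} (h : Ev om c x y k) :
    todo y = [] ∧ ∀ L, (stepM om c)^[k] (x :: L) = y :: L := by
  induction h with
  | done h => exact ⟨h, fun _ => rfl⟩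
  | @call x q L' y k z k' h _ _ i1 i2 =>
    refine ⟨i2.1, fun L => ?_⟩
    have e : k + k' + 2 = k' + (1 + (k + 1)) := by omega
    rw [e, Function.iterate_add_apply, Function.iterate_add_apply, Function.iterate_one,
      Function.iterate_succ_apply, step_call om c h, i1.2, step_ret om c i1.1, i2.2]

theorem foldl_iter {α β : Type} (f : α → α) (l : List β) (a : α) :
    l.foldl (fun x _ => f x) a = f^[l.length] a := by
  induction l generalizing a with
  | nil => rfl
  | cons b l ih => simp [ih]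

theorem rho0_le (p n : ℕ) : rho0 p n ≤ rho p n := by
  unfold rho0 rho
  exact Nat.mul_le_mul_right _ (Nat.mul_le_mul_right _ (by norm_num))

theorem rho_pos (p n : ℕ) [Fact p.Prime] : 0 < rho p n := by
  have := (Fact.out : p.Prime).pos
  unfold rho top
  positivity

theorem sz_pos {p n : ℕ} [Fact p.Prime] (s : St p n) : 0 < s.sz :=
  Finset.prod_pos fun _ _ => nb_pos _ _

theorem leaf {p n : ℕ} [Fact p.Prime] (t : TM p n) (hQDEC : S_QDEC p n) (hQFIN : S_QFIN p n)
    [Gl p n] {om : V → List V} {c : Cx} (h : Ok p n om c) {S : St p n} {E EG B u : ℕ}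
    {o : Out p n} {x : Fm} (hp : S.PrE E EG) (hB : S.Bd B)
    (hl : B + rho p n * (6 * ((u + 1) * 5 ^ E) * S.sz) ≤ c.2.2.length)
    (ho : S.Po EG o) (hF : o.F.length ≤ rho0 p n)
    (e : fmD p n x = ⟨false, S, S, [], [], o⟩) : Fin1 om c x S E EG u := by
  have hz := sz_pos S
  have hP : 0 < (u + 1) * 5 ^ E := by positivity
  have h1 : 1 ≤ 6 * ((u + 1) * 5 ^ E) * S.sz := Nat.mul_pos (by omega) hz
  have h2 : rho p n ≤ c.2.2.length :=
    le_trans (le_trans (Nat.le_mul_of_pos_right _ h1) (Nat.le_add_left _ _)) hl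
  have hs : S.Sm c.2.2.length := St.sm_of t.kid hp (hB.mono (le_trans (Nat.le_add_right _ _) hl))
  have hm : (fmD p n x).Sm c.2.2.length := by
    rw [e]
    exact ⟨hs, hs, ⟨Nat.zero_le _, fun r hr => (List.not_mem_nil hr).elim⟩, Nat.zero_le _,
      fun r hr => (List.not_mem_nil hr).elim,
      smF_of t.kid ho.nw.kids (hF.trans ((rho0_le p n).trans h2))⟩
  have e2 : fmD p n (clM c x) = ⟨false, S, S, [], [], o⟩ := ((hQDEC om c h).2.2.1 x hm).trans e
  have ht : todo (clM c x) = [] := by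
    have : (fmD p n (clM c x)).todo = [] := by rw [e2]
    exact List.map_eq_nil_iff.1 this
  have eo : outD p n (fin c (clM c x)) = o := by
    rw [(hQFIN om c _ h).1 (by rw [e2]), e2]
  refine ⟨clM c x, 0, Ev.done ht, eo ▸ ho, ?_, ?_⟩
  · have : 6 * ((u + 1) * 5 ^ E) ≤ 6 * ((u + 1) * 5 ^ E) * S.sz := Nat.le_mul_of_pos_right _ hz
    omega
  · rw [eo]
    simpa using hF.trans (rho0_le p n)

theorem fin1_tr {p n : ℕ} [Fact p.Prime] {om : V → List V} {c : Cx} {x : Fm} {S S1 : St p n}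
    {E EG u : ℕ} (hz : S1.sz = S.sz) (hP : ∀ o, S1.Po EG o → S.Po EG o)
    (h : Fin1 om c x S1 E EG u) : Fin1 om c x S E EG u := by
  obtain ⟨y, k, h1, h2, h3, h4⟩ := h
  exact ⟨y, k, h1, hP _ h2, hz ▸ h3, h4⟩

theorem pad {r B u P z l : ℕ} (hr : 0 < r) (hz : 0 < z) (h : B + r * (6 * ((u + 1) * P) * z) ≤ l) :
    P ≤ l := by
  have h1 : P ≤ (u + 1) * P := Nat.le_mul_of_pos_left _ (Nat.succ_pos u)
  have h2 : 6 * ((u + 1) * P) ≤ 6 * ((u + 1) * P) * z := Nat.le_mul_of_pos_right _ hz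
  have h3 := Nat.le_mul_of_pos_left (6 * ((u + 1) * P) * z) hr
  omega

end MAINPz

open MAINPz in
theorem s_MAINP (p n : ℕ) [Fact p.Prime] (t : TM p n) (q : TQ p n) (hQFIN : S_QFIN p n)
    (hQINIT : S_QINIT p n) (hLOOPS : S_LOOPS p n) (hLOOPB : S_LOOPB p n) (hLOOPF : S_LOOPF p n) :
    S_MAINP p n := by
  intro γ om c h E
  induction E using Nat.strong_induction_on with
  | _ E ihE =>
    intro z
    induction z using Nat.strong_induction_on with
    | _ z ihz =>
      intro u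
      induction u using Nat.strong_induction_on with
      | _ u ihu =>
        intro s EG B hp hz hu hB hl
        subst hz
        rcases hQINIT om c s _ E EG B h rfl hp (pad (rho_pos p n) (sz_pos _) hl) hB with
          ⟨f, ℓ, h1, h2, h3, h4⟩ |
          ⟨S1, p1, s1, z1, g1, b1, tr, ⟨o, h1, h2, h3⟩ | ⟨b, h1, h2⟩ | ⟨o, h1, h2⟩⟩
        · exact hLOOPS om c _ E EG B u f ℓ _ h hp h1 h2 h3 (fun z e => ihz z e u) hu hB hl h4
        · exact fin1_tr z1 tr (leaf t q.dec hQFIN h p1 b1 (z1 ▸ hl) h1 h2 h3)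
        · exact fin1_tr z1 tr (hLOOPB om c S1 E EG B u b _ h p1 s1 h1
            (fun E' e => ihE E' e _ _) (g1 ▸ hu) b1 (z1 ▸ hl) h2)
        · exact fin1_tr z1 tr (hLOOPF om c S1 E EG B u o _ h p1 s1 h1
            (z1 ▸ ihu) (g1 ▸ hu) b1 (z1 ▸ hl) h2)

open MAINPz in
theorem s_MACH : S_MACH := by
  intro om c s y k h hk
  obtain ⟨h1, h2⟩ := ev_run h
  obtain ⟨m, hm⟩ := Nat.exists_eq_add_of_le' hk
  rw [runM, foldl_iter, hm, Function.iterate_add_apply, h2]
  exact Function.iterate_fixed (step_end om c h1) m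

end Pool.Agent.P.MP_f1a348_lc.UP.CU.AF
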