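import Pool.Agent.P.MP_f1a348_lc.AF.Iface

/-!
Project AF: cores, certificates and the first call.
-/

namespace Pool.Agent.P.MP_f1a348_lc.UP.CU.AF

open Matrix Module Pool.Agent.P.MP_f1a348_lc.PG
open Pool.Agent.P.MP_f1a348_lc.CE (QS QY UQ EU LTY Geo)
open scoped commutatorElement

theorem s_NWC2 (p n : ℕ) [Fact p.Prime] (b : TB p n) (hLOCST : S_LOCST p n) : S_NWC p n := by
  intro s H Y F c h0 hs hG hZ hc hf hle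
  obtain ⟨a1, a2, a3, a4, -⟩ := (b.op (GG p n)).1 (s.X ⊓ s.N1)
  obtain ⟨-, -, -, -, -, -, -, -, -, c1, -⟩ := b.coc s h0
  obtain ⟨-, -, -, -, -, -, -, -, -, -, -, s1, s2, s3, -⟩ := b.sol (GG p n)
  have hst := (hLOCST s h0 hs).1
  have b1 := hZ _ a1 a2
  have b2 : Op p (s.X ⊓ s.N1) ≤ H ⊓ s.X := le_inf b1 (a1.trans inf_le_left)
  refine ⟨hc.inv.le, hc.inv.nm, hc.stable, hf,
    fun Z h1 h2 => (a4 Z h1 h2).trans (hc.inv.max _ b2 hst),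
    (b.kid (GG p n)).1 _ _ _ _ _ hc.inv.val hle le_rfl, hc.inv.solv, ?_⟩
  exact hc.inv.near _ _ inf_le_left (s1 _ _ _ (s3 H) (s2 _ _ _ hG c1)).1
    (le_inf b2 (le_inf b1 (a1.trans inf_le_right))) hst fun x hx => a3 x ⟨hx.1.2, hx.2.2⟩

theorem s_UNC2 (p n : ℕ) [Fact p.Prime] (t : TM p n) : S_UNC p n := by
  intro s EG H Y F φ h0 hs hH hφ hc hf
  obtain ⟨-, -, -, -, -, -, -, -, -, -, -, -, c2, -⟩ := t.coc s h0
  exact ⟨hH, hφ, t.nwc s H Y F _ h0 hs (fun g hg => ((hH g).1 hg).1) (fun Z h1 h2 g hg =>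
    (hH g).2 ⟨h0.le (h1 hg).1, c2 Z (h1.trans inf_le_right) h2 g hg⟩) hc hf (Nat.le_add_left _ _)⟩

theorem s_UNT2 (p n : ℕ) [Fact p.Prime] (t : TM p n) (hUNC : S_UNC p n) : S_UNT p n := by
  intro s EG H Y F φ h0 hs ⟨j, hj⟩ hH hφ hc
  have hY : Y ≤ s.X := hc.inv.le.trans inf_le_right
  obtain ⟨-, -, -, -, -, -, -, k8, -⟩ := t.cok s h0
  obtain ⟨Z, z1, z2, z3, z4, z5, -⟩ := t.lz s.X Y s.f s.ℓ s.a s.Kp h0.lab
    (fun x hx => h0.tri x ((t.env.1 s.X).2.2.1 _ h0.le hx)) h0.stable h0.full (k8 _ h0.le) hY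
    hc.stable (fun y hy => ((hH y).1 (hc.inv.le hy).1).2) (Or.inl ⟨j, hY.trans hj⟩)
  have e : Z = Y := le_antisymm
    (hc.inv.max Z (fun z hz => ⟨(hH z).2 ⟨h0.le (z2 hz), z3 z hz⟩, z2 hz⟩) z4) z1
  exact hUNC s EG H Y F φ h0 hs hH hφ hc (e ▸ z5)

theorem s_START2 (p n : ℕ) [Fact p.Prime] (t : TM p n) : S_START p n := by
  intro H N Y R F F' c ν h1 h2 h3 hR e hc hν hν'
  obtain ⟨k1, -, -, -, -, -, k2⟩ := t.kid (GG p n)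
  obtain ⟨-, -, -, -, -, -, s1, -⟩ := t.sol (GG p n)
  exact ⟨hc.inv.le.trans h1, hc.inv.nm, hc.stable,
    t.fcm.2.2 R Y hR (e ▸ (t.core H N h1).2.2 Y F' hc),
    k2 ν _ H H N Y F F' ⟨k1 _ _ _ _ _ h3.1 hν le_rfl, h3.2⟩ le_rfl hν' hc.inv.val
      (s1 _ _ _ _ (inf_le_inf_right _ inf_le_right) le_rfl hc.inv.solv)⟩

namespace NWC2

variable {p n : ℕ} [Fact p.Prime]

theorem wt_le {ℓ : Ix n → ℕ} (h : Lab ℓ) (a : Fin 3 → Ix n) {w : Frm p n}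
    (hw : w ∈ Wt ℓ (key ℓ a)) : w ∈ Lowr ℓ a :=
  fun i _ ⟨j, hj⟩ => hw i fun e => hj.ne ((key_eq_iff h).1 e j)

theorem pha_le (t : TM p n) (μ : Fin 3 → ℕ) {ℓ : Ix n → ℕ} {A : Sub p n} (h : Lab ℓ)
    (hA : Alg ℓ A) : PhA μ ℓ A ≤ 6 * (2 * n + 1) := by
  refine csSup_le' ?_
  rintro _ ⟨ℓ', g, B', h1, h2, rfl⟩
  exact (t.phb μ ℓ' B' ⟨h1.lab, (t.pm.ref ℓ A h hA).2.1 _ _ _ h1, h2⟩).1

end NWC2

open NWC2 in
theorem s_ROOT2 (p n : ℕ) [Fact p.Prime] (t : TM p n) : S_ROOT p n := by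
  intro a H X F K δ ν hc k1 k2 k3 k4 hδ hν
  obtain ⟨e1, e2, -⟩ := t.env.1 ⊤
  have hd : ∀ g : GG p n, Dg (l0 n) g.1 := fun g => e1.dg _ (e2 g trivial)
  have ok : (root a H X F K δ ν).Ok0 :=
    ⟨lab_l0, (t.env.2.2.2.1 _ (t.env.1 H).1).2.2.2, fun g _ w hw => wt_le lab_l0 _
      (pull1_mem_Wt lab_l0 (hd 1) (k3 g w hw)), wt_le lab_l0 _ (pull1_mem_Wt lab_l0 (hd 1) hδ),
      hc.le, hc.nm, hc.stable, hc.full, k1, fun g _ h _ w v => k2 g w h v, fun g => (k4 g).1⟩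
  obtain ⟨c1, -, -, -, -, c2, -⟩ := t.coc _ ok
  have dl : ∀ w ∈ Wt (l0 n) (key (l0 n) a), (root a H X F K δ ν).dl w = w := fun w hw => by
    change cmp (l0 n) (key (l0 n) a) (pull1 1 w) = w
    rw [pull1_one]
    exact mem_Wt_iff.1 hw
  have sol : ∀ x : Pa p n, (root a H X F K δ ν).Sol x ↔ K x.1 x.2 ∧ pull1 x.1.1 δ + x.2 = 0 :=
    fun x => by
    refine ⟨fun h => ⟨h.1.2, ?_⟩, fun h => ⟨⟨(k4 _).2 ⟨_, h.1⟩, h.1⟩, ?_⟩⟩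
    · rw [← dl _ (add_mem (pull1_mem_Wt lab_l0 (hd x.1) hδ) (k3 _ _ h.1.2))]
      exact h.2
    · exact (congrArg (root a H X F K δ ν).dl h.2).trans (map_zero _)
  refine ⟨⟨fun _ => ν, fun _ => tauN p n, ⟨ok, hc.val, fun _ => nb_le _ _,
    fun _ _ e => absurd e nofun, fun _ _ => le_rfl, fun _ e => absurd e (lt_irrefl _), ?_, le_rfl,
    hν⟩, ?_⟩, fun o h => ⟨fun g => ?_, ?_, fun x e => (sol x).1 (h.isS.1 x e),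
      fun e g w hw e' => h.isS.2 e (g, w) ((sol _).2 ⟨hw, e'⟩)⟩⟩
  · have := pha_le t (root a H X F K δ ν).μ c1 (c2 _ le_rfl).1
    refine Nat.mul_le_mul_left _ ?_
    change 200 * PhA _ _ _ + 1200 * ∑ _ : Fin 3, (2 * n + 1) ≤ 4800 * (2 * n + 1)
    rw [Fin.sum_const, smul_eq_mul]
    omega
  · rw [Fin.sum_const, smul_eq_mul, EE]
  · rw [h.isH g]
    exact ⟨fun ⟨_, w, hw, e⟩ => by rwa [(dl w (k3 g w hw)).symm.trans e] at hw,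
      fun e => ⟨(k4 g).2 ⟨_, e⟩, 0, e, map_zero _⟩⟩
  · obtain ⟨-, -, -, -, -, -, k5⟩ := t.kid (GG p n)
    exact ⟨h.nw.le.trans inf_le_left, h.nw.nm, h.nw.stable, h.nw.full,
      k5 ν _ H o.H X o.X F o.F hc.val (fun g hg => ((h.isH g).1 hg).1) hν h.nw.kids h.nw.solv⟩

end Pool.Agent.P.MP_f1a348_lc.UP.CU.AF
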