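import Pool.Agent.P.MP_f1a348_lc.AF.PIf

/-!
Project AF: the functionals of a leaf and the final correction.
-/

namespace Pool.Agent.P.MP_f1a348_lc.UP.CU.AF

open Matrix Module Pool.Agent.P.MP_f1a348_lc.PG
open scoped commutatorElement

set_option linter.unusedSectionVars false

namespace QANNz

variable {p n : ℕ} [Fact p.Prime]

/-- the pairing with `v` -/
noncomputable def bl (v : Frm p n) : Frm p n →ₗ[ZMod p] ZMod p where
  toFun u := u ⬝ᵥ v
  map_add' a b := add_dotProduct a b v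
  map_smul' a b := smul_dotProduct a b v

theorem bl_apply (v u : Frm p n) : bl v u = u ⬝ᵥ v := rfl

theorem cast_dot {c : Cx} (h : UP.Ok p n c) (x y : V) :
    ((dot c x y : ℕ) : ZMod p) = fV p n x ⬝ᵥ fV p n y := by
  rw [dot, cast_sm, h.len3,
    sum_range_top (n := n) fun i => ((x.getD i 0 * y.getD i 0 : ℕ) : ZMod p)]
  simp only [Nat.cast_mul, ← fV_apply]
  rfl

noncomputable def sg : ZMod p →ₗ[ZMod p] Sq p := LinearMap.single (ZMod p) (fun _ => ZMod p) 0

theorem dv_one (a : ℕ) : dv (cf p 1) [a] = sg (a : ZMod p) := by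
  funext i
  rw [dv, cf_apply]
  rcases i with _ | i
  · simp [sg, tv_apply]
  · simp [sg]

theorem sg_zero {a : ZMod p} : sg a = 0 ↔ a = 0 :=
  ⟨fun h => by simpa [sg] using congrFun h 0, fun h => by rw [h, map_zero]⟩

/-- a subspace is cut out by its annihilator -/
theorem sep (W : Submodule (ZMod p) (Frm p n)) (u : Frm p n)
    (h : ∀ y : Frm p n, (∀ w ∈ W, w ⬝ᵥ y = 0) → u ⬝ᵥ y = 0) : u ∈ W := by
  by_contra hu
  obtain ⟨φ, h1, h2⟩ := W.exists_dual_map_eq_bot_of_notMem hu inferInstance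
  have e : ∀ v : Frm p n, v ⬝ᵥ (fun k => φ fun j => if k = j then 1 else 0) = φ v := fun v => by
    rw [LinearMap.pi_apply_eq_sum_univ φ v]
    rfl
  refine h1 ?_
  rw [← e]
  refine h _ fun w hw => ?_
  rw [e]
  exact (Submodule.mem_bot _).1 (h2 ▸ Submodule.mem_map_of_mem hw)

theorem rank_le (W : Submodule (ZMod p) (Frm p n)) : finrank (ZMod p) W ≤ top n := by
  refine W.finrank_le.trans (le_of_eq ?_)
  rw [finrank_fintype_fun_eq_card, Fintype.card_fun, Fintype.card_fin, Fintype.card_fin, top]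
  ring

variable [γ : Gl p n] {om : V → List V} {c : Cx}

theorem ann_bas (h : Ok p n om c) (s : PS) : ∃ W, Bas (frm p n) (u3 c).length (annP om c s) W ∧
    ∀ y, y ∈ W ↔ ∀ w ∈ sp (frm p n) (s0P om c s), w ⬝ᵥ y = 0 := by
  refine ⟨_, preAll_bas h.up.hp (ε := cf p 1) (u := [()]) (dec_cf 1) h.up.d3 _
    (fun w => sg ∘ₗ bl (fV p n w)) (fun t _ x => ?_) [], fun y => ?_⟩
  · rw [dv_one, cast_dot h.up, dotProduct_comm]
    rfl
  · rw [sp_units_top h.up.hp h.up.d3 frm_surj, top_inf_eq, sp_nil]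
    simp only [Submodule.mem_iInf, Submodule.mem_comap, Submodule.mem_bot, LinearMap.comp_apply,
      sg_zero, bl_apply]
    constructor
    · intro k w hw
      have : sp (frm p n) (s0P om c s) ≤ LinearMap.ker (bl y) := sp_le.2 fun x hx => by
        rw [LinearMap.mem_ker, bl_apply, dotProduct_comm]
        exact k x hx
      exact this hw
    · intro k t ht
      rw [dotProduct_comm]
      exact k _ (mem_sp ht)

theorem ann_iff (h : Ok p n om c) (s : PS) (u : Frm p n) :
    u ∈ sp (frm p n) (s0P om c s) ↔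
      ∀ i ∈ ran (u3 c), bl (fV p n ((annP om c s).getD i [])) u = 0 := by
  obtain ⟨W, hB, hW⟩ := ann_bas h s
  constructor
  · intro hu i _
    rcases lt_or_ge i (annP om c s).length with e | e
    · refine (hW _).1 ?_ u hu
      rw [← hB.sp, List.getD_eq_getElem _ _ e]
      exact mem_sp (List.getElem_mem e)
    · rw [List.getD_eq_default _ _ e, fV_nil, bl_apply, dotProduct_zero]
  · intro k
    refine sep _ u fun y hy => ?_
    have e : sp (frm p n) (annP om c s) ≤ LinearMap.ker (bl u) := sp_le.2 fun x hx => by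
      obtain ⟨i, hi, rfl⟩ := List.getElem_of_mem hx
      have := k i (mem_ran.2 (by
        rw [h.up.len3]
        exact hi.trans_le (hB.len.le.trans (rank_le W))))
      rw [List.getD_eq_getElem _ _ hi, bl_apply, dotProduct_comm] at this
      exact this
    have := e (hB.sp ▸ (hW y).2 hy)
    rwa [LinearMap.mem_ker, bl_apply, dotProduct_comm] at this

/-- the linear form of the equation -/
noncomputable def eqn (S : St p n) (g : GG p n) : ZMod p × Frm p n →ₗ[ZMod p] Frm p n :=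
  S.dl ∘ₗ ((LinearMap.fst _ _ _).smulRight (pull1 g.1 S.δ) + LinearMap.snd _ _ _)

theorem eqn_apply (S : St p n) (g : GG p n) (y : ZMod p × Frm p n) :
    eqn S g y = S.dl (y.1 • pull1 g.1 S.δ + y.2) := rfl

theorem mem_sol (h : Ok p n om c) (s : PS) {x : V} (e : ∃ w, (stD p n s).K (gD p n x) w)
    (v : Frm p n) : ((1 : ZMod p), v) ∈ sp (pl (frm p n))
      (preim c (u3 c) (() :: u3 c) (afP om c s x) (fun y => dlP c s
        (axpy c (u3 c) (y.getD 0 0) (pull1P c (nrm c x) (sD s)) y.tail)) []) ↔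
      (stD p n s).K (gD p n x) v ∧ (stD p n s).dl ((stD p n s).tg (gD p n x, v)) = 0 := by
  rw [mem_preim h.up.hp h.up.d3 h.dp3 (eqn (stD p n s) (gD p n x)) (fun y _ => ?_), h.afK s e,
    sp_nil, Submodule.mem_bot, eqn_apply, one_smul]
  · rfl
  · rw [← fV, h.dlP, eqn_apply, fV, dv_axpy h.up.hp h.up.d3, ← fV, ← fV, h.up.pull1P, h.up.nrm,
      dv_tail, dv_pl]
    rfl

end QANNz

theorem s_QANN (p n : ℕ) [Fact p.Prime]  : S_QANN p n := by
  intro γ om c s S h hS h1
  subst hS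
  refine ⟨⟨fun i => QANNz.bl (fV p n ((annP om c s).getD i [])), fun d i x => ?_, fun u => ?_⟩,
    fun x hx e => ⟨fun y hy => ?_, fun hy w hw => ?_⟩⟩
  · rw [crdT, beq_iff_eq, QANNz.bl_apply, ← QANNz.cast_dot h.up, h.up.hp,
      ZMod.natCast_eq_zero_iff, Nat.dvd_iff_mod_eq_zero]
  · rw [← h.s0P s h1]
    exact QANNz.ann_iff h s u
  · rw [solW, Option.map_eq_some_iff] at hy
    obtain ⟨w, hw, rfl⟩ := hy
    have k := (QANNz.mem_sol h s e _).1 (aff_some h.up.hp h.up.d3 hw)
    exact ⟨rfl, ⟨hx, k.1⟩, k.2⟩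
  · rw [solW, Option.map_eq_none_iff] at hy
    have k := (aff_isSome h.up.hp h.up.d3 _).2 ⟨w, (QANNz.mem_sol h s e w).2 ⟨hw.1.2, hw.2⟩⟩
    rw [hy] at k
    exact Bool.false_ne_true k

end Pool.Agent.P.MP_f1a348_lc.UP.CU.AF
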