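import Pool.Agent.P.MP_f1a348_lc.AF.PIf

namespace Pool.Agent.P.MP_f1a348_lc.UP.CU.AF

open Matrix Module Pool.Agent.P.MP_f1a348_lc.PG
open scoped commutatorElement

namespace QINITz

variable {p n : ℕ} [Fact p.Prime]

theorem one (q : TQ p n) (hLEAF : S_LEAF p n) (hQLEAF : S_QLEAF p n) (hQBR : S_QBR p n)
    [γ : Gl p n] {om : V → List V} {c : Cx} {k : PS} {S : St p n} {E EG B : ℕ}
    (h : Ok p n om c) (e : stD p n k = S) (hP : S.PrE E EG) (hE : 5 ^ E ≤ c.2.2.length)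
    (hB : S.Bd B) (hS : S.Sim) (hT : S.Tight) :
    (∃ o, S.Po EG o ∧ o.F.length ≤ rho0 p n ∧
      fmD p n (init1 om c k) = ⟨false, S, S, [], [], o⟩) ∨
    (∃ b, S.GB E EG B b ∧ fmD p n (init1 om c k) = S.frB b) ∨
    ∃ o, S.GF o ∧ fmD p n (init1 om c k) = S.frF o := by
  obtain ⟨-, h1, h2⟩ := hQLEAF om c k S h e hP.ok0
  obtain ⟨-, -, -, -, -, d6, -, d8, -⟩ := q.dec om c h
  unfold init1
  cases hl : leafT om c k with
  | true =>
    obtain ⟨h3, h4⟩ := h2 (h1.1 hl)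
    obtain ⟨Y, F, h5, h6, h7⟩ := q.out om c k S (leafH om c k) (leafS om c k) h e hP.ok0
      fun g hg => ((h3 g).1 hg).1
    refine .inl ⟨_, hLEAF S EG _ Y F _ hP.ok0 hS (h1.1 hl) h3 h4 h5, h6, ?_⟩
    rw [← h7, ← e]
    rfl
  | false =>
    obtain ⟨b1, b2⟩ := hQBR om c k S E EG B h e hP hE hB hS hT
      (fun a => Bool.false_ne_true (hl ▸ h1.2 a))
    rw [cond_false]
    cases hf : freS om c k with
    | none => exact .inr (.inl ⟨_, b1 hf, by rw [Option.elim_none, d6, e]⟩)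
    | some x => exact .inr (.inr ⟨_, b2 x hf, by rw [Option.elim_some, d8, e]⟩)

end QINITz

open QINITz in
theorem s_QINIT (p n : ℕ) [Fact p.Prime] (t : TM p n) (q : TQ p n) (hRESET : S_RESET p n)
    (hONE : S_ONE p n) (hLEAF : S_LEAF p n) (hQLEAF : S_QLEAF p n) (hQBR : S_QBR p n) :
    S_QINIT p n := by
  intro γ om c s S E EG B h hS hP hE hB
  have ok := hP.ok0
  have e1 : sp (mat p n) (envP c (sG s)) = Env S.G := by rw [q.env c _ h.cu, ← hS]; rfl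
  have e2 : lab n (lP c s) = S.ℓ := hS ▸ h.lP s
  obtain ⟨F, hx, hF⟩ := q.cf c (fm c s) (lP c s) (envP c (sG s)) S.f h.cu (hS ▸ h.fm s)
    (e2 ▸ ok.lab) (e1 ▸ (t.env.1 _).1) (by rw [e1, e2]; exact ok.tri)
  obtain ⟨-, -, -, d4, d5, -, d7, -⟩ := q.dec om c h
  unfold init
  generalize cfP c (fm c s) (lP c s) (envP c (sG s)) = x at hx hF ⊢
  rw [e2] at hF
  rw [e1] at hx
  have e3 : stD p n (refS s x) = S.fra F (lab n x.1) := by
    rw [d5, hS, gD_of hx.val, labD_of hF.lab']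
  generalize refS s x = k at e3 ⊢
  have e4 : lab n (lP c k) = lab n x.1 := by rw [h.lP, e3]; rfl
  have hcf := hx.cf
  generalize lab n x.1 = ℓ at hF e3 e4 hcf
  have e5 : ([0, 1, 2].any fun j =>
      Nat.blt (nbP c (lP c k) (aj c s j)) (nbP c (lP c s) (aj c s j))) = true ↔
      ∃ j, nb ℓ (S.a j) < nb S.ℓ (S.a j) := by
    simp only [any3, h.aj, h.up.nbP, Nat.blt_eq, e4, e2, hS]
  unfold init2
  by_cases hb : ∃ j, nb ℓ (S.a j) < nb S.ℓ (S.a j)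
  · refine .inl ⟨F, ℓ, hF, hcf.tri, hb, ?_⟩
    rw [e5.2 hb, cond_true, d7]
    simp only [fmD, todo, acc, List.map_map, outD, Option.map_some, foD_nil, e3, hS, St.frS,
      h.pa_one, Function.comp_def]
    rw [← hS]
    rfl
  · rw [Bool.eq_false_iff.2 (mt e5.1 hb), cond_false]
    push Not at hb
    obtain ⟨cc, τ, hP, hle⟩ := hP
    obtain ⟨o1, o2⟩ := hONE S EG cc τ F ℓ hP hF hcf.tri hb
    obtain ⟨r1, r2, r3, r4⟩ := hRESET (S.fra F ℓ) EG cc τ o1 hcf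
    have hP1 : (S.fra F ℓ).reset.PrE E EG := ⟨cc, τ, r1, hle⟩
    refine .inr ⟨_, hP1, r2, Finset.prod_congr rfl fun j _ => le_antisymm ?_ (hb j), rfl, hB,
      fun o k => o2 o (r4 o k), one q hLEAF hQLEAF hQBR h (by rw [d4, e3]) hP1 hE hB r2 r3⟩
    exact (t.sec.2.2.2.2.1 _ _ _ _ hF).2.2.2.2.2.2.2.1 _

end Pool.Agent.P.MP_f1a348_lc.UP.CU.AF
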