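import Pool.Agent.P.MP_f1a348_lc.AF.Iface

/-! Project AF: the descent along a pointer. -/

namespace Pool.Agent.P.MP_f1a348_lc.UP.CU.AF

open Matrix Module Pool.Agent.P.MP_f1a348_lc.PG
open scoped commutatorElement

namespace RDz

variable {p n : ℕ} [Fact p.Prime]

theorem ptok (t : TM p n) {s : St p n} {EG : ℕ} {c τ : Fin 3 → ℕ} (h : s.Pr EG c τ) {j : Fin 3}
    (hX : s.X ≤ s.ks j) :
    PtrOK (c j) s.G s.X (sL s.f s.ℓ (s.a j)) (sH s.f s.ℓ (s.a j)) (s.pt j) := by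
  cases e : s.ptr j with
  | some π =>
    have : s.pt j = π := by simp [St.pt, e]
    rw [this]
    exact h.ptr j π e
  | none =>
    have : s.pt j = ⟨s.G, sL s.f s.ℓ (s.a j), sH s.f s.ℓ (s.a j), s.F⟩ := by simp [St.pt, e]
    rw [this]
    obtain ⟨-, -, -, -, -, -, -, -, -, -, hs, -⟩ := t.coc s h.toOk0
    obtain ⟨-, -, -, -, hle, -⟩ := t.sol (GG p n)
    refine ⟨(hs j).2, le_rfl, le_rfl, hX, fun g hg => ⟨g, hg, ?_⟩, s.X, ⟨?_, h.val.2⟩, ?_⟩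
    · rw [inv_mul_cancel]; exact one_mem _
    · exact (t.kid (GG p n)).1 _ _ _ _ _ h.val.1 (h.none j e) le_rfl
    · exact hle _ _ (inf_le_right.trans hX)

omit [Fact p.Prime] in
theorem flip {K : SG p n} {a b : GG p n} (h : a⁻¹ * b ∈ K) : b⁻¹ * a ∈ K := by
  simpa using inv_mem h

theorem sum_upd (c τ : Fin 3 → ℕ) (j : Fin 3) (x y : ℕ) (h : y + x ≤ c j) :
    y + ∑ i, (Function.update c j x i + τ i) ≤ ∑ i, (c i + τ i) := by
  fin_cases j <;> simp [Fin.sum_univ_three] at h ⊢ <;> omega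

end RDz

open RDz in
theorem s_RD (p n : ℕ) [Fact p.Prime] (t : TM p n) : S_RD p n := by
  rintro s E EG j ⟨c, τ, h, hE⟩ hX
  have hπ := ptok t h hX
  obtain ⟨hlab, -, -, -, -, hY, -, -, -, -, hs, -⟩ := t.coc s h.toOk0
  obtain ⟨hsec, -, hstb, hnm, -⟩ := t.sec
  obtain ⟨-, -, -, -, hle, hcom, -, -, -, -, -, -, hnmm, -⟩ := t.sol (GG p n)
  obtain ⟨kmono, -, -, ktop, -, ktops, kval⟩ := t.kid (GG p n)
  have hLU : sL s.f s.ℓ (s.a j) ≤ sH s.f s.ℓ (s.a j) := (hsec s.f s.ℓ (s.a j) h.lab).1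
  have hlu : (s.pt j).L ≤ (s.pt j).U := hπ.lo.trans (hLU.trans hπ.hi)
  have hK : Ker (s.pt j).L (s.pt j).U ≤ Stb (s.pt j).L ⊓ Stb (s.pt j).U :=
    le_inf (hstb _ _ _ le_rfl hlu) (hstb _ _ _ hlu le_rfl)
  have hK' : Ker (s.pt j).L (s.pt j).U ≤
      Stb (sL s.f s.ℓ (s.a j)) ⊓ Stb (sH s.f s.ℓ (s.a j)) :=
    le_inf (hstb _ _ _ hπ.lo (hLU.trans hπ.hi)) (hstb _ _ _ (hπ.lo.trans hLU) hπ.hi)
  have hG : s.G ≤ Stb (s.pt j).L ⊓ Stb (s.pt j).U := fun g hg => by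
    obtain ⟨g', h1, h2⟩ := hπ.cov g hg
    simpa using mul_mem (hπ.stb h1) (hK h2)
  have kl := fun A P => t.kl (GG p n) _ _ A P (hnm (s.pt j).L (s.pt j).U)
  refine ⟨hπ.stb, hG, hπ.cov, ?_, fun G1 h1 => ⟨fun g' hg' => ?_, fun r hr => ?_⟩⟩
  · obtain ⟨Q, hQ⟩ := (kl _ _ hπ.stb hG).1
    exact ⟨Q, fun g' => (hQ g').trans (and_congr_right fun _ => exists_congr fun g =>
      and_congr_right fun _ => ⟨flip, flip⟩)⟩
  · obtain ⟨-, g, hg, h2⟩ := (h1 g').1 hg'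
    simpa using mul_mem ((hs j).2 hg) (inv_mem (hK' h2))
  have hG1 : G1 ≤ (s.pt j).G := fun g hg => ((h1 g).1 hg).1
  obtain ⟨N, ⟨hkids, -⟩, -⟩ := hπ.val
  obtain ⟨hN, c0, c', hi, hc, hv⟩ := (ktops _ _ _ (kmono _ _ _ _ _ hkids le_rfl hG1)).2.2 r hr
  have hcj : c j ≤ ∑ i, (c i + τ i) :=
    (Nat.le_add_right _ (τ j)).trans
      (Finset.single_le_sum (f := fun i => c i + τ i) (fun _ _ => Nat.zero_le _) (Finset.mem_univ j))
  have hpE : 5 ^ c0 ≤ 5 ^ E := Nat.pow_le_pow_right (by omega) (by omega)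
  refine ⟨hN, hi.trans hpE, (kl _ _ hG (inf_le_left.trans (hG1.trans hπ.stb))).1,
    fun Q hQ => ?_⟩
  have hidx : Q.relIndex s.G ≤ 5 ^ c0 :=
    ((kl _ _ hG (hG1.trans hπ.stb)).2.2.1 r.1.2 Q (fun a ha => by
      obtain ⟨g', h2, h3⟩ := hπ.cov a ha
      exact ⟨g', (h1 g').2 ⟨h2, a, ha, h3⟩, h3⟩)
      fun a ha g hg h2 => (hQ a).2 ⟨ha, g, hg, h2⟩).trans hi
  refine ⟨hidx.trans hpE, fun R hab hR hlen => ⟨c0 + 1, EG, ?_⟩⟩
  have hQG : Q ≤ s.G := fun g hg => ((hQ g).1 hg).1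
  have hXQ : s.X ≤ Q := fun g hg => (hQ g).2 ⟨h.le hg, 1, one_mem _, by simpa using hπ.triv hg⟩
  have hl : 5 * R.length ≤ 5 ^ (c0 + 1) := by
    rw [pow_succ']
    exact Nat.mul_le_mul_left 5 (hlen.trans hidx)
  have hnQ : Nm Q s.X := hnmm _ _ _ hQG h.nm
  have hsum := sum_upd c τ j c' (c0 + 1) hc
  refine ⟨hQG, fun hT => absurd ⟨j, hX⟩ hT, hR.mem, hR.mem, fun g hg _ => hR.cov g hg,
    fun x hx => hR.cov x.1 hx.1.1, hl, hl, Nat.succ_pos _,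
    ⟨le_inf hXQ le_rfl, hnQ, h.stable, h.full, fun Z hZ _ => hZ.trans inf_le_left, Kids.nil _ _,
      hle _ _ (inf_le_left.trans inf_le_right), by rw [ktop]; exact le_top⟩,
    ⟨by omega, Function.update c j c', τ, ?_, by omega⟩, le_rfl,
    fun hT => absurd ⟨j, hX⟩ hT⟩
  refine ⟨⟨h.lab, fun x hx => h.tri x ((t.env.1 Q).2.2.1 _ hQG hx), fun g hg => h.low g (hQG hg),
    ?_, hXQ, hnQ, h.stable, h.full, h.one, fun g hg k hk => h.mul g (hQG hg) k (hQG hk),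
    fun g hg => h.tot g (hQG hg)⟩,
    kval _ s.ν _ _ _ _ _ _ h.val hQG le_rfl (Kids.nil _ _)
      (hle _ _ (inf_le_left.trans inf_le_right)), h.mu, fun i π e => ?_, fun i e => ?_,
    fun i hi => hQG.trans (h.tau i hi), le_trans ?_ h.pot, h.cap, h.nu⟩
  · show pull1 s.f.1 0 ∈ _
    rw [map_zero]
    exact zero_mem _
  · rcases eq_or_ne i j with rfl | hij
    · have e' : π = ⟨G1 ⊓ r.1.2, (s.pt i).L, (s.pt i).U, r.2⟩ := by
        simpa [St.kid] using e.symm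
      rw [e', Function.update_self]
      exact ⟨inf_le_left.trans (hG1.trans hπ.stb), hπ.lo, hπ.hi, hπ.triv,
        fun g hg => ((hQ g).1 hg).2, r.1.1, hv,
        hcom _ _ fun a ha b hb => hab a ⟨ha.1.1, ha.2⟩ b ⟨hb.1.1, hb.2⟩⟩
    · have e' : s.ptr i = some π := by simpa [St.kid, hij] using e
      have h2 := h.ptr i π e'
      rw [Function.update_of_ne hij]
      exact ⟨h2.stb, h2.lo, h2.hi, h2.triv, fun g hg => h2.cov g (hQG hg), h2.val⟩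
  · rcases eq_or_ne i j with rfl | hij
    · simp [St.kid] at e
    · rw [Function.update_of_ne hij]
      exact h.none i (by simpa [St.kid, hij] using e)
  · have := t.phm s.μ s.ll (s.le s.G) (s.le Q) hlab (hY _ le_rfl).1 (hY _ hQG).1
      ((hY _ le_rfl).2.2.1 _ hQG)
    exact Nat.mul_le_mul_left _ (Nat.add_le_add_right (Nat.mul_le_mul_left 200 this) _)

end Pool.Agent.P.MP_f1a348_lc.UP.CU.AF
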