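import Pool.Agent.P.MP_f1a348_lc.AF.PIf
import Pool.Agent.P.MP_f1a348_lc.AF.PTime
import Pool.Agent.P.MP_f1a348_lc.PS.PIf

/-!
Project AF: the affine recursion is a solver in the sense of the project PS.
-/

namespace Pool.Agent.P.MP_f1a348_lc.UP.CU.AF

open Pool.Agent.Lib.Helper47 Pool.Agent.P.MP_f1a348_lc.PG

/-- the context with a positive dimension -/
def cx1 (c : Cx) : Cx := (c.1, () :: c.2.1.tail, c.2.2)

def aff0 : PS.Aff :=
  ⟨startP, fun c k om G S0 w d => solveP (omA om S0) (cx1 c) k G w d⟩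

/-- the budget of the certificates -/
def nu0 (p n c0 : ℕ) : ℕ := c0 + capW p n + cT p n

def crt : PS.Crt := fun p n c0 _ G w j => ∀ [Fact p.Prime],
  Cert (nu0 p n c0) G (gS p n w.1) (foD p n w.2) ∧ w.2.length ≤ j * bet p n (nu0 p n c0)

theorem cx1_eq {c : Cx} {n : ℕ} (h : mM c = 2 * n + 1) : cx1 c = c := by
  obtain ⟨a, b, d⟩ := c
  cases b with
  | nil => exact absurd h (Nat.succ_ne_zero _).symm
  | cons x b => rfl

theorem bet_ge (p n ν : ℕ) [Fact p.Prime] : 1 ≤ bet p n ν ∧ rho0 p n ≤ bet p n ν := by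
  have h1 : 0 < top n := by unfold top; positivity
  have h2 := (Fact.out : p.Prime).pos
  have h3 : rho p n ≤ bet p n ν := Nat.le_mul_of_pos_right _ (by positivity)
  have h4 : 0 < p * top n := Nat.mul_pos h2 h1
  simp only [rho, rho0, mul_assoc] at h3 ⊢
  omega

theorem bet_le (p n c0 : ℕ) [Fact p.Prime] :
    bet p n (nu0 p n c0) ≤ (p ^ (2 * n + 1) * 2 ^ c0) ^ 1200000 := by
  have h2 := (Fact.out : p.Prime).two_le
  have hs := size_pos' p
  have e1 : EE p n (nu0 p n c0) ≤ 3 * c0 + Nat.size p * (199302 * (2 * n + 1)) := by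
    have : 1 ≤ Nat.size p * (2 * n + 1) := Nat.mul_pos hs (Nat.succ_pos _)
    simp only [EE, nu0, capW, cT, tauN, capE, cT0, gam, KG]
    nlinarith
  unfold bet rho top
  generalize EE p n (nu0 p n c0) = E at e1 ⊢
  obtain ⟨M, hM, hM0⟩ : ∃ M, 2 * n + 1 = M ∧ 1 ≤ M := ⟨_, rfl, by omega⟩
  rw [hM] at e1 ⊢
  obtain ⟨x, hx⟩ : ∃ x, p ^ M = x := ⟨_, rfl⟩
  obtain ⟨y, hy⟩ : ∃ y, 2 ^ c0 = y := ⟨_, rfl⟩
  have hy1 : 1 ≤ y := hy ▸ Nat.one_le_two_pow
  have a1 : p ≤ x := hx ▸ Nat.le_self_pow (by omega) _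
  have a2 : M ≤ x := hx ▸ (Nat.lt_pow_self h2).le
  have a3 : Nat.size p ≤ x := (Nat.size_le.2 Nat.lt_two_pow_self).trans a1
  have a4 : 2 ≤ x := h2.trans a1
  have a5 : 5 ^ E ≤ y ^ 7 * x ^ 1195812 :=
    calc 5 ^ E ≤ 5 ^ (3 * c0) * 5 ^ (Nat.size p * (199302 * M)) := by
          rw [← pow_add]; exact Nat.pow_le_pow_right (by norm_num) e1
      _ ≤ (2 ^ 7) ^ c0 * p ^ (6 * (199302 * M)) :=
          Nat.mul_le_mul (by rw [pow_mul]; exact Nat.pow_le_pow_left (by norm_num) _)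
            (five_pow_le' p _)
      _ = _ := by
          rw [← hx, ← hy, ← pow_mul, ← pow_mul, ← pow_mul, mul_comm 7 c0, ← mul_assoc,
            mul_comm _ M, show 6 * 199302 = 1195812 from rfl]
  have a6 : Nat.size p * (M * M) + 1 ≤ x ^ 4 := by
    have b1 : Nat.size p * (M * M) ≤ x * (x * x) := by gcongr
    have b2 : 0 < x * (x * x) := by positivity
    calc _ ≤ 2 * (x * (x * x)) := by omega
      _ ≤ x * (x * (x * x)) := by gcongr
      _ = _ := by ring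
  have a7 : 10 ≤ x ^ 4 := le_trans (by norm_num) (Nat.pow_le_pow_left a4 4)
  have a8 : 6 ≤ x ^ 4 := le_trans (by norm_num) a7
  have a9 : 19 + 1195812 ≤ 1200000 ∧ 7 ≤ 1200000 := by omega
  rw [hx, hy]
  generalize 1195812 = k at a5 a9
  generalize 1200000 = K at a9 ⊢
  calc _ ≤ x ^ 4 * x * (x * x * x) * (x ^ 4 * (x ^ 4 * (y ^ 7 * x ^ k)) * (x * x * x)) := by
        gcongr
    _ = x ^ (19 + k) * y ^ 7 := by ring
    _ ≤ _ := by
      rw [mul_pow]
      exact Nat.mul_le_mul (Nat.pow_le_pow_right (by omega) a9.1) (Nat.pow_le_pow_right hy1 a9.2)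

section
variable {p n c0 m : ℕ} [Fact p.Prime] {c : Cx}

omit [Fact p.Prime] in
theorem ok_of (h : PS.Cok (1000 * KG) p n c0 m c) : CU.Ok p n c := by
  refine CU.Ok.of h.hp h.hM (le_trans ?_ h.pad)
  rw [bud2, gam, ← mul_assoc, mul_comm _ (2 * n + 1), pow_mul, mul_assoc]
  exact Nat.pow_le_pow_left (Nat.le_mul_of_pos_right _ (by positivity)) _

theorem pad_of (h : PS.Cok (1000 * KG) p n c0 m c) :
    m * bet p n (nu0 p n c0) ≤ c.2.2.length := by
  refine le_trans ?_ h.pad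
  have h1 : 1200000 ≤ 1000 * KG := by unfold KG; omega
  have h2 := (Fact.out : p.Prime).pos
  have h3 := bet_le p n c0
  have h4 : 1000 * KG ≠ 0 := by omega
  generalize 1000 * KG = C at h1 h4
  generalize 1200000 = D at h1 h3
  rw [mul_pow _ (m + 1), mul_comm m]
  exact Nat.mul_le_mul (h3.trans (Nat.pow_le_pow_right (by positivity) h1))
    ((Nat.le_succ m).trans (Nat.le_self_pow h4 _))

theorem orc_of {k : ℕ} {K : GG p n → Frm p n → Prop} {om : V → V} {G S0 : List V}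
    (h : PS.Pairs p n k K om G S0) (x : V) (w : Frm p n) (hw : K (gD p n x) w) (v : Frm p n) :
    K (gD p n x) v ↔ ((1 : ZMod p), v) ∈ sp (pl (frm p n)) (omA om S0 x) := by
  have h0 := h.om x w hw
  rw [omA, mem_sp_aff, one_smul]
  constructor
  · intro hv
    obtain ⟨u, hu⟩ := (h.img _).1 (inv_mem ((h.img _).2 ⟨w, hw⟩))
    have a1 := h.mul _ _ _ _ hu hv
    have a2 := h.mul _ _ _ _ hu h0
    rw [inv_mul_cancel, h.ker] at a1 a2
    simpa using sub_mem a1 a2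
  · intro hv
    have a1 := h.mul _ _ _ _ h0 ((h.ker _).2 hv)
    rw [mul_one] at a1
    have e : pull1 (1 : GG p n).1 (fV p n (om x)) = fV p n (om x) := pull1_one _
    rwa [e, add_sub_cancel] at a1

end

theorem aff_ok (h1 : ∀ (p n : ℕ) [Fact p.Prime], S_QSTART p n)
    (h2 : ∀ (p n : ℕ) [Fact p.Prime], S_QSOLVE p n) :
    aff0.Ok (fun _ => True) 5 (1000 * KG) crt := by
  refine ⟨by unfold KG; omega, ?_, ?_⟩
  · intro p n c0 m _ c H N F R _ hc a1 a2 a3 _ a5 a6 _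
    obtain ⟨b1, b2⟩ := h1 p n c H N F R c0 (nu0 p n c0) (ok_of hc) a1 a2 a3 a5 a6
      (by unfold nu0; omega) (by unfold nu0; omega)
    obtain ⟨b3, b4⟩ := bet_ge p n (nu0 p n c0)
    refine ⟨b1, b2.trans ?_⟩
    rw [Nat.succ_mul]
    exact Nat.add_le_add (Nat.le_mul_of_pos_right _ b3) b4
  · intro p n c0 m _ c k j K om G S0 w δ _ hc hj a1 a2 a3
    obtain ⟨a4, a5⟩ := a1
    have b0 : w.2.length + bet p n (nu0 p n c0) ≤ (j + 1) * bet p n (nu0 p n c0) := by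
      rw [Nat.succ_mul]; exact Nat.add_le_add_right a5 _
    obtain ⟨b1, b2, b3, b4, b5⟩ := @h2 p n _ ⟨K, nu0 p n c0⟩ (omA om S0) c k G w δ (PS.box n k)
      (@Ok.mk p n ⟨K, nu0 p n c0⟩ _ _ (ok_of hc) (orc_of a2)) rfl a2.one a2.mul a2.wt a2.img a3 a4
      (by show _ ≤ nu0 p n c0; unfold nu0; omega)
      (b0.trans ((Nat.mul_le_mul_right _ hj).trans (pad_of hc)))
    have e : aff0.solve c k om G S0 w δ = solveP (omA om S0) c k G w δ := by
      show solveP _ (cx1 c) _ _ _ _ = _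
      rw [cx1_eq hc.hM]
    rw [e]
    exact ⟨b1, ⟨b2, b3.trans b0⟩, b4, b5⟩

theorem pt_cx1 {α : Type} [Enc α] {c : α → Cx} (h : PT c) : PT fun a => cx1 (c a) := by
  unfold cx1; fun_prop

theorem aff_pt : aff0.Pt := by
  refine ⟨?_, ?_, ?_⟩
  · exact pt_startP (by fun_prop) (by fun_prop) (by fun_prop) (by fun_prop)
  · intro α _ c k om G S0 w δ h1 h2 h3 h4 h5 h6 h7
    exact pt_solveP (om := fun a => omA (om a) (S0 a))
      (pt_omA (om := fun q : α × V => om q.1) (by fun_prop) (by fun_prop) (by fun_prop))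
      (pt_cx1 h1) h2 h4 h6 h7 fun _ => Nat.succ_pos _
  · obtain ⟨f, hf⟩ := ((ps_bR (pt_cx1 PT.id)).add (ps_bF (pt_cx1 PT.id))).add (PB.const 1)
    exact ⟨f, fun c k om G S0 w δ => (size_solveP _ _ _ _ _ _).trans (hf c)⟩

end Pool.Agent.P.MP_f1a348_lc.UP.CU.AF
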